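import Pool.Agent.Lib.MP_19d06a_co.AT.UNZ

/-!
# Progressions in a fixed group
-/

set_option autoImplicit false

namespace Pool.Agent.VCNil.AT

namespace CLSaux

open UNZaux ONEaux

/-- A family of points and shifts gives a shattered set. -/
lemma le_vcDim_of {G : Type} [Group G] (P : Set G) (d : ℕ) (pt : Fin d → G)
    (g : Finset (Fin d) → G) (h : ∀ i A, (g A)⁻¹ * pt i ∈ P ↔ i ∈ A) :
    (d : ℕ∞) ≤ vcDim (leftTranslates P) := by
  classical
  have hinj : Function.Injective pt := by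
    intro i j hij
    have h1 := (h i {i}).2 (Finset.mem_singleton_self i)
    rw [hij] at h1
    exact (Finset.mem_singleton.1 ((h j {i}).1 h1)).symm
  have hcard : (Finset.univ.image pt).card = d := by
    rw [Finset.card_image_of_injective _ hinj]
    simp
  have hsh : Shatters (leftTranslates P) (Finset.univ.image pt) := by
    intro B hB
    refine ⟨_, ⟨g (Finset.univ.filter fun i => pt i ∈ B), rfl⟩, ?_⟩
    have key : ∀ i, pt i ∈ (fun y : G => g (Finset.univ.filter fun i => pt i ∈ B) * y) '' P ↔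
        pt i ∈ B := by
      intro i
      rw [mem_leftTranslate, h]
      simp
    ext x
    constructor
    · rintro ⟨hx1, hx2⟩
      obtain ⟨i, -, rfl⟩ := Finset.mem_image.1 (Finset.mem_coe.1 hx2)
      exact (key i).1 hx1
    · intro hx
      have hx2 := hB hx
      obtain ⟨i, -, rfl⟩ := Finset.mem_image.1 (Finset.mem_coe.1 hx2)
      exact ⟨(key i).2 hx, hx2⟩
  have h1 := le_vcDim hsh
  rwa [hcard] at h1

open Multiplicative in
/-- The configuration in the integers, for every rank at least `4`. -/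
theorem config_ge (k : ℕ) (hk : 4 ≤ k) (d : ℕ) :
    ∃ (a : Fin k → Multiplicative ℤ) (N : Fin k → ℕ) (pt : Fin d → Multiplicative ℤ)
      (g : Finset (Fin d) → Multiplicative ℤ),
      ∀ (i : Fin d) (A : Finset (Fin d)), ((g A)⁻¹ * pt i ∈ genProg a N ↔ i ∈ A) := by
  obtain ⟨j, rfl⟩ := Nat.exists_eq_add_of_le hk
  obtain ⟨c, N, pt, g, h⟩ := config d
  refine ⟨Fin.append (fun j => (ofAdd (c j) : Multiplicative ℤ)) (fun _ : Fin j => 1),
    Fin.append (fun _ => N) (fun _ : Fin j => 0), fun i => ofAdd (pt i), fun A => ofAdd (g A), ?_⟩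
  intro i A
  rw [genProg_append, ← h i A, ← ofAdd_neg, ← ofAdd_add, neg_add_eq_sub]

open Multiplicative in
/-- The elements of a progression in the integers are bounded. -/
lemma bounded_int {k : ℕ} (a : Fin k → Multiplicative ℤ) (N : Fin k → ℕ) :
    ∃ T : ℕ, ∀ v ∈ genProg a N, (toAdd v).natAbs ≤ T := by
  refine ⟨∑ i, N i * (toAdd (a i)).natAbs, ?_⟩
  intro v hv
  rw [mem_genProg_iff] at hv
  obtain ⟨n, hn, rfl⟩ := hv
  have h1 : toAdd (∏ i, a i ^ n i) = ∑ i, n i * toAdd (a i) := by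
    rw [toAdd_prod]
    refine Finset.sum_congr rfl fun i _ => ?_
    rw [toAdd_zpow, smul_eq_mul]
  rw [h1]
  refine (Int.natAbs_sum_le _ _).trans (Finset.sum_le_sum fun i _ => ?_)
  rw [Int.natAbs_mul]
  exact Nat.mul_le_mul_right _ (hn i)

open Multiplicative in
/-- The configuration in a group with an element of infinite or large order. -/
theorem large_order (k : ℕ) (hk : 4 ≤ k) (d : ℕ) :
    ∃ T : ℕ, ∀ (G : Type) [Group G] (x : G), (orderOf x = 0 ∨ T < orderOf x) →
      ∃ (a : Fin k → G) (N : Fin k → ℕ), (d : ℕ∞) ≤ vcDim (leftTranslates (genProg a N)) := by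
  obtain ⟨a, N, pt, g, h⟩ := config_ge k hk d
  obtain ⟨T1, hT1⟩ := bounded_int a N
  obtain ⟨T2, hT2⟩ : ∃ T2 : ℕ, ∀ (i : Fin d) (A : Finset (Fin d)),
      (toAdd ((g A)⁻¹ * pt i)).natAbs ≤ T2 :=
    ⟨∑ r : Fin d × Finset (Fin d), (toAdd ((g r.2)⁻¹ * pt r.1)).natAbs, fun i A =>
      Finset.single_le_sum (f := fun r : Fin d × Finset (Fin d) =>
        (toAdd ((g r.2)⁻¹ * pt r.1)).natAbs) (fun _ _ => Nat.zero_le _)
        (Finset.mem_univ (i, A))⟩
  refine ⟨T1 + T2, fun G _ x hx => ⟨fun i => zpowersHom G x (a i), N,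
    le_vcDim_of _ d (fun i => zpowersHom G x (pt i)) (fun A => zpowersHom G x (g A)) ?_⟩⟩
  intro i A
  rw [← map_inv, ← map_mul, ← h i A]
  constructor
  · rintro ⟨w, hw, he⟩
    rw [← map_wordVal, zpowersHom_apply, zpowersHom_apply,
      ← orderOf_dvd_sub_iff_zpow_eq_zpow] at he
    refine ⟨w, hw, ?_⟩
    have b1 := hT1 (wordVal a w) ⟨w, hw, rfl⟩
    have b2 := hT2 i A
    have h0 : toAdd (wordVal a w) - toAdd ((g A)⁻¹ * pt i) = 0 := by
      rcases hx with hx | hx
      · rw [hx] at he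
        simpa using he
      · refine Int.eq_zero_of_abs_lt_dvd he ?_
        rw [abs_lt]
        constructor <;> omega
    exact toAdd.injective (sub_eq_zero.1 h0)
  · rintro ⟨w, hw, he⟩
    exact ⟨w, hw, by rw [← map_wordVal, he]⟩

/-- The orders of the elements of a group of infinite exponent are not bounded. -/
lemma exists_order {G : Type} [Group G] (hG : ¬ ∃ e : ℕ, 0 < e ∧ ∀ x : G, x ^ e = 1) (T : ℕ) :
    ∃ x : G, orderOf x = 0 ∨ T < orderOf x := by
  by_contra hcon
  push Not at hcon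
  refine hG ⟨T.factorial, Nat.factorial_pos T, fun x => ?_⟩
  obtain ⟨h1, h2⟩ := hcon x
  rw [← orderOf_dvd_iff_pow_eq_one]
  exact Nat.dvd_factorial (Nat.pos_of_ne_zero h1) h2

/-- Rank at least `4` in groups of infinite exponent. -/
theorem unbounded (k : ℕ) (hk : 4 ≤ k) (G : Type) [Group G]
    (hG : ¬ ∃ e : ℕ, 0 < e ∧ ∀ x : G, x ^ e = 1) (d : ℕ) :
    ∃ (a : Fin k → G) (N : Fin k → ℕ), (d : ℕ∞) ≤ vcDim (leftTranslates (genProg a N)) := by
  obtain ⟨T, hT⟩ := large_order k hk d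
  obtain ⟨x, hx⟩ := exists_order hG T
  exact hT G x hx

/-- In an abelian group of exponent dividing `e` the VC-dimension is at most `e ^ k`. -/
theorem of_exponent {G : Type} [CommGroup G] (e : ℕ) (he : 0 < e) (hG : ∀ x : G, x ^ e = 1)
    {k : ℕ} (a : Fin k → G) (N : Fin k → ℕ) :
    vcDim (leftTranslates (genProg a N)) ≤ ((e ^ k : ℕ) : ℕ∞) := by
  classical
  refine iSup₂_le fun Y hY => ?_
  obtain ⟨T, ⟨g, rfl⟩, hT⟩ := hY Y subset_rfl
  have hez : (0 : ℤ) < e := by exact_mod_cast he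
  have hpow : ∀ (x : G) (n : ℤ), x ^ n = x ^ ((n % e).toNat) := by
    intro x n
    have h1 : x ^ n = x ^ (n % (e : ℤ) + e * (n / e)) := by
      rw [Int.emod_add_mul_ediv]
    rw [h1, zpow_add, zpow_mul, zpow_natCast, hG, one_zpow, mul_one, ← zpow_natCast,
      Int.toNat_of_nonneg (Int.emod_nonneg _ hez.ne')]
  let F : Finset G := (Finset.univ : Finset (Fin k → Fin e)).image
    (fun m => ∏ i, a i ^ (m i : ℕ))
  have hF : F.card ≤ e ^ k := by
    refine Finset.card_image_le.trans ?_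
    simp
  have hsub : Y.image (fun y => g⁻¹ * y) ⊆ F := by
    intro x hx
    obtain ⟨y, hy, rfl⟩ := Finset.mem_image.1 hx
    have h1 : y ∈ ((fun x : G => g * x) '' genProg a N) ∩ (Y : Set G) := by
      rw [hT]
      exact hy
    have h2 := (mem_leftTranslate _ _ _).1 h1.1
    rw [mem_genProg_iff] at h2
    obtain ⟨n, -, hn⟩ := h2
    refine Finset.mem_image.2 ⟨fun i => ⟨(n i % e).toNat, ?_⟩, Finset.mem_univ _, ?_⟩
    · have h3 := Int.emod_lt_of_pos (n i) hez
      have h4 := Int.emod_nonneg (n i) hez.ne'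
      omega
    · rw [← hn]
      refine Finset.prod_congr rfl fun i _ => ?_
      rw [hpow (a i) (n i)]
  have h5 : Y.card ≤ e ^ k := by
    rw [← Finset.card_image_of_injective Y (mul_right_injective g⁻¹)]
    exact (Finset.card_le_card hsub).trans hF
  exact_mod_cast h5

/-- The ranks with bounded VC-dimension in a fixed abelian group. -/
theorem classification
    (h50 : ∀ (k : ℕ) (G : Type) [CommGroup G] (a : Fin k → G) (N : Fin k → ℕ), k ≤ 3 →
      vcDim (leftTranslates (genProg a N)) ≤ 50)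
    (G : Type) [CommGroup G] (k : ℕ) :
    (∃ C : ℕ, ∀ (a : Fin k → G) (N : Fin k → ℕ),
      vcDim (leftTranslates (genProg a N)) ≤ (C : ℕ∞)) ↔
        (k ≤ 3 ∨ ∃ e : ℕ, 0 < e ∧ ∀ x : G, x ^ e = 1) := by
  constructor
  · rintro ⟨C, hC⟩
    by_contra hcon
    push Not at hcon
    obtain ⟨hk, hG⟩ := hcon
    obtain ⟨a, N, h⟩ := unbounded k hk G (by
      rintro ⟨e, he, hx⟩
      obtain ⟨x, hx'⟩ := hG e he
      exact hx' (hx x)) (C + 1)
    have h2 : ((C + 1 : ℕ) : ℕ∞) ≤ (C : ℕ∞) := le_trans h (hC a N)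
    have h3 : C + 1 ≤ C := by exact_mod_cast h2
    omega
  · rintro (hk | ⟨e, he, hG⟩)
    · exact ⟨50, fun a N => h50 k G a N hk⟩
    · exact ⟨e ^ k, fun a N => of_exponent e he hG a N⟩

end CLSaux

end Pool.Agent.VCNil.AT
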