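import Pool.Agent.Lib.MP_19d06a_co.AT.SpecB

/-!
# Module CMB: Boolean combinations of families with few traces
-/

set_option autoImplicit false

namespace Pool.Agent.VCNil.AT

theorem specCMB : SpecCMB := by
  classical
  intro X ι L _ D F E Φ hE hF Y
  let T : L → Finset (Set X) := fun l => (finite_traces (E l) Y).toFinset
  have hT : ∀ l, (T l).card ≤ (Y.card + 1) ^ D := by
    intro l
    show ((finite_traces (E l) Y).toFinset).card ≤ _
    rw [← Set.ncard_eq_toFinset_card _ (finite_traces (E l) Y)]
    exact hE l Y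
  let Ψ : (L → Set X) → Set X := fun t => {x | x ∈ (Y : Set X) ∧ Φ fun l => x ∈ t l}
  have hsub : (Set.range fun i => F i ∩ (Y : Set X)) ⊆
      (((Fintype.piFinset T).image Ψ : Finset (Set X)) : Set (Set X)) := by
    rintro _ ⟨i, rfl⟩
    refine Finset.mem_coe.2 (Finset.mem_image.2 ⟨fun l => E l i ∩ (Y : Set X), ?_, ?_⟩)
    · refine Fintype.mem_piFinset.2 fun l => ?_
      exact (Set.Finite.mem_toFinset _).2 ⟨i, rfl⟩
    · ext x
      constructor
      · rintro ⟨hx, hΦ⟩
        refine ⟨(hF i x).2 ?_, hx⟩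
        have e : (fun l => x ∈ E l i ∩ (Y : Set X)) = fun l => x ∈ E l i := by
          funext l
          exact propext ⟨fun h => h.1, fun h => ⟨h, hx⟩⟩
        rw [← e]
        exact hΦ
      · rintro ⟨hΦ, hx⟩
        refine ⟨hx, ?_⟩
        have e : (fun l => x ∈ E l i ∩ (Y : Set X)) = fun l => x ∈ E l i := by
          funext l
          exact propext ⟨fun h => h.1, fun h => ⟨h, hx⟩⟩
        show Φ fun l => x ∈ E l i ∩ (Y : Set X)
        rw [e]
        exact (hF i x).1 hΦ
  calc (Set.range fun i => F i ∩ (Y : Set X)).ncard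
      ≤ (((Fintype.piFinset T).image Ψ : Finset (Set X)) : Set (Set X)).ncard :=
        Set.ncard_le_ncard hsub (Finset.finite_toSet _)
    _ = ((Fintype.piFinset T).image Ψ).card := Set.ncard_coe_finset _
    _ ≤ (Fintype.piFinset T).card := Finset.card_image_le
    _ = ∏ l, (T l).card := Fintype.card_piFinset T
    _ ≤ ∏ _l : L, (Y.card + 1) ^ D := Finset.prod_le_prod' fun l _ => hT l
    _ = (Y.card + 1) ^ (Fintype.card L * D) := by
        rw [Finset.prod_const, Finset.card_univ, ← pow_mul, mul_comm]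

end Pool.Agent.VCNil.AT
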