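import Pool.Agent.Lib.MP_19d06a_co.AT.SpecB

/-!
# COV: the last coordinate takes all residues
-/

set_option autoImplicit false

namespace Pool.Agent.VCNil.AT

namespace COVaux

lemma sign (x : ℤ) : ∃ e : Bool, sg e * x = |x| := by
  rcases le_total 0 x with h | h
  · exact ⟨true, by simp [sg, abs_of_nonneg h]⟩
  · exact ⟨false, by simp [sg, abs_of_nonpos h]⟩

lemma sg_sq (e : Bool) : sg e * sg e = 1 := by
  cases e <;> simp [sg]

lemma par (N : ℕ) (X : ℤ) (hX : X ≤ N) :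
    ∃ i : Bool, X ≤ (N : ℤ) - bt i ∧ (2 : ℤ) ∣ (N : ℤ) - bt i - X ∧ (N : ℤ) - 1 ≤ (N : ℤ) - bt i := by
  by_cases h : (2 : ℤ) ∣ (N : ℤ) - X
  · exact ⟨false, by simp [bt, hX], by simpa [bt] using h, by simp [bt]⟩
  · refine ⟨true, ?_, ?_, ?_⟩
    · simp only [bt, if_true]
      omega
    · simp only [bt, if_true]
      omega
    · simp [bt]

end COVaux

open COVaux

theorem specCOV (hDSC : SpecDSC) : SpecCOV := by
  intro N1 N2 M h1 h2 hM h12 x y z hx hy
  obtain ⟨e, he⟩ := sign x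
  obtain ⟨f, hf⟩ := sign y
  obtain ⟨i, hi1, hi2, hi3⟩ := par N1 |x| hx
  obtain ⟨j, hj1, hj2, hj3⟩ := par N2 |y| hy
  have hX := abs_nonneg x
  have hY := abs_nonneg y
  have h1' : (48 : ℤ) ≤ N1 := by exact_mod_cast h1
  have h2' : (48 : ℤ) ≤ N2 := by exact_mod_cast h2
  have hM' : (1 : ℤ) ≤ M := by exact_mod_cast hM
  have h12' : 12 * (M : ℤ) ≤ N1 * N2 := by exact_mod_cast h12
  generalize hX0 : |x| = X at *
  generalize hY0 : |y| = Y at *
  generalize hn1 : (N1 : ℤ) - bt i = n1 at *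
  generalize hn2 : (N2 : ℤ) - bt j = n2 at *
  have hmul : (N1 : ℤ) * N2 ≤ (2 * n1) * (2 * n2) :=
    mul_le_mul (by linarith) (by linarith) (by linarith) (by linarith)
  have hlen : 4 * (M : ℤ) ≤ (n1 + X) * (n2 + Y) + (n1 * n2 + n2 * X + n1 * Y - 3 * X * Y) := by
    have hXY : X * Y ≤ X * n2 := mul_le_mul_of_nonneg_left hj1 hX
    have hXY2 : X * Y ≤ n1 * Y := mul_le_mul_of_nonneg_right hi1 hY
    nlinarith
  have hs : (sg e * sg f) * (sg e * sg f) = 1 := by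
    have := sg_sq e
    have := sg_sq f
    calc (sg e * sg f) * (sg e * sg f) = (sg e * sg e) * (sg f * sg f) := by ring
      _ = 1 := by rw [sg_sq, sg_sq]; norm_num
  generalize hse : sg e * sg f = s at *
  have h4M : (0 : ℤ) < 4 * M := by linarith
  have hd1 := Int.mul_ediv_self_le (x := (n1 + X) * (n2 + Y) - 4 * (s * z)) (k := 4 * (M : ℤ)) h4M.ne'
  have hd2 := Int.lt_mul_ediv_self_add (x := (n1 + X) * (n2 + Y) - 4 * (s * z)) (k := 4 * (M : ℤ)) h4M
  generalize ((n1 + X) * (n2 + Y) - 4 * (s * z)) / (4 * (M : ℤ)) = k at *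
  refine ⟨s * k, (hDSC N1 N2 x y _).2 ⟨e, f, i, j, ?_⟩⟩
  rw [hse, he, hf, hn1, hn2]
  have hZ : s * (z + M * (s * k)) = s * z + M * k := by
    calc s * (z + M * (s * k)) = s * z + (s * s) * (M * k) := by ring
      _ = s * z + M * k := by rw [hs]; ring
  rw [hZ]
  refine ⟨hX, hi1, hi2, hY, hj1, hj2, ?_, ?_⟩
  · linarith
  · linarith

end Pool.Agent.VCNil.AT
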