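import Pool.Agent.Lib.MP_19d06a_co.AT.SpecB

/-!
# DSC (MP_19d06a_co): description of the progression of the Heisenberg group
-/

set_option autoImplicit false

namespace Pool.Agent.VCNil.AT

open TWTaux

namespace DSCaux

/-- first coordinate of a letter -/
def lx (l : Fin 2 × Bool) : ℤ := if l.1 = 0 then sg l.2 else 0

/-- second coordinate of a letter -/
def lv (l : Fin 2 × Bool) : ℤ := if l.1 = 0 then 0 else sg l.2

lemma letter (l : Fin 2 × Bool) : (if l.2 then gE l.1 else (gE l.1)⁻¹) = ⟨lx l, lv l, 0⟩ := by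
  rcases l with ⟨i, e⟩
  have hi : i = 0 ∨ i = 1 := by omega
  rcases hi with rfl | rfl <;> cases e <;> ext <;> simp [gE, lx, lv, sg]

lemma val_cons (l : Fin 2 × Bool) (w : List (Fin 2 × Bool)) :
    wordVal gE (l :: w) = ⟨lx l, lv l, 0⟩ * wordVal gE w := by
  rw [← letter]
  simp [wordVal]

/-- the letter with the signs changed -/
def fl (e f : Bool) (l : Fin 2 × Bool) : Fin 2 × Bool :=
  (l.1, if l.1 = 0 then (l.2 == e) else (l.2 == f))

lemma lx_fl (e f : Bool) (l : Fin 2 × Bool) : lx (fl e f l) = sg e * lx l := by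
  rcases l with ⟨i, b⟩
  have hi : i = 0 ∨ i = 1 := by omega
  rcases hi with rfl | rfl <;> cases e <;> cases b <;> simp [fl, lx, sg]

lemma lv_fl (e f : Bool) (l : Fin 2 × Bool) : lv (fl e f l) = sg f * lv l := by
  rcases l with ⟨i, b⟩
  have hi : i = 0 ∨ i = 1 := by omega
  rcases hi with rfl | rfl <;> cases f <;> cases b <;> simp [fl, lv, sg]

lemma val_fl (e f : Bool) (w : List (Fin 2 × Bool)) :
    wordVal gE (w.map (fl e f)) = ⟨sg e * (wordVal gE w).x, sg f * (wordVal gE w).v0,
      sg e * sg f * (wordVal gE w).v1⟩ := by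
  induction w with
  | nil => simp [wordVal]; rfl
  | cons l w ih =>
    rw [List.map_cons, val_cons, val_cons, ih, lx_fl, lv_fl]
    ext
    · simp; ring
    · simp; ring
    · simp; ring

lemma count_fl (e f : Bool) (w : List (Fin 2 × Bool)) (i : Fin 2) :
    (w.map (fl e f)).countP (fun l => decide (l.1 = i)) = w.countP (fun l => decide (l.1 = i)) := by
  rw [List.countP_map]
  rfl

lemma count_split (w : List (Fin 2 × Bool)) (i : Fin 2) :
    w.countP (fun l => decide (l.1 = i)) = ct i true w + ct i false w := by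
  induction w with
  | nil => rfl
  | cons l w ih =>
    unfold ct at *
    rw [List.countP_cons, List.countP_cons, List.countP_cons, ih]
    rcases l with ⟨j, b⟩
    by_cases h : j = i
    · subst h
      cases b <;> simp <;> omega
    · simp [h]

lemma sg_sq (e : Bool) : sg e * sg e = 1 := by cases e <;> rfl

/-- a power of a letter -/
lemma val_rep (l : Fin 2 × Bool) (n : ℕ) (w : List (Fin 2 × Bool)) :
    wordVal gE (List.replicate n l ++ w) = ⟨n * lx l, n * lv l, 0⟩ * wordVal gE w := by
  have hz : lx l * lv l = 0 := by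
    unfold lx lv
    by_cases h : l.1 = 0 <;> simp [h]
  induction n with
  | zero => ext <;> simp
  | succ n ih =>
    rw [List.replicate_succ, List.cons_append, val_cons, ih]
    ext
    · simp; ring
    · simp; ring
    · simp
      have e1 : lx l * (n * lv l) = 0 := by
        calc lx l * (n * lv l) = n * (lx l * lv l) := by ring
          _ = 0 := by rw [hz, mul_zero]
      linear_combination e1

/-- existence of a word, positive quadrant -/
lemma word_of_ineqs (hIVT : SpecIVT) (P P' Q Q' : ℕ) (z : ℤ) (h1 : z ≤ P * Q)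
    (h2 : -((P : ℤ) * Q' + P' * Q - P' * Q') ≤ z) :
    ∃ w : List (Fin 2 × Bool), w.countP (fun l => decide (l.1 = 0)) = P + P' ∧
      w.countP (fun l => decide (l.1 = 1)) = Q + Q' ∧
      wordVal gE w = ⟨(P : ℤ) - P', (Q : ℤ) - Q', z⟩ := by
  set wA : List (Fin 2 × Bool) := List.replicate Q' (1, false) ++ (List.replicate P (0, true) ++
    (List.replicate Q (1, true) ++ (List.replicate P' (0, false) ++ []))) with hwA
  set wB : List (Fin 2 × Bool) := List.replicate P' (0, false) ++ (List.replicate Q (1, true) ++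
    (List.replicate P (0, true) ++ (List.replicate Q' (1, false) ++ []))) with hwB
  have hperm : wB.Perm wA := by
    rw [List.perm_iff_count]
    intro a
    simp only [hwA, hwB, List.count_append]
    ring
  have vA : wordVal gE wA = ⟨(P : ℤ) - P', (Q : ℤ) - Q', P * Q⟩ := by
    rw [hwA, val_rep, val_rep, val_rep, val_rep]
    ext
    · simp [wordVal, lx, lv, sg]; ring
    · simp [wordVal, lx, lv, sg]; ring
    · simp [wordVal, lx, lv, sg]
  have vB : wordVal gE wB = ⟨(P : ℤ) - P', (Q : ℤ) - Q', -((P : ℤ) * Q' + P' * Q - P' * Q')⟩ := by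
    rw [hwB, val_rep, val_rep, val_rep, val_rep]
    ext
    · simp [wordVal, lx, lv, sg]; ring
    · simp [wordVal, lx, lv, sg]; ring
    · simp [wordVal, lx, lv, sg]; ring
  obtain ⟨w, hw, hv⟩ := hIVT wB wA hperm z (by rw [vB]; exact h2) (by rw [vA]; exact h1)
  refine ⟨w, ?_, ?_, ?_⟩
  · rw [hw.countP_eq, hwB]
    simp [List.countP_append, List.countP_replicate]
    omega
  · rw [hw.countP_eq, hwB]
    simp [List.countP_append, List.countP_replicate]
  · have hxv : ∀ {u v : List (Fin 2 × Bool)}, u.Perm v →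
        (wordVal gE u).x = (wordVal gE v).x ∧ (wordVal gE u).v0 = (wordVal gE v).v0 := by
      intro u v h
      induction h with
      | nil => exact ⟨rfl, rfl⟩
      | cons l _ ih =>
        rw [val_cons, val_cons]
        simp [ih.1, ih.2]
      | swap a b w =>
        rw [val_cons, val_cons, val_cons, val_cons]
        constructor
        · simp; ring
        · simp; ring
      | trans _ _ ih1 ih2 => exact ⟨ih1.1.trans ih2.1, ih1.2.trans ih2.2⟩
    have h3 := hxv hw
    rw [vB] at h3
    ext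
    · exact h3.1
    · exact h3.2
    · exact hv

/-- the inequalities for the positive quadrant -/
lemma ineqs {n m n1 n2 X Y P P' Q Q' Z : ℤ} (hP : P + P' = n) (hQ : Q + Q' = m) (hX : P - P' = X)
    (hY : Q - Q' = Y) (hP' : 0 ≤ P') (hQ' : 0 ≤ Q') (hX0 : 0 ≤ X) (hY0 : 0 ≤ Y) (hn : n ≤ n1)
    (hm : m ≤ n2) (h1 : Z ≤ P * Q) (h2 : -Z ≤ P * Q' + P' * Q - P' * Q')
    (hd1 : (2 : ℤ) ∣ n1 - X) (hd2 : (2 : ℤ) ∣ n2 - Y) : QQ n1 n2 X Y Z := by
  refine ⟨hX0, by omega, hd1, hY0, by omega, hd2, ?_, ?_⟩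
  · have e1 : 4 * (P * Q) = (n + X) * (m + Y) := by
      rw [← hP, ← hQ, ← hX, ← hY]; ring
    have e2 : (n + X) * (m + Y) ≤ (n1 + X) * (n2 + Y) :=
      mul_le_mul (by omega) (by omega) (by omega) (by omega)
    linarith
  · have e1 : 4 * (P * Q' + P' * Q - P' * Q') = n * m + n * Y + m * X - 3 * X * Y := by
      rw [← hP, ← hQ, ← hX, ← hY]; ring
    have e2 : (n + X) * (m + Y) ≤ (n1 + X) * (n2 + Y) :=
      mul_le_mul (by omega) (by omega) (by omega) (by omega)
    have e3 : n * m + n * Y + m * X - 3 * X * Y = (n + X) * (m + Y) - 4 * (X * Y) := by ring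
    have e4 : n1 * n2 + n2 * X + n1 * Y - 3 * X * Y = (n1 + X) * (n2 + Y) - 4 * (X * Y) := by ring
    rw [e4]
    linarith

lemma par (N : ℕ) (n X : ℤ) (hn : n ≤ N) (h : (2 : ℤ) ∣ n - X) :
    ∃ i : Bool, n ≤ N - bt i ∧ (2 : ℤ) ∣ (N - bt i) - X := by
  by_cases hN : (2 : ℤ) ∣ N - X
  · exact ⟨false, by simpa [bt] using hn, by simpa [bt] using hN⟩
  · refine ⟨true, ?_, ?_⟩
    · simp only [bt, if_true]; omega
    · simp only [bt, if_true]; omega

end DSCaux

open DSCaux in
theorem specDSC (hUPB : SpecUPB) (hIVT : SpecIVT) : SpecDSC := by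
  intro N1 N2 x y z
  constructor
  · rintro ⟨w, hw, hv⟩
    obtain ⟨u1, u2, u3, u4⟩ := hUPB w
    rw [hv] at u1 u2 u3 u4
    simp only at u1 u2 u3 u4
    have c0 : w.countP (fun l => decide (l.1 = 0)) ≤ N1 := hw 0
    have c1 : w.countP (fun l => decide (l.1 = 1)) ≤ N2 := hw 1
    rw [count_split] at c0 c1
    set p : ℤ := (ct 0 true w : ℤ) with hp
    set p' : ℤ := (ct 0 false w : ℤ) with hp'
    set q : ℤ := (ct 1 true w : ℤ) with hq
    set q' : ℤ := (ct 1 false w : ℤ) with hq'
    have p0 : 0 ≤ p := Int.natCast_nonneg _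
    have p'0 : 0 ≤ p' := Int.natCast_nonneg _
    have q0 : 0 ≤ q := Int.natCast_nonneg _
    have q'0 : 0 ≤ q' := Int.natCast_nonneg _
    have c0' : p + p' ≤ N1 := by omega
    have c1' : q + q' ≤ N2 := by omega
    rcases le_total p' p with hpp | hpp <;> rcases le_total q' q with hqq | hqq
    · rw [min_eq_right hpp, min_eq_right hqq] at u3 u4
      obtain ⟨i, hi1, hi2⟩ := par N1 (p + p') x c0' (by omega)
      obtain ⟨j, hj1, hj2⟩ := par N2 (q + q') y c1' (by omega)
      refine ⟨true, true, i, j, ?_⟩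
      simp only [sg, if_true, one_mul]
      exact ineqs (P := p) (P' := p') (Q := q) (Q' := q') rfl rfl (by omega) (by omega) p'0 q'0
        (by omega) (by omega) hi1 hj1 (by linarith) (by linarith) hi2 hj2
    · rw [min_eq_right hpp, min_eq_left hqq] at u3 u4
      obtain ⟨i, hi1, hi2⟩ := par N1 (p + p') x c0' (by omega)
      obtain ⟨j, hj1, hj2⟩ := par N2 (q + q') (-y) c1' (by omega)
      refine ⟨true, false, i, j, ?_⟩
      have e : QQ (N1 - bt i) (N2 - bt j) x (-y) (-z) :=
        ineqs (P := p) (P' := p') (Q := q') (Q' := q) rfl (by omega) (by omega) (by omega) p'0 q0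
          (by omega) (by omega) hi1 hj1 (by linarith) (by linarith) hi2 hj2
      simpa [sg] using e
    · rw [min_eq_left hpp, min_eq_right hqq] at u3 u4
      obtain ⟨i, hi1, hi2⟩ := par N1 (p + p') (-x) c0' (by omega)
      obtain ⟨j, hj1, hj2⟩ := par N2 (q + q') y c1' (by omega)
      refine ⟨false, true, i, j, ?_⟩
      have e : QQ (N1 - bt i) (N2 - bt j) (-x) y (-z) :=
        ineqs (P := p') (P' := p) (Q := q) (Q' := q') (by omega) rfl (by omega) (by omega) p0 q'0
          (by omega) (by omega) hi1 hj1 (by linarith) (by linarith) hi2 hj2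
      simpa [sg] using e
    · rw [min_eq_left hpp, min_eq_left hqq] at u3 u4
      obtain ⟨i, hi1, hi2⟩ := par N1 (p + p') (-x) c0' (by omega)
      obtain ⟨j, hj1, hj2⟩ := par N2 (q + q') (-y) c1' (by omega)
      refine ⟨false, false, i, j, ?_⟩
      have e : QQ (N1 - bt i) (N2 - bt j) (-x) (-y) z :=
        ineqs (P := p') (P' := p) (Q := q') (Q' := q) (by omega) (by omega) (by omega) (by omega) p0
          q0 (by omega) (by omega) hi1 hj1 (by linarith) (by linarith) hi2 hj2
      simpa [sg] using e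
  · rintro ⟨e, f, i, j, h1, h2, h3, h4, h5, h6, h7, h8⟩
    set X := sg e * x with hX
    set Y := sg f * y with hY
    set Z := sg e * sg f * z with hZ
    set n1 : ℤ := N1 - bt i with hn1
    set n2 : ℤ := N2 - bt j with hn2
    obtain ⟨a, ha⟩ := h3
    obtain ⟨b, hb⟩ := h6
    have ha0 : 0 ≤ a := by omega
    have hb0 : 0 ≤ b := by omega
    -- n1 - X = 2 a, n2 - Y = 2 b
    obtain ⟨P', hP'⟩ := Int.eq_ofNat_of_zero_le ha0
    obtain ⟨Q', hQ'⟩ := Int.eq_ofNat_of_zero_le hb0
    obtain ⟨P, hP⟩ := Int.eq_ofNat_of_zero_le (show 0 ≤ a + X by omega)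
    obtain ⟨Q, hQ⟩ := Int.eq_ofNat_of_zero_le (show 0 ≤ b + Y by omega)
    have eX : X = (P : ℤ) - P' := by omega
    have eY : Y = (Q : ℤ) - Q' := by omega
    have e1 : n1 = (P : ℤ) + P' := by omega
    have e2 : n2 = (Q : ℤ) + Q' := by omega
    have z1 : Z ≤ P * Q := by
      have : (n1 + X) * (n2 + Y) = 4 * ((P : ℤ) * Q) := by rw [e1, e2, eX, eY]; ring
      rw [this] at h7
      omega
    have z2 : -((P : ℤ) * Q' + P' * Q - P' * Q') ≤ Z := by
      have : n1 * n2 + n2 * X + n1 * Y - 3 * X * Y =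
          4 * ((P : ℤ) * Q' + P' * Q - P' * Q') := by rw [e1, e2, eX, eY]; ring
      rw [this] at h8
      omega
    obtain ⟨w, w0, w1, wv⟩ := word_of_ineqs hIVT P P' Q Q' Z z1 z2
    have hbi : 0 ≤ bt i := by cases i <;> simp [bt]
    have hbj : 0 ≤ bt j := by cases j <;> simp [bt]
    refine ⟨w.map (fl e f), ?_, ?_⟩
    · intro k
      rw [count_fl]
      have hk : k = 0 ∨ k = 1 := by omega
      rcases hk with rfl | rfl
      · rw [w0]
        show P + P' ≤ N1
        omega
      · rw [w1]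
        show Q + Q' ≤ N2
        omega
    · rw [val_fl, wv]
      ext
      · show sg e * ((P : ℤ) - P') = x
        rw [← eX, hX, ← mul_assoc, sg_sq, one_mul]
      · show sg f * ((Q : ℤ) - Q') = y
        rw [← eY, hY, ← mul_assoc, sg_sq, one_mul]
      · show sg e * sg f * Z = z
        rw [hZ]
        calc sg e * sg f * (sg e * sg f * z) = (sg e * sg e) * (sg f * sg f) * z := by ring
          _ = z := by rw [sg_sq, sg_sq, one_mul, one_mul]

end Pool.Agent.VCNil.AT
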