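import Pool.Agent.Lib.MP_19d06a_co.AT.Spec

set_option autoImplicit false

namespace Pool.Agent.VCNil.AT

namespace EVTaux

theorem flip_insert_true {g : Fin 3 → Bool} {a : Fin 3} {E : Finset (Fin 3)} (hg : g a = true) :
    flip g (insert a E) = insert a (flip g E) := by
  ext b
  simp only [flip, Finset.mem_filter, Finset.mem_univ, true_and, Finset.mem_insert]
  by_cases hb : b = a
  · subst hb
    simp [hg]
  · simp [hb]

theorem flip_insert_false {g : Fin 3 → Bool} {a : Fin 3} {E : Finset (Fin 3)} (hg : g a = false)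
    (ha : a ∉ E) : flip g E = insert a (flip g (insert a E)) := by
  ext b
  simp only [flip, Finset.mem_filter, Finset.mem_univ, true_and, Finset.mem_insert]
  by_cases hb : b = a
  · subst hb
    simp [hg, ha]
  · simp [hb]

theorem In_mono {s : V3} {S F : Finset (Fin 3)} {q p : V3} {a : Fin 3} (h : In s S F q p) :
    In s S (insert a F) q p := by
  intro b hb
  obtain ⟨h1, h2, h3⟩ := h b hb
  refine ⟨fun _ => ?_, fun hb' => h2 fun h => hb' (Finset.mem_insert_of_mem h), h3⟩
  by_cases hF : b ∈ F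
  · exact h1 hF
  · exact (h2 hF).le

theorem In_eq {s : V3} {S F : Finset (Fin 3)} {q p : V3} {a : Fin 3} (ha : a ∈ S)
    (h : In s S (insert a F) q p) (h' : ¬ In s S F q p) : p a = q a := by
  have h1 := (h a ha).1 (Finset.mem_insert_self a F)
  by_contra hne
  have h2 : q a < p a := lt_of_le_of_ne h1 (Ne.symm hne)
  apply h'
  intro b hb
  obtain ⟨k1, k2, k3⟩ := h b hb
  by_cases hba : b = a
  · subst hba
    exact ⟨fun _ => h1, fun _ => h2, k3⟩
  · refine ⟨fun hF => k1 (Finset.mem_insert_of_mem hF), fun hF => k2 fun h => ?_, k3⟩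
    rcases Finset.mem_insert.1 h with h | h
    · exact hba h
    · exact hF h

theorem cls_eq {d : ℕ} {z : V3} {a : Fin 3} {i t s : ℤ} (hd : 0 < d) (hi0 : 0 ≤ i)
    (hi : i < d) (ht : t % (2 * (d : ℤ)) = i) (hs : s % (2 * (d : ℤ)) = d)
    (h : (if gain d z a then t else -t) = if gain d z a then z a else -(z a + s)) :
    i = cls d z a := by
  have hd' : (0 : ℤ) < d := by exact_mod_cast hd
  unfold cls
  by_cases hg : z a % (2 * (d : ℤ)) < d
  · have hg' : gain d z a = true := by
      unfold gain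
      exact decide_eq_true hg
    rw [hg'] at h
    simp only [if_true] at h
    rw [if_pos hg, ← h, ht]
  · have hg' : gain d z a = false := by
      unfold gain
      exact decide_eq_false hg
    rw [hg'] at h
    simp only [Bool.false_eq_true, if_false, neg_inj] at h
    rw [if_neg hg]
    push Not at hg
    have h1 : t % (2 * (d : ℤ)) = (z a % (2 * (d : ℤ)) + s % (2 * (d : ℤ))) % (2 * (d : ℤ)) := by
      rw [h, Int.add_emod]
    rw [ht, hs] at h1
    have h2 : z a % (2 * (d : ℤ)) < 2 * (d : ℤ) := Int.emod_lt_of_pos _ (by linarith)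
    have h3 : (z a % (2 * (d : ℤ)) + d) % (2 * (d : ℤ)) = z a % (2 * (d : ℤ)) + d - 2 * d := by
      rw [← Int.sub_emod_right]
      exact Int.emod_eq_of_lt (by linarith) (by linarith)
    rw [h3] at h1
    linarith

end EVTaux

open EVTaux in
theorem specEVT (hORI : SpecORI) : SpecEVT := by
  intro d Q S z I hV
  have hd : 0 < d := by
    rcases Nat.eq_zero_or_pos d with h | h
    · exfalso
      have h1 := Q.smod 0
      have h2 := Q.hs 0
      subst h
      simp at h1
      omega
    · exact h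
  haveI : Nonempty (Fin d) := ⟨⟨0, hd⟩⟩
  have key : ∀ a, a ∈ S → ∃ (E' : Finset (Fin 3)) (p : V3) (i : Fin d),
      ((i : ℕ) : ℤ) = cls d z a ∧
      p - ori (gain d z) (Q.x i) ∈ Q.Λ.map (ori (gain d z)) ∧ a ∉ E' ∧
      (∀ v ∈ Q.Λ.map (ori (gain d z)), ¬ In Q.s S E' (low Q.s (gain d z) z)
        (ori (gain d z) (Q.x i) + v)) ∧
      In Q.s S (insert a E') (low Q.s (gain d z) z) p := by
    intro a ha
    obtain ⟨E, hES, haE, hE⟩ := hV.2 a ha
    -- a class in exactly one of the two patterns
    have hne : patt Q S (pos z E) ≠ patt Q S (pos z (insert a E)) := fun h => hE (by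
      simp only
      rw [h])
    obtain ⟨i, hi⟩ : ∃ i, ¬ (i ∈ patt Q S (pos z E) ↔ i ∈ patt Q S (pos z (insert a E))) := by
      by_contra hcon
      push Not at hcon
      exact hne (Set.ext fun i => hcon i)
    have hi' : ¬ ((∃ v ∈ Q.Λ, In Q.s S (flip (gain d z) E) (low Q.s (gain d z) z)
          (ori (gain d z) (Q.x i + v))) ↔
        ∃ v ∈ Q.Λ, In Q.s S (flip (gain d z) (insert a E)) (low Q.s (gain d z) z)
          (ori (gain d z) (Q.x i + v))) := by
      rw [← hORI d Q S E z i, ← hORI d Q S (insert a E) z i]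
      exact hi
    -- the two sets of directions
    obtain ⟨E', haE', hx⟩ : ∃ E' : Finset (Fin 3), a ∉ E' ∧
        ¬ ((∃ v ∈ Q.Λ, In Q.s S (insert a E') (low Q.s (gain d z) z)
          (ori (gain d z) (Q.x i + v))) ↔
        ∃ v ∈ Q.Λ, In Q.s S E' (low Q.s (gain d z) z) (ori (gain d z) (Q.x i + v))) := by
      cases hg : gain d z a with
      | true =>
        refine ⟨flip (gain d z) E, ?_, ?_⟩
        · simp [flip, hg, haE]
        · rw [flip_insert_true hg] at hi'
          exact fun h => hi' h.symm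
      | false =>
        refine ⟨flip (gain d z) (insert a E), ?_, ?_⟩
        · simp [flip, hg]
        · rw [← flip_insert_false hg haE]
          exact hi'
    have hmono : (∃ v ∈ Q.Λ, In Q.s S E' (low Q.s (gain d z) z) (ori (gain d z) (Q.x i + v))) →
        ∃ v ∈ Q.Λ, In Q.s S (insert a E') (low Q.s (gain d z) z)
          (ori (gain d z) (Q.x i + v)) := fun ⟨v, hv, h⟩ => ⟨v, hv, In_mono h⟩
    have hno : ¬ ∃ v ∈ Q.Λ, In Q.s S E' (low Q.s (gain d z) z)
        (ori (gain d z) (Q.x i + v)) := fun h => hx ⟨fun _ => h, fun _ => hmono h⟩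
    have hyes : ∃ v ∈ Q.Λ, In Q.s S (insert a E') (low Q.s (gain d z) z)
        (ori (gain d z) (Q.x i + v)) := by
      by_contra hcon
      exact hx ⟨fun h => absurd h hcon, fun h => absurd h hno⟩
    obtain ⟨v, hv, hin⟩ := hyes
    refine ⟨E', ori (gain d z) (Q.x i + v), i, ?_, ?_, haE', ?_, hin⟩
    · have h1 := In_eq ha hin fun h => hno ⟨v, hv, h⟩
      refine cls_eq (t := Q.x i a + v a) (s := Q.s a) hd (by positivity)
        (by exact_mod_cast i.2) ?_ (Q.smod a) h1
      have h2 := Q.div v hv a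
      rw [Int.add_emod, Int.emod_eq_zero_of_dvd h2, add_zero, Int.emod_emod_of_dvd _ dvd_rfl]
      exact Q.xmod i a
    · rw [map_add, add_sub_cancel_left]
      exact ⟨v, hv, rfl⟩
    · rintro _ ⟨u, hu, rfl⟩ h
      apply hno
      refine ⟨u, hu, ?_⟩
      rw [map_add]
      exact h
  choose! E p c h1 h2 h3 h4 h5 using key
  exact ⟨E, p, c, h1, ⟨h2, h3, h4, h5⟩⟩

end Pool.Agent.VCNil.AT
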