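import Pool.Agent.Lib.MP_19d06a_co.AT.SpecB

/-!
# MP_19d06a_co: module FEW

Few traces bound the shattered sets.
-/

set_option autoImplicit false

namespace Pool.Agent.VCNil.AT

namespace FEWaux

theorem pow_lt (D : ℕ) : ∃ C : ℕ, ∀ n : ℕ, C < n → (n + 1) ^ D < 2 ^ n := by
  have h := tendsto_pow_const_div_const_pow_of_one_lt D (r := (2 : ℝ)) (by norm_num)
  have h2 := (tendsto_order.1 h).2 (1 / 2 : ℝ) (by norm_num)
  rw [Filter.eventually_atTop] at h2
  obtain ⟨C, hC⟩ := h2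
  refine ⟨C, fun n hn => ?_⟩
  have h3 := hC (n + 1) (by omega)
  have h4 : (0 : ℝ) < 2 ^ (n + 1) := by positivity
  rw [div_lt_iff₀ h4] at h3
  have h5 : ((n + 1 : ℕ) : ℝ) ^ D < 2 ^ n := by
    calc ((n + 1 : ℕ) : ℝ) ^ D < 1 / 2 * 2 ^ (n + 1) := h3
      _ = 2 ^ n := by rw [pow_succ]; ring
  exact_mod_cast h5

end FEWaux

open FEWaux in
theorem specFEW : SpecFEW := by
  intro D
  obtain ⟨C, hC⟩ := pow_lt D
  refine ⟨C, fun X ι F hF Y hY => ?_⟩
  by_contra hlt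
  have h1 := hC Y.card (by omega)
  have h2 := hF Y
  have h3 : (Y : Set X).powerset ⊆ Set.range fun i => F i ∩ (Y : Set X) := by
    intro B hB
    obtain ⟨T, ⟨i, rfl⟩, hT⟩ := hY B hB
    exact ⟨i, hT⟩
  have h4 := Set.ncard_le_ncard h3 (finite_traces F Y)
  rw [Set.ncard_powerset (Y : Set X) Y.finite_toSet, Set.ncard_coe_finset] at h4
  omega

end Pool.Agent.VCNil.AT
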