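import Pool.Agent.Lib.MP_19d06a_co.AT.Spec

/-!
# FIN: the threshold `k = 3` for abelian groups.
-/

set_option autoImplicit false

namespace Pool.Agent.VCNil.AT

namespace FINaux

lemma three (hPIG : SpecPIG) (hRED : SpecRED) (G : Type) [CommGroup G] (m : ℕ) (hm : m = 3)
    (a : Fin m → G) (N : Fin m → ℕ) : vcDim (leftTranslates (genProg a N)) ≤ 50 := by
  subst hm
  by_contra hlt
  have h1 : ((50 : ℕ) : ℕ∞) < vcDim (leftTranslates (genProg a N)) := by
    have := not_le.1 hlt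
    exact_mod_cast this
  have h2 : ((50 + 1 : ℕ) : ℕ∞) ≤ vcDim (leftTranslates (genProg a N)) := by
    have := Order.add_one_le_of_lt h1
    exact_mod_cast this
  obtain ⟨Q, hQ⟩ := hRED G a N 50 (by norm_num) h2
  exact hPIG Q hQ

lemma le_three (hPIG : SpecPIG) (hRED : SpecRED) (k : ℕ) (G : Type) [CommGroup G] (a : Fin k → G)
    (N : Fin k → ℕ) (hk : k ≤ 3) : vcDim (leftTranslates (genProg a N)) ≤ 50 := by
  obtain ⟨j, hj⟩ := Nat.exists_eq_add_of_le hk
  have h := three hPIG hRED G (k + j) hj.symm (Fin.append a (fun _ : Fin j => 1))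
    (Fin.append N (fun _ : Fin j => 0))
  rwa [genProg_append] at h

lemma unbounded (hUNB : SpecUNB) (k : ℕ) (hk : 4 ≤ k) (d : ℕ) :
    ∃ (M : ℕ) (a : Fin k → Multiplicative (ℤ × (ℤ × ZMod M))) (N : Fin k → ℕ),
      (d : ℕ∞) ≤ vcDim (leftTranslates (genProg a N)) := by
  obtain ⟨j, rfl⟩ := Nat.exists_eq_add_of_le hk
  obtain ⟨M, a, N, h⟩ := hUNB d
  refine ⟨M, Fin.append a (fun _ : Fin j => 1), Fin.append N (fun _ : Fin j => 0), ?_⟩
  rw [genProg_append]
  exact h

lemma not_bounded (hUNB : SpecUNB) (k s : ℕ) (hk : 4 ≤ k) (hs : 1 ≤ s) : ¬ Bounded k s := by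
  rintro ⟨C, hC⟩
  obtain ⟨M, a, N, h⟩ := unbounded hUNB k hk (C + 1)
  have h1 := hC (Multiplicative (ℤ × (ℤ × ZMod M))) (CommGroup.nilpotencyClass_le_one.trans hs) a N
  have h2 : ((C + 1 : ℕ) : ℕ∞) ≤ (C : ℕ∞) := le_trans h h1
  have h3 : C + 1 ≤ C := by exact_mod_cast h2
  omega

lemma bounded_one (hPIG : SpecPIG) (hRED : SpecRED) (k : ℕ) (hk : k ≤ 3) : Bounded k 1 := by
  refine ⟨50, fun G _ _ hcl a N => ?_⟩
  have hcomm : IsMulCommutative G := Group.IsNilpotent.nilpotencyClass_le_one_iff.1 hcl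
  letI : CommGroup G :=
    { (inferInstance : Group G) with mul_comm := fun x y => hcomm.is_comm.comm x y }
  have h := le_three hPIG hRED k G a N hk
  exact_mod_cast h

end FINaux

open FINaux in
theorem specFIN (hPIG : SpecPIG) (hRED : SpecRED) (hUNB : SpecUNB) : SpecFIN := by
  refine ⟨fun k _ => ⟨fun hb => ?_, bounded_one hPIG hRED k⟩, not_bounded hUNB, ?_⟩
  · by_contra hk
    exact not_bounded hUNB k 1 (by omega) le_rfl hb
  · intro k G _ a N hk
    exact le_three hPIG hRED k G a N hk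

end Pool.Agent.VCNil.AT
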