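import Pool.Agent.Lib.MP_19d06a_co.AT.SpecB

/-!
MP_19d06a_co: rank two, class two, module FNB (helper62).
-/

set_option autoImplicit false

namespace Pool.Agent.VCNil.AT

namespace FNBaux

theorem vc_le {G : Type} [Group G] (P : Set G) (C : ℕ)
    (h : ∀ Y : Finset G, Shatters (Set.range (tl P)) Y → Y.card ≤ C) :
    vcDim (leftTranslates P) ≤ (C : ℕ∞) := by
  unfold vcDim
  refine iSup₂_le fun Y hY => ?_
  rw [← range_tl] at hY
  exact_mod_cast h Y hY

end FNBaux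

theorem specFNB (hFEW : SpecFEW) (hHOM : SpecHOM) (hSWP : SpecSWP) (hSML : SpecSML)
    (hLRG : SpecLRG) : SpecFNB := by
  obtain ⟨C1, hC1⟩ := hFEW (95 * 16 * 50)
  obtain ⟨C2, hC2⟩ := hLRG
  refine ⟨max C1 C2, fun G _ _ hG a N => ?_⟩
  obtain ⟨φ, h0, h1⟩ := hHOM G hG (a 0) (a 1)
  have ha : a = fun i => φ (gE i) := by
    funext i
    fin_cases i
    · simpa [gE] using h0.symm
    · simpa [gE] using h1.symm
  have hN : N = ![N 0, N 1] := by
    funext i
    fin_cases i <;> rfl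
  have hP : genProg a N = φ '' HP (N 0) (N 1) := by
    rw [HP, ← hN, ← image_genProg, ← ha]
  rw [hP]
  apply FNBaux.vc_le
  intro Y hY
  by_cases hb : N 1 ≤ 47
  · exact (hC1 G G _ (hSML G φ _ _ hb) Y hY).trans (le_max_left _ _)
  by_cases hc : N 0 ≤ 47
  · obtain ⟨θ, hθ⟩ := hSWP
    have h2 : φ '' HP (N 0) (N 1) = (φ.comp θ) '' HP (N 1) (N 0) := by
      rw [← hθ (N 1) (N 0), ← Set.image_comp]
      rfl
    rw [h2] at hY
    exact (hC1 G G _ (hSML G (φ.comp θ) _ _ hc) Y hY).trans (le_max_left _ _)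
  · exact (hC2 G φ _ _ (by omega) (by omega) Y hY).trans (le_max_right _ _)

end Pool.Agent.VCNil.AT
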