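import Pool.Agent.Lib.MP_19d06a_co.AT.SpecB

/-!
# HLF: half planes in general position have dimension at most three

Four points `x i`; rational coefficients `c i`, not all zero, with `∑ c = ∑ c u = ∑ c v = 0`; the sum
`∑ c i * f i` (`f i = t.1 + t.2.1 * u + t.2.2 * v - w` at `x i`) does not depend on `t`; the trace
`{c > 0}` makes it positive, the trace `{c < 0}` makes it negative.
-/

namespace Pool.Agent.VCNil.AT

namespace HLFaux

/-- four vectors of `ℚ ^ 3` are linearly dependent. -/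
lemma dep (p : Fin 4 → Fin 3 → ℚ) :
    ∃ c : Fin 4 → ℚ, (∃ i, c i ≠ 0) ∧ ∀ j, ∑ i, c i * p i j = 0 := by
  have h : ¬ LinearIndependent ℚ p := by
    intro h
    have := h.fintype_card_le_finrank
    simp at this
  rw [Fintype.not_linearIndependent_iff] at h
  obtain ⟨g, hg, i, hi⟩ := h
  refine ⟨g, ⟨i, hi⟩, fun j => ?_⟩
  have := congrFun hg j
  simpa using this

lemma exists_neg (c : Fin 4 → ℚ) (h0 : ∃ i, c i ≠ 0) (hs : ∑ i, c i = 0) : ∃ i, c i < 0 := by
  by_contra hn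
  push Not at hn
  obtain ⟨i, hi⟩ := h0
  exact hi ((Finset.sum_eq_zero_iff_of_nonneg fun j _ => hn j).1 hs i (Finset.mem_univ i))

lemma exists_pos (c : Fin 4 → ℚ) (h0 : ∃ i, c i ≠ 0) (hs : ∑ i, c i = 0) : ∃ i, 0 < c i := by
  obtain ⟨i, hi⟩ := h0
  obtain ⟨j, hj⟩ := exists_neg (fun i => - c i) ⟨i, by simpa using hi⟩ (by simp [hs])
  exact ⟨j, by simpa using hj⟩

/-- the sum is positive when the sign of `f` is nonnegative exactly where `c` is positive. -/
lemma sum_pos (c f : Fin 4 → ℚ) (h1 : ∀ i, 0 ≤ f i ↔ 0 < c i) (h2 : ∃ i, c i < 0) :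
    0 < ∑ i, c i * f i := by
  have hnn : ∀ i ∈ (Finset.univ : Finset (Fin 4)), 0 ≤ c i * f i := by
    intro i _
    by_cases hi : 0 < c i
    · exact mul_nonneg hi.le ((h1 i).2 hi)
    · have hf : f i < 0 := by
        by_contra hf
        exact hi ((h1 i).1 (not_lt.1 hf))
      exact mul_nonneg_of_nonpos_of_nonpos (not_lt.1 hi) hf.le
  obtain ⟨i, hi⟩ := h2
  refine Finset.sum_pos' hnn ⟨i, Finset.mem_univ i, ?_⟩
  have hf : f i < 0 := by
    by_contra hf
    exact absurd ((h1 i).1 (not_lt.1 hf)) (not_lt.2 hi.le)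
  exact mul_pos_of_neg_of_neg hi hf

end HLFaux

open HLFaux

theorem specHLF (hSAU : SpecSAU) : SpecHLF := by
  intro X u v w
  refine hSAU X _ _ 3 fun Y hY => ?_
  by_contra hcard
  obtain ⟨Z, hZY, hZ⟩ := Finset.exists_subset_card_eq (show 4 ≤ Y.card by omega)
  obtain ⟨x, hxinj, hxY⟩ : ∃ x : Fin 4 → X, Function.Injective x ∧ ∀ i, x i ∈ Y := by
    refine ⟨fun i => ((Z.equivFinOfCardEq hZ).symm i : X), ?_, ?_⟩
    · intro i j hij
      exact (Z.equivFinOfCardEq hZ).symm.injective (Subtype.ext hij)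
    · intro i
      exact hZY ((Z.equivFinOfCardEq hZ).symm i).2
  obtain ⟨c, hc0, hc⟩ := dep (fun i => ![1, (u (x i) : ℚ), (v (x i) : ℚ)])
  have h1 : ∑ i, c i = 0 := by simpa using hc 0
  have h2 : ∑ i, c i * (u (x i) : ℚ) = 0 := by simpa using hc 1
  have h3 : ∑ i, c i * (v (x i) : ℚ) = 0 := by simpa using hc 2
  have key : ∀ t : ℤ × (ℤ × ℤ),
      ∑ i, c i * (((t.1 + t.2.1 * u (x i) + t.2.2 * v (x i) - w (x i) : ℤ)) : ℚ)
        = - ∑ i, c i * (w (x i) : ℚ) := by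
    intro t
    have e : ∀ i, c i * (((t.1 + t.2.1 * u (x i) + t.2.2 * v (x i) - w (x i) : ℤ)) : ℚ)
        = (t.1 : ℚ) * c i + (t.2.1 : ℚ) * (c i * (u (x i) : ℚ))
          + (t.2.2 : ℚ) * (c i * (v (x i) : ℚ)) - c i * (w (x i) : ℚ) := by
      intro i
      push_cast
      ring
    rw [Finset.sum_congr rfl fun i _ => e i, Finset.sum_sub_distrib, Finset.sum_add_distrib,
      Finset.sum_add_distrib, ← Finset.mul_sum, ← Finset.mul_sum, ← Finset.mul_sum, h1, h2, h3]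
    ring
  have tr : ∀ P : Fin 4 → Prop, ∃ t : ℤ × (ℤ × ℤ), ∀ i,
      (0 : ℚ) ≤ (((t.1 + t.2.1 * u (x i) + t.2.2 * v (x i) - w (x i) : ℤ)) : ℚ) ↔ P i := by
    intro P
    obtain ⟨T, ⟨t, rfl⟩, hT⟩ := hY {y | ∃ i, P i ∧ x i = y} (by
      rintro y ⟨i, _, rfl⟩
      exact hxY i)
    refine ⟨t, fun i => ?_⟩
    have h4 := Set.ext_iff.1 hT (x i)
    simp only [Set.mem_inter_iff, Set.mem_setOf_eq, Finset.mem_coe, hxY i, and_true] at h4
    constructor
    · intro hi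
      have h5 : (0 : ℤ) ≤ t.1 + t.2.1 * u (x i) + t.2.2 * v (x i) - w (x i) := by exact_mod_cast hi
      obtain ⟨j, hj, hji⟩ := h4.1 (by linarith)
      rwa [← hxinj hji]
    · intro hi
      have h5 := h4.2 ⟨i, hi, rfl⟩
      have h6 : (0 : ℤ) ≤ t.1 + t.2.1 * u (x i) + t.2.2 * v (x i) - w (x i) := by linarith
      exact_mod_cast h6
  obtain ⟨t, ht⟩ := tr fun i => 0 < c i
  obtain ⟨s, hs⟩ := tr fun i => c i < 0
  have hp := sum_pos c _ ht (exists_neg c hc0 h1)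
  have hn := sum_pos (fun i => - c i) _ (fun i => (hs i).trans (by simp))
    (by
      obtain ⟨i, hi⟩ := exists_pos c hc0 h1
      exact ⟨i, by simpa using hi⟩)
  rw [key t] at hp
  simp only [neg_mul, Finset.sum_neg_distrib] at hn
  rw [key s] at hn
  linarith

end Pool.Agent.VCNil.AT
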