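import Pool.Agent.Lib.MP_19d06a_co.AT.SpecB

/-!
# MP_19d06a_co, module HOM: groups of class at most two generated by two elements
-/

set_option autoImplicit false

namespace Pool.Agent.VCNil.AT

open scoped commutatorElement

namespace HOMaux

variable {G : Type} [Group G]

/-- the commutators are central in a group of class at most two -/
theorem central [Group.IsNilpotent G] (hG : Group.nilpotencyClass G ≤ 2) (a b g : G) :
    Commute (a⁻¹ * b⁻¹ * a * b) g := by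
  have h1 : (⊤ : Subgroup G).lowerCentralSeries 2 = ⊥ :=
    Subgroup.lowerCentralSeries_eq_bot_iff_nilpotencyClass_le.2 hG
  have h2 : ⁅a⁻¹, b⁻¹⁆ ∈ (⊤ : Subgroup G).lowerCentralSeries 1 := by
    rw [Subgroup.lowerCentralSeries_succ, Subgroup.lowerCentralSeries_zero]
    exact Subgroup.commutator_mem_commutator (Subgroup.mem_top _) (Subgroup.mem_top _)
  have h3 : ⁅⁅a⁻¹, b⁻¹⁆, g⁆ ∈ (⊤ : Subgroup G).lowerCentralSeries 2 := by
    rw [Subgroup.lowerCentralSeries_succ]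
    exact Subgroup.commutator_mem_commutator h2 (Subgroup.mem_top _)
  rw [h1, Subgroup.mem_bot, commutatorElement_eq_one_iff_mul_comm] at h3
  have h4 : ⁅a⁻¹, b⁻¹⁆ = a⁻¹ * b⁻¹ * a * b := by
    rw [commutatorElement_def, inv_inv, inv_inv]
  rw [h4] at h3
  exact h3

theorem conj1 (a b c : G) (hc : ∀ g, Commute c g) (h : c = a⁻¹ * b⁻¹ * a * b) (x : ℤ) :
    a ^ x * b * (a ^ x)⁻¹ = b * c ^ x := by
  have h1 : b⁻¹ * a * b⁻¹⁻¹ = a * c := by rw [h]; group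
  have h2 : (b⁻¹ * a * b⁻¹⁻¹) ^ x = b⁻¹ * a ^ x * b⁻¹⁻¹ := conj_zpow
  rw [h1, (hc a).symm.mul_zpow, inv_inv] at h2
  have h3 : a ^ x * b = b * (a ^ x * c ^ x) := by
    rw [h2]; group
  rw [h3, ← ((hc (a ^ x)).zpow_left x).eq]
  group

theorem move (a b c : G) (hc : ∀ g, Commute c g) (h : c = a⁻¹ * b⁻¹ * a * b) (x y : ℤ) :
    a ^ x * b ^ y = b ^ y * a ^ x * c ^ (x * y) := by
  have h1 : (a ^ x * b * (a ^ x)⁻¹) ^ y = a ^ x * b ^ y * (a ^ x)⁻¹ := conj_zpow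
  rw [conj1 a b c hc h x, ((hc b).zpow_left x).symm.mul_zpow, ← zpow_mul] at h1
  have h2 : a ^ x * b ^ y = b ^ y * c ^ (x * y) * a ^ x := by
    rw [h1]; group
  rw [h2, mul_assoc, ((hc (a ^ x)).zpow_left (x * y)).eq, ← mul_assoc]

/-- the homomorphism -/
def phi (a b c : G) (hc : ∀ g, Commute c g) (h : c = a⁻¹ * b⁻¹ * a * b) : TWTaux.E2 →* G where
  toFun p := b ^ p.v0 * a ^ p.x * c ^ p.v1
  map_one' := by
    show b ^ (0 : ℤ) * a ^ (0 : ℤ) * c ^ (0 : ℤ) = 1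
    simp
  map_mul' p q := by
    show b ^ (p.v0 + q.v0) * a ^ (p.x + q.x) * c ^ (p.v1 + (q.v1 + p.x * q.v0)) =
      b ^ p.v0 * a ^ p.x * c ^ p.v1 * (b ^ q.v0 * a ^ q.x * c ^ q.v1)
    have e1 : c ^ p.v1 * (b ^ q.v0 * a ^ q.x * c ^ q.v1) =
        b ^ q.v0 * a ^ q.x * c ^ q.v1 * c ^ p.v1 := ((hc _).zpow_left p.v1).eq
    have e2 : a ^ p.x * b ^ q.v0 = b ^ q.v0 * a ^ p.x * c ^ (p.x * q.v0) :=
      move a b c hc h p.x q.v0
    have e3 : c ^ (p.x * q.v0) * (a ^ q.x * c ^ q.v1 * c ^ p.v1) =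
        a ^ q.x * c ^ q.v1 * c ^ p.v1 * c ^ (p.x * q.v0) := ((hc _).zpow_left _).eq
    have e4 : c ^ (p.v1 + (q.v1 + p.x * q.v0)) = c ^ q.v1 * c ^ p.v1 * c ^ (p.x * q.v0) := by
      rw [← zpow_add, ← zpow_add]
      congr 1
      ring
    calc b ^ (p.v0 + q.v0) * a ^ (p.x + q.x) * c ^ (p.v1 + (q.v1 + p.x * q.v0)) =
        b ^ p.v0 * (b ^ q.v0 * a ^ p.x * (a ^ q.x * c ^ q.v1 * c ^ p.v1 * c ^ (p.x * q.v0))) := by
          rw [e4, zpow_add, zpow_add]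
          simp only [mul_assoc]
      _ = b ^ p.v0 * (b ^ q.v0 * a ^ p.x * c ^ (p.x * q.v0) * (a ^ q.x * c ^ q.v1 * c ^ p.v1)) := by
          rw [← e3]
          simp only [mul_assoc]
      _ = b ^ p.v0 * (a ^ p.x * b ^ q.v0 * (a ^ q.x * c ^ q.v1 * c ^ p.v1)) := by rw [← e2]
      _ = b ^ p.v0 * a ^ p.x * (b ^ q.v0 * a ^ q.x * c ^ q.v1 * c ^ p.v1) := by
          simp only [mul_assoc]
      _ = b ^ p.v0 * a ^ p.x * (c ^ p.v1 * (b ^ q.v0 * a ^ q.x * c ^ q.v1)) := by rw [← e1]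
      _ = _ := by simp only [mul_assoc]

end HOMaux

open HOMaux in
theorem specHOM : SpecHOM := by
  intro G _ _ hG a b
  refine ⟨phi a b _ (central hG a b) rfl, ?_, ?_⟩
  · show b ^ (0 : ℤ) * a ^ (1 : ℤ) * (a⁻¹ * b⁻¹ * a * b) ^ (0 : ℤ) = a
    simp
  · show b ^ (1 : ℤ) * a ^ (0 : ℤ) * (a⁻¹ * b⁻¹ * a * b) ^ (0 : ℤ) = b
    simp

end Pool.Agent.VCNil.AT
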