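import Pool.Agent.Lib.MP_19d06a_co.AT.SpecB

/-!
# HPT: few traces in the Heisenberg group
-/

set_option autoImplicit false

namespace Pool.Agent.VCNil.AT

open TWTaux

namespace HPTaux

/-- the eight conditions of `QQ` -/
def QC (n1 n2 x y z : ℤ) : Fin 8 → Prop :=
  ![0 ≤ x, x ≤ n1, (2 : ℤ) ∣ n1 - x, 0 ≤ y, y ≤ n2, (2 : ℤ) ∣ n2 - y,
    4 * z ≤ (n1 + x) * (n2 + y), -(n1 * n2 + n2 * x + n1 * y - 3 * x * y) ≤ 4 * z]

lemma QQ_iff (n1 n2 x y z : ℤ) : QQ n1 n2 x y z ↔ ∀ t, QC n1 n2 x y z t := by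
  constructor
  · rintro ⟨h0, h1, h2, h3, h4, h5, h6, h7⟩ t
    fin_cases t
    · exact h0
    · exact h1
    · exact h2
    · exact h3
    · exact h4
    · exact h5
    · exact h6
    · exact h7
  · intro h
    exact ⟨h 0, h 1, h 2, h 3, h 4, h 5, h 6, h 7⟩

/-- the half space criterion -/
lemma few_of (hHLF : SpecHLF) (S : E2 → Set E2) (w : E2 → ℤ) (A B C : E2 → ℤ)
    (h : ∀ g x, x ∈ S g ↔ w x ≤ A g + B g * x.x + C g * x.v0) : Few S 3 := by
  have h1 := (hHLF E2 (fun x => x.x) (fun x => x.v0) w).comp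
    (fun g : E2 => ((A g, (B g, C g)) : ℤ × (ℤ × ℤ)))
  have h2 : (fun g : E2 => {x : E2 | w x ≤ A g + B g * x.x + C g * x.v0}) = S := by
    funext g
    ext x
    exact (h g x).symm
  rw [← h2]
  exact h1

/-- at most two sets -/
lemma few_two {X ι : Type} (S : ι → Set X) (T : Bool → Set X) (b : ι → Bool)
    (h : ∀ i, S i = T (b i)) : Few S 3 := by
  intro Y
  rcases Y.eq_empty_or_nonempty with hY | hY
  · subst hY
    have h1 : (Set.range fun i => S i ∩ ((∅ : Finset X) : Set X)) ⊆ {∅} := by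
      rintro _ ⟨i, rfl⟩
      simp
    refine (Set.ncard_le_ncard h1 (Set.finite_singleton _)).trans ?_
    simp
  · have h1 : (Set.range fun i => S i ∩ (Y : Set X)) ⊆ Set.range fun c : Bool => T c ∩ (Y : Set X) := by
      rintro _ ⟨i, rfl⟩
      refine ⟨b i, ?_⟩
      change T (b i) ∩ (Y : Set X) = S i ∩ (Y : Set X)
      rw [h i]
    refine (Set.ncard_le_ncard h1 (Set.finite_range _)).trans ?_
    have h2 : (Set.range fun c : Bool => T c ∩ (Y : Set X)).ncard ≤ 2 := by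
      rw [← Set.image_univ]
      refine (Set.ncard_image_le Set.finite_univ).trans ?_
      rw [Set.ncard_univ]
      simp
    have h3 : 1 ≤ Y.card := hY.card_pos
    calc (Set.range fun c : Bool => T c ∩ (Y : Set X)).ncard ≤ 2 := h2
      _ ≤ 2 ^ 3 := by norm_num
      _ ≤ (Y.card + 1) ^ 3 := Nat.pow_le_pow_left (by omega) 3

/-- the parity conditions -/
lemma parity (n h a : ℤ) (e : Bool) :
    (2 : ℤ) ∣ n - sg e * (h + a) ↔ (2 : ℤ) ∣ n - sg e * (bt (decide (¬ (2 : ℤ) ∣ h)) + a) := by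
  by_cases h2 : (2 : ℤ) ∣ h
  · have h3 : bt (decide (¬ (2 : ℤ) ∣ h)) = 0 := by simp [bt, h2]
    rw [h3]
    cases e
    · simp only [sg]
      constructor <;> intro h4 <;> simp at h4 ⊢ <;> omega
    · simp only [sg]
      constructor <;> intro h4 <;> simp at h4 ⊢ <;> omega
  · have h3 : bt (decide (¬ (2 : ℤ) ∣ h)) = 1 := by simp [bt, h2]
    rw [h3]
    cases e
    · simp only [sg]
      constructor <;> intro h4 <;> simp at h4 ⊢ <;> omega
    · simp only [sg]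
      constructor <;> intro h4 <;> simp at h4 ⊢ <;> omega

/-- the elementary families -/
def EE (N1 N2 : ℕ) (l : Bool × Bool × Bool × Bool × Fin 8) (g : E2) : Set E2 :=
  {x | QC (N1 - bt l.2.2.1) (N2 - bt l.2.2.2.1) (sg l.1 * ((g⁻¹).x + x.x))
    (sg l.2.1 * ((g⁻¹).v0 + x.v0))
    (sg l.1 * sg l.2.1 * ((g⁻¹).v1 + (x.v1 + (g⁻¹).x * x.v0))) l.2.2.2.2}

lemma few_EE (hHLF : SpecHLF) (N1 N2 : ℕ) (l : Bool × Bool × Bool × Bool × Fin 8) :
    Few (EE N1 N2 l) 3 := by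
  obtain ⟨e, f, i, j, t⟩ := l
  set n1 : ℤ := N1 - bt i
  set n2 : ℤ := N2 - bt j
  fin_cases t
  · refine few_of hHLF _ (fun _ => 0) (fun g => sg e * (g⁻¹).x) (fun _ => sg e) (fun _ => 0)
      fun g x => ?_
    change 0 ≤ sg e * ((g⁻¹).x + x.x) ↔ _
    constructor <;> intro h <;> linarith
  · refine few_of hHLF _ (fun _ => 0) (fun g => n1 - sg e * (g⁻¹).x) (fun _ => -sg e) (fun _ => 0)
      fun g x => ?_
    change sg e * ((g⁻¹).x + x.x) ≤ n1 ↔ _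
    constructor <;> intro h <;> linarith
  · refine few_two _ (fun c => {x : E2 | (2 : ℤ) ∣ n1 - sg e * (bt c + x.x)})
      (fun g => decide (¬ (2 : ℤ) ∣ (g⁻¹).x)) fun g => ?_
    ext x
    exact parity n1 (g⁻¹).x x.x e
  · refine few_of hHLF _ (fun _ => 0) (fun g => sg f * (g⁻¹).v0) (fun _ => 0) (fun _ => sg f)
      fun g x => ?_
    change 0 ≤ sg f * ((g⁻¹).v0 + x.v0) ↔ _
    constructor <;> intro h <;> linarith
  · refine few_of hHLF _ (fun _ => 0) (fun g => n2 - sg f * (g⁻¹).v0) (fun _ => 0) (fun _ => -sg f)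
      fun g x => ?_
    change sg f * ((g⁻¹).v0 + x.v0) ≤ n2 ↔ _
    constructor <;> intro h <;> linarith
  · refine few_two _ (fun c => {x : E2 | (2 : ℤ) ∣ n2 - sg f * (bt c + x.v0)})
      (fun g => decide (¬ (2 : ℤ) ∣ (g⁻¹).v0)) fun g => ?_
    ext x
    exact parity n2 (g⁻¹).v0 x.v0 f
  · refine few_of hHLF _ (fun x => sg e * sg f * (4 * x.v1 - x.x * x.v0))
      (fun g => (n1 + sg e * (g⁻¹).x) * (n2 + sg f * (g⁻¹).v0) - 4 * (sg e * sg f) * (g⁻¹).v1)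
      (fun g => sg e * (n2 + sg f * (g⁻¹).v0))
      (fun g => sg f * (n1 + sg e * (g⁻¹).x) - 4 * (sg e * sg f) * (g⁻¹).x) fun g x => ?_
    change 4 * (sg e * sg f * ((g⁻¹).v1 + (x.v1 + (g⁻¹).x * x.v0))) ≤
      (n1 + sg e * ((g⁻¹).x + x.x)) * (n2 + sg f * ((g⁻¹).v0 + x.v0)) ↔ _
    constructor <;> intro h <;> linarith
  · refine few_of hHLF _ (fun x => sg e * sg f * (3 * (x.x * x.v0) - 4 * x.v1))
      (fun g => 4 * (sg e * sg f) * (g⁻¹).v1 + n1 * n2 + n2 * (sg e * (g⁻¹).x) +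
        n1 * (sg f * (g⁻¹).v0) - 3 * (sg e * sg f) * (g⁻¹).x * (g⁻¹).v0)
      (fun g => n2 * sg e - 3 * (sg e * sg f) * (g⁻¹).v0)
      (fun g => n1 * sg f + sg e * sg f * (g⁻¹).x) fun g x => ?_
    change -(n1 * n2 + n2 * (sg e * ((g⁻¹).x + x.x)) + n1 * (sg f * ((g⁻¹).v0 + x.v0)) -
      3 * (sg e * ((g⁻¹).x + x.x)) * (sg f * ((g⁻¹).v0 + x.v0))) ≤
      4 * (sg e * sg f * ((g⁻¹).v1 + (x.v1 + (g⁻¹).x * x.v0))) ↔ _
    constructor <;> intro h <;> linarith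

end HPTaux

open HPTaux in
theorem specHPT (hHLF : SpecHLF) (hCMB : SpecCMB) (hDSC : SpecDSC) : SpecHPT := by
  intro N1 N2
  have h := hCMB E2 E2 (Bool × Bool × Bool × Bool × Fin 8) 3 (tl (HP N1 N2)) (EE N1 N2)
    (fun β => ∃ e f i j : Bool, ∀ t : Fin 8, β (e, f, i, j, t)) (few_EE hHLF N1 N2) (by
      intro g x
      have h1 : x ∈ tl (HP N1 N2) g ↔
          (⟨(g⁻¹).x + x.x, (g⁻¹).v0 + x.v0, (g⁻¹).v1 + (x.v1 + (g⁻¹).x * x.v0)⟩ : E2) ∈
            HP N1 N2 := Iff.rfl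
      rw [h1, hDSC]
      constructor
      · rintro ⟨e, f, i, j, hq⟩
        exact ⟨e, f, i, j, fun t => (QQ_iff _ _ _ _ _).1 hq t⟩
      · rintro ⟨e, f, i, j, hq⟩
        exact ⟨e, f, i, j, (QQ_iff _ _ _ _ _).2 fun t => hq t⟩)
  have hc : Fintype.card (Bool × Bool × Bool × Bool × Fin 8) = 128 := by
    simp [Fintype.card_prod]
  rw [hc] at h
  exact h

end Pool.Agent.VCNil.AT
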