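import Mathlib

/-!
# Lattice points under a hyperbola and many scales
-/

set_option autoImplicit false

namespace Pool.Agent.VCNil.AT

namespace HYPaux

/-- Some `(i, J)` under the hyperbola `i (2 J + 1) ≤ K` with `J ≡ Y + α i` modulo `M`. -/
def Hy (M α K : ℕ) (Y : ℤ) : Prop :=
  ∃ i J : ℕ, 1 ≤ i ∧ i * (2 * J + 1) ≤ K ∧ (M : ℤ) ∣ (J : ℤ) - Y - α * i

/-- The natural numbers which are `Y` modulo `M` are larger than `K`. -/
def Arm (M K : ℕ) (Y : ℤ) : Prop := ∀ J : ℕ, (M : ℤ) ∣ (J : ℤ) - Y → K + 1 ≤ J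

theorem arm_step {M K L : ℕ} {Y y : ℤ} (hL : 1 ≤ L) (hy0 : (L : ℤ) ≤ y) (hy1 : y < 2 * L)
    (h : Arm M K Y) : Arm (2 * L * M) (2 * L * K + L) (2 * L * Y + y) := by
  intro J hJ
  obtain ⟨k, hk⟩ := hJ
  push_cast at hk
  have hLz : (1 : ℤ) ≤ L := by exact_mod_cast hL
  have h1 : (J : ℤ) = 2 * L * (M * k + Y) + y := by linear_combination hk
  have hJ0 : (0 : ℤ) ≤ J := Int.natCast_nonneg J
  have h2 : 0 ≤ (M : ℤ) * k + Y := by
    by_contra hc
    have h3 : (M : ℤ) * k + Y ≤ -1 := by omega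
    have h4 := mul_le_mul_of_nonneg_left h3 (show (0 : ℤ) ≤ 2 * L by linarith)
    linarith
  obtain ⟨J1, hJ1⟩ := Int.eq_ofNat_of_zero_le h2
  have h5 := h J1 ⟨k, by rw [← hJ1]; ring⟩
  have h6 : ((K : ℤ) + 1) ≤ M * k + Y := by
    rw [hJ1]
    exact_mod_cast h5
  have h7 := mul_le_mul_of_nonneg_left h6 (show (0 : ℤ) ≤ 2 * L by linarith)
  have h8 : (2 * L * K + L : ℤ) + 1 ≤ J := by
    rw [h1]
    nlinarith
  exact_mod_cast h8

theorem hy_step {M α K L : ℕ} {β Y y : ℤ} (hM : 1 ≤ M)
    (hL : K * (4 * M + 2 * K + 1) + M * (2 * K + 3) + 2 * M + K + 2 ≤ L)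
    (hβ : (M : ℤ) ∣ α * β - 1) (hLβ : (M : ℤ) ∣ 2 * L + β + 1) (hy0 : (L : ℤ) ≤ y)
    (hy1 : y ≤ L + 2 * M)
    (hneu : (M : ℤ) ∣ y - β * Y + 1 ∨ ∀ v : ℤ, |v| ≤ K → ¬ (M : ℤ) ∣ y - β * Y + 1 - v) :
    Hy (2 * L * M) (α * (2 * L) + 1) (2 * L * K + L) (2 * L * Y + y) ↔
      (Hy M α K Y ∨ (M : ℤ) ∣ y - β * Y + 1) := by
  have hMz : (1 : ℤ) ≤ M := by exact_mod_cast hM
  have hKz : (0 : ℤ) ≤ K := Int.natCast_nonneg K
  have hαz : (0 : ℤ) ≤ α := Int.natCast_nonneg α
  have hLz : (K : ℤ) * (4 * M + 2 * K + 1) + M * (2 * K + 3) + 2 * M + K + 2 ≤ L := by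
    exact_mod_cast hL
  have hb1 : 0 ≤ (K : ℤ) * (4 * M + 2 * K + 1) := by positivity
  have hb2 : 0 ≤ (M : ℤ) * (2 * K + 3) := by positivity
  have hL1 : (1 : ℤ) ≤ L := by linarith
  constructor
  · rintro ⟨i, J', hi, hprod, k, hk⟩
    push_cast at hk
    have hprodz : (i : ℤ) * (2 * J' + 1) ≤ 2 * L * K + L := by exact_mod_cast hprod
    have hiz : (1 : ℤ) ≤ i := by exact_mod_cast hi
    have hJ0 : (0 : ℤ) ≤ J' := Int.natCast_nonneg J'
    have h2L : (0 : ℤ) < 2 * L := by linarith
    -- quotient and remainder of `y + i` by `2 L`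
    have hdm := Int.emod_add_mul_ediv (y + i) (2 * L)
    have hr0 := Int.emod_nonneg (y + i) h2L.ne'
    have hr1 := Int.emod_lt_of_pos (y + i) h2L
    set c : ℤ := (y + i) / (2 * L) with hc
    set u : ℤ := (y + i) % (2 * L) with hu
    set J : ℤ := M * k + Y + α * i + c with hJ
    have hJ' : (J' : ℤ) = 2 * L * J + u := by
      rw [hJ]
      linear_combination hk - hdm
    have hJnn : 0 ≤ J := by
      by_contra hcon
      have h3 : J ≤ -1 := by omega
      have h4 := mul_le_mul_of_nonneg_left h3 h2L.le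
      linarith
    have hc0 : 0 ≤ c := by
      by_contra hcon
      have h3 : c ≤ -1 := by omega
      have h4 := mul_le_mul_of_nonneg_left h3 h2L.le
      linarith
    rcases hc0.eq_or_lt with hc0 | hc1
    · -- no carry
      left
      have hu' : u = y + i := by
        rw [← hc0, mul_zero, add_zero] at hdm
        exact hdm
      obtain ⟨Jn, hJn⟩ := Int.eq_ofNat_of_zero_le hJnn
      refine ⟨i, Jn, hi, ?_, k, ?_⟩
      · have h1 : (i : ℤ) * (2 * J + 1) ≤ K := by
          by_contra hcon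
          have h3 : (K : ℤ) + 1 ≤ i * (2 * J + 1) := by omega
          have h4 := mul_le_mul_of_nonneg_left h3 h2L.le
          have h5 : (i : ℤ) * (2 * J' + 1) =
              2 * L * (i * (2 * J + 1)) + i * (2 * (y - L) + 2 * i + 1) := by
            rw [hJ', hu']
            ring
          have h6 : 0 ≤ (i : ℤ) * (2 * (y - L) + 2 * i + 1) :=
            mul_nonneg (by linarith) (by linarith)
          linarith
        rw [hJn] at h1
        exact_mod_cast h1
      · have : ((Jn : ℕ) : ℤ) = J := hJn.symm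
        rw [this, hJ, ← hc0]
        ring
    · right
      have hc1' : 1 ≤ c := hc1
      -- lower bound for `i`
      have hicL : c * (2 * L) - y ≤ i := by
        have : (2 * (L : ℤ)) * c = c * (2 * L) := by ring
        linarith
      have hcL : 2 * (L : ℤ) ≤ c * (2 * L) := by nlinarith
      have hi1 : (L : ℤ) - 2 * M ≤ i := by linarith
      have hpos : 0 ≤ (L : ℤ) - 2 * M := by linarith
      have hJz : J = 0 := by
        by_contra hcon
        have h3 : 1 ≤ J := by omega
        have h4 : 2 * (L : ℤ) ≤ J' := by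
          rw [hJ']
          have := mul_le_mul_of_nonneg_left h3 h2L.le
          linarith
        have h5 : ((L : ℤ) - 2 * M) * (4 * L + 1) ≤ i * (2 * J' + 1) :=
          mul_le_mul hi1 (by linarith) (by linarith) (by linarith)
        have h6 : ((K : ℤ) + 2) * (4 * L + 1) ≤ ((L : ℤ) - 2 * M) * (4 * L + 1) :=
          mul_le_mul_of_nonneg_right (by linarith) (by linarith)
        nlinarith
      have hJu : (J' : ℤ) = u := by
        rw [hJ', hJz]
        ring
      rw [hJu] at hprodz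
      have huK : u ≤ K := by
        by_contra hcon
        have h3 : (K : ℤ) + 1 ≤ u := by omega
        have h5 : ((L : ℤ) - 2 * M) * (2 * K + 3) ≤ i * (2 * u + 1) :=
          mul_le_mul hi1 (by linarith) (by linarith) (by linarith)
        nlinarith
      have hcK : c ≤ K + 1 := by
        by_contra hcon
        have h3 : (K : ℤ) + 2 ≤ c := by omega
        have h4 := mul_le_mul_of_nonneg_right h3 h2L.le
        have h5 : (i : ℤ) ≤ i * (2 * u + 1) := by nlinarith
        nlinarith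
      have hi2 : (i : ℤ) = c * (2 * L) - y + u := by
        linear_combination (-1 : ℤ) * hdm
      have hdvd : (M : ℤ) ∣ y - β * Y + 1 - (u - c + 1) := by
        obtain ⟨a, ha⟩ := hβ
        obtain ⟨b, hb⟩ := hLβ
        have h3 : (M : ℤ) * k + Y + α * i + c = 0 := hJz
        refine ⟨c * b + β * k + a * i, ?_⟩
        linear_combination hi2 + c * hb - β * h3 + i * ha
      rcases hneu with h | h
      · exact h
      · exact absurd hdvd (h _ (by rw [abs_le]; constructor <;> linarith))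
  · rintro (⟨i, J, hi, hprod, k, hk⟩ | ⟨a3, h3⟩)
    · have hprodz : (i : ℤ) * (2 * J + 1) ≤ K := by exact_mod_cast hprod
      have hiz : (1 : ℤ) ≤ i := by exact_mod_cast hi
      have hJ0 : (0 : ℤ) ≤ J := Int.natCast_nonneg J
      have hiK : (i : ℤ) ≤ K := by nlinarith
      obtain ⟨yn, hyn⟩ := Int.eq_ofNat_of_zero_le (show (0 : ℤ) ≤ y by linarith)
      refine ⟨i, 2 * L * J + yn + i, hi, ?_, k, ?_⟩
      · have h1 : (i : ℤ) * (2 * (2 * L * J + y + i) + 1) ≤ 2 * L * K + L := by
          have h2 : (i : ℤ) * (2 * (2 * L * J + y + i) + 1) =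
              2 * L * (i * (2 * J + 1)) + i * (2 * (y - L) + 2 * i + 1) := by ring
          have h4 := mul_le_mul_of_nonneg_left hprodz (show (0 : ℤ) ≤ 2 * L by linarith)
          have h5 : (i : ℤ) * (2 * (y - L) + 2 * i + 1) ≤ K * (4 * M + 2 * K + 1) :=
            mul_le_mul hiK (by linarith) (by linarith) hKz
          linarith
        rw [hyn] at h1
        exact_mod_cast h1
      · have : ((2 * L * J + yn + i : ℕ) : ℤ) = 2 * L * J + y + i := by
          rw [hyn]
          push_cast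
          ring
        rw [this]
        push_cast
        linear_combination (2 * (L : ℤ)) * hk
    · obtain ⟨a, ha⟩ := hβ
      obtain ⟨b, hb⟩ := hLβ
      have hy2 : 1 ≤ 2 * (L : ℤ) - y := by linarith
      obtain ⟨i, hi⟩ := Int.eq_ofNat_of_zero_le (show (0 : ℤ) ≤ 2 * L - y by linarith)
      have hi' : (i : ℤ) = 2 * L - y := hi.symm
      refine ⟨i, 0, ?_, ?_, ?_⟩
      · have : (1 : ℤ) ≤ i := by linarith
        exact_mod_cast this
      · have h1 : (i : ℤ) * (2 * 0 + 1) ≤ 2 * L * K + L := by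
          have : 0 ≤ 2 * (L : ℤ) * K := by positivity
          linarith
        exact_mod_cast h1
      · refine ⟨a * (1 + Y) - α * (b - a3), ?_⟩
        push_cast
        rw [hi']
        linear_combination (-(2 * (L : ℤ) * α)) * hb + (2 * (L : ℤ) * α) * h3 +
          (2 * (L : ℤ) * (1 + Y)) * ha
end HYPaux

end Pool.Agent.VCNil.AT
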