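import Pool.Agent.Lib.MP_19d06a_co.AT.HYP

/-!
# Many independent scales under a hyperbola
-/

set_option autoImplicit false

namespace Pool.Agent.VCNil.AT

namespace HYPaux

/-- `n` scales: `p` marks the scales of the point, `t` the active scales of the shift. -/
theorem scales (n : ℕ) :
    ∃ M α K : ℕ, 4 ∣ M ∧ 4 * K + 4 ≤ M ∧ 1 ≤ K ∧ Nat.Coprime α M ∧
      ∃ Yf τf : (ℕ → Prop) → ℤ, ∀ p t : ℕ → Prop,
        (Hy M α K (Yf p + τf t) ↔ ∃ s < n, t s ∧ p s) ∧ Arm M K (Yf p + τf t) := by
  classical
  induction n with
  | zero =>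
    refine ⟨8, 1, 1, by norm_num, by norm_num, le_rfl, by norm_num, fun _ => 0, fun _ => 4, ?_⟩
    intro p t
    constructor
    · constructor
      · rintro ⟨i, J, hi, hprod, hdvd⟩
        exfalso
        have h1 : i * 1 ≤ i * (2 * J + 1) := Nat.mul_le_mul_left _ (by omega)
        have hi1 : i = 1 := by omega
        subst hi1
        have hJ : J = 0 := by omega
        subst hJ
        push_cast at hdvd
      · rintro ⟨s, hs, -⟩
        omega
    · intro J hJ
      push_cast at hJ
      omega
  | succ n ih =>
    obtain ⟨M, α, K, hM4, hKM, hK, hcop, Yf, τf, hmain⟩ := ih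
    obtain ⟨m, hm⟩ := hM4
    have hM1 : 1 ≤ M := by omega
    have hMz : (0 : ℤ) < M := by exact_mod_cast hM1
    -- the inverse of `α`
    obtain ⟨β, hβ⟩ : ∃ β : ℤ, (M : ℤ) ∣ α * β - 1 := by
      obtain ⟨a, b, hab⟩ := Nat.isCoprime_iff_coprime.2 hcop
      exact ⟨a, ⟨-b, by linear_combination hab⟩⟩
    -- `β` is odd
    obtain ⟨γ, hγ⟩ : ∃ γ : ℤ, β + 1 = 2 * γ := by
      obtain ⟨a, ha⟩ := hβ
      have hodd : ¬ (2 : ℤ) ∣ β := by
        rintro ⟨b, hb⟩
        rw [hb, hm] at ha
        push_cast at ha
        have h1 : (2 : ℤ) * (α * b) - 1 = 2 * (2 * (m * a)) := by linear_combination ha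
        omega
      exact ⟨(β + 1) / 2, by omega⟩
    set B : ℕ := K * (4 * M + 2 * K + 1) + M * (2 * K + 3) + 2 * M + K + 2 with hB
    -- the scale
    obtain ⟨L, hLB, hLdvd⟩ : ∃ L : ℕ, B ≤ L ∧ (M : ℤ) ∣ 2 * (L : ℤ) + β + 1 := by
      have h0 := Int.emod_nonneg (-γ - B) hMz.ne'
      have h1 := Int.emod_add_mul_ediv (-γ - B) M
      refine ⟨((-γ - B) % M).toNat + B, by omega, ?_⟩
      have h2 : ((((-γ - B) % M).toNat + B : ℕ) : ℤ) = (-γ - B) % M + B := by
        push_cast
        rw [Int.toNat_of_nonneg h0]
      rw [h2]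
      refine ⟨-2 * ((-γ - B) / M), ?_⟩
      linear_combination 2 * h1 + hγ
    have hL1 : 2 * M + 2 ≤ L := by
      refine le_trans ?_ hLB
      rw [hB]
      have : 0 ≤ K * (4 * M + 2 * K + 1) + M * (2 * K + 3) + K := Nat.zero_le _
      omega
    have hLz : (2 : ℤ) * M + 2 ≤ L := by exact_mod_cast hL1
    let yp : (ℕ → Prop) → ℤ := fun p => (β * Yf p + if p n then 0 else 2 * (m : ℤ)) % M
    let yt : (ℕ → Prop) → ℤ := fun t => (β * τf t - L + if t n then -1 else (m : ℤ) - 1) % M
    refine ⟨2 * L * M, α * (2 * L) + 1, 2 * L * K + L, ?_, ?_, ?_, ?_,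
      fun p => 2 * L * Yf p + yp p, fun t => 2 * L * τf t + (L + yt t), ?_⟩
    · exact Dvd.dvd.mul_left ⟨m, hm⟩ _
    · have h1 : L * (4 * K + 4) ≤ L * M := Nat.mul_le_mul_left _ hKM
      nlinarith
    · have : 0 ≤ 2 * L * K := Nat.zero_le _
      omega
    · have h1 : Nat.Coprime (α * (2 * L) + 1) (2 * L) := by
        simp
      have h2 : Nat.Coprime (α * (2 * L) + 1) M := by
        rw [← Nat.isCoprime_iff_coprime] at hcop ⊢
        obtain ⟨a, ha⟩ := hβ
        obtain ⟨b, hb⟩ := hLdvd
        have h3 : ((α * (2 * L) + 1 : ℕ) : ℤ) = -(α : ℤ) + M * (α * b - a) := by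
          push_cast
          linear_combination (α : ℤ) * hb - ha
        rw [h3]
        exact (hcop.neg_left).add_mul_left_left _
      exact Nat.Coprime.mul_right h1 h2
    · intro p t
      obtain ⟨hiff, harm⟩ := hmain p t
      have hp0 := Int.emod_nonneg (β * Yf p + if p n then 0 else 2 * (m : ℤ)) hMz.ne'
      have hp1 := Int.emod_lt_of_pos (β * Yf p + if p n then 0 else 2 * (m : ℤ)) hMz
      have hp2 := Int.emod_add_mul_ediv (β * Yf p + if p n then 0 else 2 * (m : ℤ)) M
      have ht0 := Int.emod_nonneg (β * τf t - L + if t n then -1 else (m : ℤ) - 1) hMz.ne'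
      have ht1 := Int.emod_lt_of_pos (β * τf t - L + if t n then -1 else (m : ℤ) - 1) hMz
      have ht2 := Int.emod_add_mul_ediv (β * τf t - L + if t n then -1 else (m : ℤ) - 1) M
      have hsum : 2 * (L : ℤ) * Yf p + yp p + (2 * L * τf t + (L + yt t)) =
          2 * L * (Yf p + τf t) + (yp p + (L + yt t)) := by ring
      have hyp0 : 0 ≤ yp p := hp0
      have hyp1 : yp p < M := hp1
      have hyt0 : 0 ≤ yt t := ht0
      have hyt1 : yt t < M := ht1
      show (Hy _ _ _ (2 * (L : ℤ) * Yf p + yp p + (2 * L * τf t + (L + yt t))) ↔ _) ∧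
        Arm _ _ (2 * (L : ℤ) * Yf p + yp p + (2 * L * τf t + (L + yt t)))
      rw [hsum]
      -- the value which decides
      have hval : ∃ e : ℤ, (yp p + (L + yt t)) - β * (Yf p + τf t) + 1 =
          (if p n then 0 else 2 * (m : ℤ)) + (if t n then 0 else (m : ℤ)) + M * e := by
        have h5 : yp p = (β * Yf p + if p n then 0 else 2 * (m : ℤ)) -
            M * ((β * Yf p + if p n then 0 else 2 * (m : ℤ)) / M) := by
          linear_combination hp2
        have h6 : yt t = (β * τf t - L + if t n then -1 else (m : ℤ) - 1) -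
            M * ((β * τf t - L + if t n then -1 else (m : ℤ) - 1) / M) := by
          linear_combination ht2
        refine ⟨-((β * Yf p + if p n then 0 else 2 * (m : ℤ)) / M) -
          ((β * τf t - L + if t n then -1 else (m : ℤ) - 1) / M), ?_⟩
        rw [h5, h6]
        by_cases hpn : p n <;> by_cases htn : t n <;> simp only [hpn, htn, if_true, if_false] <;>
          ring
      obtain ⟨e, he⟩ := hval
      have hmz : (M : ℤ) = 4 * m := by
        rw [hm]
        push_cast
        ring
      have hKm : (K : ℤ) + 1 ≤ m := by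
        have : K + 1 ≤ m := by omega
        exact_mod_cast this
      have hdec : ((M : ℤ) ∣ (yp p + (L + yt t)) - β * (Yf p + τf t) + 1) ↔ (t n ∧ p n) := by
        rw [he]
        constructor
        · intro hd
          have h7 : (M : ℤ) ∣ (if p n then 0 else 2 * (m : ℤ)) + (if t n then 0 else (m : ℤ)) :=
            (dvd_add_left (Dvd.intro e rfl)).1 hd
          rw [hmz] at h7
          by_cases hpn : p n <;> by_cases htn : t n
          · exact ⟨htn, hpn⟩
          · simp only [hpn, htn, if_true, if_false] at h7
            obtain ⟨z, hz⟩ := h7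
            exfalso
            have hz1 : z < 1 := by nlinarith
            have hz0 : 0 < z := by nlinarith
            omega
          · simp only [hpn, htn, if_true, if_false] at h7
            obtain ⟨z, hz⟩ := h7
            exfalso
            have hz1 : z < 1 := by nlinarith
            have hz0 : 0 < z := by nlinarith
            omega
          · simp only [hpn, htn, if_false] at h7
            obtain ⟨z, hz⟩ := h7
            exfalso
            have hz1 : z < 1 := by nlinarith
            have hz0 : 0 < z := by nlinarith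
            omega
        · rintro ⟨htn, hpn⟩
          simp only [hpn, htn, if_true, add_zero]
          exact ⟨e, by ring⟩
      have hneu : (M : ℤ) ∣ (yp p + (L + yt t)) - β * (Yf p + τf t) + 1 ∨
          ∀ v : ℤ, |v| ≤ K → ¬ (M : ℤ) ∣ (yp p + (L + yt t)) - β * (Yf p + τf t) + 1 - v := by
        by_cases hb : t n ∧ p n
        · exact Or.inl (hdec.2 hb)
        · right
          intro v hv hd
          rw [he] at hd
          rw [abs_le] at hv
          have h7 : (M : ℤ) ∣ ((if p n then 0 else 2 * (m : ℤ)) +
              (if t n then 0 else (m : ℤ)) - v) := by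
            have h8 : (if p n then 0 else 2 * (m : ℤ)) + (if t n then 0 else (m : ℤ)) + M * e - v =
              ((if p n then 0 else 2 * (m : ℤ)) + (if t n then 0 else (m : ℤ)) - v) + M * e := by
              ring
            rw [h8] at hd
            exact (dvd_add_left (Dvd.intro e rfl)).1 hd
          rw [hmz] at h7
          by_cases hpn : p n <;> by_cases htn : t n
          · exact hb ⟨htn, hpn⟩
          · simp only [hpn, htn, if_true, if_false] at h7
            obtain ⟨z, hz⟩ := h7
            have hz1 : z < 1 := by nlinarith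
            have hz0 : 0 < z := by nlinarith
            omega
          · simp only [hpn, htn, if_true, if_false] at h7
            obtain ⟨z, hz⟩ := h7
            have hz1 : z < 1 := by nlinarith
            have hz0 : 0 < z := by nlinarith
            omega
          · simp only [hpn, htn, if_false] at h7
            obtain ⟨z, hz⟩ := h7
            have hz1 : z < 1 := by nlinarith
            have hz0 : 0 < z := by nlinarith
            omega
      refine ⟨?_, arm_step (by omega) (by linarith) (by linarith) harm⟩
      rw [hy_step hM1 hLB hβ hLdvd (by linarith) (by linarith) hneu, hiff, hdec]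
      constructor
      · rintro (⟨s, hs, h⟩ | h)
        · exact ⟨s, by omega, h⟩
        · exact ⟨n, by omega, h⟩
      · rintro ⟨s, hs, h⟩
        rcases Nat.lt_succ_iff_lt_or_eq.1 hs with hs | rfl
        · exact Or.inl ⟨s, hs, h⟩
        · exact Or.inr h

end HYPaux

end Pool.Agent.VCNil.AT
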