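import Pool.Agent.Lib.MP_19d06a_co.AT.SpecB

/-!
# IVT (MP_19d06a_co): intermediate values of the last coordinate
-/

set_option autoImplicit false

namespace Pool.Agent.VCNil.AT

open TWTaux

namespace IVTaux

/-- first coordinate of a letter -/
def lx (l : Fin 2 × Bool) : ℤ := if l.1 = 0 then sg l.2 else 0

/-- second coordinate of a letter -/
def lv (l : Fin 2 × Bool) : ℤ := if l.1 = 0 then 0 else sg l.2

lemma letter (l : Fin 2 × Bool) : (if l.2 then gE l.1 else (gE l.1)⁻¹) = ⟨lx l, lv l, 0⟩ := by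
  rcases l with ⟨i, e⟩
  have hi : i = 0 ∨ i = 1 := by omega
  rcases hi with rfl | rfl <;> cases e <;> ext <;> simp [gE, lx, lv, sg]

lemma val_cons (l : Fin 2 × Bool) (w : List (Fin 2 × Bool)) :
    wordVal gE (l :: w) = ⟨lx l, lv l, 0⟩ * wordVal gE w := by
  rw [← letter]
  simp [wordVal]

lemma cons_v0 (l : Fin 2 × Bool) (w : List (Fin 2 × Bool)) :
    (wordVal gE (l :: w)).v0 = lv l + (wordVal gE w).v0 := by
  rw [val_cons]; rfl

lemma cons_v1 (l : Fin 2 × Bool) (w : List (Fin 2 × Bool)) :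
    (wordVal gE (l :: w)).v1 = (wordVal gE w).v1 + lx l * (wordVal gE w).v0 := by
  rw [val_cons]
  simp

lemma v0_perm {w w' : List (Fin 2 × Bool)} (h : w.Perm w') :
    (wordVal gE w).v0 = (wordVal gE w').v0 := by
  induction h with
  | nil => rfl
  | cons l _ ih => rw [cons_v0, cons_v0, ih]
  | swap a b w => rw [cons_v0, cons_v0, cons_v0, cons_v0]; ring
  | trans _ _ ih1 ih2 => rw [ih1, ih2]

lemma small (a b : Fin 2 × Bool) : |lx b * lv a - lx a * lv b| ≤ 1 := by
  rcases a with ⟨i, e⟩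
  rcases b with ⟨j, f⟩
  have hi : i = 0 ∨ i = 1 := by omega
  have hj : j = 0 ∨ j = 1 := by omega
  rcases hi with rfl | rfl <;> rcases hj with rfl | rfl <;> cases e <;> cases f <;>
    simp [lx, lv, sg]

lemma main {w w' : List (Fin 2 × Bool)} (h : w.Perm w') : ∀ z : ℤ,
    (((wordVal gE w).v1 ≤ z ∧ z ≤ (wordVal gE w').v1) ∨
      ((wordVal gE w').v1 ≤ z ∧ z ≤ (wordVal gE w).v1)) →
    ∃ w'' : List (Fin 2 × Bool), w''.Perm w ∧ (wordVal gE w'').v1 = z := by
  induction h with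
  | nil =>
    intro z hz
    refine ⟨[], List.Perm.refl _, ?_⟩
    omega
  | @cons l w w' hp ih =>
    intro z hz
    rw [cons_v1, cons_v1, ← v0_perm hp] at hz
    obtain ⟨w'', h1, h2⟩ := ih (z - lx l * (wordVal gE w).v0) (by omega)
    refine ⟨l :: w'', h1.cons l, ?_⟩
    rw [cons_v1, h2, v0_perm h1]
    ring
  | swap a b w =>
    intro z hz
    have hs := small a b
    rw [abs_le] at hs
    have f1 : (wordVal gE (b :: a :: w)).v1 = (wordVal gE w).v1 + lx a * (wordVal gE w).v0 +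
        (lx b * lv a + lx b * (wordVal gE w).v0) := by
      rw [cons_v1, cons_v1, cons_v0]; ring
    have f2 : (wordVal gE (a :: b :: w)).v1 = (wordVal gE w).v1 + lx b * (wordVal gE w).v0 +
        (lx a * lv b + lx a * (wordVal gE w).v0) := by
      rw [cons_v1, cons_v1, cons_v0]; ring
    by_cases h1 : z = (wordVal gE (b :: a :: w)).v1
    · exact ⟨_, List.Perm.refl _, h1.symm⟩
    · exact ⟨a :: b :: w, List.Perm.swap b a w, by omega⟩
  | @trans w1 w2 w3 h12 h23 ih1 ih2 =>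
    intro z hz
    have hcase : (((wordVal gE w1).v1 ≤ z ∧ z ≤ (wordVal gE w2).v1) ∨
        ((wordVal gE w2).v1 ≤ z ∧ z ≤ (wordVal gE w1).v1)) ∨
        (((wordVal gE w2).v1 ≤ z ∧ z ≤ (wordVal gE w3).v1) ∨
        ((wordVal gE w3).v1 ≤ z ∧ z ≤ (wordVal gE w2).v1)) := by omega
    rcases hcase with hc | hc
    · exact ih1 z hc
    · obtain ⟨w'', h1, h2⟩ := ih2 z hc
      exact ⟨w'', h1.trans h12.symm, h2⟩

end IVTaux

theorem specIVT : SpecIVT := fun _ _ hp z h1 h2 => IVTaux.main hp z (Or.inl ⟨h1, h2⟩)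

end Pool.Agent.VCNil.AT
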