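import Pool.Agent.Lib.MP_19d06a_co.AT.Spec

/-!
# KEY: four corners with the same classes
-/

set_option autoImplicit false

namespace Pool.Agent.VCNil.AT

namespace KEYaux

/-- The numerical data of the four corners. -/
structure Dat (A B C : ℤ) (U k al W be l : Fin 4 → ℤ) : Prop where
  hU : ∀ j, 0 < U j ∧ U j < A
  hW : ∀ j, 0 < W j ∧ W j < A
  hk : ∀ j, 0 < k j ∧ k j < B
  hl : ∀ j, 0 < l j ∧ l j < C
  hal : ∀ j, -l j < al j ∧ al j < C - l j
  hbe : ∀ j, -k j < be j ∧ be j < B - k j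
  E1 : ∀ h i j, ¬ (0 < U j - U i ∧ U j - U i < A ∧ -k h < k i - k j ∧ k i - k j < B - k h ∧
    -l h < al j - al i ∧ al j - al i < C - l h)
  E2 : ∀ h i j, ¬ (0 < W j - W i ∧ W j - W i < A ∧ -k h < be j - be i ∧ be j - be i < B - k h ∧
    -l h < l i - l j ∧ l i - l j < C - l h)
  E3 : ∀ h c i j, ¬ (0 < W c + (U j - U i) ∧ W c + (U j - U i) < A ∧
    -k h < be c + (k i - k j) ∧ be c + (k i - k j) < B - k h ∧
    -l h < -l c + (al j - al i) ∧ -l c + (al j - al i) < C - l h)
  E4 : ∀ h c i j, ¬ (0 < U c + (W j - W i) ∧ U c + (W j - W i) < A ∧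
    -k h < -k c + (be j - be i) ∧ -k c + (be j - be i) < B - k h ∧
    -l h < al c + (l i - l j) ∧ al c + (l i - l j) < C - l h)

variable {A B C : ℤ} {U k al W be l : Fin 4 → ℤ}

/-- Exchange of the directions `1` and `2`. -/
theorem Dat.swap (D : Dat A B C U k al W be l) : Dat A C B W l be U al k where
  hU := D.hW
  hW := D.hU
  hk := D.hl
  hl := D.hk
  hal := D.hbe
  hbe := D.hal
  E1 h i j hh := D.E2 h i j ⟨hh.1, hh.2.1, hh.2.2.2.2.1, hh.2.2.2.2.2, hh.2.2.1, hh.2.2.2.1⟩
  E2 h i j hh := D.E1 h i j ⟨hh.1, hh.2.1, hh.2.2.2.2.1, hh.2.2.2.2.2, hh.2.2.1, hh.2.2.2.1⟩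
  E3 h c i j hh := D.E4 h c i j ⟨hh.1, hh.2.1, hh.2.2.2.2.1, hh.2.2.2.2.2, hh.2.2.1, hh.2.2.2.1⟩
  E4 h c i j hh := D.E3 h c i j ⟨hh.1, hh.2.1, hh.2.2.2.2.1, hh.2.2.2.2.2, hh.2.2.1, hh.2.2.2.1⟩

theorem T1 (D : Dat A B C U k al W be l) {i j : Fin 4} (h : U i = U j) :
    al i + l i ≤ al j + l j := by
  have h1 := D.E3 i j i j
  have h2 := D.hW j
  have h3 := D.hbe j
  have h4 := D.hal i
  have h5 := D.hal j
  have h6 := D.hk i
  -- the point `n j - (m j - m i)`
  have h7 := D.E3 i j j i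
  omega

theorem T2 (D : Dat A B C U k al W be l) {i j : Fin 4} (h : U i = U j) :
    al j - al i = l i - l j := by
  have h1 := T1 D h
  have h2 := T1 D h.symm
  omega

theorem SA (D : Dat A B C U k al W be l) (hA : ∀ j, 0 ≤ al j) {i j : Fin 4} (h : U i < U j) :
    al j + l j ≤ al i := by
  have h1 := D.E1 j i j
  have h2 := D.hU i
  have h3 := D.hU j
  have h4 := D.hk i
  have h5 := D.hk j
  have h6 := hA i
  have h7 := hA j
  have h8 := D.hal i
  have h9 := D.hal j
  omega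

theorem SB (D : Dat A B C U k al W be l) (hB : ∀ j, al j ≤ 0) {i j : Fin 4} (h : U i < U j) :
    C - l j ≤ al j - al i := by
  have h1 := D.E1 j i j
  have h2 := D.hU i
  have h3 := D.hU j
  have h4 := D.hk i
  have h5 := D.hk j
  have h6 := hB i
  have h7 := hB j
  have h8 := D.hal i
  have h9 := D.hal j
  omega

theorem A2 (D : Dat A B C U k al W be l) (hA : ∀ j, 0 ≤ al j) {i j : Fin 4} (h : U i < U j) :
    W j ≤ U j - U i := by
  have h0 := SA D hA h
  have h1 := D.E3 i j j i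
  have h2 := D.hW j
  have h3 := D.hbe j
  have h4 := D.hal i
  have h5 := D.hal j
  have h6 := D.hl i
  have h7 := D.hl j
  omega

theorem B2 (D : Dat A B C U k al W be l) (hB : ∀ j, al j ≤ 0) {i j : Fin 4} (h : U i < U j) :
    A ≤ W i + U j - U i := by
  have h0 := SB D hB h
  have h1 := D.E3 j i i j
  have h2 := D.hW i
  have h3 := D.hbe i
  have h4 := D.hal i
  have h5 := D.hal j
  have h6 := D.hl i
  have h7 := D.hl j
  have h8 := hB j
  omega

/-- The first coordinates are in opposite order. -/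
theorem opp (D : Dat A B C U k al W be l) (hα : (∀ j, 0 ≤ al j) ∨ ∀ j, al j ≤ 0)
    (hβ : (∀ j, 0 ≤ be j) ∨ ∀ j, be j ≤ 0) (hW : ∀ i j, W i = W j → i = j) {i j : Fin 4}
    (h : U i < U j) : W j < W i := by
  by_contra hcon
  have hne : W i ≠ W j := by
    intro he
    rw [hW i j he] at h
    exact lt_irrefl _ h
  have hlt : W i < W j := by omega
  have g1 := D.hU i
  have g2 := D.hU j
  have g3 := D.hW i
  have g4 := D.hW j
  rcases hα with hα | hα <;> rcases hβ with hβ | hβ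
  · have e1 := A2 D hα h
    have e2 := A2 D.swap hβ hlt
    omega
  · have e1 := A2 D hα h
    have e2 := B2 D.swap hβ hlt
    omega
  · have e1 := B2 D hα h
    have e2 := A2 D.swap hβ hlt
    omega
  · have e1 := B2 D hα h
    have e2 := B2 D.swap hβ hlt
    omega

theorem caseAA (D : Dat A B C U k al W be l) (hα : ∀ j, 0 ≤ al j) (hβ : ∀ j, 0 ≤ be j)
    {a b c : Fin 4} (h1 : U a < U b) (g2 : W c < W b) : False := by
  have e1 := A2 D hα h1
  have e2 := A2 D.swap hβ g2
  have := D.hU a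
  have := D.hW c
  omega

theorem caseBB (D : Dat A B C U k al W be l) (hα : ∀ j, al j ≤ 0) (hβ : ∀ j, be j ≤ 0)
    {a b c : Fin 4} (h2 : U b < U c) (g1 : W b < W a) : False := by
  have e1 := B2 D hα h2
  have e2 := B2 D.swap hβ g1
  have := D.hU c
  have := D.hW a
  omega

theorem stepIII (D : Dat A B C U k al W be l) (hα : ∀ j, 0 ≤ al j) (hβ : ∀ j, be j ≤ 0)
    {i j : Fin 4} (h : U i < U j) (g : W j < W i) : W i ≤ U j - U i := by
  have e1 := SA D hα h
  have e2 := SB D.swap hβ g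
  have e3 := D.E3 i i j i
  have a1 := D.hW i
  have a2 := D.hbe j
  have a3 := D.hbe i
  have a4 := hβ i
  have a5 := D.hk j
  have a6 := D.hl i
  have a7 := D.hl j
  have a8 := hα j
  have a9 := D.hal i
  have a10 := D.hk i
  omega

theorem stepIV (D : Dat A B C U k al W be l) (hα : ∀ j, 0 ≤ al j) (hβ : ∀ j, be j ≤ 0)
    {i j : Fin 4} (h : U i < U j) (g : W j < W i) : C ≤ al i + l j := by
  have e0 := stepIII D hα hβ h g
  have e2 := SB D.swap hβ g
  have e3 := D.E4 i i j i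
  have a0 := D.hU i
  have a00 := D.hU j
  have a1 := D.hW i
  have a11 := D.hW j
  have a2 := D.hbe j
  have a3 := D.hbe i
  have a4 := hβ i
  have a5 := D.hk j
  have a6 := D.hl i
  have a7 := D.hl j
  have a8 := hα i
  have a9 := D.hal i
  have a10 := D.hk i
  omega

theorem stepK (D : Dat A B C U k al W be l) (hβ : ∀ j, be j ≤ 0)
    {i j : Fin 4} (g : W j < W i) : B < k i + k j := by
  have e2 := SB D.swap hβ g
  have a4 := hβ i
  have a2 := D.hbe j
  omega

theorem stepV (D : Dat A B C U k al W be l) (hα : ∀ j, 0 ≤ al j) (hβ : ∀ j, be j ≤ 0)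
    {i j h : Fin 4} (h1 : U i < U j) (h2 : U j < U h) (g2 : W h < W j)
    (g3 : W h < W i) : B + k j ≤ k i + k h := by
  have e1 := SA D hα h1
  have e2 := stepIV D hα hβ h2 g2
  have e3 := stepK D hβ g3
  have e4 := D.E1 h i j
  have a1 := D.hU i
  have a2 := D.hU j
  have a3 := D.hal i
  have a4 := D.hl i
  have a5 := D.hl j
  have a6 := D.hl h
  have a7 := D.hk j
  have a8 := D.hk i
  have a9 := D.hk h
  omega

theorem caseAB (D : Dat A B C U k al W be l) (hα : ∀ j, 0 ≤ al j) (hβ : ∀ j, be j ≤ 0)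
    (hop : ∀ i j, U i < U j → W j < W i)
    {a b c d : Fin 4} (h1 : U a < U b) (h2 : U b < U c) (h3 : U c < U d) : False := by
  have e1 := stepV D hα hβ h1 h2 (hop _ _ h2) (hop _ _ (h1.trans h2))
  have e2 := stepV D hα hβ h2 h3 (hop _ _ h3) (hop _ _ (h2.trans h3))
  have a1 := D.hk a
  have a2 := D.hk d
  omega

/-- Four indices in increasing order. -/
theorem sorted (U : Fin 4 → ℤ) (hU : ∀ i j, U i = U j → i = j) :
    ∃ a b c d : Fin 4, U a < U b ∧ U b < U c ∧ U c < U d := by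
  have hmono : StrictMono (U ∘ Tuple.sort U) := by
    apply (Tuple.monotone_sort U).strictMono_of_injective
    intro i j hij
    exact (Tuple.sort U).injective (hU _ _ hij)
  refine ⟨Tuple.sort U 0, Tuple.sort U 1, Tuple.sort U 2, Tuple.sort U 3, ?_, ?_, ?_⟩
  · exact hmono (by decide)
  · exact hmono (by decide)
  · exact hmono (by decide)

theorem numeric (D : Dat A B C U k al W be l) (hα : (∀ j, 0 ≤ al j) ∨ ∀ j, al j ≤ 0)
    (hβ : (∀ j, 0 ≤ be j) ∨ ∀ j, be j ≤ 0) :
    ∃ i j, i ≠ j ∧ ((U i = U j ∧ al j - al i = l i - l j) ∨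
      (W i = W j ∧ be j - be i = k i - k j)) := by
  by_contra hcon
  have hU : ∀ i j, U i = U j → i = j := by
    intro i j hij
    by_contra hne
    exact hcon ⟨i, j, hne, Or.inl ⟨hij, T2 D hij⟩⟩
  have hW : ∀ i j, W i = W j → i = j := by
    intro i j hij
    by_contra hne
    exact hcon ⟨i, j, hne, Or.inr ⟨hij, T2 D.swap hij⟩⟩
  have hop : ∀ i j, U i < U j → W j < W i := fun i j h => opp D hα hβ hW h
  have hop' : ∀ i j, W i < W j → U j < U i := fun i j h => opp D.swap hβ hα hU h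
  obtain ⟨a, b, c, d, h1, h2, h3⟩ := sorted U hU
  rcases hα with hα | hα <;> rcases hβ with hβ | hβ
  · exact caseAA D hα hβ h1 (hop _ _ h2)
  · exact caseAB D hα hβ hop h1 h2 h3
  · exact caseAB D.swap hβ hα hop' (hop _ _ h3) (hop _ _ h2) (hop _ _ h1)
  · exact caseBB D hα hβ h2 (hop _ _ h1)

end KEYaux

open KEYaux in
theorem specKEY : SpecKEY := by
  intro Λ s y q p hs hcos hemp hcor hbox hα hβ
  -- membership of differences of points of the same class
  have hdiff : ∀ (a : Fin 3) (i j : Fin 4), p j a - p i a ∈ Λ := by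
    intro a i j
    have h := Λ.sub_mem (hcos j a) (hcos i a)
    have e : p j a - y a - (p i a - y a) = p j a - p i a := by abel
    rwa [e] at h
  -- emptiness in terms of the points
  have hE : ∀ (h c : Fin 4) (a : Fin 3) (w : V3), w ∈ Λ →
      ¬ (q h 0 < p c a 0 + w 0 ∧ p c a 0 + w 0 < q h 0 + s 0 ∧
        q h 1 < p c a 1 + w 1 ∧ p c a 1 + w 1 < q h 1 + s 1 ∧
        q h 2 < p c a 2 + w 2 ∧ p c a 2 + w 2 < q h 2 + s 2) := by
    intro h c a w hw hh
    refine hemp h a ((p c a - y a) + w) (Λ.add_mem (hcos c a) hw) ?_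
    intro b
    have e : y a b + ((p c a - y a) + w) b = p c a b + w b := by
      simp only [Pi.add_apply, Pi.sub_apply]
      ring
    rw [e]
    fin_cases b
    · exact ⟨hh.1, hh.2.1⟩
    · exact ⟨hh.2.2.1, hh.2.2.2.1⟩
    · exact ⟨hh.2.2.2.2.1, hh.2.2.2.2.2⟩
  have c0 : ∀ j, p j 0 0 = q j 0 := fun j => hcor j 0
  have c1 : ∀ j, p j 1 1 = q j 1 := fun j => hcor j 1
  have c2 : ∀ j, p j 2 2 = q j 2 := fun j => hcor j 2
  have b01 : ∀ j, q j 1 < p j 0 1 ∧ p j 0 1 < q j 1 + s 1 := fun j => hbox j 0 1 (by decide)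
  have b02 : ∀ j, q j 2 < p j 0 2 ∧ p j 0 2 < q j 2 + s 2 := fun j => hbox j 0 2 (by decide)
  have b10 : ∀ j, q j 0 < p j 1 0 ∧ p j 1 0 < q j 0 + s 0 := fun j => hbox j 1 0 (by decide)
  have b12 : ∀ j, q j 2 < p j 1 2 ∧ p j 1 2 < q j 2 + s 2 := fun j => hbox j 1 2 (by decide)
  have b20 : ∀ j, q j 0 < p j 2 0 ∧ p j 2 0 < q j 0 + s 0 := fun j => hbox j 2 0 (by decide)
  have b21 : ∀ j, q j 1 < p j 2 1 ∧ p j 2 1 < q j 1 + s 1 := fun j => hbox j 2 1 (by decide)
  have D : Dat (s 0) (s 1) (s 2) (fun j => p j 1 0 - q j 0) (fun j => p j 0 1 - q j 1)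
      (fun j => p j 1 2 - p j 0 2) (fun j => p j 2 0 - q j 0) (fun j => p j 2 1 - p j 0 1)
      (fun j => p j 0 2 - q j 2) := by
    refine ⟨?_, ?_, ?_, ?_, ?_, ?_, ?_, ?_, ?_, ?_⟩
    · intro j
      have := b10 j
      constructor <;> omega
    · intro j
      have := b20 j
      constructor <;> omega
    · intro j
      have := b01 j
      constructor <;> omega
    · intro j
      have := b02 j
      constructor <;> omega
    · intro j
      have := b02 j
      have := b12 j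
      constructor <;> omega
    · intro j
      have := b01 j
      have := b21 j
      constructor <;> omega
    · -- `p h 0 + (m j - m i)`
      intro h i j hh
      have hw : (p j 1 - p i 1) - (p j 0 - p i 0) ∈ Λ := Λ.sub_mem (hdiff 1 i j) (hdiff 0 i j)
      have := hE h h 0 _ hw
      simp only [Pi.sub_apply] at this
      have d1 := c0 h
      have d2 := c0 i
      have d3 := c0 j
      have d4 := c1 i
      have d5 := c1 j
      apply this
      refine ⟨?_, ?_, ?_, ?_, ?_, ?_⟩ <;> omega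
    · intro h i j hh
      have hw : (p j 2 - p i 2) - (p j 0 - p i 0) ∈ Λ := Λ.sub_mem (hdiff 2 i j) (hdiff 0 i j)
      have := hE h h 0 _ hw
      simp only [Pi.sub_apply] at this
      have d1 := c0 h
      have d2 := c0 i
      have d3 := c0 j
      have d4 := c2 i
      have d5 := c2 j
      apply this
      refine ⟨?_, ?_, ?_, ?_, ?_, ?_⟩ <;> omega
    · -- the point `p h 0 + n c + (m j - m i)` of the class `2`
      intro h c i j hh
      have hw : (p h 0 - p c 0) + ((p j 1 - p i 1) - (p j 0 - p i 0)) ∈ Λ :=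
        Λ.add_mem (hdiff 0 c h) (Λ.sub_mem (hdiff 1 i j) (hdiff 0 i j))
      have := hE h c 2 _ hw
      simp only [Pi.sub_apply, Pi.add_apply] at this
      have d0 := c0 h
      have d1 := c0 c
      have d2 := c0 i
      have d3 := c0 j
      have d4 := c1 i
      have d5 := c1 j
      have d6 := c2 c
      apply this
      refine ⟨?_, ?_, ?_, ?_, ?_, ?_⟩ <;> omega
    · intro h c i j hh
      have hw : (p h 0 - p c 0) + ((p j 2 - p i 2) - (p j 0 - p i 0)) ∈ Λ :=
        Λ.add_mem (hdiff 0 c h) (Λ.sub_mem (hdiff 2 i j) (hdiff 0 i j))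
      have := hE h c 1 _ hw
      simp only [Pi.sub_apply, Pi.add_apply] at this
      have d0 := c0 h
      have d1 := c0 c
      have d2 := c0 i
      have d3 := c0 j
      have d4 := c2 i
      have d5 := c2 j
      have d6 := c1 c
      apply this
      refine ⟨?_, ?_, ?_, ?_, ?_, ?_⟩ <;> omega
  have hα' : (∀ j, 0 ≤ p j 1 2 - p j 0 2) ∨ ∀ j, p j 1 2 - p j 0 2 ≤ 0 := by
    rcases hα with h | h
    · exact Or.inl fun j => by have := h j; omega
    · exact Or.inr fun j => by have := h j; omega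
  have hβ' : (∀ j, 0 ≤ p j 2 1 - p j 0 1) ∨ ∀ j, p j 2 1 - p j 0 1 ≤ 0 := by
    rcases hβ with h | h
    · exact Or.inl fun j => by have := h j; omega
    · exact Or.inr fun j => by have := h j; omega
  obtain ⟨i, j, hij, h⟩ := numeric D hα' hβ'
  refine ⟨i, j, hij, ?_⟩
  rcases h with ⟨h1, h2⟩ | ⟨h1, h2⟩
  · refine ⟨p j 1 - p i 1, hdiff 1 i j, ?_⟩
    have d1 := c1 i
    have d2 := c1 j
    intro b
    fin_cases b
    · show q j 0 = q i 0 + (p j 1 0 - p i 1 0)
      omega
    · show q j 1 = q i 1 + (p j 1 1 - p i 1 1)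
      omega
    · show q j 2 = q i 2 + (p j 1 2 - p i 1 2)
      omega
  · refine ⟨p j 2 - p i 2, hdiff 2 i j, ?_⟩
    have d1 := c2 i
    have d2 := c2 j
    intro b
    fin_cases b
    · show q j 0 = q i 0 + (p j 2 0 - p i 2 0)
      omega
    · show q j 1 = q i 1 + (p j 2 1 - p i 2 1)
      omega
    · show q j 2 = q i 2 + (p j 2 2 - p i 2 2)
      omega

end Pool.Agent.VCNil.AT
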