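import Pool.Agent.Lib.MP_19d06a_co.AT.SpecB

/-!
# Module LAT: boxes and lattices in `ℤ³`
-/

set_option autoImplicit false

namespace Pool.Agent.VCNil.AT

namespace LATaux

/-- the lattice -/
def lat (K : AddSubgroup V3) (T : ℤ) : AddSubgroup V3 where
  carrier := {v | ∃ u ∈ K, ∃ t : V3, v = (100 : ℤ) • (u + T • t)}
  zero_mem' := ⟨0, K.zero_mem, 0, by simp⟩
  add_mem' := by
    rintro v v' ⟨u, hu, t, rfl⟩ ⟨u', hu', t', rfl⟩
    exact ⟨u + u', K.add_mem hu hu', t + t', by simp only [smul_add]; abel⟩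
  neg_mem' := by
    rintro v ⟨u, hu, t, rfl⟩
    exact ⟨-u, K.neg_mem hu, -t, by simp only [smul_add, smul_neg]; abel⟩

/-- the arithmetic of the box -/
lemma box_iff (i : ℤ) (hi : 0 ≤ i) (hid : i < 50) (x w z s : ℤ) :
    (100 * z - 1 < (100 * x + i) + 100 * w ∧
      (100 * x + i) + 100 * w ≤ 100 * z - 1 + (100 * s + 50)) ↔
      (z ≤ x + w ∧ x + w ≤ z + s) := by
  constructor
  · rintro ⟨h1, h2⟩
    constructor <;> omega
  · rintro ⟨h1, h2⟩
    constructor <;> omega

end LATaux

open LATaux in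
theorem specLAT (hPIG : SpecPIG) (hRFN : SpecRFN) : SpecLAT := by
  classical
  intro K s x hcon
  choose z hz using hcon
  -- the finite set and the period
  let F : Finset V3 := Finset.univ.biUnion fun i : Fin 50 =>
    (Finset.univ : Finset (Set (Fin 50))).biUnion fun I =>
      Fintype.piFinset fun b => Finset.Icc (z I b - x i b) (z I b - x i b + (s b : ℤ))
  obtain ⟨T, hT, hTF⟩ := hRFN K F
  have hmem' : ∀ (I : Set (Fin 50)) (i : Fin 50), i ∈ I ↔
      ∃ u ∈ K, ∃ t : V3, ∀ b, z I b ≤ x i b + (u + (T : ℤ) • t) b ∧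
        x i b + (u + (T : ℤ) • t) b ≤ z I b + s b := by
    intro I i
    rw [hz I i]
    constructor
    · rintro ⟨u, hu, h1⟩
      refine ⟨u, hu, 0, fun b => ?_⟩
      rw [smul_zero, add_zero]
      exact h1 b
    · rintro ⟨u, hu, t, h1⟩
      refine ⟨u + (T : ℤ) • t, hTF _ ?_ ⟨u, hu, t, rfl⟩, h1⟩
      simp only [F, Finset.mem_biUnion, Finset.mem_univ, true_and, Fintype.mem_piFinset,
        Finset.mem_Icc]
      refine ⟨i, I, fun b => ?_⟩
      have := h1 b
      constructor <;> omega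
  -- the system
  have hTZ : (0 : ℤ) < T := by exact_mod_cast hT
  let Q : Sys 50 :=
    { Λ := lat K T
      s := fun b => 100 * (s b : ℤ) + 50
      x := fun i b => 100 * x i b + ((i : ℕ) : ℤ)
      T := 100 * T
      hT := by positivity
      per := by
        intro c
        refine ⟨0, K.zero_mem, Pi.single c 1, ?_⟩
        funext b
        rw [zero_add]
        by_cases hb : b = c
        · subst hb
          simp
        · simp [Pi.single_eq_of_ne hb]
      div := by
        rintro v ⟨u, _, t, rfl⟩ b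
        exact ⟨(u + (T : ℤ) • t) b, by simp⟩
      hs := by
        intro b
        positivity
      smod := by
        intro b
        push_cast
        omega
      xmod := by
        intro i b
        have := i.2
        push_cast
        omega }
  apply hPIG Q
  intro I
  refine ⟨fun b => 100 * z I b - 1, ?_⟩
  ext i
  change Mem Q.Λ Q.s Finset.univ (Q.x i) _ ↔ _
  rw [hmem' I i]
  have hi : ((i : ℕ) : ℤ) < 50 := by exact_mod_cast i.2
  constructor
  · rintro ⟨v, ⟨u, hu, t, rfl⟩, hv⟩
    refine ⟨u, hu, t, fun b => ?_⟩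
    have h1 := hv b (Finset.mem_univ b)
    have h2 : ((100 : ℤ) • (u + (T : ℤ) • t)) b = 100 * (u + (T : ℤ) • t) b := by
      simp
    rw [h2] at h1
    exact (box_iff i (by omega) hi (x i b) ((u + (T : ℤ) • t) b) (z I b) (s b)).1 h1
  · rintro ⟨u, hu, t, hv⟩
    refine ⟨(100 : ℤ) • (u + (T : ℤ) • t), ⟨u, hu, t, rfl⟩, fun b _ => ?_⟩
    have h2 : ((100 : ℤ) • (u + (T : ℤ) • t)) b = 100 * (u + (T : ℤ) • t) b := by
      simp
    rw [h2]
    exact (box_iff i (by omega) hi (x i b) ((u + (T : ℤ) • t) b) (z I b) (s b)).2 (hv b)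

end Pool.Agent.VCNil.AT
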