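import Pool.Agent.Lib.MP_19d06a_co.AT.SpecB

/-!
# LFT: lifting of a shattered set
-/

set_option autoImplicit false

namespace Pool.Agent.VCNil.AT

theorem specLFT : SpecLFT := by
  classical
  intro E G _ _ φ P F hF C hC Y hY
  by_contra hlt
  have hc : C + 2 ≤ Y.card := by omega
  obtain ⟨y0, hy0⟩ : Y.Nonempty := by
    rw [← Finset.card_pos]
    omega
  obtain ⟨T, ⟨g0, rfl⟩, hT⟩ := hY Y subset_rfl
  have hmem0 : ∀ y ∈ Y, g0⁻¹ * y ∈ φ '' P := by
    intro y hy
    have h1 : y ∈ tl (φ '' P) g0 ∩ (Y : Set G) := by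
      rw [hT]
      exact hy
    exact h1.1
  have hex : ∀ y : G, ∃ x : E, y ∈ Y → x ∈ P ∧ φ x = g0⁻¹ * y := by
    intro y
    by_cases hy : y ∈ Y
    · obtain ⟨x, hx, he⟩ := hmem0 y hy
      exact ⟨x, fun _ => ⟨hx, he⟩⟩
    · exact ⟨1, fun h => absurd h hy⟩
  choose n hn using hex
  have hinj : Set.InjOn n (Y : Set G) := by
    intro y hy y' hy' he
    have h1 := (hn y hy).2
    rw [he, (hn y' hy').2] at h1
    exact (mul_left_cancel h1).symm
  have hZcard : ((Y.erase y0).image n).card = Y.card - 1 := by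
    rw [Finset.card_image_of_injOn, Finset.card_erase_of_mem hy0]
    intro y hy y' hy' he
    exact hinj (Finset.mem_of_mem_erase hy) (Finset.mem_of_mem_erase hy') he
  have hsh : Shatters (Set.range F) ((Y.erase y0).image n) := by
    intro B hB
    obtain ⟨T, ⟨g, rfl⟩, hg⟩ := hY {y | y ∈ Y ∧ (n y ∈ B ∨ y = y0)} (fun y hy => hy.1)
    have hiff : ∀ y ∈ Y, g⁻¹ * y ∈ φ '' P ↔ (n y ∈ B ∨ y = y0) := by
      intro y hy
      constructor
      · intro h
        have h1 : y ∈ tl (φ '' P) g ∩ (Y : Set G) := ⟨h, hy⟩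
        rw [hg] at h1
        exact h1.2
      · intro h
        have h1 : y ∈ tl (φ '' P) g ∩ (Y : Set G) := by
          rw [hg]
          exact ⟨hy, h⟩
        exact h1.1
    obtain ⟨r, hrP, hr⟩ := (hiff y0 hy0).2 (Or.inr rfl)
    refine ⟨_, ⟨n y0 * r⁻¹, rfl⟩, ?_⟩
    have hfh : φ (n y0 * r⁻¹) = g0⁻¹ * g := by
      rw [map_mul, map_inv, (hn y0 hy0).2, hr]
      group
    have hkey : ∀ y ∈ Y, y ≠ y0 → (n y ∈ F (n y0 * r⁻¹) ↔ n y ∈ B) := by
      intro y hy hne
      rw [hF (n y) (hn y hy).1 (n y0) (hn y0 hy0).1 r hrP, map_mul, map_inv, hfh, (hn y hy).2]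
      have e : (g0⁻¹ * g)⁻¹ * (g0⁻¹ * y) = g⁻¹ * y := by group
      rw [e, hiff y hy]
      constructor
      · rintro (h | h)
        · exact h
        · exact absurd h hne
      · exact Or.inl
    ext z
    constructor
    · rintro ⟨h1, h2⟩
      obtain ⟨y, hy, rfl⟩ := Finset.mem_image.1 (Finset.mem_coe.1 h2)
      exact (hkey y (Finset.mem_of_mem_erase hy) (Finset.ne_of_mem_erase hy)).1 h1
    · intro hz
      have h2 := hB hz
      refine ⟨?_, h2⟩
      obtain ⟨y, hy, rfl⟩ := Finset.mem_image.1 (Finset.mem_coe.1 h2)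
      exact (hkey y (Finset.mem_of_mem_erase hy) (Finset.ne_of_mem_erase hy)).2 hz
  have h1 := hC _ hsh
  omega

end Pool.Agent.VCNil.AT
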