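import Pool.Agent.Lib.MP_19d06a_co.AT.Spec

/-!
# Module LOOP (MP_19d06a_co, abelian threshold)
-/

set_option autoImplicit false

namespace Pool.Agent.VCNil.AT

/-- Going down in the direction `a` one meets every class which is in the right position with
respect to the other directions. -/
theorem specLOOP : SpecLOOP := by
  classical
  intro Λ s S x z a T hs hT hper haS hmem
  obtain ⟨v, hv, hb⟩ := hmem
  obtain ⟨m, hm⟩ : ∃ m : ℕ, x a + v a - z a ≤ (m : ℤ) := ⟨(x a + v a - z a).toNat, by omega⟩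
  have hmT : (m : ℤ) ≤ (m : ℤ) * T := by
    have h0 : (0 : ℤ) ≤ (m : ℤ) := Int.natCast_nonneg m
    nlinarith
  obtain ⟨n, hn⟩ : ∃ n : ℕ, (n : ℤ) = z a - (x a + v a - (m : ℤ) * T) + 1 :=
    ⟨(z a - (x a + v a - (m : ℤ) * T) + 1).toNat, by
      rw [Int.toNat_of_nonneg]
      linarith⟩
  refine ⟨n, v - (m : ℤ) • Pi.single a T, Λ.sub_mem hv (Λ.zsmul_mem hper _), ?_⟩
  intro b hbS
  by_cases hba : b = a
  · subst hba
    simp only [Pi.sub_apply, Pi.smul_apply, Pi.single_eq_same, Function.update_self, smul_eq_mul]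
    constructor
    · linarith
    · linarith
  · have h1 := hb b (Finset.mem_erase.mpr ⟨hba, hbS⟩)
    simp only [Pi.sub_apply, Pi.smul_apply, Pi.single_eq_of_ne hba, smul_zero, sub_zero]
    rw [Function.update_of_ne hba]
    exact h1

end Pool.Agent.VCNil.AT
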