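import Pool.Agent.Lib.MP_19d06a_co.AT.SpecB

/-!
MP_19d06a_co, module LRG: rank two, class two, many letters `a` and `b`.
-/

set_option autoImplicit false

namespace Pool.Agent.VCNil.AT

open TWTaux

namespace LRGaux

lemma zp (z : ℤ) : (⟨0, 0, 1⟩ : E2) ^ z = ⟨0, 0, z⟩ := by
  induction z using Int.induction_on with
  | zero =>
    rw [zpow_zero]
    rfl
  | succ n ih =>
    rw [zpow_add_one, ih]
    ext <;> simp
  | pred n ih =>
    rw [zpow_sub_one, ih]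
    ext
    · simp
    · simp
    · simp
      ring

lemma key {G : Type} [Group G] (φ : E2 →* G) (z : ℤ) :
    φ ⟨0, 0, z⟩ = 1 ↔ ((orderOf (φ ⟨0, 0, 1⟩) : ℕ) : ℤ) ∣ z := by
  rw [orderOf_dvd_iff_zpow_eq_one, ← map_zpow, zp]

lemma ct_add (w : List (Fin 2 × Bool)) (i : Fin 2) :
    w.countP (fun l => decide (l.1 = i)) = ct i true w + ct i false w := by
  induction w with
  | nil => rfl
  | cons l w ih =>
    obtain ⟨j, e⟩ := l
    unfold ct at ih ⊢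
    rw [List.countP_cons, List.countP_cons, List.countP_cons, ih]
    by_cases h : j = i
    · cases e
      · simp [h]
        omega
      · simp [h]
        omega
    · cases e
      · simp [h]
      · simp [h]

/-- Bounds for the three coordinates. -/
def Bd (p : E2) (A B C : ℤ) : Prop := |p.x| ≤ A ∧ |p.v0| ≤ B ∧ |p.v1| ≤ C

lemma Bd.mul {p q : E2} {A B C A' B' C' : ℤ} (h : Bd p A B C) (h' : Bd q A' B' C') :
    Bd (p * q) (A + A') (B + B') (C + C' + A * B') := by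
  obtain ⟨h1, h2, h3⟩ := h
  obtain ⟨g1, g2, g3⟩ := h'
  refine ⟨?_, ?_, ?_⟩
  · rw [E2.mul_x]
    exact (abs_add_le _ _).trans (add_le_add h1 g1)
  · rw [E2.mul_v0]
    exact (abs_add_le _ _).trans (add_le_add h2 g2)
  · rw [E2.mul_v1]
    have e1 : |p.x * q.v0| ≤ A * B' := by
      rw [abs_mul]
      exact mul_le_mul h1 g2 (abs_nonneg _) ((abs_nonneg _).trans h1)
    have e2 := abs_add_le p.v1 (q.v1 + p.x * q.v0)
    have e3 := abs_add_le q.v1 (p.x * q.v0)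
    linarith

lemma Bd.inv {p : E2} {A B C : ℤ} (h : Bd p A B C) : Bd p⁻¹ A B (C + A * B) := by
  obtain ⟨h1, h2, h3⟩ := h
  refine ⟨?_, ?_, ?_⟩
  · rw [E2.inv_x, abs_neg]
    exact h1
  · rw [E2.inv_v0, abs_neg]
    exact h2
  · rw [E2.inv_v1, abs_neg]
    have e1 : |p.x * p.v0| ≤ A * B := by
      rw [abs_mul]
      exact mul_le_mul h1 h2 (abs_nonneg _) ((abs_nonneg _).trans h1)
    have e2 := abs_sub p.v1 (p.x * p.v0)
    linarith

lemma bounds (hUPB : SpecUPB) {N1 N2 : ℕ} {p : E2} (hp : p ∈ HP N1 N2) :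
    Bd p N1 N2 (N1 * N2) := by
  obtain ⟨w, hw, rfl⟩ := hp
  obtain ⟨h1, h2, h3, h4⟩ := hUPB w
  have w0 := hw 0
  have w1 := hw 1
  rw [ct_add] at w0 w1
  have e0 : (![N1, N2] : Fin 2 → ℕ) 0 = N1 := rfl
  have e1 : (![N1, N2] : Fin 2 → ℕ) 1 = N2 := rfl
  rw [e0] at w0
  rw [e1] at w1
  have w0' : (ct 0 true w : ℤ) + ct 0 false w ≤ N1 := by exact_mod_cast w0
  have w1' : (ct 1 true w : ℤ) + ct 1 false w ≤ N2 := by exact_mod_cast w1
  have p0 : (0 : ℤ) ≤ ct 0 true w := Int.natCast_nonneg _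
  have p0' : (0 : ℤ) ≤ ct 0 false w := Int.natCast_nonneg _
  have q0 : (0 : ℤ) ≤ ct 1 true w := Int.natCast_nonneg _
  have q0' : (0 : ℤ) ≤ ct 1 false w := Int.natCast_nonneg _
  generalize (ct 0 true w : ℤ) = P at *
  generalize (ct 0 false w : ℤ) = P' at *
  generalize (ct 1 true w : ℤ) = Q at *
  generalize (ct 1 false w : ℤ) = Q' at *
  have hm : 0 ≤ min P P' * min Q Q' := mul_nonneg (le_min p0 p0') (le_min q0 q0')
  have hprod : (P + P') * (Q + Q') ≤ N1 * N2 :=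
    mul_le_mul w0' w1' (by linarith) (by positivity)
  have hPQ := mul_nonneg p0 q0
  have hPQ' := mul_nonneg p0 q0'
  have hP'Q := mul_nonneg p0' q0
  have hP'Q' := mul_nonneg p0' q0'
  have hexp : (P + P') * (Q + Q') = P * Q + P * Q' + P' * Q + P' * Q' := by ring
  refine ⟨?_, ?_, ?_⟩
  · rw [h1, abs_le]
    constructor <;> linarith
  · rw [h2, abs_le]
    constructor <;> linarith
  · rw [abs_le]
    constructor <;> linarith

/-- The projection to the first two coordinates. -/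
def π (p : E2) : V3 := ![p.x, p.v0, 0]

lemma box_iff (N1 N2 : ℕ) (p : E2) :
    p ∈ boxSet π ⊤ 0 ![-(N1 : ℤ), -(N2 : ℤ), 0] ![2 * N1, 2 * N2, 0] ↔
      |p.x| ≤ N1 ∧ |p.v0| ≤ N2 := by
  constructor
  · rintro ⟨-, h⟩
    have h0 := h 0
    have h1 := h 1
    simp only [π, Matrix.cons_val_zero, Matrix.cons_val_one] at h0 h1
    push_cast at h0 h1
    constructor
    · rw [abs_le]
      constructor <;> linarith [h0.1, h0.2]
    · rw [abs_le]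
      constructor <;> linarith [h1.1, h1.2]
  · rintro ⟨h0, h1⟩
    rw [abs_le] at h0 h1
    refine ⟨trivial, fun b => ?_⟩
    fin_cases b
    · simp only [π, Fin.zero_eta, Matrix.cons_val_zero]
      push_cast
      constructor <;> linarith [h0.1, h0.2]
    · simp only [π, Fin.mk_one, Matrix.cons_val_one]
      push_cast
      constructor <;> linarith [h1.1, h1.2]
    · simp [π]

lemma case1 (hVCB : SpecVCB) (hUPB : SpecUPB) (hCOV : SpecCOV) {G : Type} [Group G]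
    (φ : E2 →* G) (N1 N2 : ℕ) (h1 : 48 ≤ N1) (h2 : 48 ≤ N2)
    (hM1 : 1 ≤ orderOf (φ ⟨0, 0, 1⟩)) (hM2 : 12 * orderOf (φ ⟨0, 0, 1⟩) ≤ N1 * N2)
    (Y : Finset G) (hY : Shatters (Set.range (tl (φ '' HP N1 N2))) Y) : Y.card ≤ 50 := by
  have e : φ '' HP N1 N2 =
      φ '' boxSet π ⊤ 0 ![-(N1 : ℤ), -(N2 : ℤ), 0] ![2 * N1, 2 * N2, 0] := by
    apply Set.Subset.antisymm
    · rintro _ ⟨p, hp, rfl⟩
      have hb := bounds hUPB hp
      exact ⟨p, (box_iff N1 N2 p).2 ⟨hb.1, hb.2.1⟩, rfl⟩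
    · rintro _ ⟨p, hp, rfl⟩
      obtain ⟨hx, hy⟩ := (box_iff N1 N2 p).1 hp
      obtain ⟨k, hk⟩ := hCOV N1 N2 (orderOf (φ ⟨0, 0, 1⟩)) h1 h2 hM1 hM2 p.x p.v0 p.v1 hx hy
      refine ⟨_, hk, ?_⟩
      have e1 : (⟨p.x, p.v0, p.v1 + ((orderOf (φ ⟨0, 0, 1⟩) : ℕ) : ℤ) * k⟩ : E2) =
          p * ⟨0, 0, ((orderOf (φ ⟨0, 0, 1⟩) : ℕ) : ℤ) * k⟩ := by
        ext <;> simp
      rw [e1, map_mul, (key φ _).2 (Dvd.intro _ rfl), mul_one]
  rw [e] at hY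
  refine hVCB E2 G φ π ?_ ⊤ 0 _ _ Y hY
  intro p q
  funext b
  fin_cases b <;> simp [π]

/-- The lifted family. -/
def F (N1 N2 M : ℕ) (g : E2) : Set E2 :=
  {p | ∃ m : ℤ, |m| ≤ 143 ∧ p ∈ tl (HP N1 N2) (g * ⟨0, 0, -((M : ℤ) * m)⟩)}

/-- The shift. -/
def sh (M : ℕ) (l : Fin 287) : ℤ := -((M : ℤ) * (((l : ℕ) : ℤ) - 143))

/-- The members of the union. -/
def EE (N1 N2 M : ℕ) (l : Fin 287) (g : E2) : Set E2 := tl (HP N1 N2) (g * ⟨0, 0, sh M l⟩)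

lemma few_EE0 {N1 N2 D : ℕ} (h : Few (tl (HP N1 N2)) D) (c : E2) :
    Few (fun g => tl (HP N1 N2) (g * c)) D :=
  Few.comp h (fun g => g * c)

lemma few_EE1 {N1 N2 D : ℕ} (h : Few (tl (HP N1 N2)) D) (M : ℕ) (l : Fin 287) :
    Few (fun g => tl (HP N1 N2) (g * ⟨0, 0, sh M l⟩)) D :=
  few_EE0 h _

lemma few_EE {N1 N2 D : ℕ} (h : Few (tl (HP N1 N2)) D) (M : ℕ) (l : Fin 287) :
    Few (EE N1 N2 M l) D :=
  few_EE1 h M l

lemma mem_F_iff (N1 N2 M : ℕ) (g x : E2) : x ∈ F N1 N2 M g ↔ ∃ l, x ∈ EE N1 N2 M l g := by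
  constructor
  · rintro ⟨m, hm, hx⟩
    rw [abs_le] at hm
    have hlt : (m + 143).toNat < 287 := by omega
    refine ⟨⟨(m + 143).toNat, hlt⟩, ?_⟩
    have e : sh M ⟨(m + 143).toNat, hlt⟩ = -((M : ℤ) * m) := by
      unfold sh
      have e' : (((m + 143).toNat : ℕ) : ℤ) - 143 = m := by omega
      rw [e']
    unfold EE
    rw [e]
    exact hx
  · rintro ⟨l, hx⟩
    refine ⟨((l : ℕ) : ℤ) - 143, ?_, hx⟩
    have := l.2
    rw [abs_le]
    constructor <;> omega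

lemma few_F (hCMB : SpecCMB) {N1 N2 D : ℕ} (h : Few (tl (HP N1 N2)) D) (M : ℕ) :
    Few (F N1 N2 M) (287 * D) := by
  have h := hCMB E2 E2 (Fin 287) D (F N1 N2 M) (EE N1 N2 M) (fun β => ∃ l, β l)
    (few_EE h M) (mem_F_iff N1 N2 M)
  rw [Fintype.card_fin] at h
  exact h

lemma comm_x (k : E2) : k * ⟨0, 1, 0⟩ * k⁻¹ * (⟨0, 1, 0⟩ : E2)⁻¹ = ⟨0, 0, k.x⟩ := by
  ext
  · simp
  · simp
  · simp
    ring

lemma comm_v (k : E2) : (⟨1, 0, 0⟩ : E2) * k * (⟨1, 0, 0⟩ : E2)⁻¹ * k⁻¹ = ⟨0, 0, k.v0⟩ := by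
  ext
  · simp
  · simp
  · simp
    ring

lemma dvd_x {G : Type} [Group G] (φ : E2 →* G) {k : E2} (hk : φ k = 1) :
    ((orderOf (φ ⟨0, 0, 1⟩) : ℕ) : ℤ) ∣ k.x := by
  rw [← key φ, ← comm_x k, map_mul, map_mul, map_mul, map_inv, map_inv, hk]
  simp

lemma dvd_v {G : Type} [Group G] (φ : E2 →* G) {k : E2} (hk : φ k = 1) :
    ((orderOf (φ ⟨0, 0, 1⟩) : ℕ) : ℤ) ∣ k.v0 := by
  rw [← key φ, ← comm_v k, map_mul, map_mul, map_mul, map_inv, map_inv, hk]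
  simp

/-- A multiple of `M` which is small is zero. -/
lemma small {M N1 N2 : ℕ} (h2 : 48 ≤ N2) (hM : M = 0 ∨ N1 * N2 < 12 * M) {u : ℤ}
    (hd : (M : ℤ) ∣ u) (hu : |u| ≤ 4 * N1) : u = 0 := by
  by_contra hne
  rcases hM with hM | hM
  · rw [hM] at hd
    simp at hd
    exact hne hd
  · have h3 : (M : ℤ) ≤ |u| := Int.le_of_dvd (abs_pos.2 hne) ((dvd_abs _ _).2 hd)
    have h4 : (M : ℤ) ≤ 4 * N1 := h3.trans hu
    have h5 : (N1 : ℤ) * N2 < 12 * M := by exact_mod_cast hM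
    have h6 : (48 : ℤ) ≤ N2 := by exact_mod_cast h2
    have h7 : (0 : ℤ) ≤ N1 := Int.natCast_nonneg _
    nlinarith

lemma case2 (hUPB : SpecUPB) {G : Type} [Group G]
    (φ : E2 →* G) (N1 N2 : ℕ) (h1 : 48 ≤ N1) (h2 : 48 ≤ N2)
    (hM : orderOf (φ ⟨0, 0, 1⟩) = 0 ∨ N1 * N2 < 12 * orderOf (φ ⟨0, 0, 1⟩)) :
    ∀ p ∈ HP N1 N2, ∀ q ∈ HP N1 N2, ∀ r ∈ HP N1 N2,
      (p ∈ F N1 N2 (orderOf (φ ⟨0, 0, 1⟩)) (q * r⁻¹) ↔
        φ ((q * r⁻¹)⁻¹ * p) ∈ φ '' HP N1 N2) := by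
  intro p hp q hq r hr
  set g := q * r⁻¹ with hg
  set M := orderOf (φ ⟨0, 0, 1⟩) with hMdef
  have hcen : ∀ z : ℤ, ∀ y : E2, (⟨0, 0, z⟩ : E2) * y = y * ⟨0, 0, z⟩ := by
    intro z y
    ext
    · simp
    · simp
    · simp
      ring
  have hinv : ∀ z : ℤ, (⟨0, 0, z⟩ : E2)⁻¹ = ⟨0, 0, -z⟩ := by
    intro z
    ext <;> simp
  have hshift : ∀ m : ℤ, (g * ⟨0, 0, -((M : ℤ) * m)⟩)⁻¹ * p = g⁻¹ * p * ⟨0, 0, (M : ℤ) * m⟩ := by
    intro m
    rw [mul_inv_rev, hinv, neg_neg, mul_assoc, hcen]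
  constructor
  · rintro ⟨m, -, hm⟩
    refine ⟨_, hm, ?_⟩
    rw [hshift, map_mul, (key φ _).2 (Dvd.intro _ rfl), mul_one]
  · rintro ⟨t, ht, he⟩
    have hk : φ ((g⁻¹ * p)⁻¹ * t) = 1 := by
      rw [map_mul, map_inv, he, inv_mul_cancel]
    have hkeq : (g⁻¹ * p)⁻¹ * t = p⁻¹ * q * r⁻¹ * t := by
      rw [hg]
      group
    set k := (g⁻¹ * p)⁻¹ * t with hkdef
    have hb : Bd k ((N1 : ℤ) + N1 + N1 + N1) ((N2 : ℤ) + N2 + N2 + N2)
        (((N1 : ℤ) * N2 + N1 * N2) + N1 * N2 + N1 * N2 + (N1 * N2 + N1 * N2) + (N1 + N1) * N2 +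
          N1 * N2 + (N1 + N1 + N1) * N2) := by
      rw [hkeq]
      exact (((bounds hUPB hp).inv.mul (bounds hUPB hq)).mul (bounds hUPB hr).inv).mul
        (bounds hUPB ht)
    obtain ⟨b1, b2, b3⟩ := hb
    have hx : k.x = 0 := small h2 hM (dvd_x φ hk) (by linarith)
    have hM' : M = 0 ∨ N2 * N1 < 12 * M := by rwa [mul_comm N2 N1]
    have hv : k.v0 = 0 := small h1 hM' (dvd_v φ hk) (by linarith)
    have hk3 : k = ⟨0, 0, k.v1⟩ := by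
      ext
      · exact hx
      · exact hv
      · rfl
    have hk1 : φ ⟨0, 0, k.v1⟩ = 1 := by
      rw [← hk3]
      exact hk
    obtain ⟨m', hm'⟩ := (key φ _).1 hk1
    have hfin : t = g⁻¹ * p * k := by
      rw [hkdef, mul_inv_cancel_left]
    rcases Nat.eq_zero_or_pos M with hM0 | hM0
    · refine ⟨0, by norm_num, ?_⟩
      show (g * ⟨0, 0, -((M : ℤ) * 0)⟩)⁻¹ * p ∈ HP N1 N2
      rw [hshift]
      have e : (⟨0, 0, (M : ℤ) * 0⟩ : E2) = k := by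
        rw [hk3, hm']
        have : ((orderOf (φ ⟨0, 0, 1⟩) : ℕ) : ℤ) = 0 := by
          rw [← hMdef, hM0]
          rfl
        rw [this]
        simp
      rw [e, ← hfin]
      exact ht
    · refine ⟨m', ?_, ?_⟩
      · rcases hM with hM | hM
        · omega
        · by_contra hcon
          push Not at hcon
          have hMz : (0 : ℤ) < M := by exact_mod_cast hM0
          have h5 : (N1 : ℤ) * N2 < 12 * M := by exact_mod_cast hM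
          have h6 : |k.v1| = M * |m'| := by
            rw [hm', abs_mul, abs_of_pos hMz]
          have h7 : (144 : ℤ) ≤ |m'| := by omega
          have h8 : (M : ℤ) * 144 ≤ M * |m'| := mul_le_mul_of_nonneg_left h7 hMz.le
          nlinarith
      · show (g * ⟨0, 0, -((M : ℤ) * m')⟩)⁻¹ * p ∈ HP N1 N2
        rw [hshift]
        have e : (⟨0, 0, (M : ℤ) * m'⟩ : E2) = k := by
          rw [hk3, hm']
        rw [e, ← hfin]
        exact ht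

lemma final (hCMB : SpecCMB) (hVCB : SpecVCB) (hUPB : SpecUPB)
    (hCOV : SpecCOV) (hLFT : SpecLFT) (D : ℕ) (hHPT : ∀ N1 N2 : ℕ, Few (tl (HP N1 N2)) D) (C₁ : ℕ)
    (hC₁ : ∀ (X ι : Type) (F : ι → Set X), Few F (287 * D) →
      ∀ Y : Finset X, Shatters (Set.range F) Y → Y.card ≤ C₁) : SpecLRG := by
  refine ⟨max 50 (C₁ + 1), ?_⟩
  intro G _ φ N1 N2 h1 h2 Y hY
  by_cases hM : 1 ≤ orderOf (φ ⟨0, 0, 1⟩) ∧ 12 * orderOf (φ ⟨0, 0, 1⟩) ≤ N1 * N2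
  · exact (case1 hVCB hUPB hCOV φ N1 N2 h1 h2 hM.1 hM.2 Y hY).trans (le_max_left _ _)
  · have hM' : orderOf (φ ⟨0, 0, 1⟩) = 0 ∨ N1 * N2 < 12 * orderOf (φ ⟨0, 0, 1⟩) := by
      by_contra hcon
      push Not at hcon
      exact hM ⟨by omega, hcon.2⟩
    exact (hLFT E2 G φ (HP N1 N2) (F N1 N2 (orderOf (φ ⟨0, 0, 1⟩)))
      (case2 hUPB φ N1 N2 h1 h2 hM') C₁ (hC₁ E2 E2 _ (few_F hCMB (hHPT N1 N2) _)) Y hY).trans
      (le_max_right _ _)

end LRGaux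

theorem specLRG (hCMB : SpecCMB) (hFEW : SpecFEW) (hVCB : SpecVCB) (hUPB : SpecUPB)
    (hHPT : SpecHPT) (hCOV : SpecCOV) (hLFT : SpecLFT) : SpecLRG := by
  obtain ⟨C₁, hC₁⟩ := hFEW (287 * (128 * 3))
  exact LRGaux.final hCMB hVCB hUPB hCOV hLFT (128 * 3) hHPT C₁ hC₁

end Pool.Agent.VCNil.AT
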