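import Pool.Agent.Lib.MP_19d06a_co.AT.Spec

/-!
# OFO: four oriented vertices with the same data are not pairwise inequivalent
-/

set_option autoImplicit false

namespace Pool.Agent.VCNil.AT

namespace OFOaux

lemma eq_low {Λ : AddSubgroup V3} {s : V3} {S : Finset (Fin 3)} {y : Fin 3 → V3}
    {E : Fin 3 → Finset (Fin 3)} {q : V3} {p : Fin 3 → V3} (h : OV Λ s S y E q p) {a : Fin 3}
    (ha : a ∈ S) : p a a = q a := by
  by_contra hne
  have h1 := h.hit a ha
  have h2 := h.empty a ha (p a - y a) (h.coset a ha)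
  have h3 : y a + (p a - y a) = p a := by abel
  rw [h3] at h2
  apply h2
  intro b hb
  obtain ⟨g1, g2, g3⟩ := h1 b hb
  by_cases hba : b = a
  · subst hba
    have g4 := g1 (Finset.mem_insert_self _ _)
    have g5 : q b < p b b := lt_of_le_of_ne g4 (fun h => hne h.symm)
    exact ⟨fun _ => g4, fun _ => g5, g3⟩
  · refine ⟨fun hE => g1 (Finset.mem_insert_of_mem hE), fun hE => g2 ?_, g3⟩
    rw [Finset.mem_insert]
    rintro (h | h)
    · exact hba h
    · exact hE h

end OFOaux

open OFOaux in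
theorem specOFO (h1 : SpecKEY) (h2 : SpecOTW) : SpecOFO := by
  intro Λ s S y E q p hs hOV heq h02 h01
  by_cases hS : S = Finset.univ ∧ ∀ a b, a ≠ b → p 0 a b ≠ q 0 b
  · obtain ⟨rfl, hne⟩ := hS
    suffices hgoal : ∃ j j', j ≠ j' ∧ ∃ v ∈ Λ, ∀ b, q j' b = q j b + v b by
      obtain ⟨j, j', hj, v, hv, hb⟩ := hgoal
      exact ⟨j, j', hj, v, hv, fun b _ => hb b⟩
    apply h1 Λ s y q p hs
    · exact fun j a => (hOV j).coset a (Finset.mem_univ a)
    · intro j a v hv hcon
      apply (hOV j).empty a (Finset.mem_univ a) v hv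
      intro b _
      obtain ⟨g1, g2⟩ := hcon b
      exact ⟨fun _ => g1.le, fun _ => g1, g2⟩
    · exact fun j a => eq_low (hOV j) (Finset.mem_univ a)
    · intro j a b hab
      obtain ⟨g1, g2, g3⟩ := (hOV j).hit a (Finset.mem_univ a) b (Finset.mem_univ b)
      refine ⟨?_, g3⟩
      by_cases hb : b ∈ insert a (E a)
      · refine lt_of_le_of_ne (g1 hb) (fun h => ?_)
        exact hne a b hab ((heq j 0 a b).1 h.symm)
      · exact g2 hb
    · by_cases h : p 0 0 2 ≤ p 0 1 2
      · exact Or.inl fun j => (h02 0 j).1 h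
      · right
        intro j
        by_contra hcon
        exact h ((h02 j 0).1 (not_le.1 hcon).le)
    · by_cases h : p 0 0 1 ≤ p 0 2 1
      · exact Or.inl fun j => (h01 0 j).1 h
      · right
        intro j
        by_contra hcon
        exact h ((h01 j 0).1 (not_le.1 hcon).le)
  · have h3 : S ≠ Finset.univ ∨ ∃ a b, a ≠ b ∧ p 0 a b = q 0 b := by
      by_contra hcon
      push Not at hcon
      exact hS hcon
    obtain ⟨v, hv, hb⟩ := h2 Λ s S y E (q 0) (q 1) (p 0) (p 1) hs (hOV 0) (hOV 1)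
      (fun a _ b _ => heq 0 1 a b) h3
    exact ⟨0, 1, by decide, v, hv, hb⟩

end Pool.Agent.VCNil.AT
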