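import Pool.Agent.Lib.MP_19d06a_co.AT.Spec

/-!
# Progressions with pairwise commuting generators in arbitrary groups
-/

set_option autoImplicit false

namespace Pool.Agent.VCNil.AT

namespace ONEaux

lemma map_wordVal {G H : Type} [Group G] [Group H] (f : H →* G) {k : ℕ} (a : Fin k → H)
    (w : List (Fin k × Bool)) : f (wordVal a w) = wordVal (fun i => f (a i)) w := by
  induction w with
  | nil => simp [wordVal]
  | cons l w ih =>
    unfold wordVal at ih ⊢
    rw [List.map_cons, List.prod_cons, List.map_cons, List.prod_cons, map_mul, ih]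
    by_cases h : l.2 = true
    · simp [h]
    · simp [h]

lemma mem_iff {G H : Type} [Group G] [Group H] (f : H →* G) (hf : Function.Injective f) {k : ℕ}
    (a : Fin k → H) (N : Fin k → ℕ) (x : H) :
    f x ∈ genProg (fun i => f (a i)) N ↔ x ∈ genProg a N := by
  constructor
  · rintro ⟨w, hw, he⟩
    refine ⟨w, hw, hf ?_⟩
    rw [map_wordVal, he]
  · rintro ⟨w, hw, he⟩
    refine ⟨w, hw, ?_⟩
    rw [← map_wordVal, he]

lemma mem_range {G H : Type} [Group G] [Group H] (f : H →* G) {k : ℕ}
    (a : Fin k → H) (N : Fin k → ℕ) {g : G} (hg : g ∈ genProg (fun i => f (a i)) N) :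
    ∃ x : H, f x = g := by
  obtain ⟨w, hw, he⟩ := hg
  exact ⟨wordVal a w, by rw [map_wordVal, he]⟩

/-- Passing to a larger group adds at most one to the VC-dimension. -/
lemma of_hom {G H : Type} [Group G] [Group H] (f : H →* G) (hf : Function.Injective f) {k : ℕ}
    (a : Fin k → H) (N : Fin k → ℕ) (C : ℕ)
    (hC : vcDim (leftTranslates (genProg a N)) ≤ (C : ℕ∞)) :
    vcDim (leftTranslates (genProg (fun i => f (a i)) N)) ≤ ((C + 1 : ℕ) : ℕ∞) := by
  classical
  refine iSup₂_le fun Y hY => ?_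
  by_contra hlt
  have hc : C + 2 ≤ Y.card := by
    have h1 := not_le.1 hlt
    have h2 : C + 1 < Y.card := by exact_mod_cast h1
    omega
  obtain ⟨y0, hy0⟩ : Y.Nonempty := by
    rw [← Finset.card_pos]
    omega
  obtain ⟨T, ⟨g0, rfl⟩, hT⟩ := hY Y subset_rfl
  have hmem0 : ∀ y ∈ Y, g0⁻¹ * y ∈ genProg (fun i => f (a i)) N := by
    intro y hy
    have h1 : y ∈ ((fun x : G => g0 * x) '' genProg (fun i => f (a i)) N) ∩ (Y : Set G) := by
      rw [hT]
      exact hy
    exact (mem_leftTranslate _ _ _).1 h1.1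
  have hex : ∀ y : G, ∃ x : H, y ∈ Y → f x = g0⁻¹ * y := by
    intro y
    by_cases hy : y ∈ Y
    · obtain ⟨x, hx⟩ := mem_range f a N (hmem0 y hy)
      exact ⟨x, fun _ => hx⟩
    · exact ⟨1, fun h => absurd h hy⟩
  choose φ hφ using hex
  have hinj : Set.InjOn φ (Y : Set G) := by
    intro y hy y' hy' he
    have h1 := hφ y hy
    rw [he, hφ y' hy'] at h1
    exact (mul_left_cancel h1).symm
  have hZcard : ((Y.erase y0).image φ).card = Y.card - 1 := by
    rw [Finset.card_image_of_injOn, Finset.card_erase_of_mem hy0]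
    intro y hy y' hy' he
    exact hinj (Finset.mem_of_mem_erase hy) (Finset.mem_of_mem_erase hy') he
  have hsh : Shatters (leftTranslates (genProg a N)) ((Y.erase y0).image φ) := by
    intro B hB
    obtain ⟨T, ⟨g, rfl⟩, hg⟩ := hY {y | y ∈ Y ∧ (φ y ∈ B ∨ y = y0)} (fun y hy => hy.1)
    have hiff : ∀ y ∈ Y, g⁻¹ * y ∈ genProg (fun i => f (a i)) N ↔ (φ y ∈ B ∨ y = y0) := by
      intro y hy
      constructor
      · intro h
        have h1 : y ∈ ((fun x : G => g * x) '' genProg (fun i => f (a i)) N) ∩ (Y : Set G) :=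
          ⟨(mem_leftTranslate _ _ _).2 h, hy⟩
        rw [hg] at h1
        exact h1.2
      · intro h
        have h1 : y ∈ ((fun x : G => g * x) '' genProg (fun i => f (a i)) N) ∩ (Y : Set G) := by
          rw [hg]
          exact ⟨hy, h⟩
        exact (mem_leftTranslate _ _ _).1 h1.1
    obtain ⟨u, hu⟩ := mem_range f a N ((hiff y0 hy0).2 (Or.inr rfl))
    refine ⟨_, ⟨φ y0 * u⁻¹, rfl⟩, ?_⟩
    have hfh : f (φ y0 * u⁻¹) = g0⁻¹ * g := by
      rw [map_mul, map_inv, hφ y0 hy0, hu]
      group
    have hkey : ∀ y ∈ Y, y ≠ y0 →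
        ((φ y0 * u⁻¹)⁻¹ * φ y ∈ genProg a N ↔ φ y ∈ B) := by
      intro y hy hne
      rw [← mem_iff f hf, map_mul, map_inv, hfh, hφ y hy]
      have e : (g0⁻¹ * g)⁻¹ * (g0⁻¹ * y) = g⁻¹ * y := by group
      rw [e, hiff y hy]
      constructor
      · rintro (h | h)
        · exact h
        · exact absurd h hne
      · exact Or.inl
    ext z
    constructor
    · rintro ⟨h1, h2⟩
      obtain ⟨y, hy, rfl⟩ := Finset.mem_image.1 (Finset.mem_coe.1 h2)
      have h3 := (mem_leftTranslate _ _ _).1 h1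
      exact (hkey y (Finset.mem_of_mem_erase hy) (Finset.ne_of_mem_erase hy)).1 h3
    · intro hz
      have h2 := hB hz
      refine ⟨?_, h2⟩
      obtain ⟨y, hy, rfl⟩ := Finset.mem_image.1 (Finset.mem_coe.1 h2)
      exact (mem_leftTranslate _ _ _).2
        ((hkey y (Finset.mem_of_mem_erase hy) (Finset.ne_of_mem_erase hy)).2 hz)
  have h1 := (le_vcDim hsh).trans hC
  rw [hZcard] at h1
  have h2 : Y.card - 1 ≤ C := by exact_mod_cast h1
  omega

/-- Pairwise commuting generators in an arbitrary group. -/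
theorem commuting (C : ℕ) (k : ℕ)
    (hC : ∀ (H : Type) [CommGroup H] (a : Fin k → H) (N : Fin k → ℕ),
      vcDim (leftTranslates (genProg a N)) ≤ (C : ℕ∞))
    (G : Type) [Group G] (a : Fin k → G) (ha : ∀ i j, a i * a j = a j * a i) (N : Fin k → ℕ) :
    vcDim (leftTranslates (genProg a N)) ≤ ((C + 1 : ℕ) : ℕ∞) := by
  have hc : ∀ x ∈ Set.range a, ∀ y ∈ Set.range a, x * y = y * x := by
    rintro _ ⟨i, rfl⟩ _ ⟨j, rfl⟩
    exact ha i j
  let _ : CommGroup (Subgroup.closure (Set.range a)) :=
    { (inferInstance : Group (Subgroup.closure (Set.range a))) with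
      mul_comm := fun x y => by
        obtain ⟨x, hx⟩ := x
        obtain ⟨y, hy⟩ := y
        apply Subtype.ext
        show x * y = y * x
        refine Subgroup.closure_induction₂ (p := fun x y _ _ => x * y = y * x) ?_ ?_ ?_ ?_ ?_ ?_ ?_
          hx hy
        · intro x y hx hy
          exact hc x hx y hy
        · intro x _
          simp
        · intro x _
          simp
        · intro x y z _ _ _ h1 h2
          rw [mul_assoc, h2, ← mul_assoc, h1, mul_assoc]
        · intro x y z _ _ _ h1 h2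
          rw [← mul_assoc, h1, mul_assoc, h2, mul_assoc]
        · intro x y _ _ h
          exact (Commute.inv_left h)
        · intro x y _ _ h
          exact (Commute.inv_right h) }
  exact of_hom (Subgroup.closure (Set.range a)).subtype Subtype.coe_injective
    (fun i => (⟨a i, Subgroup.subset_closure ⟨i, rfl⟩⟩ : Subgroup.closure (Set.range a))) N C
    (hC _ _ N)

end ONEaux

end Pool.Agent.VCNil.AT
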