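import Pool.Agent.Lib.MP_19d06a_co.AT.Spec

/-!
# ORI: the boxes in the reflected coordinates
-/

set_option autoImplicit false

namespace Pool.Agent.VCNil.AT

namespace ORIaux

lemma pmod {d : ℕ} (Q : Sys d) (i : Fin d) (b : Fin 3) (v : V3) (hv : v ∈ Q.Λ) :
    (Q.x i b + v b) % (2 * (d : ℤ)) = ((i : ℕ) : ℤ) := by
  obtain ⟨c, hc⟩ := Q.div v hv b
  rw [hc, Int.add_mul_emod_self_left, Q.xmod]

lemma ne_top {d : ℕ} (Q : Sys d) (i : Fin d) (b : Fin 3) (p z : ℤ)
    (hp : p % (2 * (d : ℤ)) = ((i : ℕ) : ℤ)) (hz : z % (2 * (d : ℤ)) < d) : p ≠ z + Q.s b := by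
  intro h
  have hd : 0 < d := lt_of_le_of_lt (Nat.zero_le _) i.isLt
  have hi : ((i : ℕ) : ℤ) < d := by exact_mod_cast i.isLt
  have h0 := Int.emod_nonneg z (show 2 * (d : ℤ) ≠ 0 by omega)
  rw [h, Int.add_emod, Q.smod, Int.emod_eq_of_lt (by omega) (by omega)] at hp
  omega

lemma ne_bot {d : ℕ} (i : Fin d) (p z : ℤ)
    (hp : p % (2 * (d : ℤ)) = ((i : ℕ) : ℤ)) (hz : ¬ z % (2 * (d : ℤ)) < d) : p ≠ z := by
  intro h
  have hi : ((i : ℕ) : ℤ) < d := by exact_mod_cast i.isLt
  rw [h] at hp
  omega

end ORIaux

open ORIaux in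
theorem specORI : SpecORI := by
  intro d Q S E z i
  unfold Mem
  refine exists_congr fun v => and_congr_right fun hv => ?_
  unfold In
  refine forall_congr' fun b => imp_congr_right fun _ => ?_
  have hp := pmod Q i b v hv
  by_cases hg : z b % (2 * (d : ℤ)) < d
  · have hgt : gain d z b = true := by
      unfold gain
      exact decide_eq_true hg
    have hne := ne_top Q i b _ _ hp hg
    have hlow : low Q.s (gain d z) z b = z b := by
      unfold low
      rw [if_pos hgt]
    have hori : ori (gain d z) (Q.x i + v) b = Q.x i b + v b := by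
      show (if gain d z b then (Q.x i + v) b else -((Q.x i + v) b)) = _
      rw [if_pos hgt]
      rfl
    have hflip : b ∈ flip (gain d z) E ↔ b ∈ E := by
      unfold flip
      rw [Finset.mem_filter]
      simp [hgt]
    rw [hlow, hori, hflip]
    unfold pos
    by_cases hE : b ∈ E
    · rw [if_pos hE]
      constructor
      · rintro ⟨h1, h2⟩
        exact ⟨fun _ => by omega, fun h => absurd hE h, by omega⟩
      · rintro ⟨h1, -, h2⟩
        have := h1 hE
        exact ⟨by omega, by omega⟩
    · rw [if_neg hE]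
      constructor
      · rintro ⟨h1, h2⟩
        exact ⟨fun h => absurd h hE, fun _ => by omega, by omega⟩
      · rintro ⟨-, h1, h2⟩
        have := h1 hE
        exact ⟨by omega, by omega⟩
  · have hgt : gain d z b = false := by
      unfold gain
      exact decide_eq_false hg
    have hne := ne_bot i _ _ hp hg
    have hlow : low Q.s (gain d z) z b = -(z b + Q.s b) := by
      unfold low
      simp [hgt]
    have hori : ori (gain d z) (Q.x i + v) b = -(Q.x i b + v b) := by
      show (if gain d z b then (Q.x i + v) b else -((Q.x i + v) b)) = _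
      simp [hgt]
    have hflip : b ∈ flip (gain d z) E ↔ b ∉ E := by
      unfold flip
      rw [Finset.mem_filter]
      simp [hgt]
    rw [hlow, hori, hflip]
    unfold pos
    by_cases hE : b ∈ E
    · rw [if_pos hE]
      constructor
      · rintro ⟨h1, h2⟩
        exact ⟨fun h => absurd hE h, fun _ => by omega, by omega⟩
      · rintro ⟨-, h1, h2⟩
        have := h1 (fun h => h hE)
        exact ⟨by omega, by omega⟩
    · rw [if_neg hE]
      constructor
      · rintro ⟨h1, h2⟩
        exact ⟨fun _ => by omega, fun h => absurd hE h, by omega⟩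
      · rintro ⟨h1, -, h2⟩
        have := h1 hE
        exact ⟨by omega, by omega⟩

end Pool.Agent.VCNil.AT
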