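import Pool.Agent.Lib.MP_19d06a_co.AT.Spec

/-! Module OTW: two oriented vertices with the same data of low or improper type are equivalent. -/

set_option autoImplicit false

namespace Pool.Agent.VCNil.AT

namespace OTWaux

variable {Λ : AddSubgroup V3} {s : V3} {S : Finset (Fin 3)} {y : Fin 3 → V3}
  {E : Fin 3 → Finset (Fin 3)} {q q' : V3} {p p' : Fin 3 → V3}

theorem third : ∀ a b : Fin 3, a ≠ b →
    ∃ e : Fin 3, e ≠ a ∧ e ≠ b ∧ ∀ c : Fin 3, c = a ∨ c = b ∨ c = e := by decide

theorem all3 : ∀ a b c x : Fin 3, b ≠ a → c ≠ a → c ≠ b → x = a ∨ x = b ∨ x = c := by decide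

theorem univ_of (S : Finset (Fin 3)) (a b c : Fin 3) (ha : a ∈ S) (hb : b ∈ S) (hc : c ∈ S)
    (h1 : b ≠ a) (h2 : c ≠ a) (h3 : c ≠ b) : S = Finset.univ := by
  rw [Finset.eq_univ_iff_forall]
  intro x
  rcases all3 a b c x h1 h2 h3 with h | h | h
  · rw [h]; exact ha
  · rw [h]; exact hb
  · rw [h]; exact hc

theorem not_in (h : OV Λ s S y E q p) {a : Fin 3} (ha : a ∈ S) (t : V3) (ht : t - y a ∈ Λ) :
    ¬ In s S (E a) q t := by
  have h1 := h.empty a ha (t - y a) ht
  rwa [add_sub_cancel] at h1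

theorem diag (h : OV Λ s S y E q p) {a : Fin 3} (ha : a ∈ S) : p a a = q a := by
  have h1 := h.hit a ha
  obtain ⟨h2, _, _⟩ := h1 a ha
  have h3 : q a ≤ p a a := h2 (Finset.mem_insert_self a _)
  by_contra hne
  have h4 : q a < p a a := lt_of_le_of_ne h3 (Ne.symm hne)
  refine not_in h ha (p a) (h.coset a ha) ?_
  intro b hb
  obtain ⟨h5, h6, h7⟩ := h1 b hb
  by_cases hba : b = a
  · rw [hba] at h7 ⊢
    exact ⟨fun _ => h3, fun _ => h4, h7⟩
  · refine ⟨fun hbE => h5 (Finset.mem_insert_of_mem hbE), fun hbE => h6 ?_, h7⟩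
    rw [Finset.mem_insert]
    push Not
    exact ⟨hba, hbE⟩

theorem le_of (h : OV Λ s S y E q p) {a b : Fin 3} (ha : a ∈ S) (hb : b ∈ S) : q b ≤ p a b := by
  obtain ⟨h5, h6, _⟩ := h.hit a ha b hb
  by_cases hE : b ∈ insert a (E a)
  · exact h5 hE
  · exact (h6 hE).le

theorem lt_of (h : OV Λ s S y E q p) {a b : Fin 3} (ha : a ∈ S) (hb : b ∈ S) :
    p a b < q b + s b := (h.hit a ha b hb).2.2

theorem mem_coset (h : OV Λ s S y E q p) (h' : OV Λ s S y E q' p') {a : Fin 3} (ha : a ∈ S) :
    p' a - p a ∈ Λ := by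
  have h1 := Λ.sub_mem (h'.coset a ha) (h.coset a ha)
  rwa [sub_sub_sub_cancel_right] at h1

theorem case2 (h : OV Λ s S y E q p) (h' : OV Λ s S y E q' p') {a b : Fin 3} (ha : a ∈ S)
    (hb : b ∈ S) (hS : ∀ c ∈ S, c = a ∨ c = b) (h1 : p a b ≠ q b)
    (hlt : p b a - q a < p' b a - q' a) : False := by
  refine not_in h' ha (p' a + ((p' b - p b) - (p' a - p a))) ?_ ?_
  · have e1 : p' a + ((p' b - p b) - (p' a - p a)) - y a =
        (p' a - y a) + ((p' b - p b) - (p' a - p a)) := by abel
    rw [e1]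
    exact Λ.add_mem (h'.coset a ha) (Λ.sub_mem (mem_coset h h' hb) (mem_coset h h' ha))
  · have d1 := diag h ha
    have d2 := diag h hb
    have d3 := diag h' ha
    have d4 := diag h' hb
    have l1 := le_of h hb ha
    have l2 := lt_of h' hb ha
    have l3 := le_of h ha hb
    have l4 := lt_of h ha hb
    have l5 : q b < p a b := lt_of_le_of_ne l3 (Ne.symm h1)
    intro c hc
    rcases hS c hc with hc' | hc'
    · rw [hc']
      simp only [Pi.add_apply, Pi.sub_apply]
      refine ⟨fun _ => ?_, fun _ => ?_, ?_⟩ <;> omega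
    · rw [hc']
      simp only [Pi.add_apply, Pi.sub_apply]
      refine ⟨fun _ => ?_, fun _ => ?_, ?_⟩ <;> omega

theorem case3 (h : OV Λ s S y E q p) (h' : OV Λ s S y E q' p') {a b e : Fin 3} (ha : a ∈ S)
    (hb : b ∈ S) (he : e ∈ S) (hS : ∀ c ∈ S, c = a ∨ c = b ∨ c = e) (hea : e ≠ a) (heb : e ≠ b)
    (h1 : p a b = q b) (h1' : p' a b = q' b) (h2' : p' a e ≠ q' e)
    (hlt : q e < q' e - (p' a e - p a e)) : False := by
  refine not_in h he (p' e - (p' a - p a)) ?_ ?_
  · have e1 : p' e - (p' a - p a) - y e = (p' e - y e) - (p' a - p a) := by abel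
    rw [e1]
    exact Λ.sub_mem (h'.coset e he) (mem_coset h h' ha)
  · have d1 := diag h ha
    have d3 := diag h' ha
    have d4 := diag h' he
    have l1 := le_of h' ha he
    have l2 := lt_of h ha he
    have l3 : q' e < p' a e := lt_of_le_of_ne l1 (Ne.symm h2')
    intro c hc
    rcases hS c hc with hc' | hc' | hc'
    · rw [hc']
      obtain ⟨k1, k2, k3⟩ := h'.hit e he a ha
      simp only [Pi.sub_apply]
      refine ⟨fun hE => ?_, fun hE => ?_, ?_⟩
      · have k4 := k1 (Finset.mem_insert_of_mem hE)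
        omega
      · have k4 := k2 (by
          rw [Finset.mem_insert]
          push Not
          exact ⟨hea.symm, hE⟩)
        omega
      · omega
    · rw [hc']
      obtain ⟨k1, k2, k3⟩ := h'.hit e he b hb
      simp only [Pi.sub_apply]
      refine ⟨fun hE => ?_, fun hE => ?_, ?_⟩
      · have k4 := k1 (Finset.mem_insert_of_mem hE)
        omega
      · have k4 := k2 (by
          rw [Finset.mem_insert]
          push Not
          exact ⟨heb.symm, hE⟩)
        omega
      · omega
    · rw [hc']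
      simp only [Pi.sub_apply]
      refine ⟨fun _ => ?_, fun _ => ?_, ?_⟩ <;> omega

end OTWaux

open OTWaux in
theorem specOTW : SpecOTW := by
  intro Λ s S y E q q' p p' _ h h' heq hcase
  by_cases hA : ∃ a ∈ S, ∀ b ∈ S, p a b = q b
  · obtain ⟨a, ha, h1⟩ := hA
    refine ⟨p' a - p a, mem_coset h h' ha, fun b hb => ?_⟩
    have h2 := (heq a ha b hb).1 (h1 b hb)
    rw [Pi.sub_apply, h1 b hb, h2]
    ring
  push Not at hA
  by_cases hU : S = Finset.univ
  · obtain ⟨a, b, hab, h1⟩ := hcase.resolve_left (fun k => k hU)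
    have mem : ∀ c : Fin 3, c ∈ S := by
      intro c
      rw [hU]
      exact Finset.mem_univ c
    obtain ⟨e, hea, heb, hS⟩ := third a b hab
    have h1' : p' a b = q' b := (heq a (mem a) b (mem b)).1 h1
    have d1 := diag h (mem a)
    have d2 := diag h' (mem a)
    have h2 : p a e ≠ q e := by
      obtain ⟨c, hc, h3⟩ := hA a (mem a)
      rcases hS c with k | k | k
      · rw [k] at h3; exact absurd d1 h3
      · rw [k] at h3; exact absurd h1 h3
      · rw [k] at h3; exact h3
    have h2' : p' a e ≠ q' e := fun k => h2 ((heq a (mem a) e (mem e)).2 k)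
    rcases lt_trichotomy (q e) (q' e - (p' a e - p a e)) with k | k | k
    · exact (case3 h h' (mem a) (mem b) (mem e) (fun c _ => hS c) hea heb h1 h1' h2' k).elim
    · refine ⟨p' a - p a, mem_coset h h' (mem a), fun c _ => ?_⟩
      rcases hS c with k1 | k1 | k1
      · rw [k1, Pi.sub_apply]; omega
      · rw [k1, Pi.sub_apply]; omega
      · rw [k1, Pi.sub_apply]; omega
    · exact (case3 h' h (mem a) (mem b) (mem e) (fun c _ => hS c) hea heb h1' h1 h2
        (by omega)).elim
  · rcases S.eq_empty_or_nonempty with hE | ⟨a, ha⟩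
    · refine ⟨0, Λ.zero_mem, fun b hb => ?_⟩
      rw [hE] at hb
      exact absurd hb (Finset.notMem_empty b)
    · obtain ⟨b, hb, h1⟩ := hA a ha
      have hba : b ≠ a := by
        intro k
        rw [k] at h1
        exact h1 (diag h ha)
      have hS : ∀ c ∈ S, c = a ∨ c = b := by
        intro c hc
        by_contra hcon
        push Not at hcon
        exact hU (univ_of S a b c ha hb hc hba hcon.1 hcon.2)
      obtain ⟨c, hc, h2⟩ := hA b hb
      have hcb : c ≠ b := by
        intro k
        rw [k] at h2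
        exact h2 (diag h hb)
      have hca : c = a := (hS c hc).resolve_right hcb
      rw [hca] at h2
      have h1' : p' a b ≠ q' b := fun k => h1 ((heq a ha b hb).2 k)
      have d2 := diag h hb
      have d4 := diag h' hb
      rcases lt_trichotomy (p b a - q a) (p' b a - q' a) with k | k | k
      · exact (case2 h h' ha hb hS h1 k).elim
      · refine ⟨p' b - p b, mem_coset h h' hb, fun x hx => ?_⟩
        rcases hS x hx with k1 | k1
        · rw [k1, Pi.sub_apply]; omega
        · rw [k1, Pi.sub_apply]; omega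
      · exact (case2 h' h ha hb hS h1' k).elim

end Pool.Agent.VCNil.AT
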