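import Pool.Agent.Lib.MP_19d06a_co.AT.Spec

/-!
# Module PIG (MP_19d06a_co): the pigeonhole argument (helper92)
-/

set_option autoImplicit false

namespace Pool.Agent.VCNil.AT

namespace PIGaux

/-- the residue modulo `100` -/
def res (n : ℤ) : Fin 100 := ⟨(n % (2 * ((50 : ℕ) : ℤ))).toNat, by omega⟩

lemma res_inj {m n : ℤ} (h : res m = res n) :
    m % (2 * ((50 : ℕ) : ℤ)) = n % (2 * ((50 : ℕ) : ℤ)) := by
  have h1 : (m % (2 * ((50 : ℕ) : ℤ))).toNat = (n % (2 * ((50 : ℕ) : ℤ))).toNat :=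
    congrArg Fin.val h
  omega

lemma gain_congr {z z' : V3} (h : ∀ b, z b % (2 * ((50 : ℕ) : ℤ)) = z' b % (2 * ((50 : ℕ) : ℤ))) :
    gain 50 z = gain 50 z' := by
  funext b
  unfold gain
  rw [h b]

lemma cls_congr {z z' : V3} (h : ∀ b, z b % (2 * ((50 : ℕ) : ℤ)) = z' b % (2 * ((50 : ℕ) : ℤ))) :
    cls 50 z = cls 50 z' := by
  funext b
  unfold cls
  rw [h b]

/-- an integer as a class -/
def cc (n : ℤ) : Fin 50 := Fin.ofNat 50 n.toNat

lemma cc_eq (c : Fin 50) (n : ℤ) (h : ((c : ℕ) : ℤ) = n) : cc n = c := by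
  subst h
  apply Fin.ext
  have := c.isLt
  unfold cc
  rw [Int.toNat_natCast]
  change (c : ℕ) % 50 = c
  omega

lemma ov_congr {Λ Λ' : AddSubgroup V3} {s : V3} {S S' : Finset (Fin 3)} {y y' : Fin 3 → V3}
    {E E' : Fin 3 → Finset (Fin 3)} {q q' : V3} {p : Fin 3 → V3} (hL : Λ = Λ') (hS : S = S')
    (hE : E = E') (hq : q = q') (hy : ∀ a ∈ S, y a = y' a) (h : OV Λ s S y E q p) :
    OV Λ' s S' y' E' q' p := by
  subst hL hS hE hq
  obtain ⟨h1, h2, h3, h4⟩ := h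
  refine ⟨fun a ha => ?_, h2, fun a ha => ?_, h4⟩
  · rw [← hy a ha]
    exact h1 a ha
  · rw [← hy a ha]
    exact h3 a ha

lemma mem_shift {Λ : AddSubgroup V3} {s : V3} {S : Finset (Fin 3)} {x z z' u : V3} (hu : u ∈ Λ)
    (h : ∀ b ∈ S, z' b = z b + u b) (hm : Mem Λ s S x z) : Mem Λ s S x z' := by
  obtain ⟨v, hv, hb⟩ := hm
  refine ⟨v + u, Λ.add_mem hv hu, fun b hbS => ?_⟩
  obtain ⟨h1, h2⟩ := hb b hbS
  rw [h b hbS, Pi.add_apply]
  constructor
  · linarith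
  · linarith

lemma pos_shift {S : Finset (Fin 3)} {z z' u : V3} (E : Finset (Fin 3))
    (h : ∀ b ∈ S, z' b = z b + u b) : ∀ b ∈ S, pos z' E b = pos z E b + u b := by
  intro b hb
  unfold pos
  split_ifs
  · rw [h b hb]
    ring
  · exact h b hb

lemma patt_shift (Q : Sys 50) {S : Finset (Fin 3)} {z z' u : V3} (hu : u ∈ Q.Λ)
    (h : ∀ b ∈ S, z' b = z b + u b) (E : Finset (Fin 3)) :
    patt Q S (pos z E) = patt Q S (pos z' E) := by
  have h1 := pos_shift E h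
  ext i
  constructor
  · intro hi
    exact mem_shift hu h1 hi
  · intro hi
    refine mem_shift (Q.Λ.neg_mem hu) (fun b hb => ?_) hi
    rw [h1 b hb, Pi.neg_apply]
    ring

lemma low_shift {s : V3} {g : Fin 3 → Bool} {S : Finset (Fin 3)} {z z' u : V3}
    (h : ∀ b ∈ S, low s g z' b = low s g z b + ori g u b) : ∀ b ∈ S, z' b = z b + u b := by
  intro b hb
  have h1 := h b hb
  have e : ori g u b = if g b then u b else -(u b) := rfl
  rw [e] at h1
  unfold low at h1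
  split_ifs at h1
  · exact h1
  · linarith

/-- the colours -/
abbrev Col : Type := Finset (Fin 3) × Finset (Fin 3) × (Fin 3 → Fin 100) ×
  (Fin 3 → Finset (Fin 3)) × (Fin 3 → Fin 3 → Bool) × Bool × Bool

lemma card_col : Fintype.card Col * 3 < Fintype.card (Set (Fin 50)) := by
  rw [Fintype.card_set]
  simp only [Col, Fintype.card_prod, Fintype.card_pi, Fintype.card_finset, Fintype.card_fin,
    Fintype.card_bool, Finset.prod_const, Finset.card_univ]
  norm_num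

lemma data (hVEX : SpecVEX) (hEVT : SpecEVT) (Q : Sys 50)
    (hall : ∀ I : Set (Fin 50), ∃ z, patt Q Finset.univ z = I) (I : Set (Fin 50)) :
    ∃ (S : Finset (Fin 3)) (z : V3) (E0 : Finset (Fin 3)) (E : Fin 3 → Finset (Fin 3))
      (p : Fin 3 → V3), patt Q S (pos z E0) = I ∧
        OV (Q.Λ.map (ori (gain 50 z))) Q.s S (fun a => ori (gain 50 z) (Q.x (cc (cls 50 z a)))) E
          (low Q.s (gain 50 z) z) p := by
  obtain ⟨S, z, hV⟩ := hVEX 50 Q I (hall I)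
  obtain ⟨E0, -, hE0⟩ := hV.1
  obtain ⟨E, p, c, hc, hOV⟩ := hEVT 50 Q S z I hV
  refine ⟨S, z, E0, E, p, hE0, ov_congr rfl rfl rfl rfl (fun a ha => ?_) hOV⟩
  rw [cc_eq (c a) _ (hc a ha)]

end PIGaux

open PIGaux in
theorem specPIG (hVEX : SpecVEX) (hEVT : SpecEVT) (hOFO : SpecOFO) : SpecPIG := by
  classical
  intro Q hall
  choose S z E0 E p hpat hOV using data hVEX hEVT Q hall
  let col : Set (Fin 50) → Col := fun I => (S I, E0 I, (fun b => res (z I b)), E I,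
    (fun a b => decide (p I a b = low Q.s (gain 50 (z I)) (z I) b)),
    decide (p I 0 2 ≤ p I 1 2), decide (p I 0 1 ≤ p I 2 1))
  obtain ⟨y, hy⟩ := Fintype.exists_lt_card_fiber_of_mul_lt_card col card_col
  obtain ⟨T, hT, hTc⟩ : ∃ T : Finset (Set (Fin 50)), (∀ x ∈ T, col x = y) ∧ 3 < T.card :=
    ⟨_, fun x hx => (Finset.mem_filter.1 hx).2, hy⟩
  have hle : Fintype.card (Fin 4) ≤ Fintype.card T := by
    rw [Fintype.card_fin, Fintype.card_coe]
    exact hTc
  obtain ⟨f⟩ := Function.Embedding.nonempty_of_card_le hle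
  obtain ⟨I, hIdef⟩ : ∃ I : Fin 4 → Set (Fin 50), I = fun j => (f j).1 := ⟨_, rfl⟩
  have hIinj : Function.Injective I := by
    intro j j' hjj
    rw [hIdef] at hjj
    exact f.injective (Subtype.ext hjj)
  have hIcol : ∀ j j', col (I j) = col (I j') := by
    intro j j'
    have h1 := hT _ (f j).2
    have h2 := hT _ (f j').2
    rw [hIdef]
    exact h1.trans h2.symm
  have c1 : ∀ j j', S (I j) = S (I j') := fun j j' => congrArg (fun t : Col => t.1) (hIcol j j')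
  have c2 : ∀ j j', E0 (I j) = E0 (I j') :=
    fun j j' => congrArg (fun t : Col => t.2.1) (hIcol j j')
  have c3 : ∀ j j' b, z (I j) b % (2 * ((50 : ℕ) : ℤ)) = z (I j') b % (2 * ((50 : ℕ) : ℤ)) :=
    fun j j' b => res_inj (congrFun (congrArg (fun t : Col => t.2.2.1) (hIcol j j')) b)
  have c4 : ∀ j j', E (I j) = E (I j') :=
    fun j j' => congrArg (fun t : Col => t.2.2.2.1) (hIcol j j')
  have c5 : ∀ j j' a b, (p (I j) a b = low Q.s (gain 50 (z (I j))) (z (I j)) b ↔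
      p (I j') a b = low Q.s (gain 50 (z (I j'))) (z (I j')) b) := fun j j' a b =>
    decide_eq_decide.1 (congrFun (congrFun (congrArg (fun t : Col => t.2.2.2.2.1)
      (hIcol j j')) a) b)
  have c6 : ∀ j j', (p (I j) 0 2 ≤ p (I j) 1 2 ↔ p (I j') 0 2 ≤ p (I j') 1 2) := fun j j' =>
    decide_eq_decide.1 (congrArg (fun t : Col => t.2.2.2.2.2.1) (hIcol j j'))
  have c7 : ∀ j j', (p (I j) 0 1 ≤ p (I j) 2 1 ↔ p (I j') 0 1 ≤ p (I j') 2 1) := fun j j' =>
    decide_eq_decide.1 (congrArg (fun t : Col => t.2.2.2.2.2.2) (hIcol j j'))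
  have hg : ∀ j, gain 50 (z (I j)) = gain 50 (z (I 0)) := fun j => gain_congr (c3 j 0)
  have hcls : ∀ j, cls 50 (z (I j)) = cls 50 (z (I 0)) := fun j => cls_congr (c3 j 0)
  have hO : ∀ j, OV (Q.Λ.map (ori (gain 50 (z (I 0))))) Q.s (S (I 0))
      (fun a => ori (gain 50 (z (I 0))) (Q.x (cc (cls 50 (z (I 0)) a)))) (E (I 0))
      (low Q.s (gain 50 (z (I j))) (z (I j))) (p (I j)) := by
    intro j
    refine ov_congr ?_ (c1 j 0) (c4 j 0) rfl (fun a _ => ?_) (hOV (I j))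
    · rw [hg j]
    · rw [hg j, hcls j]
  obtain ⟨j, j', hjj, v, hv, hq⟩ := hOFO _ Q.s (S (I 0)) _ (E (I 0))
    (fun j => low Q.s (gain 50 (z (I j))) (z (I j))) (fun j => p (I j)) Q.hs hO c5 c6 c7
  apply hjj
  apply hIinj
  obtain ⟨u, hu, rfl⟩ := hv
  have hz : ∀ b ∈ S (I 0), z (I j') b = z (I j) b + u b := by
    refine low_shift (s := Q.s) (g := gain 50 (z (I 0))) (fun b hb => ?_)
    have h1 := hq b hb
    rw [hg j, hg j'] at h1
    exact h1
  rw [← hpat (I j), ← hpat (I j'), c1 j 0, c1 j' 0, c2 j 0, c2 j' 0]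
  exact patt_shift Q hu hz _

end Pool.Agent.VCNil.AT
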