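import Pool.Agent.Lib.MP_19d06a_co.AT.Spec

/-!
# Module RED: shattered sets give systems with all patterns
-/

set_option autoImplicit false

namespace Pool.Agent.VCNil.AT

namespace REDaux

/-- the exponent map -/
def ph {G : Type} [CommGroup G] (a : Fin 3 → G) (n : V3) : G := ∏ i, a i ^ n i

lemma ph_add {G : Type} [CommGroup G] (a : Fin 3 → G) (n m : V3) :
    ph a (n + m) = ph a n * ph a m := by
  unfold ph
  rw [← Finset.prod_mul_distrib]
  exact Finset.prod_congr rfl fun i _ => by rw [Pi.add_apply, zpow_add]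

lemma ph_zero {G : Type} [CommGroup G] (a : Fin 3 → G) : ph a 0 = 1 := by
  unfold ph
  simp

lemma ph_neg {G : Type} [CommGroup G] (a : Fin 3 → G) (n : V3) : ph a (-n) = (ph a n)⁻¹ := by
  have := ph_add a (-n) n
  rw [neg_add_cancel, ph_zero] at this
  exact eq_inv_of_mul_eq_one_left this.symm

lemma ph_sub {G : Type} [CommGroup G] (a : Fin 3 → G) (n m : V3) :
    ph a (n - m) = ph a n * (ph a m)⁻¹ := by
  rw [sub_eq_add_neg, ph_add, ph_neg]

/-- the kernel of the exponent map -/
def ker {G : Type} [CommGroup G] (a : Fin 3 → G) : AddSubgroup V3 where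
  carrier := {u | ph a u = 1}
  zero_mem' := ph_zero a
  add_mem' := by
    intro u v hu hv
    simp only [Set.mem_ofPred_eq] at hu hv ⊢
    rw [ph_add, hu, hv, one_mul]
  neg_mem' := by
    intro u hu
    simp only [Set.mem_ofPred_eq] at hu ⊢
    rw [ph_neg, hu, inv_one]

/-- the lattice -/
def lat (K : AddSubgroup V3) (D T : ℤ) : AddSubgroup V3 where
  carrier := {v | ∃ u ∈ K, ∃ t : V3, v = D • (u + T • t)}
  zero_mem' := ⟨0, K.zero_mem, 0, by simp⟩
  add_mem' := by
    rintro v v' ⟨u, hu, t, rfl⟩ ⟨u', hu', t', rfl⟩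
    exact ⟨u + u', K.add_mem hu hu', t + t', by simp only [smul_add]; abel⟩
  neg_mem' := by
    rintro v ⟨u, hu, t, rfl⟩
    exact ⟨-u, K.neg_mem hu, -t, by simp only [smul_add, smul_neg]; abel⟩

/-- the arithmetic of the box -/
lemma box_iff (d : ℤ) (hd : 0 < d) (i : ℤ) (hi : 0 ≤ i) (hid : i < d) (x w g N : ℤ) :
    (2 * d * g - 2 * d * N - 1 < (2 * d * x + i) + 2 * d * w ∧
      (2 * d * x + i) + 2 * d * w ≤ 2 * d * g - 2 * d * N - 1 + (2 * d * (2 * N) + d)) ↔
      (-N ≤ x - g + w ∧ x - g + w ≤ N) := by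
  constructor
  · rintro ⟨h1, h2⟩
    constructor
    · by_contra hcon
      push Not at hcon
      have h3 : x - g + w + N ≤ -1 := by linarith
      have h4 : 2 * d * (x - g + w + N) ≤ 2 * d * (-1) := by
        apply mul_le_mul_of_nonneg_left h3; linarith
      nlinarith
    · by_contra hcon
      push Not at hcon
      have h3 : 1 ≤ x - g + w - N := by linarith
      have h4 : 2 * d * 1 ≤ 2 * d * (x - g + w - N) := by
        apply mul_le_mul_of_nonneg_left h3; linarith
      nlinarith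
  · rintro ⟨h1, h2⟩
    constructor
    · have h4 : 0 ≤ 2 * d * (x - g + w + N) := by
        apply mul_nonneg; linarith; linarith
      nlinarith
    · have h4 : 0 ≤ 2 * d * (N - (x - g + w)) := by
        apply mul_nonneg; linarith; linarith
      nlinarith

/-- combinatorial part: translates with all patterns -/
lemma shat {G : Type} [CommGroup G] (P : Set G) (d : ℕ)
    (h : ((d + 1 : ℕ) : ℕ∞) ≤ vcDim (leftTranslates P)) :
    ∃ (y : Fin (d + 1) → G) (g : Set (Fin d) → G), ∀ I : Set (Fin d),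
      (∀ i : Fin d, (g I)⁻¹ * y i.castSucc ∈ P ↔ i ∈ I) ∧ (g I)⁻¹ * y (Fin.last d) ∈ P := by
  obtain ⟨Y, hY, hcard⟩ : ∃ Y : Finset G, Shatters (leftTranslates P) Y ∧ d + 1 ≤ Y.card := by
    by_contra hcon
    push Not at hcon
    have h1 : vcDim (leftTranslates P) ≤ (d : ℕ∞) := by
      unfold vcDim
      refine iSup₂_le fun Y hY => ?_
      have := hcon Y hY
      exact_mod_cast (Nat.lt_succ_iff.1 this)
    have h2 : ((d + 1 : ℕ) : ℕ∞) ≤ ((d : ℕ) : ℕ∞) := h.trans h1
    have h3 : d + 1 ≤ d := by exact_mod_cast h2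
    omega
  obtain ⟨y, hyinj, hyY⟩ : ∃ y : Fin (d + 1) → G, Function.Injective y ∧ ∀ i, y i ∈ Y := by
    refine ⟨fun i => (Y.equivFin.symm (Fin.castLE hcard i)).1, ?_, fun i => Subtype.coe_prop _⟩
    intro i j hij
    have h1 := Subtype.ext hij
    have h2 := Y.equivFin.symm.injective h1
    exact Fin.castLE_injective hcard h2
  refine ⟨y, ?_⟩
  have key : ∀ I : Set (Fin d), ∃ g : G, (∀ i : Fin d, g⁻¹ * y i.castSucc ∈ P ↔ i ∈ I) ∧
      g⁻¹ * y (Fin.last d) ∈ P := by
    intro I
    obtain ⟨T, ⟨g, rfl⟩, hT⟩ := hY ({x | ∃ i ∈ I, y i.castSucc = x} ∪ {y (Fin.last d)}) (by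
      rintro x (⟨i, _, rfl⟩ | hx)
      · exact hyY _
      · rw [Set.mem_singleton_iff] at hx
        rw [hx]
        exact hyY _)
    have hmem : ∀ j, g⁻¹ * y j ∈ P ↔ y j ∈ ({x | ∃ i ∈ I, y i.castSucc = x} ∪ {y (Fin.last d)} :
        Set G) := by
      intro j
      rw [← hT]
      constructor
      · intro hj
        exact ⟨(mem_leftTranslate P g (y j)).2 hj, hyY j⟩
      · intro hj
        exact (mem_leftTranslate P g (y j)).1 hj.1
    refine ⟨g, fun i => ?_, ?_⟩
    · rw [hmem]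
      constructor
      · rintro (⟨i', hi', he⟩ | he)
        · have := hyinj he
          rwa [← Fin.castSucc_injective d this]
        · have := hyinj he
          exact absurd this (Fin.castSucc_lt_last i).ne
      · intro hi
        exact Or.inl ⟨i, hi, rfl⟩
    · rw [hmem]
      exact Or.inr rfl
  choose g hg using key
  exact ⟨g, hg⟩

end REDaux

open REDaux in
theorem specRED (hRFN : SpecRFN) : SpecRED := by
  classical
  intro G _ a N d hd hvc
  obtain ⟨y, g, hg⟩ := shat (genProg a N) d hvc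
  have hmemP : ∀ x : G, x ∈ genProg a N ↔ ∃ n : V3, (∀ b, (n b).natAbs ≤ N b) ∧ ph a n = x :=
    fun x => mem_genProg_iff a N x
  -- exponents
  have hn : ∀ i : Fin d, ∃ n : V3, ph a n = (g Set.univ)⁻¹ * y i.castSucc := fun i => by
    obtain ⟨n, _, h⟩ := (hmemP _).1 (((hg Set.univ).1 i).2 (Set.mem_univ i))
    exact ⟨n, h⟩
  choose x hx using hn
  obtain ⟨nl, _, hnl⟩ := (hmemP _).1 (hg Set.univ).2
  have hm : ∀ I : Set (Fin d), ∃ m : V3, ph a m = (g I)⁻¹ * y (Fin.last d) := fun I => by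
    obtain ⟨n, _, h⟩ := (hmemP _).1 (hg I).2
    exact ⟨n, h⟩
  choose m hm using hm
  have hγ : ∀ (I : Set (Fin d)) (i : Fin d),
      (g I)⁻¹ * y i.castSucc = ph a (x i - (nl - m I)) := by
    intro I i
    rw [ph_sub, ph_sub, hx, hnl, hm]
    have e1 : (g Set.univ)⁻¹ * y (Fin.last d) * ((g I)⁻¹ * y (Fin.last d))⁻¹ =
        (g Set.univ)⁻¹ * g I := by group
    rw [e1, mul_inv_rev, inv_inv, mul_comm (g Set.univ)⁻¹ (y i.castSucc), mul_assoc,
      mul_comm (g I)⁻¹ (g Set.univ), inv_mul_cancel_left, mul_comm]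
  have hmem : ∀ (I : Set (Fin d)) (i : Fin d), i ∈ I ↔
      ∃ u ∈ ker a, ∀ b, (x i b - (nl - m I) b + u b).natAbs ≤ N b := by
    intro I i
    rw [← (hg I).1 i, hγ I i, hmemP]
    constructor
    · rintro ⟨n, h1, h2⟩
      refine ⟨n - (x i - (nl - m I)), ?_, fun b => ?_⟩
      · change ph a _ = 1
        rw [ph_sub, h2, mul_inv_cancel]
      · have : x i b - (nl - m I) b + (n - (x i - (nl - m I))) b = n b := by
          simp only [Pi.sub_apply]; ring
        rw [this]
        exact h1 b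
    · rintro ⟨u, hu, h1⟩
      have hu' : ph a u = 1 := hu
      exact ⟨x i - (nl - m I) + u, fun b => h1 b, by rw [ph_add, hu', mul_one]⟩
  -- the finite set and the period
  let box : Finset V3 := Fintype.piFinset fun b => Finset.Icc (-(N b : ℤ)) (N b)
  let F : Finset V3 := Finset.univ.biUnion fun i : Fin d =>
    (Finset.univ : Finset (Set (Fin d))).biUnion fun I => box.image fun n => n - (x i - (nl - m I))
  obtain ⟨T, hT, hTF⟩ := hRFN (ker a) F
  have hmem' : ∀ (I : Set (Fin d)) (i : Fin d), i ∈ I ↔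
      ∃ u ∈ ker a, ∃ t : V3, ∀ b, -(N b : ℤ) ≤ x i b - (nl - m I) b + (u + (T : ℤ) • t) b ∧
        x i b - (nl - m I) b + (u + (T : ℤ) • t) b ≤ N b := by
    intro I i
    rw [hmem I i]
    constructor
    · rintro ⟨u, hu, h1⟩
      refine ⟨u, hu, 0, fun b => ?_⟩
      rw [smul_zero, add_zero]
      have := h1 b
      omega
    · rintro ⟨u, hu, t, h1⟩
      refine ⟨u + (T : ℤ) • t, hTF _ ?_ ⟨u, hu, t, rfl⟩, fun b => ?_⟩
      · simp only [F, Finset.mem_biUnion, Finset.mem_univ, true_and, Finset.mem_image]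
        refine ⟨i, I, x i - (nl - m I) + (u + (T : ℤ) • t), ?_, by abel⟩
        simp only [box, Fintype.mem_piFinset, Finset.mem_Icc]
        intro b
        exact h1 b
      · have := h1 b
        omega
  -- the system
  have hdZ : (0 : ℤ) < d := by exact_mod_cast hd
  have hTZ : (0 : ℤ) < T := by exact_mod_cast hT
  let Q : Sys d :=
    { Λ := lat (ker a) (2 * d) T
      s := fun b => 2 * (d : ℤ) * (2 * (N b : ℤ)) + d
      x := fun i b => 2 * (d : ℤ) * x i b + ((i : ℕ) : ℤ)
      T := 2 * d * T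
      hT := by positivity
      per := by
        intro c
        refine ⟨0, (ker a).zero_mem, Pi.single c 1, ?_⟩
        funext b
        rw [zero_add]
        by_cases hb : b = c
        · subst hb
          simp
        · simp [Pi.single_eq_of_ne hb]
      div := by
        rintro v ⟨u, _, t, rfl⟩ b
        exact ⟨(u + (T : ℤ) • t) b, by simp⟩
      hs := by
        intro b
        positivity
      smod := by
        intro b
        rw [Int.mul_add_emod_self_left]
        exact Int.emod_eq_of_lt (by omega) (by omega)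
      xmod := by
        intro i b
        rw [Int.mul_add_emod_self_left]
        have := i.2
        exact Int.emod_eq_of_lt (by omega) (by omega) }
  refine ⟨Q, fun I => ⟨fun b => 2 * (d : ℤ) * (nl - m I) b - 2 * (d : ℤ) * (N b : ℤ) - 1, ?_⟩⟩
  ext i
  change Mem Q.Λ Q.s Finset.univ (Q.x i) _ ↔ _
  rw [hmem' I i]
  have hi : ((i : ℕ) : ℤ) < d := by exact_mod_cast i.2
  constructor
  · rintro ⟨v, ⟨u, hu, t, rfl⟩, hv⟩
    refine ⟨u, hu, t, fun b => ?_⟩
    have h1 := hv b (Finset.mem_univ b)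
    have h2 : ((2 * (d : ℤ)) • (u + (T : ℤ) • t)) b = 2 * (d : ℤ) * (u + (T : ℤ) • t) b := by
      simp
    rw [h2] at h1
    exact (box_iff d hdZ i (by omega) hi (x i b) ((u + (T : ℤ) • t) b) ((nl - m I) b) (N b)).1 h1
  · rintro ⟨u, hu, t, hv⟩
    refine ⟨(2 * (d : ℤ)) • (u + (T : ℤ) • t), ⟨u, hu, t, rfl⟩, fun b _ => ?_⟩
    have h2 : ((2 * (d : ℤ)) • (u + (T : ℤ) • t)) b = 2 * (d : ℤ) * (u + (T : ℤ) • t) b := by
      simp
    rw [h2]
    exact (box_iff d hdZ i (by omega) hi (x i b) ((u + (T : ℤ) • t) b) ((nl - m I) b) (N b)).2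
      (hv b)

end Pool.Agent.VCNil.AT
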