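import Pool.Agent.Lib.MP_19d06a_co.AT.Spec

/-!
# RFN: subgroups of `ℤ³` are separable
-/

set_option autoImplicit false

namespace Pool.Agent.VCNil.AT

namespace RFNaux

/-- Elements of `ℚ/ℤ` have finite order. -/
theorem fin_ord (x : AddCircle (1 : ℚ)) : ∃ n : ℕ, 0 < n ∧ n • x = 0 := by
  induction x using QuotientAddGroup.induction_on with
  | H r =>
    refine ⟨r.den, r.pos, ?_⟩
    have h1 : r.den • ((r : ℚ) : AddCircle (1 : ℚ)) = ((r.den • r : ℚ) : AddCircle (1 : ℚ)) :=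
      (AddCircle.coe_nsmul (1 : ℚ)).symm
    change r.den • ((r : ℚ) : AddCircle (1 : ℚ)) = 0
    rw [h1, AddCircle.coe_eq_zero_iff]
    refine ⟨r.num, ?_⟩
    rw [zsmul_eq_mul, mul_one, nsmul_eq_mul, Rat.den_mul_eq_num]

/-- One element. -/
theorem one (K : AddSubgroup V3) (w : V3) : ∃ T : ℕ, 0 < T ∧
    (w ∉ K → ∀ u ∈ K, ∀ t : V3, w ≠ u + (T : ℤ) • t) := by
  by_cases hw : w ∈ K
  · exact ⟨1, one_pos, fun h => absurd hw h⟩
  have h1 : (QuotientAddGroup.mk' K w) ≠ 0 := fun h => hw ((QuotientAddGroup.eq_zero_iff w).1 h)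
  obtain ⟨χ, hχ⟩ := CharacterModule.exists_character_apply_ne_zero_of_ne_zero h1
  have h2 : ∀ a : Fin 3, ∃ n : ℕ, 0 < n ∧
      n • χ (QuotientAddGroup.mk' K (Pi.single a (1 : ℤ))) = 0 := fun a => fin_ord _
  choose n hn0 hn using h2
  refine ⟨∏ a, n a, Finset.prod_pos fun a _ => hn0 a, fun _ u hu t he => hχ ?_⟩
  have ht : t = ∑ a : Fin 3, t a • (Pi.single a (1 : ℤ) : V3) := by
    funext b
    rw [Finset.sum_apply]
    simp only [Pi.smul_apply, Pi.single_apply, smul_eq_mul, mul_ite, mul_one, mul_zero,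
      Finset.sum_ite_eq, Finset.mem_univ, if_true]
  have h3 : χ (QuotientAddGroup.mk' K (((∏ a, n a : ℕ) : ℤ) • t)) = 0 := by
    rw [map_zsmul, map_zsmul, ht, map_sum, map_sum, Finset.smul_sum]
    refine Finset.sum_eq_zero fun a _ => ?_
    obtain ⟨m, hm⟩ := Finset.dvd_prod_of_mem n (Finset.mem_univ a)
    rw [map_zsmul, map_zsmul, smul_comm, hm, natCast_zsmul, mul_comm, mul_smul, hn a, smul_zero,
      smul_zero]
  rw [he, map_add, map_add, h3, add_zero]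
  have h4 : QuotientAddGroup.mk' K u = 0 := (QuotientAddGroup.eq_zero_iff u).2 hu
  rw [h4, map_zero]

end RFNaux

theorem specRFN : SpecRFN := by
  intro K F
  choose T hT0 hT using RFNaux.one K
  refine ⟨∏ w ∈ F, T w, Finset.prod_pos fun w _ => hT0 w, ?_⟩
  rintro w hw ⟨u, hu, t, he⟩
  by_contra hwK
  obtain ⟨m, hm⟩ := Finset.dvd_prod_of_mem T hw
  refine hT w hwK u hu ((m : ℤ) • t) ?_
  rw [smul_smul, ← Nat.cast_mul, ← hm]
  exact he

end Pool.Agent.VCNil.AT
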