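import Pool.Agent.Lib.MP_19d06a_co.AT.SpecB

/-!
# SAU: the Sauer-Shelah bound for the number of traces
-/

set_option autoImplicit false

namespace Pool.Agent.VCNil.AT

namespace SAUaux

theorem sum_pow_le (n d : ℕ) : ∑ j ∈ Finset.range (d + 1), n ^ j ≤ (n + 1) ^ d := by
  induction d with
  | zero => simp
  | succ d ih =>
    rw [Finset.sum_range_succ]
    have h1 : n ^ (d + 1) ≤ n * (n + 1) ^ d := by
      rw [pow_succ, mul_comm]
      exact Nat.mul_le_mul_left n (Nat.pow_le_pow_left (Nat.le_succ n) d)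
    calc ∑ j ∈ Finset.range (d + 1), n ^ j + n ^ (d + 1)
        ≤ (n + 1) ^ d + n * (n + 1) ^ d := Nat.add_le_add ih h1
      _ = (n + 1) ^ (d + 1) := by ring

theorem sum_choose_le (n d : ℕ) : ∑ j ∈ Finset.range (d + 1), n.choose j ≤ (n + 1) ^ d :=
  (Finset.sum_le_sum fun j _ => Nat.choose_le_pow n j).trans (sum_pow_le n d)

end SAUaux

open SAUaux in
theorem specSAU : SpecSAU := by
  intro X ι F d h Y
  classical
  let 𝒜 : Finset (Finset X) :=
    Y.powerset.filter (fun s => ∃ i, F i ∩ (Y : Set X) = (s : Set X))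
  have hmem : ∀ s : Finset X, s ∈ 𝒜 ↔ s ⊆ Y ∧ ∃ i, F i ∩ (Y : Set X) = (s : Set X) := by
    intro s
    simp only [𝒜, Finset.mem_filter, Finset.mem_powerset]
  have h1 : (Set.range fun i => F i ∩ (Y : Set X)) =
      (fun s : Finset X => (s : Set X)) '' (𝒜 : Set (Finset X)) := by
    ext T
    constructor
    · rintro ⟨i, rfl⟩
      have hfin : (F i ∩ (Y : Set X)).Finite := Y.finite_toSet.subset Set.inter_subset_right
      refine ⟨hfin.toFinset, ?_, ?_⟩
      · rw [Finset.mem_coe, hmem]
        refine ⟨?_, i, ?_⟩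
        · intro x hx
          rw [Set.Finite.mem_toFinset] at hx
          exact hx.2
        · rw [Set.Finite.coe_toFinset]
      · simp only [Set.Finite.coe_toFinset]
    · rintro ⟨s, hs, rfl⟩
      rw [Finset.mem_coe, hmem] at hs
      obtain ⟨_, i, hi⟩ := hs
      exact ⟨i, hi⟩
  rw [h1, Set.ncard_image_of_injective _ Finset.coe_injective, Set.ncard_coe_finset]
  have h2 : 𝒜.shatterer ⊆ (Finset.range (d + 1)).biUnion fun j => Y.powersetCard j := by
    intro s hs
    rw [Finset.mem_shatterer] at hs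
    have hsY : s ⊆ Y := by
      obtain ⟨u, hu, hsu⟩ := hs (Finset.Subset.refl s)
      rw [hmem] at hu
      intro x hx
      rw [← hsu] at hx
      exact hu.1 (Finset.mem_of_mem_inter_right hx)
    have hsh : Shatters (Set.range F) s := by
      intro B hB
      have hfin : B.Finite := s.finite_toSet.subset hB
      obtain ⟨u, hu, hsu⟩ := hs (t := hfin.toFinset) (by
        intro x hx
        rw [Set.Finite.mem_toFinset] at hx
        exact hB hx)
      rw [hmem] at hu
      obtain ⟨_, i, hi⟩ := hu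
      refine ⟨F i, ⟨i, rfl⟩, ?_⟩
      have e1 : ((s ∩ u : Finset X) : Set X) = B := by
        rw [hsu, Set.Finite.coe_toFinset]
      rw [← e1, Finset.coe_inter, ← hi]
      ext x
      simp only [Set.mem_inter_iff, Finset.mem_coe]
      constructor
      · rintro ⟨hx, hxs⟩
        exact ⟨hxs, hx, hsY hxs⟩
      · rintro ⟨hxs, hx, _⟩
        exact ⟨hx, hxs⟩
    rw [Finset.mem_biUnion]
    exact ⟨s.card, Finset.mem_range.2 (Nat.lt_succ_of_le (h s hsh)),
      Finset.mem_powersetCard.2 ⟨hsY, rfl⟩⟩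
  calc 𝒜.card ≤ 𝒜.shatterer.card := Finset.card_le_card_shatterer 𝒜
    _ ≤ ((Finset.range (d + 1)).biUnion fun j => Y.powersetCard j).card := Finset.card_le_card h2
    _ ≤ ∑ j ∈ Finset.range (d + 1), (Y.powersetCard j).card := Finset.card_biUnion_le
    _ = ∑ j ∈ Finset.range (d + 1), Y.card.choose j :=
        Finset.sum_congr rfl fun j _ => Finset.card_powersetCard j Y
    _ ≤ (Y.card + 1) ^ d := sum_choose_le _ _

end Pool.Agent.VCNil.AT
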