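import Pool.Agent.Lib.MP_19d06a_co.AT.SpecB

/-!
# SML: few letters `b`
-/

set_option autoImplicit false

namespace Pool.Agent.VCNil.AT

namespace SMLaux

open TWTaux

/-- The plane. -/
def subS (c : ℤ) : AddSubgroup V3 where
  carrier := {n | n 2 - n 1 = c * n 0}
  zero_mem' := by simp
  add_mem' := by
    intro a b ha hb
    simp only [Set.mem_ofPred_eq, Pi.add_apply] at ha hb ⊢
    linear_combination ha + hb
  neg_mem' := by
    intro a ha
    simp only [Set.mem_ofPred_eq, Pi.neg_apply] at ha ⊢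
    linear_combination -ha

lemma mem_subS (c : ℤ) (n : V3) : n ∈ subS c ↔ n 2 - n 1 = c * n 0 := Iff.rfl

variable {G : Type} [Group G]

/-- The parametrization. -/
def psi (φ : E2 →* G) (u v w : ℤ) : Multiplicative V3 →* G where
  toFun n := φ ⟨u * Multiplicative.toAdd n 0, 0,
    v * (Multiplicative.toAdd n 1 + Multiplicative.toAdd n 0 * w)⟩
  map_one' := by
    have : (⟨u * Multiplicative.toAdd (1 : Multiplicative V3) 0, 0,
        v * (Multiplicative.toAdd (1 : Multiplicative V3) 1 +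
          Multiplicative.toAdd (1 : Multiplicative V3) 0 * w)⟩ : E2) = 1 := by
      ext <;> simp
    rw [this, map_one]
  map_mul' n n' := by
    rw [← map_mul]
    congr 1
    ext
    · simp
      ring
    · simp
    · simp
      ring

lemma sg_sq (e : Bool) : sg e * sg e = 1 := by cases e <;> rfl

lemma qq_iff {n1 m m' X Z : ℤ} (h1 : 0 ≤ n1) (hm' : 0 ≤ m') (hY : m' ≤ m) :
    QQ n1 (m + m') X (m - m') Z ↔ ∃ t : ℤ, 0 ≤ t ∧ 2 * t ≤ n1 ∧ X = n1 - 2 * t ∧
      -(n1 * m') ≤ Z - t * (2 * m' - m) ∧ Z + t * m ≤ n1 * m := by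
  constructor
  · rintro ⟨a1, a2, ⟨t, ht⟩, a4, a5, a6, a7, a8⟩
    have hX : X = n1 - 2 * t := by linarith
    subst hX
    refine ⟨t, by linarith, by linarith, rfl, ?_, ?_⟩
    · nlinarith
    · nlinarith
  · rintro ⟨t, b1, b2, rfl, b4, b5⟩
    refine ⟨by linarith, by linarith, ⟨t, by ring⟩, by linarith, by linarith, ⟨m', by ring⟩, ?_, ?_⟩
    · nlinarith
    · nlinarith

/-- The lower corner. -/
def lo (n1 m' : ℤ) : V3 := ![0, -(n1 * m'), -(n1 * m')]

/-- The sides. -/
def sd (n1 n2 : ℤ) : Fin 3 → ℕ := ![(n1 / 2).toNat, (n1 * n2).toNat, (n1 * n2).toNat]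

/-- The box. -/
def bx (n1 m m' : ℤ) : Set (Multiplicative V3) :=
  boxSet (E := Multiplicative V3) (fun n => Multiplicative.toAdd n) (subS (2 * m')) 0 (lo n1 m')
    (sd n1 (m + m'))

lemma mem_bx {n1 m m' : ℤ} (h1 : 0 ≤ n1) (hm' : 0 ≤ m') (hY : m' ≤ m) (n : V3) :
    Multiplicative.ofAdd n ∈ bx n1 m m' ↔ (n 2 - n 1 = 2 * m' * n 0 ∧ 0 ≤ n 0 ∧ 2 * n 0 ≤ n1 ∧
      -(n1 * m') ≤ n 1 ∧ n 2 ≤ n1 * m) := by
  have hq : ((n1 / 2).toNat : ℤ) = n1 / 2 := Int.toNat_of_nonneg (by omega)
  have hnn : 0 ≤ n1 * (m + m') := mul_nonneg h1 (by linarith)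
  have hq2 : ((n1 * (m + m')).toNat : ℤ) = n1 * (m + m') := Int.toNat_of_nonneg hnn
  have h0 : (Multiplicative.ofAdd n ∈ bx n1 m m') ↔ (n - 0 ∈ subS (2 * m') ∧
      ∀ b, lo n1 m' b ≤ n b ∧ n b ≤ lo n1 m' b + sd n1 (m + m') b) := Iff.rfl
  rw [h0, sub_zero, mem_subS]
  constructor
  · rintro ⟨c1, c2⟩
    have d0 := c2 0
    have d1 := c2 1
    have d2 := c2 2
    simp only [lo, sd, Matrix.cons_val_zero, Matrix.cons_val_one, Matrix.cons_val] at d0 d1 d2
    rw [hq] at d0
    rw [hq2] at d1 d2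
    refine ⟨c1, d0.1, ?_, d1.1, ?_⟩
    · omega
    · nlinarith [d2.2]
  · rintro ⟨c1, c2, c3, c4, c5⟩
    refine ⟨c1, ?_⟩
    have hmt : 0 ≤ 2 * m' * n 0 := by positivity
    intro b
    have hb : b = 0 ∨ b = 1 ∨ b = 2 := by omega
    rcases hb with rfl | rfl | rfl
    · simp only [lo, sd, Matrix.cons_val_zero]
      rw [hq]
      constructor <;> omega
    · simp only [lo, sd, Matrix.cons_val_one, Matrix.cons_val_zero]
      rw [hq2]
      constructor
      · exact c4
      · nlinarith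
    · simp only [lo, sd, Matrix.cons_val]
      rw [hq2]
      constructor
      · linarith
      · nlinarith

lemma few_empty {X ι : Type} (D : ℕ) : Few (fun _ : ι => (∅ : Set X)) D := by
  intro Y
  have h : (Set.range fun _ : ι => (∅ : Set X) ∩ (Y : Set X)) ⊆ {∅} := by
    rintro _ ⟨i, rfl⟩
    simp
  refine (Set.ncard_le_ncard h (Set.finite_singleton _)).trans ?_
  rw [Set.ncard_singleton]
  exact Nat.one_le_pow _ _ (Nat.succ_pos _)

/-- The index set. -/
abbrev L : Type := Fin 95 × (Bool × (Bool × (Bool × Bool)))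

/-- `δ` -/
def dl (l : L) : ℤ := (l.1 : ℕ) - 47
/-- `n1` -/
def m1 (N1 : ℕ) (l : L) : ℤ := N1 - bt l.2.2.2.1
/-- `n2` -/
def m2 (N2 : ℕ) (l : L) : ℤ := N2 - bt l.2.2.2.2
/-- `Y` -/
def yy (l : L) : ℤ := sg l.2.2.1 * dl l
/-- `m'` -/
def mp (N2 : ℕ) (l : L) : ℤ := (m2 N2 l - yy l) / 2
/-- `m` -/
def mq (N2 : ℕ) (l : L) : ℤ := m2 N2 l - mp N2 l

/-- The condition on the index. -/
def cond (N1 N2 : ℕ) (l : L) : Prop :=
  0 ≤ m1 N1 l ∧ 0 ≤ yy l ∧ yy l ≤ m2 N2 l ∧ (2 : ℤ) ∣ m2 N2 l - yy l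

open Classical in
/-- The families. -/
noncomputable def Ef (φ : E2 →* G) (N1 N2 : ℕ) (l : L) (g : G) : Set G :=
  if cond N1 N2 l then
    tl (psi φ (-2 * sg l.2.1) (sg l.2.1 * sg l.2.2.1) (2 * mp N2 l - mq N2 l) ''
      bx (m1 N1 l) (mq N2 l) (mp N2 l))
      (g * (φ ⟨0, dl l, 0⟩ * φ ⟨sg l.2.1 * m1 N1 l, 0, 0⟩))
  else ∅

lemma mp_mq {N1 N2 : ℕ} {l : L} (h : cond N1 N2 l) :
    0 ≤ mp N2 l ∧ mp N2 l ≤ mq N2 l ∧ m2 N2 l = mq N2 l + mp N2 l ∧ yy l = mq N2 l - mp N2 l := by
  obtain ⟨h1, h2, h3, h4⟩ := h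
  unfold mq mp
  omega

end SMLaux

open SMLaux TWTaux in
theorem specSML (hSAU : SpecSAU) (hCMB : SpecCMB) (hVCB : SpecVCB) (hDSC : SpecDSC) : SpecSML := by
  intro G _ φ N1 N2 hN2
  have hmain : Few (tl (φ '' HP N1 N2)) (Fintype.card L * 50) := by
    refine hCMB G G L 50 (tl (φ '' HP N1 N2)) (fun l => Ef φ N1 N2 l) (fun β => ∃ l, β l) ?_ ?_
    · intro l
      by_cases hc : cond N1 N2 l
      · have h1 : Few (tl (psi φ (-2 * sg l.2.1) (sg l.2.1 * sg l.2.2.1)
            (2 * mp N2 l - mq N2 l) '' bx (m1 N1 l) (mq N2 l) (mp N2 l))) 50 :=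
          hSAU G G _ 50 fun Y hY => hVCB (Multiplicative V3) G _
            (fun n => Multiplicative.toAdd n) (fun p q => rfl) _ _ _ _ Y hY
        have h2 := h1.comp (fun g : G => g * (φ ⟨0, dl l, 0⟩ * φ ⟨sg l.2.1 * m1 N1 l, 0, 0⟩))
        have h3 : (fun g : G => tl (psi φ (-2 * sg l.2.1) (sg l.2.1 * sg l.2.2.1)
            (2 * mp N2 l - mq N2 l) '' bx (m1 N1 l) (mq N2 l) (mp N2 l))
            (g * (φ ⟨0, dl l, 0⟩ * φ ⟨sg l.2.1 * m1 N1 l, 0, 0⟩))) = Ef φ N1 N2 l := by
          funext g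
          unfold Ef
          rw [if_pos hc]
        rw [h3] at h2
        exact h2
      · have h3 : (fun _ : G => (∅ : Set G)) = Ef φ N1 N2 l := by
          funext g
          unfold Ef
          rw [if_neg hc]
        rw [← h3]
        exact few_empty 50
    · intro g x
      constructor
      · rintro ⟨⟨x', δ, z'⟩, hmem, hφ⟩
        obtain ⟨e, f, i, j, hQ⟩ := (hDSC N1 N2 x' δ z').1 hmem
        have hQ' := hQ
        obtain ⟨a1, a2, a3, a4, a5, a6, a7, a8⟩ := hQ'
        have hbj : 0 ≤ bt j := by cases j <;> simp [bt]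
        have hN2z : (N2 : ℤ) ≤ 47 := by exact_mod_cast hN2
        have hδ : -47 ≤ δ ∧ δ ≤ 47 := by
          cases f
          · simp only [sg] at a4 a5
            simp at a4 a5
            constructor <;> linarith
          · simp only [sg] at a4 a5
            simp at a4 a5
            constructor <;> linarith
        obtain ⟨c, hc⟩ := Int.eq_ofNat_of_zero_le (show 0 ≤ δ + 47 by linarith [hδ.1])
        have hc95 : c < 95 := by
          have := hδ.2
          omega
        refine ⟨(⟨c, hc95⟩, e, f, i, j), ?_⟩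
        have hdl : dl (⟨c, hc95⟩, e, f, i, j) = δ := by
          simp only [dl]
          linarith
        have hcond : cond N1 N2 (⟨c, hc95⟩, e, f, i, j) := by
          refine ⟨le_trans a1 a2, ?_, ?_, ?_⟩
          · rw [yy, hdl]
            exact a4
          · rw [yy, hdl]
            exact a5
          · rw [yy, hdl]
            exact a6
        obtain ⟨b1, b2, b3, b4⟩ := mp_mq hcond
        show x ∈ Ef φ N1 N2 (⟨c, hc95⟩, e, f, i, j) g
        unfold Ef
        rw [if_pos hcond]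
        set l : L := (⟨c, hc95⟩, e, f, i, j) with hl
        have hQ2 : QQ (m1 N1 l) (mq N2 l + mp N2 l) (sg e * x') (mq N2 l - mp N2 l)
            (sg e * sg f * z') := by
          rw [← b3, ← b4, yy, hdl]
          exact hQ
        have hm1 : 0 ≤ m1 N1 l := hcond.1
        obtain ⟨t, c1, c2, c3, c4, c5⟩ := (qq_iff hm1 b1 b2).1 hQ2
        refine ⟨Multiplicative.ofAdd ![t, sg e * sg f * z' - t * (2 * mp N2 l - mq N2 l),
          sg e * sg f * z' + t * mq N2 l], ?_, ?_⟩
        · rw [mem_bx hm1 b1 b2]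
          simp only [Matrix.cons_val_zero, Matrix.cons_val_one, Matrix.cons_val]
          refine ⟨by ring, c1, c2, c4, c5⟩
        · have hx : x' = sg e * (m1 N1 l - 2 * t) := by
            rw [← c3, ← mul_assoc, sg_sq, one_mul]
          have hz : z' = sg e * sg f * (sg e * sg f * z') := by
            have h1 := sg_sq e
            have h2 := sg_sq f
            linear_combination (-(sg f * sg f * z')) * h1 - z' * h2
          have hprod : (⟨x', δ, z'⟩ : E2) = ⟨0, dl l, 0⟩ * ⟨sg e * m1 N1 l, 0, 0⟩ *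
              ⟨-2 * sg e * t, 0, sg e * sg f * (sg e * sg f * z' -
                t * (2 * mp N2 l - mq N2 l) + t * (2 * mp N2 l - mq N2 l))⟩ := by
            ext
            · simp
              rw [hx]
              ring
            · simp [hdl]
            · simp
              exact hz
          have hpsi : psi φ (-2 * sg e) (sg e * sg f) (2 * mp N2 l - mq N2 l)
              (Multiplicative.ofAdd ![t, sg e * sg f * z' - t * (2 * mp N2 l - mq N2 l),
                sg e * sg f * z' + t * mq N2 l]) =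
              φ ⟨-2 * sg e * t, 0, sg e * sg f * (sg e * sg f * z' -
                t * (2 * mp N2 l - mq N2 l) + t * (2 * mp N2 l - mq N2 l))⟩ := rfl
          show psi φ (-2 * sg e) (sg e * sg f) (2 * mp N2 l - mq N2 l) _ = _
          rw [hpsi]
          rw [hprod, map_mul, map_mul] at hφ
          have hx5 := congrArg (fun z => g * z) hφ
          simp only [mul_inv_cancel_left] at hx5
          rw [← hx5]
          show _ = (g * (φ ⟨0, dl l, 0⟩ * φ ⟨sg e * m1 N1 l, 0, 0⟩))⁻¹ * _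
          group
      · rintro ⟨l, hl⟩
        have hl' : x ∈ Ef φ N1 N2 l g := hl
        by_cases hc : cond N1 N2 l
        · unfold Ef at hl'
          rw [if_pos hc] at hl'
          obtain ⟨n, hn, hx⟩ := hl'
          obtain ⟨b1, b2, b3, b4⟩ := mp_mq hc
          have key : ∀ nn : V3, Multiplicative.ofAdd nn ∈ bx (m1 N1 l) (mq N2 l) (mp N2 l) →
              psi φ (-2 * sg l.2.1) (sg l.2.1 * sg l.2.2.1) (2 * mp N2 l - mq N2 l)
                (Multiplicative.ofAdd nn) =
              (g * (φ ⟨0, dl l, 0⟩ * φ ⟨sg l.2.1 * m1 N1 l, 0, 0⟩))⁻¹ * x →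
              x ∈ tl (φ '' HP N1 N2) g := by
            intro nn hn hx
            rw [mem_bx hc.1 b1 b2] at hn
            obtain ⟨d1, d2, d3, d4, d5⟩ := hn
            obtain ⟨j0, e, f, i, j⟩ := l
            set l : L := (j0, e, f, i, j) with hl
            have hQ2 : QQ (m1 N1 l) (mq N2 l + mp N2 l) (m1 N1 l - 2 * nn 0) (mq N2 l - mp N2 l)
                (nn 1 + nn 0 * (2 * mp N2 l - mq N2 l)) := by
              refine (qq_iff hc.1 b1 b2).2 ⟨nn 0, d2, d3, rfl, ?_, ?_⟩
              · linarith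
              · linarith
            rw [← b3, ← b4] at hQ2
            refine ⟨⟨sg e * (m1 N1 l - 2 * nn 0), dl l,
              sg e * sg f * (nn 1 + nn 0 * (2 * mp N2 l - mq N2 l))⟩, ?_, ?_⟩
            · refine (hDSC N1 N2 _ _ _).2 ⟨e, f, i, j, ?_⟩
              have h1 := sg_sq e
              have h2 := sg_sq f
              have e1 : sg e * (sg e * (m1 N1 l - 2 * nn 0)) = m1 N1 l - 2 * nn 0 := by
                rw [← mul_assoc, h1, one_mul]
              have e2 : sg e * sg f * (sg e * sg f * (nn 1 + nn 0 * (2 * mp N2 l - mq N2 l))) =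
                  nn 1 + nn 0 * (2 * mp N2 l - mq N2 l) := by
                linear_combination ((sg f * sg f) * (nn 1 + nn 0 * (2 * mp N2 l - mq N2 l))) * h1 +
                  (nn 1 + nn 0 * (2 * mp N2 l - mq N2 l)) * h2
              rw [e1, e2]
              exact hQ2
            · have hprod : (⟨sg e * (m1 N1 l - 2 * nn 0), dl l,
                  sg e * sg f * (nn 1 + nn 0 * (2 * mp N2 l - mq N2 l))⟩ : E2) =
                  ⟨0, dl l, 0⟩ * ⟨sg e * m1 N1 l, 0, 0⟩ *
                  ⟨-2 * sg e * nn 0, 0, sg e * sg f * (nn 1 + nn 0 * (2 * mp N2 l - mq N2 l))⟩ := by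
                ext
                · simp
                  ring
                · simp
                · simp
              rw [hprod, map_mul, map_mul]
              have hpsi : psi φ (-2 * sg e) (sg e * sg f) (2 * mp N2 l - mq N2 l)
                  (Multiplicative.ofAdd nn) =
                  φ ⟨-2 * sg e * nn 0, 0, sg e * sg f * (nn 1 + nn 0 * (2 * mp N2 l - mq N2 l))⟩ := rfl
              rw [← hpsi]
              have hx' : psi φ (-2 * sg e) (sg e * sg f) (2 * mp N2 l - mq N2 l)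
                  (Multiplicative.ofAdd nn) =
                  (g * (φ ⟨0, dl l, 0⟩ * φ ⟨sg e * m1 N1 l, 0, 0⟩))⁻¹ * x := hx
              rw [hx']
              group
          exact key (Multiplicative.toAdd n) hn hx
        · unfold Ef at hl'
          rw [if_neg hc] at hl'
          exact absurd hl' (Set.notMem_empty _)
  refine hmain.mono ?_
  have : Fintype.card L = 95 * 16 := by
    simp [L]
  rw [this]

end Pool.Agent.VCNil.AT
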