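import Pool.Agent.Lib.MP_19d06a_co.AT.SpecB

/-!
MP_19d06a_co, module SWP: exchange of the generators of the Heisenberg group.
-/

set_option autoImplicit false

namespace Pool.Agent.VCNil.AT

open TWTaux

namespace SWPaux

lemma perm_sub {G : Type} [Group G] {k : ℕ} (a : Fin k → G) (N : Fin k → ℕ)
    (σ : Fin k ≃ Fin k) : genProg (fun i => a (σ i)) (fun i => N (σ i)) ⊆ genProg a N := by
  rintro g ⟨w, hw, rfl⟩
  refine ⟨w.map (fun l => (σ l.1, l.2)), fun i => ?_, ?_⟩
  · rw [List.countP_map]
    have h1 := hw (σ.symm i)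
    simp only [Equiv.apply_symm_apply] at h1
    refine le_trans (le_of_eq ?_) h1
    refine List.countP_congr fun l _ => ?_
    simp only [Function.comp, decide_eq_true_eq]
    rw [Equiv.apply_eq_iff_eq_symm_apply]
  · unfold wordVal
    rw [List.map_map]
    rfl

lemma perm_eq {G : Type} [Group G] {k : ℕ} (a : Fin k → G) (N : Fin k → ℕ)
    (σ : Fin k ≃ Fin k) : genProg (fun i => a (σ i)) (fun i => N (σ i)) = genProg a N := by
  refine Set.Subset.antisymm (perm_sub a N σ) ?_
  have h := perm_sub (fun i => a (σ i)) (fun i => N (σ i)) σ.symm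
  simpa using h

/-- The automorphism. -/
def θ : E2 →* E2 where
  toFun p := ⟨p.v0, p.x, p.x * p.v0 - p.v1⟩
  map_one' := by
    ext <;> simp
  map_mul' p q := by
    ext
    · simp
    · simp
    · simp
      ring

lemma θ_gE : (fun i => θ (gE i)) = fun i => gE (Equiv.swap (0 : Fin 2) 1 i) := by
  funext i
  fin_cases i
  · simp [θ, gE]
  · simp [θ, gE]

end SWPaux

open SWPaux in
theorem specSWP : SpecSWP := by
  refine ⟨θ, fun N1 N2 => ?_⟩
  unfold HP
  rw [← image_genProg, θ_gE]
  have h := perm_eq gE ![N2, N1] (Equiv.swap (0 : Fin 2) 1)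
  have e : (fun i => (![N2, N1] : Fin 2 → ℕ) (Equiv.swap (0 : Fin 2) 1 i)) = ![N1, N2] := by
    funext i
    fin_cases i <;> simp
  rw [e] at h
  exact h

end Pool.Agent.VCNil.AT
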