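import Pool.Agent.Lib.MP_19d06a_co.Shatter

/-!
# The threshold for abelian groups (MP_19d06a_co): specification (captain helper56)

THEOREM. The VC-dimensions of the generalized progressions of rank `k` of all abelian groups are
bounded if and only if `k ≤ 3`.

Every module `XXX` is a file `Pool/Agent/Lib/MP_19d06a_co/AT/XXX.lean` which imports this file and
proves `theorem specXXX (hypotheses = deps, in the order given) : SpecXXX` in the namespace
`Pool.Agent.VCNil.AT`, with its auxiliary declarations in the namespace `XXXaux`.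

Picture: a class is a coset `x i + Λ` of a lattice `Λ` in `ℤ³`, and to a position `z` belongs the box
`z b < p b ≤ z b + s b`. The pattern of `z` is the set of the classes which meet the box of `z`. We
show that for `50` classes not all `2 ^ 50` patterns occur.
-/

set_option autoImplicit false

namespace Pool.Agent.VCNil.AT

/-- The group `ℤ³`. -/
abbrev V3 : Type := Fin 3 → ℤ

/-- The class `x + Λ` meets the box of `z`, only the directions in `S` being considered. -/
def Mem (Λ : AddSubgroup V3) (s : V3) (S : Finset (Fin 3)) (x z : V3) : Prop :=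
  ∃ v ∈ Λ, ∀ b ∈ S, z b < x b + v b ∧ x b + v b ≤ z b + s b

/-- The position `z - 1_E`. -/
def pos (z : V3) (E : Finset (Fin 3)) : V3 := fun b => if b ∈ E then z b - 1 else z b

/-- A system: `d` classes, all coordinates of the class `i` are `i` modulo `2 d`, the sides `s b` are
`d` modulo `2 d`. So for every `z` and every direction `b` at most one class can enter or leave the
box between the positions `z b` and `z b - 1`. -/
structure Sys (d : ℕ) where
  /-- the lattice -/
  Λ : AddSubgroup V3
  /-- the sides of the box -/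
  s : V3
  /-- representatives of the classes -/
  x : Fin d → V3
  /-- a period -/
  T : ℤ
  hT : 0 < T
  per : ∀ a : Fin 3, Pi.single a T ∈ Λ
  div : ∀ v ∈ Λ, ∀ a : Fin 3, (2 * (d : ℤ)) ∣ v a
  hs : ∀ a, 0 < s a
  smod : ∀ a, s a % (2 * (d : ℤ)) = d
  xmod : ∀ i a, x i a % (2 * (d : ℤ)) = ((i : ℕ) : ℤ)

/-- The pattern of `z`. -/
def patt {d : ℕ} (Q : Sys d) (S : Finset (Fin 3)) (z : V3) : Set (Fin d) :=
  {i | Mem Q.Λ Q.s S (Q.x i) z}

/-- `z` is a vertex of `f` (in the directions `S`): in the block of the positions `pos z E`, `E ⊆ S`,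
`f` holds somewhere, and it varies in every direction of `S`. -/
def Vtx (f : V3 → Prop) (S : Finset (Fin 3)) (z : V3) : Prop :=
  (∃ E, E ⊆ S ∧ f (pos z E)) ∧
    ∀ a ∈ S, ∃ E, E ⊆ S ∧ a ∉ E ∧ ¬ (f (pos z E) ↔ f (pos z (insert a E)))

/-- **WALK** (size 60, no deps): existence of vertices.

PROOF. Induction on `T ⊆ S` (`Finset.induction_on`): there is `z` with `Vtx f T z`. `T = ∅`: `z0`
(`pos z ∅ = z`). Step, `a ∉ T`, `a ∈ S`: let `b z' : E ↦ f (pos z' E)`, `E ⊆ T`. If
`b (update z a (z a - n)) = b z` for all `n : ℕ`, then `f (pos z E)` for some `E ⊆ T` would give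
`f (pos (update z a (z a - n)) E)` for all `n`, and `pos (update z a (z a - n)) E` is
`update (pos z E) a ((pos z E) a - n)` because `a ∉ E`; this contradicts the hypothesis. So take the
least `n` with `b (update z a (z a - (n + 1))) ≠ b z` (`Nat.find`); then
`z' = update z a (z a - n)` has `b z' = b z` (so the directions of `T` vary) and for some `E ⊆ T`
`f (pos z' E)` and `f (pos z' (insert a E))` differ, since `pos z' (insert a E)` is
`pos (update z a (z a - (n + 1))) E`. -/
def SpecWALK : Prop :=
  ∀ (f : V3 → Prop) (S : Finset (Fin 3)) (z0 : V3), f z0 →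
    (∀ a ∈ S, ∀ z, f z → ∃ n : ℕ, ¬ f (Function.update z a (z a - n))) → ∃ z, Vtx f S z

/-- **LOOP** (size 30, no deps): going down in the direction `a` one meets every class which is in
the right position with respect to the other directions.

PROOF. Let `v` be the witness. Let `m : ℕ` be large, `v' = v - m • Pi.single a T`, so that
`t = x a + v' a ≤ z a`; take `n = (z a - t + 1).toNat`: `z a - n = t - 1 < t ≤ t - 1 + s a`. -/
def SpecLOOP : Prop :=
  ∀ (Λ : AddSubgroup V3) (s : V3) (S : Finset (Fin 3)) (x z : V3) (a : Fin 3) (T : ℤ), 0 < s a →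
    0 < T → Pi.single a T ∈ Λ → a ∈ S → Mem Λ s (S.erase a) x z →
      ∃ n : ℕ, Mem Λ s S x (Function.update z a (z a - n))

/-- **VEX** (size 50, deps WALK, LOOP): every pattern has a vertex for some set of directions.

PROOF. Show by induction on `S.card`: if `patt Q S z0 = I` for some `z0` then the conclusion holds. If
the hypothesis of WALK holds for `f z = (patt Q S z = I)`, use WALK. Otherwise there are `a ∈ S`, `z`
with `patt Q S (update z a (z a - n)) = I` for all `n`. Then `patt Q (S.erase a) z = I`: if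
`i ∈ I = patt Q S z` (`n = 0`) then `Mem` for `S` gives `Mem` for `S.erase a`; conversely use LOOP. -/
def SpecVEX : Prop :=
  ∀ (d : ℕ) (Q : Sys d) (I : Set (Fin d)), (∃ z, patt Q Finset.univ z = I) →
    ∃ (S : Finset (Fin 3)) (z : V3), Vtx (fun z => patt Q S z = I) S z

/-! ### orientation -/

/-- In the direction `b` a class can only enter the box between `z b` and `z b - 1` (`true`), or only
leave it (`false`). -/
def gain (d : ℕ) (z : V3) (b : Fin 3) : Bool := decide (z b % (2 * (d : ℤ)) < d)

/-- The class which enters or leaves in the direction `b`. -/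
def cls (d : ℕ) (z : V3) (b : Fin 3) : ℤ :=
  if z b % (2 * (d : ℤ)) < d then z b % (2 * (d : ℤ)) else z b % (2 * (d : ℤ)) - d

/-- Reflection in the directions with `g b = false`. -/
def ori (g : Fin 3 → Bool) : V3 →+ V3 where
  toFun p := fun b => if g b then p b else -(p b)
  map_zero' := by
    funext b
    simp
  map_add' p r := by
    funext b
    by_cases h : g b = true
    · simp [h]
    · simp [h]
      ring

/-- The lower corner of the box in the reflected coordinates. -/
def low (s : V3) (g : Fin 3 → Bool) (z : V3) : V3 := fun b => if g b then z b else -(z b + s b)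

/-- `p` is in the box with lower corner `q`; the lower face in the direction `b` belongs to the box
if `b ∈ E`. -/
def In (s : V3) (S E : Finset (Fin 3)) (q p : V3) : Prop :=
  ∀ b ∈ S, (b ∈ E → q b ≤ p b) ∧ (b ∉ E → q b < p b) ∧ p b < q b + s b

/-- The directions in which the lower face belongs to the box of `pos z E`. -/
def flip (g : Fin 3 → Bool) (E : Finset (Fin 3)) : Finset (Fin 3) :=
  Finset.univ.filter fun b => ((b ∈ E ∧ g b = true) ∨ (b ∉ E ∧ g b = false))

/-- **ORI** (size 90, no deps): the boxes in the reflected coordinates.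

PROOF. The same witness `v`; `p = x i + v`, `p b % (2 d) = i` (`div`, `xmod`), `i < d`. For each `b`
(omega after the modular facts), `z b % (2 d) < d`: then `p b ≠ z b + s b` (which is `≥ d` modulo
`2 d`), so `z b < p b ≤ z b + s b ↔ z b < p b < z b + s b` and
`z b - 1 < p b ≤ z b - 1 + s b ↔ z b ≤ p b < z b + s b`. `z b % (2 d) ≥ d`: then `p b ≠ z b`, so
`z b < p b ≤ z b + s b ↔ -(z b + s b) ≤ - p b < - z b` and
`z b - 1 < p b ≤ z b - 1 + s b ↔ -(z b + s b) < - p b < - z b`. -/
def SpecORI : Prop :=
  ∀ (d : ℕ) (Q : Sys d) (S E : Finset (Fin 3)) (z : V3) (i : Fin d),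
    Mem Q.Λ Q.s S (Q.x i) (pos z E) ↔
      ∃ v ∈ Q.Λ, In Q.s S (flip (gain d z) E) (low Q.s (gain d z) z) (ori (gain d z) (Q.x i + v))

/-- Oriented vertex with lower corner `q`, classes `y a + Λ`, and points `p a` of the classes on the
lower faces. -/
structure OV (Λ : AddSubgroup V3) (s : V3) (S : Finset (Fin 3)) (y : Fin 3 → V3)
    (E : Fin 3 → Finset (Fin 3)) (q : V3) (p : Fin 3 → V3) : Prop where
  coset : ∀ a ∈ S, p a - y a ∈ Λ
  notMem : ∀ a ∈ S, a ∉ E a
  empty : ∀ a ∈ S, ∀ v ∈ Λ, ¬ In s S (E a) q (y a + v)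
  hit : ∀ a ∈ S, In s S (insert a (E a)) q (p a)

/-- **EVT** (size 100, deps ORI): vertices of patterns give oriented vertices.

PROOF. Let `g = gain d z`. For `a ∈ S` take `E` from `Vtx`. The two patterns differ, so there is a
class `i` with `Mem` at exactly one of `pos z E`, `pos z (insert a E)`. (1) `cls d z a = i`: the
witness `p` at one of the positions is not in the box of the other one, which only differs in the
direction `a`, so `p a = z a` or `p a = z a + s a`; the first one is `i` modulo `2 d`, so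
`z a % (2 d) = i < d`; in the second case `z a % (2 d) = i + d`. (2) Let `E' = flip g E` if
`g a = true` (then `a ∉ E'`, `flip g (insert a E) = insert a E'`), `E' = flip g (insert a E)` if
`g a = false` (then `a ∉ E'`, `flip g E = insert a E'`). In both cases (ORI) the class `i` is in the box
for `insert a E'` and not in the box for `E'`, because the boxes for `E'` are contained in those
for `insert a E'`. (3) Take `Y a = ori g (Q.x i)` (`a ∈ S`; anything, say `0`, otherwise),
`E' a`, `p a = ori g (Q.x i + v)`. (`d = 0` is impossible by `smod` and `hs`; so a constant choice of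
`c a` for `a ∉ S` is possible.) -/
def SpecEVT : Prop :=
  ∀ (d : ℕ) (Q : Sys d) (S : Finset (Fin 3)) (z : V3) (I : Set (Fin d)),
    Vtx (fun z => patt Q S z = I) S z →
      ∃ (E : Fin 3 → Finset (Fin 3)) (p : Fin 3 → V3) (c : Fin 3 → Fin d),
        (∀ a ∈ S, ((c a : ℕ) : ℤ) = cls d z a) ∧
          OV (Q.Λ.map (ori (gain d z))) Q.s S (fun a => ori (gain d z) (Q.x (c a))) E
            (low Q.s (gain d z) z) p

/-! ### oriented vertices -/

/-- **KEY** (size 200, no deps): four corners with the same classes.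

PROOF. Put `m j = p j 1 - p j 0 = (U, -k, α)`, `n j = p j 2 - p j 0 = (W, β, -l)` (coordinates
`0, 1, 2`; index `j` suppressed): `0 < U, W < s 0`, `0 < k < s 1`, `0 < l < s 2`, `-l < α < s 2 - l`,
`-k < β < s 1 - k`. Relative to `p j 0` the open box `Q j` is
`(0, s 0) × (-k j, s 1 - k j) × (-l j, s 2 - l j)`. `m j - m i` and `n j - n i` are in `Λ`, so for all
`h, i, j, c` (`EMPTY`) none of `m j - m i`, `n j - n i`, `n c + (m j - m i)`, `m c + (n j - n i)` is in the
box `Q h`. The conclusion holds if `m j - m i = (0, k i - k j, l i - l j)` or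
`n j - n i = (0, k i - k j, l i - l j)` (add `p j 0 - p i 0`), call this `EQ i j`.
(T) `U i = U j`, `i ≠ j`: `n j - (m j - m i) ∉ Q i` gives `α i + l i ≤ α j + l j`, and by symmetry `=`: EQ.
The same for `W` (`m j - (n j - n i) ∉ Q i` gives `β i + k i ≤ β j + k j`). So `U` and `W` are injective.
Cases A: all `α ≥ 0`, B: all `α ≤ 0`, A': all `β ≥ 0`, B': all `β ≤ 0`. For `U i < U j`:
(S) `m j - m i ∉ Q j` gives (A) `α i ≥ α j + l j`, (B) `α j - α i ≥ s 2 - l j`.
(A2) `n j - (m j - m i) ∉ Q i` gives `W j ≤ U j - U i`. (B2) `n i + (m j - m i) ∉ Q j` gives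
`W i + U j - U i ≥ s 0`. The same for `W i < W j`: (A') `β i ≥ β j + k j`, (B') `β j - β i ≥ s 1 - k j`,
(A2') `U j ≤ W j - W i`, (B2') `U i + W j - W i ≥ s 0`. In all four cases `U i < U j` implies `W j < W i`.
Order the indices by `U`: `U 1 < U 2 < U 3 < U 4`.
AA': (A2) for `1, 2`: `W 2 ≤ U 2 - U 1`; (A2') for `W 3 < W 2`: `U 2 ≤ W 2 - W 3`: contradiction.
BB': (B2) for `2, 3`: `W 2 + U 3 - U 2 ≥ s 0`, so `W 2 > U 2`; (B2') for `W 2 < W 1`:
`U 2 + W 1 - W 2 ≥ s 0`, so `U 2 > W 2`.
AB': let `i < j`, so `U i < U j`, `W j < W i`, `β i - β j ≥ s 1 - k i`, `α i ≥ α j + l j`.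
(III) `n i - (m j - m i) ∉ Q i` (`k j > - β j > - β i`): `W i ≤ U j - U i`.
(IV) `m i + (n i - n j) ∉ Q i`: `α i + l j ≥ s 2`. Also `k i + k j > s 1`.
(V) for `i < j < h`: `m j - m i ∉ Q h`: the coordinate `0` is fine, the coordinate `2` is fine by (IV) for
`j, h` (`l h ≥ s 2 - α j > α i - α j`), so the coordinate `1` is not: `k i - k j ≤ - k h` (impossible,
`k i + k h > s 1 > k j`) or `k i + k h ≥ s 1 + k j`. (V) for `1, 2, 3` and for `2, 3, 4` add up to
`k 1 + k 4 ≥ 2 s 1`: contradiction. BA' is the same with the directions `1` and `2` exchanged. -/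
def SpecKEY : Prop :=
  ∀ (Λ : AddSubgroup V3) (s : V3) (y : Fin 3 → V3) (q : Fin 4 → V3) (p : Fin 4 → Fin 3 → V3),
    (∀ b, 0 < s b) → (∀ j a, p j a - y a ∈ Λ) →
    (∀ j a, ∀ v ∈ Λ, ¬ ∀ b, q j b < y a b + v b ∧ y a b + v b < q j b + s b) →
    (∀ j a, p j a a = q j a) →
    (∀ j a b, a ≠ b → q j b < p j a b ∧ p j a b < q j b + s b) →
    ((∀ j, p j 0 2 ≤ p j 1 2) ∨ ∀ j, p j 1 2 ≤ p j 0 2) →
    ((∀ j, p j 0 1 ≤ p j 2 1) ∨ ∀ j, p j 2 1 ≤ p j 0 1) →
      ∃ j j', j ≠ j' ∧ ∃ v ∈ Λ, ∀ b, q j' b = q j b + v b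

/-- **OTW** (size 150, no deps): two oriented vertices with the same data of low or improper type are
equivalent.

PROOF. `In (insert a (E a))` and not `In (E a)` gives `p a a = q a` (`a ∉ E a`), the same for `p'`, `q'`;
`p' a - p a ∈ Λ`. All boxes `In s S (E a)` contain the open box, so the open box of `q` has no point of
the classes. (1) Some `a ∈ S` has `p a b = q b` for all `b ∈ S` (then also for `p'`, `q'`, by the
hypothesis on the equalities): `v = p' a - p a`. This settles `S = {a}`, and `S = ∅` is trivial (`v = 0`).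
(2) `S = {a, b}`, `p a b ≠ q b` and `p b a ≠ q a` (so `q b < p a b < q b + s b` etc.). Put `v = p' a - p a`,
`w = p' b - p b`, `U = p b a - p a a`, `U' = p' b a - p' a a`. `U = U'`: then `w` works (coordinate `a`:
`w a = q' a - q a`, coordinate `b`: `p' b b - p b b = q' b - q b`). `U < U'`: the point `p' a + (w - v)` of
the class of `a` is in the open box of `q'`: coordinate `a`: `q' a + U' - U`; coordinate `b`:
`p a b + (q' b - q b)`. `U > U'`: exchange.
(3) `S` has three elements `a, b, e`, `p a b = q b`, `p a e ≠ q e`. Put `v = p' a - p a`, `r = q' - v`: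
`r a = q a`, `r b = q b`. If `r e = q e` then `v` works. Say `q e < r e` (otherwise exchange); `r e < p a e <
q e + s e`. The point `t = p' e - v` has `t e = r e` and is in the class of `e`, and it is in the box
`In s S (E e) q`: directions `a`, `b` as for `q'`, and `q e < t e < q e + s e`. Contradiction.
Every case of the hypothesis is (1), (2) or (3): if `S` has two elements and (2) fails then (1); if
`S` has three elements then some `p a b = q b`, `a ≠ b`, and (1) or (3). -/
def SpecOTW : Prop :=
  ∀ (Λ : AddSubgroup V3) (s : V3) (S : Finset (Fin 3)) (y : Fin 3 → V3)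
    (E : Fin 3 → Finset (Fin 3)) (q q' : V3) (p p' : Fin 3 → V3), (∀ b, 0 < s b) →
    OV Λ s S y E q p → OV Λ s S y E q' p' →
    (∀ a ∈ S, ∀ b ∈ S, (p a b = q b ↔ p' a b = q' b)) →
    (S ≠ Finset.univ ∨ ∃ a b, a ≠ b ∧ p a b = q b) →
      ∃ v ∈ Λ, ∀ b ∈ S, q' b = q b + v b

/-- **OFO** (size 60, deps KEY, OTW): four oriented vertices with the same data are not pairwise
inequivalent.

PROOF. If `S ≠ univ` or `p 0 a b = q 0 b` for some `a ≠ b`: OTW for the vertices `0`, `1`. Otherwise KEY:
`p j a a = q j a` and emptiness of the open boxes as in OTW, and `q j b < p j a b` because of `hit`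
and `≠`; the last two hypotheses are cases of the sign conditions. -/
def SpecOFO : Prop :=
  ∀ (Λ : AddSubgroup V3) (s : V3) (S : Finset (Fin 3)) (y : Fin 3 → V3)
    (E : Fin 3 → Finset (Fin 3)) (q : Fin 4 → V3) (p : Fin 4 → Fin 3 → V3), (∀ b, 0 < s b) →
    (∀ j, OV Λ s S y E (q j) (p j)) →
    (∀ j j' a b, (p j a b = q j b ↔ p j' a b = q j' b)) →
    (∀ j j', (p j 0 2 ≤ p j 1 2 ↔ p j' 0 2 ≤ p j' 1 2)) →
    (∀ j j', (p j 0 1 ≤ p j 2 1 ↔ p j' 0 1 ≤ p j' 2 1)) →
      ∃ j j', j ≠ j' ∧ ∃ v ∈ Λ, ∀ b ∈ S, q j' b = q j b + v b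

/-- **PIG** (size 200, deps VEX, EVT, OFO): for `50` classes not all patterns occur.

PROOF. Suppose all patterns occur. For every `I : Finset (Fin 50)` choose `S, z` (VEX for the set `I`),
`E0 ⊆ S` with `patt Q S (pos z E0) = I`, and `E, p, c` (EVT). Colour of `I`: `S`, `E0`, the residues of
`z b` modulo `100` (`Fin 3 → Fin 100`), `E`, the truth values of `p a b = low Q.s g z b`
(`Fin 3 → Fin 3 → Bool`), `decide (p 0 2 ≤ p 1 2)`, `decide (p 0 1 ≤ p 2 1)`. The number of colours is
`8 * 8 * 100 ^ 3 * 8 ^ 3 * 2 ^ 9 * 4` and three times this number is less than `2 ^ 50`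
(`1.0e6 * 2 ^ 26 * 3 < 2 ^ 50`), so four different `I` have the same colour
(`Fintype.exists_lt_card_fiber_of_mul_lt_card`). `gain` and `cls` only depend on the residues, so `g` and
`c a` (`a ∈ S`) are the same for the four (replace `c a` by a fixed choice for `a ∉ S`; `OV` only looks
at `a ∈ S`), and OFO gives `j ≠ j'` and `v ∈ Λ.map (ori g)`, `v = ori g u`, `u ∈ Λ`, with
`low z_j' b = low z_j b + v b` for `b ∈ S`, that is `z_j' b = z_j b + u b`. Then the patterns of
`pos z_j E0` and `pos z_j' E0` are the same (translate by `u`): `I_j = I_j'`, a contradiction. -/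
def SpecPIG : Prop := ∀ Q : Sys 50, ¬ ∀ I : Set (Fin 50), ∃ z, patt Q Finset.univ z = I

/-! ### reduction of the group to a system -/

/-- **RFN** (size 50, no deps): subgroups of `ℤ³` are separable.

PROOF. For one `w ∉ K`: the class of `w` in `V3 ⧸ K` is not zero, so some character
`χ : V3 ⧸ K →+ AddCircle (1 : ℚ)` (`CharacterModule.exists_character_apply_ne_zero_of_ne_zero`) does not
vanish at it; elements of `AddCircle (1 : ℚ)` have finite order (`x = r.num / r.den`, `r.den • x = 0`),
so `χ` vanishes at the multiples by some `T w > 0` of the three unit vectors, hence on `T w • V3`.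
Take `T = ∏ w ∈ F, T w` (`1` for `w ∈ K`). -/
def SpecRFN : Prop :=
  ∀ (K : AddSubgroup V3) (F : Finset V3), ∃ T : ℕ, 0 < T ∧
    ∀ w ∈ F, (∃ u ∈ K, ∃ t : V3, w = u + (T : ℤ) • t) → w ∈ K

/-- **RED** (size 200, deps RFN): shattered sets give systems with all patterns.

PROOF. (1) There is a shattered `Y` with `d + 1` elements at least (`vcDim` is a supremum,
`iSup₂_le` by contradiction), so an injective `y : Fin (d + 1) → G` with values in `Y`; for every
`I : Set (Fin d)` apply the definition to `{y i | i ∈ I} ∪ {y (last)}`: there is `g I` with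
`(g I)⁻¹ * y i ∈ P ↔ i ∈ I` for `i < d` and `(g I)⁻¹ * y last ∈ P` (`mem_leftTranslate`). (2) Let
`φ n = ∏ i, a i ^ n i`; `P` is the image of the box `|n i| ≤ N i` (`mem_genProg_iff`). With
`I = univ`: `y i = g univ * φ (n i)`, `y last = g univ * φ (n last)`; and
`(g I)⁻¹ * y last = φ (m I)`. So `(g I)⁻¹ * y i = φ (m I - n last + n i)`. Put `x i = n i`,
`γ I = n last - m I`: `(g I)⁻¹ * y i = φ (x i - γ I)`. (3) Let `K = ker φ` (as a subgroup of `V3`;
`φ u = 1`). `i ∈ I ↔ ∃ u ∈ K, ∀ b, |x i b - γ I b + u b| ≤ N b`. Let `F` be the finite set of the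
`n - (x i - γ I)`, `|n b| ≤ N b`, all `i`, `I` (`Set.Finite.toFinset`, or `Finset.image`), `T` from RFN;
then the same equivalence holds with `K' = K + T ℤ³` instead of `K`. (4) `D = 2 d`. The system:
`Λ = D K'` (the image of `K'` under multiplication by `D`; or the set of all `v` with
`∃ u ∈ K, ∃ t, v = D • (u + T • t)`), `s b = D * (2 * N b) + d`, `x' i b = D * x i b + i`, period
`D * T`. For `z b = D * γ b - D * N b - 1`: `x' i b + D u b - z b = D * (t + N b) + i + 1` with
`t = x i b - γ b + u b`, which is `> 0` iff `t ≥ - N b`, and `≤ s b` iff `t ≤ N b`. -/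
def SpecRED : Prop :=
  ∀ (G : Type) [CommGroup G] (a : Fin 3 → G) (N : Fin 3 → ℕ) (d : ℕ), 0 < d →
    ((d + 1 : ℕ) : ℕ∞) ≤ vcDim (leftTranslates (genProg a N)) →
      ∃ Q : Sys d, ∀ I : Set (Fin d), ∃ z, patt Q Finset.univ z = I

/-- **UNB** (size 120, no deps): rank `4` is unbounded.

PROOF. Copy `exists_shattered` of `Shatter.lean` with the group `G = ℤ × (ℤ × ZMod M)` (written
multiplicatively) and the four generators `(1, 0, α)`, `(1, 0, 0)`, `(0, 1, 1)`, `(0, -1, 0)`. The
element `n` of the box has the value `(n 0 + n 1, n 2 - n 3, α n 0 + n 2)`. As in `window`: for `N`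
large the element
`(w - 1 - 2 N, h - 2 N - (something), ..)` is in the progression iff `Hit M α w h Y`. In detail,
`(v1, v2, v3)` is in the progression iff there are integers `z, t` with `|z|, |v1 - z|, |t|, |t - v2| ≤ N`
and `α z + t ≡ v3` modulo `M`. With `v1 = w - 1 - 2 N`: `z = z' - N`, `0 ≤ z' ≤ w - 1`. With
`v2 = 2 N - h`: `|t| ≤ N`, `|t - v2| ≤ N` means `N - h ≤ t ≤ N`, `t = N - t'`, `0 ≤ t' ≤ h`. The
condition `α (z' - N) + N - t' ≡ v3` with `v3 = Y + N - α N` reads `α z' - Y ≡ t'` modulo `M`, that is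
`α z' + M m - Y = t' ∈ [0, h]` for some integer `m`: `Hit M α w h Y`. The points are
`pt i = (0, 0, Y i)`, and `g = -(w - 1 - 2 N, 2 N - h, N - α N)` for the window `(w, h)`. The points are
different because `Hit` only depends on `Y` modulo `M`. All windows: take `N` at least all `w` and `h`
(and `h ≤ 2 N`). -/
def SpecUNB : Prop :=
  ∀ d : ℕ, ∃ (M : ℕ) (a : Fin 4 → Multiplicative (ℤ × (ℤ × ZMod M))) (N : Fin 4 → ℕ),
    (d : ℕ∞) ≤ vcDim (leftTranslates (genProg a N))

/-- The VC-dimensions of the progressions of rank `k` of the nilpotent groups of class at most `s`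
are bounded. -/
def Bounded (k s : ℕ) : Prop :=
  ∃ C : ℕ, ∀ (G : Type) [Group G] [Group.IsNilpotent G], Group.nilpotencyClass G ≤ s →
    ∀ (a : Fin k → G) (N : Fin k → ℕ), vcDim (leftTranslates (genProg a N)) ≤ (C : ℕ∞)

/-- **FIN** (size 100, deps PIG, RED, UNB).

PROOF. (1) `k ≤ 3`, `s = 1`: a nilpotent group of class at most `1` is commutative
(`Group.nilpotencyClass_le_one_iff` or the like: commutators are in the term `0` of the lower central
series; `CommGroup` structure by `{ (inferInstance : Group G) with mul_comm := ..}`). By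
`genProg_append` (`k + j = 3`) one may assume `k = 3` (cast `Fin (k + j) = Fin 3`; do `k = 1, 2, 3`
separately). If the VC-dimension is at least `51` then RED (`d = 50`) and PIG give a contradiction;
so it is at most `50`. (2) `4 ≤ k`, `1 ≤ s`: as `Disproof.lean`, from UNB and `genProg_append`. (3) The
negation of Q1 from (2). (4) rank `1`, any `s`: the group generated by one element is commutative: let
`H` be the subgroup of `G` generated by `a 0`; not needed here. -/
def SpecFIN : Prop :=
  (∀ k : ℕ, 1 ≤ k → (Bounded k 1 ↔ k ≤ 3)) ∧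
    (∀ k s : ℕ, 4 ≤ k → 1 ≤ s → ¬ Bounded k s) ∧
    ∀ (k : ℕ) (G : Type) [CommGroup G] (a : Fin k → G) (N : Fin k → ℕ), k ≤ 3 →
      vcDim (leftTranslates (genProg a N)) ≤ 50

end Pool.Agent.VCNil.AT
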