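import Pool.Agent.Lib.MP_19d06a_co.AT.TWT

/-!
# Rank two, class two (MP_19d06a_co): specification (captain helper56)

THEOREM. The VC-dimensions of the generalized progressions of rank `2` of all nilpotent groups of class
at most `2` are bounded. With the landed modules (unbounded for `k ≥ 4`, for `k ≥ 3, s ≥ 2`, for
`k ≥ 2, s ≥ 3`; bounded for `k ≤ 3, s = 1` and for `k = 1`) this gives the complete answer: the bound
`C(k, s)` exists if and only if `k = 1`, or `s = 1` and `k ≤ 3`, or `k = s = 2`.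

Every module `XXX` is a file `Pool/Agent/Lib/MP_19d06a_co/AT/XXX.lean` which imports this file and
proves `theorem specXXX (hypotheses = deps, in the order given) : SpecXXX` in the namespace
`Pool.Agent.VCNil.AT`, with its auxiliary declarations in the namespace `XXXaux`.

`E2` is the Heisenberg group of the triples `⟨x, v0, v1⟩` with
`⟨x, y, z⟩ ⟨x', y', z'⟩ = ⟨x + x', y + y', z + (z' + x y')⟩` (simp lemmas `E2.mul_x`, ..).
-/

set_option autoImplicit false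

namespace Pool.Agent.VCNil.AT

open TWTaux

/-! ### toolkit -/

/-- The points `x` with `g⁻¹ x ∈ P`: the left translate `g P`. -/
def tl {G : Type} [Group G] (P : Set G) (g : G) : Set G := {x | g⁻¹ * x ∈ P}

lemma range_tl {G : Type} [Group G] (P : Set G) : Set.range (tl P) = leftTranslates P := by
  ext T
  constructor
  · rintro ⟨g, rfl⟩
    refine ⟨g, ?_⟩
    ext x
    exact mem_leftTranslate P g x
  · rintro ⟨g, rfl⟩
    refine ⟨g, ?_⟩
    ext x
    exact (mem_leftTranslate P g x).symm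

lemma image_genProg {G H : Type} [Group G] [Group H] (f : H →* G) {k : ℕ} (a : Fin k → H)
    (N : Fin k → ℕ) : genProg (fun i => f (a i)) N = f '' genProg a N := by
  ext g
  constructor
  · rintro ⟨w, hw, he⟩
    exact ⟨wordVal a w, ⟨w, hw, rfl⟩, by rw [ONEaux.map_wordVal, he]⟩
  · rintro ⟨x, ⟨w, hw, rfl⟩, he⟩
    exact ⟨w, hw, by rw [← ONEaux.map_wordVal, he]⟩

/-- On every set of `n` points the family `F` has at most `(n + 1) ^ D` traces. -/
def Few {X ι : Type} (F : ι → Set X) (D : ℕ) : Prop :=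
  ∀ Y : Finset X, (Set.range fun i => F i ∩ (Y : Set X)).ncard ≤ (Y.card + 1) ^ D

lemma finite_traces {X ι : Type} (F : ι → Set X) (Y : Finset X) :
    (Set.range fun i => F i ∩ (Y : Set X)).Finite := by
  refine (Set.Finite.finite_subsets Y.finite_toSet).subset ?_
  rintro _ ⟨i, rfl⟩
  exact Set.inter_subset_right

lemma Few.mono {X ι : Type} {F : ι → Set X} {D D' : ℕ} (h : Few F D) (hD : D ≤ D') : Few F D' :=
  fun Y => (h Y).trans (Nat.pow_le_pow_right (Nat.succ_pos _) hD)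

lemma Few.comp {X ι κ : Type} {F : ι → Set X} {D : ℕ} (h : Few F D) (f : κ → ι) :
    Few (fun k => F (f k)) D := by
  intro Y
  refine (Set.ncard_le_ncard ?_ (finite_traces F Y)).trans (h Y)
  rintro _ ⟨k, rfl⟩
  exact ⟨f k, rfl⟩

/-! ### counting -/

/-- **SAU** (size 120, no deps): Sauer-Shelah.

PROOF. `n = Y.card`. Let `𝒜 : Finset (Finset X)` be the set of the traces on `Y` (as finsets, classical);
its size is the `ncard`. `Finset.card_le_card_shatterer`: `#𝒜 ≤ #𝒜.shatterer`. A member `s` of the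
shatterer is a subset of `Y` (`s = s ∩ u` with `u ∈ 𝒜` for the choice `t = s`) and is shattered by
`Set.range F`, so `s.card ≤ d`. The number of the subsets of `Y` with at most `d` elements is
`∑ j ≤ d, n.choose j ≤ ∑ j ≤ d, n ^ j ≤ (n + 1) ^ d` (`Nat.choose_le_pow`; the last step by induction on `d`). -/
def SpecSAU : Prop :=
  ∀ (X ι : Type) (F : ι → Set X) (d : ℕ),
    (∀ Y : Finset X, Shatters (Set.range F) Y → Y.card ≤ d) → Few F d

/-- **CMB** (size 100, no deps): Boolean combinations.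

PROOF. Fix `Y`. `F i ∩ Y = {x ∈ Y | Φ (fun l => x ∈ E l i ∩ Y)}` is a function of the tuple
`l ↦ E l i ∩ Y`, so the set of the traces of `F` is the image of the set of the tuples, which is a
subset of `Set.pi univ (fun l => traces of E l)`, a finite set of size `∏ l, ncard ≤ ((n + 1) ^ D) ^ card L`.
(Convert to `Finset`s: `Fintype.piFinset`, `Fintype.card_piFinset`, `Finset.prod_le_pow_card`.) -/
def SpecCMB : Prop :=
  ∀ (X ι L : Type) [Fintype L] (D : ℕ) (F : ι → Set X) (E : L → ι → Set X)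
    (Φ : (L → Prop) → Prop), (∀ l, Few (E l) D) →
    (∀ i x, x ∈ F i ↔ Φ fun l => x ∈ E l i) → Few F (Fintype.card L * D)

/-- **FEW** (size 90, no deps): few traces bound the shattered sets.

PROOF. If `Y` is shattered, all `2 ^ n` subsets of `Y` are traces, so `2 ^ n ≤ (n + 1) ^ D`. There is `C`
with `(n + 1) ^ D < 2 ^ n` for all `n > C` (`tendsto_pow_const_div_const_pow_of_one_lt`, or explicitly). -/
def SpecFEW : Prop :=
  ∀ D : ℕ, ∃ C : ℕ, ∀ (X ι : Type) (F : ι → Set X), Few F D →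
    ∀ Y : Finset X, Shatters (Set.range F) Y → Y.card ≤ C

/-- **HLF** (size 130, deps SAU): half spaces.

PROOF. By SAU with `d = 3` it is enough that no four distinct points `x 0, .., x 3` are shattered (a
subset of a shattered set is shattered). There are rational `λ i`, not all `0`, with `∑ λ i = 0`,
`∑ λ i * u (x i) = 0`, `∑ λ i * v (x i) = 0` (three equations, four unknowns); so some `λ i` are
positive and some are negative. For a parameter `t` put `f i = t.1 + t.2.1 * u (x i) + t.2.2 * v (x i) -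
w (x i)`; then `∑ λ i * f i = - ∑ λ i * w (x i) = κ` does not depend on `t`. Take `t` with the trace
`{i | 0 < λ i}`: all `λ i * f i ≥ 0`, with `> 0` for the `i` with `λ i < 0` (`f i < 0`), so `κ > 0`. The
trace `{i | λ i < 0}` gives `κ < 0`. -/
def SpecHLF : Prop :=
  ∀ (X : Type) (u v w : X → ℤ),
    Few (fun t : ℤ × (ℤ × ℤ) => {x : X | w x ≤ t.1 + t.2.1 * u x + t.2.2 * v x}) 3

/-! ### lattices -/

/-- **LAT** (size 130, deps PIG, RFN, in this order; `SpecPIG`, `SpecRFN` of `AT/Spec.lean`): boxes and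
lattices in `ℤ³`.

PROOF. As the end of the proof of RED (`AT/RED.lean`, steps (3) and (4)). Let `z I` be the positions. `F`
= the finite set of all `w : V3` with `z I b ≤ x i b + w b ≤ z I b + s b` for all `b`, for some `i`, `I`.
RFN for `K`, `F` gives `T`; the same equivalences hold with `K' = {u + T • t}` instead of `K`. Take the
system `Λ = {100 • (u + T • t) | u ∈ K}`, sides `100 * s b + 50`, representatives `100 * x i b + i`,
period `100 * T`; `z' b = 100 * z I b - 1`. Since `0 ≤ i < 50`,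
`z' b < 100 * (x i b + v b) + i ≤ z' b + 100 * s b + 50` iff `z I b ≤ x i b + v b ≤ z I b + s b`. -/
def SpecLAT : Prop :=
  ∀ (K : AddSubgroup V3) (s : Fin 3 → ℕ) (x : Fin 50 → V3),
    ¬ ∀ I : Set (Fin 50), ∃ z : V3, ∀ i,
      (i ∈ I ↔ ∃ v ∈ K, ∀ b, z b ≤ x i b + v b ∧ x i b + v b ≤ z b + s b)

/-- The points whose coordinates `π p` are in a coset of `S` and in a box. -/
def boxSet {E : Type} (π : E → V3) (S : AddSubgroup V3) (e lo : V3) (s : Fin 3 → ℕ) : Set E :=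
  {p | π p - e ∈ S ∧ ∀ b, lo b ≤ π p b ∧ π p b ≤ lo b + s b}

/-- **VCB** (size 200, deps LAT): translates of images of boxes.

PROOF. `π 1 = 0`, `π p⁻¹ = - π p`. `B = boxSet ..`. Suppose `51 ≤ Y.card`: distinct points `y i`
(`i : Fin 50`) and `y'` of `Y`. The whole `Y` is a trace: `g₀⁻¹ * y i = φ (n i)`, `g₀⁻¹ * y' = φ n'`,
`n i, n' ∈ B`. For `I : Set (Fin 50)` the set `{y i | i ∈ I} ∪ {y'}` is a trace of some `g`:
`g⁻¹ * y' = φ m`, `m ∈ B`, so `g⁻¹ * y i = (g⁻¹ * y') * (y'⁻¹ * y i) = φ (m * n'⁻¹ * n i)`. So `i ∈ I` iff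
`φ (m * n'⁻¹ * n i) ∈ φ '' B` iff there is `k ∈ φ.ker` with `m * n'⁻¹ * n i * k ∈ B`. Now
`π (..) = π m - π n' + π (n i) + π k`, and `π (..) - e ∈ S` iff `π k ∈ S`. So with the subgroup
`K = {π k | k ∈ φ.ker, π k ∈ S}` and `z = lo - π m + π n'`: `i ∈ I` iff some `v ∈ K` has
`z b ≤ π (n i) b + v b ≤ z b + s b` for all `b`. This contradicts LAT (`x i = π (n i)`). -/
def SpecVCB : Prop :=
  ∀ (E G : Type) [Group E] [Group G] (φ : E →* G) (π : E → V3), (∀ p q, π (p * q) = π p + π q) →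
    ∀ (S : AddSubgroup V3) (e lo : V3) (s : Fin 3 → ℕ) (Y : Finset G),
      Shatters (Set.range (tl (φ '' boxSet π S e lo s))) Y → Y.card ≤ 50

/-! ### the Heisenberg group -/

/-- The two generators. -/
def gE : Fin 2 → E2 := ![⟨1, 0, 0⟩, ⟨0, 1, 0⟩]

/-- The progression of the Heisenberg group. -/
def HP (N1 N2 : ℕ) : Set E2 := genProg gE ![N1, N2]

/-- **HOM** (size 150, no deps): groups of class at most `2` generated by two elements.

PROOF. `c = a⁻¹ * b⁻¹ * a * b` is central: the commutators are in `lowerCentralSeries` number `1` and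
number `2` is trivial (`lowerCentralSeries_eq_bot_iff_nilpotencyClass_le` and the like). `a * b = b * a * c`.
By induction `a ^ x * b ^ y = b ^ y * a ^ x * c ^ (x * y)` for integers: `b⁻¹ * a * b = a * c`, so
`b⁻¹ * a ^ x * b = a ^ x * c ^ x` (`conj_zpow`, `Commute.mul_zpow`), then induction on `y`
(`Int.induction_on`). Put `φ ⟨x, y, z⟩ = b ^ y * a ^ x * c ^ z`. -/
def SpecHOM : Prop :=
  ∀ (G : Type) [Group G] [Group.IsNilpotent G], Group.nilpotencyClass G ≤ 2 →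
    ∀ a b : G, ∃ φ : E2 →* G, φ ⟨1, 0, 0⟩ = a ∧ φ ⟨0, 1, 0⟩ = b

/-- The number of the letters `(i, e)`. -/
def ct (i : Fin 2) (e : Bool) (w : List (Fin 2 × Bool)) : ℕ :=
  w.countP (fun l => decide (l = (i, e)))

/-- **UPB** (size 120, no deps): the last coordinate of a word.

PROOF. Induction on the word (`wordVal (l :: w) = (letter) * wordVal w`). `p = ct 0 true w`,
`p' = ct 0 false w`, `q = ct 1 true w`, `q' = ct 1 false w`. A new first letter `a^ε` changes `v1` by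
`ε * v0 = ε (q - q')`, a new first letter `b^ε` does not change `v1`. So in the two inequalities the
difference right side - left side grows without the `min`-term by: letter `a`: `q'` and `q`; letter
`a⁻¹`: `q` and `q'`; letter `b`: `p` and `p'`; letter `b⁻¹`: `p'` and `p`; and the term `min p p' * min q q'`
grows by at most `min q q'` (letters `a^ε`) or `min p p'` (letters `b^ε`). -/
def SpecUPB : Prop :=
  ∀ w : List (Fin 2 × Bool),
    (wordVal gE w).x = (ct 0 true w : ℤ) - ct 0 false w ∧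
    (wordVal gE w).v0 = (ct 1 true w : ℤ) - ct 1 false w ∧
    (wordVal gE w).v1 ≤ (ct 0 true w : ℤ) * ct 1 true w + ct 0 false w * ct 1 false w -
      min (ct 0 true w : ℤ) (ct 0 false w) * min (ct 1 true w : ℤ) (ct 1 false w) ∧
    -(wordVal gE w).v1 ≤ (ct 0 true w : ℤ) * ct 1 false w + ct 0 false w * ct 1 true w -
      min (ct 0 true w : ℤ) (ct 0 false w) * min (ct 1 true w : ℤ) (ct 1 false w)

/-- **IVT** (size 120, no deps): intermediate values.

PROOF. Show by induction on `List.Perm` (`nil`, `cons`, `swap`, `trans`): if `z` is between the last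
coordinates of `w` and of `w'` (in one of the two orders) then some `w''` which is a permutation of `w`
has the last coordinate `z`. `cons`: a first letter `a^ε` adds `ε * v0`, and `v0` is the same for all
permutations of `w` (the first two coordinates of `wordVal gE w` do not change under permutations, for
instance through the projection `proj2 : E2 →* Multiplicative (ℤ × ℤ)` of `TWT.lean`, or by induction);
a first letter `b^ε` adds nothing. `swap`: the two values differ by at most `1`. `trans`: `z` is between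
the first two or between the last two. -/
def SpecIVT : Prop :=
  ∀ w w' : List (Fin 2 × Bool), w.Perm w' → ∀ z : ℤ, (wordVal gE w).v1 ≤ z →
    z ≤ (wordVal gE w').v1 → ∃ w'' : List (Fin 2 × Bool), w''.Perm w ∧ (wordVal gE w'').v1 = z

/-- The part of the progression with `0 ≤ x`, `0 ≤ y` and `n1`, `n2` letters. -/
def QQ (n1 n2 x y z : ℤ) : Prop :=
  0 ≤ x ∧ x ≤ n1 ∧ (2 : ℤ) ∣ n1 - x ∧ 0 ≤ y ∧ y ≤ n2 ∧ (2 : ℤ) ∣ n2 - y ∧
    4 * z ≤ (n1 + x) * (n2 + y) ∧ -(n1 * n2 + n2 * x + n1 * y - 3 * x * y) ≤ 4 * z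

/-- The sign. -/
def sg (e : Bool) : ℤ := if e then 1 else -1

/-- `1` or `0`. -/
def bt (i : Bool) : ℤ := if i then 1 else 0

/-- **DSC** (size 280, deps UPB, IVT): description of the progression.

PROOF. (→) Take a word, `p, p', q, q'` as in UPB, `p + p' ≤ N1`, `q + q' ≤ N2`, `x = p - p'`, `y = q - q'`.
`e` = (`0 ≤ x`), `f` = (`0 ≤ y`), `n1 = N1` or `N1 - 1`, whichever has the parity of `x` (so
`p + p' ≤ n1`), the same for `n2`. Let `P = max p p'`, `P' = min p p'`, `Q = max q q'`, `Q' = min q q'`,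
`X = sg e * x = P - P'`, `Y = Q - Q'`, `Z = sg e * sg f * z`. In all four cases UPB says `Z ≤ P Q` and
`- Z ≤ P Q' + P' Q - P' Q'`. With `n = p + p'`, `m = q + q'`: `2 P = n + X`, `2 P' = n - X`, `2 Q = m + Y`,
`2 Q' = m - Y`, so `4 Z ≤ (n + X) (m + Y)` and `- 4 Z ≤ n m + m X + n Y - 3 X Y`; both right sides
increase with `n` and `m` (for `0 ≤ X ≤ n`, `0 ≤ Y ≤ m`). (←) Given `X, Y, Z, n1, n2` with `QQ`, put
`P = (n1 + X)/2`, `P' = (n1 - X)/2`, `Q = (n2 + Y)/2`, `Q' = (n2 - Y)/2` (natural numbers). The words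
`b⁻¹^Q' a^P b^Q a⁻¹^P'` and `a⁻¹^P' b^Q a^P b⁻¹^Q'` (lists of letters) are permutations of each other and
have the values `⟨X, Y, P Q⟩` and `⟨X, Y, -(P Q' + P' Q - P' Q')⟩`. IVT gives a word with the value
`⟨X, Y, Z⟩` and the same numbers of letters, `P + P' = n1 ≤ N1`, `Q + Q' = n2 ≤ N2`. For other signs apply
the automorphisms `⟨x, y, z⟩ ↦ ⟨-x, y, -z⟩`, `⟨x, -y, -z⟩`, that is, exchange the letters `(0, true)` and
`(0, false)` (or `(1, true)` and `(1, false)`) in the word. -/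
def SpecDSC : Prop :=
  ∀ (N1 N2 : ℕ) (x y z : ℤ), ((⟨x, y, z⟩ : E2) ∈ HP N1 N2 ↔
    ∃ e f i j : Bool, QQ (N1 - bt i) (N2 - bt j) (sg e * x) (sg f * y) (sg e * sg f * z))

/-- **SWP** (size 60, no deps): exchange of the generators.

PROOF. `θ ⟨x, y, z⟩ = ⟨y, x, x * y - z⟩` is a homomorphism with `θ (gE 0) = gE 1`, `θ (gE 1) = gE 0`. Words
go to words with the letters exchanged. -/
def SpecSWP : Prop := ∃ θ : E2 →* E2, ∀ N1 N2 : ℕ, θ '' HP N1 N2 = HP N2 N1

/-- **HPT** (size 250, deps HLF, CMB, DSC): few traces in the Heisenberg group.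

PROOF. CMB with `ι = E2`, `L = Bool × Bool × Bool × Bool × Fin 8` (128 elements), `D = 3`,
`Φ β = ∃ e f i j, ∀ t : Fin 8, β (e, f, i, j, t)`. For `g : E2` let `h = g⁻¹`; the point `x` has
`h * x = ⟨h.x + x.x, h.v0 + x.v0, h.v1 + (x.v1 + h.x * x.v0)⟩ = ⟨a, b, c⟩`; put `n1 = N1 - bt i`,
`n2 = N2 - bt j`, `X = sg e * a`, `Y = sg f * b`, `Z = sg e * sg f * c`. The eight conditions are those of
`QQ n1 n2 X Y Z`. Except for the parity conditions each of them is `w x ≤ A + B * x.x + C * x.v0` with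
`A, B, C` depending on `h` only, and `w` on the point only (HLF with `u x = x.x`, `v x = x.v0`, and
`Few.comp`): `w = 0` for the first ones; `4 Z ≤ (n1 + X) (n2 + Y)`: with `s = sg e * sg f`,
`w x = s * (4 * x.v1 - x.x * x.v0)`, `A = (n1 + sg e * h.x) * (n2 + sg f * h.v0) - 4 * s * h.v1`,
`B = sg e * (n2 + sg f * h.v0)`, `C = sg f * (n1 + sg e * h.x) - 4 * s * h.x`;
the last one similarly with `w x = s * (-4 * x.v1 + 3 * x.x * x.v0)`. The parity conditions have at most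
two traces (`2 ∣ n1 - sg e * (h.x + x.x)` depends on `h.x` modulo `2`): `Few .. 3` for them too (no
point: one trace). -/
def SpecHPT : Prop := ∀ N1 N2 : ℕ, Few (tl (HP N1 N2)) (128 * 3)

/-- **SML** (size 300, deps SAU, CMB, VCB, DSC): few letters `b`.

PROOF. CMB with `ι = G`, `L = Fin 95 × (Bool × Bool × Bool × Bool)`. For `(j₀, e, f, i, j) ∈ L` let `δ = j₀ - 47`,
`n1 = N1 - bt i`, `n2 = N2 - bt j`, `Y = sg f * δ`. If `0 ≤ n1`, `0 ≤ Y ≤ n2`, `2 ∣ n2 - Y`, put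
`m = (n2 + Y)/2`, `m' = (n2 - Y)/2`, `T = n1/2`. For `X = n1 - 2 t` (`0 ≤ t ≤ T`) the condition
`QQ n1 n2 X Y Z` says `-n1 m' + t (2 m' - m) ≤ Z ≤ n1 m - t m`. Put `α = Z - t (2 m' - m)`, `β = Z + t m`,
`β - α = 2 m' t`. So the condition is: `0 ≤ t ≤ T`, `-n1 m' ≤ α, β ≤ n1 m` (`-n1 m' ≤ α ≤ β ≤ n1 m`). Let
`B = boxSet toAdd S 0 lo s` in `Multiplicative V3`, `S = {n | n 2 - n 1 = 2 m' * n 0}`,
`lo = (0, -n1 m', -n1 m')`, `s = (T, n1 n2, n1 n2)` (`m + m' = n2`), `ψ : Multiplicative V3 →* G`,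
`ψ (t, α, β) = φ ⟨-2 * sg e * t, 0, sg e * sg f * (α + t * (2 * m' - m))⟩`. Since
`⟨x, δ, z⟩ = ⟨0, δ, 0⟩ * ⟨sg e * n1, 0, 0⟩ * ⟨-2 * sg e * t, 0, z⟩` for `x = sg e * (n1 - 2 t)`,
the elements `φ ⟨x, δ, z⟩` with `QQ n1 n2 (sg e * x) Y (sg e * sg f * z)` are `κ * b`, `b ∈ ψ '' B`,
`κ = φ ⟨0, δ, 0⟩ * φ ⟨sg e * n1, 0, 0⟩`. So the family is `E l g = tl (ψ '' B) (g * κ)` (`∅` if the
conditions on `n1, n2, Y` fail), `Few .. 50` by VCB, SAU and `Few.comp`; `x ∈ tl (φ '' HP N1 N2) g` iff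
`x ∈ E l g` for some `l` (DSC; `|δ| ≤ N2 ≤ 47`). -/
def SpecSML : Prop :=
  ∀ (G : Type) [Group G] (φ : E2 →* G) (N1 N2 : ℕ), N2 ≤ 47 →
    Few (tl (φ '' HP N1 N2)) (95 * 16 * 50)

/-- **COV** (size 150, deps DSC): the last coordinate takes all residues.

PROOF. Let `e = (0 ≤ x)`, `f = (0 ≤ y)`, `X = |x|`, `Y = |y|`, `n1 ∈ {N1, N1 - 1}` of the parity of `x` (so
`X ≤ n1`), the same for `n2`; `P = (n1 + X)/2`, `P' = (n1 - X)/2`, `Q`, `Q'` as in DSC. `QQ n1 n2 X Y Z` holds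
iff `-(P Q' + P' Q - P' Q') ≤ Z ≤ P Q`. The length of this interval is
`P Q + P Q' + P' Q - P' Q' = (n1 n2 + n1 Y + n2 X - X Y)/2 ≥ n1 n2/2 ≥ 47/48 * 47/48 * N1 N2/2 ≥ M`, so it
contains `Z = sg e * sg f * (z + M k)` for some `k`. -/
def SpecCOV : Prop :=
  ∀ N1 N2 M : ℕ, 48 ≤ N1 → 48 ≤ N2 → 1 ≤ M → 12 * M ≤ N1 * N2 →
    ∀ x y z : ℤ, |x| ≤ N1 → |y| ≤ N2 → ∃ k : ℤ, (⟨x, y, z + M * k⟩ : E2) ∈ HP N1 N2

/-- **LFT** (size 150, no deps): lifting of a shattered set.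

PROOF. Assume `C + 2 ≤ Y.card`. The whole `Y` is a trace: `y = g₀ * φ (n y)` with `n y ∈ P` for `y ∈ Y`.
Choose `y' ∈ Y`, `Y₁ = n '' (Y \ {y'})` (a finset of `E` with `Y.card - 1` elements; `n` is injective
on `Y`). `Y₁` is shattered by `Set.range F`: let `B ⊆ Y₁`; the set `{y ∈ Y | y = y' ∨ n y ∈ B}` is a trace
of some `g`: `g⁻¹ * y' = φ r`, `r ∈ P`; `g = y' * (φ r)⁻¹ = g₀ * φ (n y' * r⁻¹)`. For
`y ∈ Y \ {y'}`: `n y ∈ F (n y' * r⁻¹)` iff `φ ((n y' * r⁻¹)⁻¹ * n y) ∈ φ '' P` iff `g⁻¹ * y ∈ φ '' P` iff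
`n y ∈ B`. (Model: `ONEaux.of_hom` in `AT/ONE.lean`.) -/
def SpecLFT : Prop :=
  ∀ (E G : Type) [Group E] [Group G] (φ : E →* G) (P : Set E) (F : E → Set E),
    (∀ p ∈ P, ∀ q ∈ P, ∀ r ∈ P, (p ∈ F (q * r⁻¹) ↔ φ ((q * r⁻¹)⁻¹ * p) ∈ φ '' P)) →
    ∀ C : ℕ, (∀ Y : Finset E, Shatters (Set.range F) Y → Y.card ≤ C) →
      ∀ Y : Finset G, Shatters (Set.range (tl (φ '' P))) Y → Y.card ≤ C + 1

/-- **LRG** (size 280, deps CMB, FEW, VCB, UPB, HPT, COV, LFT): many letters `a` and `b`.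

PROOF. `C = max 50 (C₁ + 1)`, `C₁` from FEW for `D = 287 * (128 * 3)`. `M = orderOf (φ ⟨0, 0, 1⟩)`, so
`φ ⟨0, 0, z⟩ = 1` iff `(M : ℤ) ∣ z` (`orderOf_dvd_iff_zpow_eq_one`; `M = 0` means `z = 0`). By UPB every
`⟨x, y, z⟩ ∈ HP N1 N2` has `|x| ≤ N1`, `|y| ≤ N2`, `|z| ≤ N1 * N2`.
(1) `1 ≤ M`, `12 M ≤ N1 N2`: by COV `φ '' HP N1 N2 = φ '' {|x| ≤ N1, |y| ≤ N2} = φ '' boxSet π ⊤ 0 lo s` with
`π ⟨x, y, z⟩ = (x, y, 0)`, `lo = (-N1, -N2, 0)`, `s = (2 N1, 2 N2, 0)`. VCB.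
(2) otherwise (`M = 0` or `N1 N2 < 12 M`). Let `F g = {p | ∃ m : ℤ, |m| ≤ 143 ∧ p ∈ tl (HP N1 N2) (g * ⟨0, 0, -(M * m)⟩)}`;
CMB with `L = Fin 287`, HPT and `Few.comp`: `Few F (287 * (128 * 3))`. LFT for `P = HP N1 N2`: let
`p, q, r ∈ P`, `g = q * r⁻¹`. If `φ (g⁻¹ * p) = φ t`, `t ∈ P`, then `k = (g⁻¹ * p)⁻¹ * t = p⁻¹ * q * r⁻¹ * t ∈ φ.ker`,
`|k.x| ≤ 4 N1`, `|k.v0| ≤ 4 N2`, `|k.v1| ≤ 12 N1 N2` (an inverse is `⟨-x, -y, -(z - x y)⟩`, of size
`≤ 2 N1 N2`; four factors and six products). The commutators of `k` with `⟨0, 1, 0⟩` and `⟨1, 0, 0⟩` are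
`⟨0, 0, ± k.x⟩`, `⟨0, 0, ± k.v0⟩`, so `M ∣ k.x`, `M ∣ k.v0`. If `k.x ≠ 0` then `1 ≤ M ≤ 4 N1`,
`N1 N2 < 12 M ≤ 48 N1`, so `N2 < 48`: impossible; the same for `k.v0`. So `k = ⟨0, 0, M m⟩`,
`M |m| ≤ 12 N1 N2 < 144 M`, so `|m| ≤ 143` (`m = 0` if `M = 0`), and `t = g⁻¹ * p * k` gives
`p ∈ F g` (`⟨0, 0, z⟩` is central). The converse is clear. -/
def SpecLRG : Prop :=
  ∃ C : ℕ, ∀ (G : Type) [Group G] (φ : E2 →* G) (N1 N2 : ℕ), 48 ≤ N1 → 48 ≤ N2 →
    ∀ Y : Finset G, Shatters (Set.range (tl (φ '' HP N1 N2))) Y → Y.card ≤ C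

/-- **FNB** (size 100, deps FEW, HOM, SWP, SML, LRG).

PROOF. `a 0`, `a 1` and `φ` from HOM; `genProg a N = φ '' HP (N 0) (N 1)` (`image_genProg`, `a = φ ∘ gE`,
`N = ![N 0, N 1]`). If `N 1 ≤ 47`: SML and FEW. If `N 0 ≤ 47`: `φ '' HP (N 0) (N 1) = (φ ∘ θ) '' HP (N 1) (N 0)`
(SWP: `HP (N 0) (N 1) = θ '' HP (N 1) (N 0)`), SML and FEW. Otherwise LRG. `vcDim (leftTranslates ..)` is a
supremum over shattered sets (`iSup₂_le`), `range_tl`. -/
def SpecFNB : Prop := Bounded 2 2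

end Pool.Agent.VCNil.AT
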