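import Pool.Agent.Lib.MP_19d06a_co.AT.TTH

/-!
# Rank three, class two: the end
-/

set_option autoImplicit false

namespace Pool.Agent.VCNil.AT

namespace TTHaux

open TWTaux HYPaux

variable {α : ℕ} {R : Type} [CommRing R]

lemma gn_zero_pow (n : ℕ) : (gn 0 : G2 α R) ^ n = ⟨n, 0, 0, 0, 0⟩ := by
  induction n with
  | zero => rw [pow_zero]; rfl
  | succ n ih =>
    rw [pow_succ, ih, gn_zero]
    ext <;> simp

lemma gn_one_pow (n : ℕ) : (gn 1 : G2 α R) ^ n = ⟨0, n, 0, 0, 0⟩ := by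
  induction n with
  | zero => rw [pow_zero]; rfl
  | succ n ih =>
    rw [pow_succ, ih, gn_one]
    ext <;> simp

/-- A positive word with `p` letters `a`, `q` letters `e` and `t` inversions. -/
lemma exists_block (p q t : ℕ) (ht : t ≤ p * q) :
    ∃ w : List (Fin 3 × Bool), wordVal (gn : Fin 3 → G2 α R) w = ⟨p, q, 0, t, 0⟩ ∧
      w.countP (fun l => decide (l.1 = 0)) = p ∧ w.countP (fun l => decide (l.1 = 1)) = q ∧
      w.countP (fun l => decide (l.1 = 2)) = 0 := by
  induction p with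
  | zero =>
    have ht0 : t = 0 := by simpa using ht
    subst ht0
    refine ⟨List.replicate q (1, true), ?_, ?_, ?_, ?_⟩
    · have : wordVal (gn : Fin 3 → G2 α R) (List.replicate q (1, true)) = (gn 1) ^ q := by
        simp [wordVal]
      rw [this, gn_one_pow]
      ext <;> simp
    · simp [List.countP_replicate]
    · simp [List.countP_replicate]
    · simp [List.countP_replicate]
  | succ p ih =>
    by_cases h : t ≤ p * q
    · obtain ⟨w, h1, h2, h3, h4⟩ := ih h
      refine ⟨(0, true) :: w, ?_, ?_, ?_, ?_⟩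
      · have : wordVal (gn : Fin 3 → G2 α R) ((0, true) :: w) = gn 0 * wordVal gn w := by
          simp [wordVal]
        rw [this, h1, gn_zero]
        ext
        · simp
          ring
        · simp
        · simp
        · simp
        · simp
      · rw [List.countP_cons, h2]
        simp
      · rw [List.countP_cons, h3]
        simp
      · rw [List.countP_cons, h4]
        simp
    · obtain ⟨s, hs⟩ : ∃ s, t = p * q + s := ⟨t - p * q, by omega⟩
      have hsq : s ≤ q := by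
        have h5 : (p + 1) * q = p * q + q := by ring
        omega
      obtain ⟨u, hu⟩ : ∃ u, q = s + u := ⟨q - s, by omega⟩
      refine ⟨List.replicate s (1, true) ++ ((0, true) :: (List.replicate u (1, true) ++
        List.replicate p (0, true))), ?_, ?_, ?_, ?_⟩
      · have : wordVal (gn : Fin 3 → G2 α R) (List.replicate s (1, true) ++
            ((0, true) :: (List.replicate u (1, true) ++ List.replicate p (0, true)))) =
            (gn 1) ^ s * (gn 0 * ((gn 1) ^ u * (gn 0) ^ p)) := by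
          simp [wordVal]
        rw [this, gn_one_pow, gn_one_pow, gn_zero_pow, gn_zero, hs, hu]
        ext
        · simp
          ring
        · simp
        · simp
        · simp
          ring
        · simp
      · simp [List.countP_append, List.countP_replicate]
      · simp [List.countP_append, List.countP_replicate, hu]
      · simp [List.countP_append, List.countP_replicate]

/-- The hyperbola: the sufficient condition. -/
theorem mem_of {N1 N3 i j r : ℕ} (hi : i ≤ N1) (hj : j ≤ N3) (h1 : i * j ≤ r)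
    (h2 : r ≤ i * N3 + (N1 - i) * j) :
    (⟨N1, N3, 1, r, α * ((N1 : R) - i) + j⟩ : G2 α R) ∈
      genProg (gn : Fin 3 → G2 α R) ![N1, N3, 1] := by
  obtain ⟨v, rfl⟩ := Nat.exists_eq_add_of_le hi
  obtain ⟨w, rfl⟩ := Nat.exists_eq_add_of_le hj
  obtain ⟨t, rfl⟩ := Nat.exists_eq_add_of_le h1
  rw [Nat.add_sub_cancel_left] at h2
  have h3 : t ≤ v * j + i * w := by nlinarith
  obtain ⟨t1, t2, ht, ht1, ht2⟩ : ∃ t1 t2 : ℕ, t = t1 + t2 ∧ t1 ≤ v * j ∧ t2 ≤ i * w := by
    by_cases h : t ≤ v * j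
    · exact ⟨t, 0, rfl, h, Nat.zero_le _⟩
    · exact ⟨v * j, t - v * j, by omega, le_rfl, by omega⟩
  obtain ⟨w1, a1, a2, a3, a4⟩ := exists_block (α := α) (R := R) v j t1 ht1
  obtain ⟨w2, b1, b2, b3, b4⟩ := exists_block (α := α) (R := R) i w t2 ht2
  refine ⟨w1 ++ (2, true) :: w2, ?_, ?_⟩
  · intro k
    have hk : k = 0 ∨ k = 1 ∨ k = 2 := by omega
    rw [List.countP_append, List.countP_cons]
    rcases hk with rfl | rfl | rfl
    · rw [a2, b2]
      simp
      omega
    · rw [a3, b3]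
      simp
    · rw [a4, b4]
      simp
  · have : wordVal (gn : Fin 3 → G2 α R) (w1 ++ (2, true) :: w2) =
        wordVal gn w1 * (gn 2 * wordVal gn w2) := by
      simp [wordVal]
    rw [this, a1, b1, gn_two, ht]
    ext
    · simp
      ring
    · simp
    · simp
    · simp
      ring
    · simp

/-- From the hyperbola `i (2 J + 1) ≤ K` to `i j ≤ r`. -/
theorem translate {M α K L h : ℕ} {Y : ℤ} (hL : L = 2 * h) (hK : 1 ≤ K) (hKL : 2 * K * K + 2 * K + 2 ≤ L)
    (harm : Arm M K Y) (r : ℕ) (hr : r = L * K + h) :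
    ((∃ i j : ℕ, i ≤ K ∧ j ≤ 2 * L * K + L ∧ (i : ℤ) * j ≤ r ∧
      ((2 * L * M : ℕ) : ℤ) ∣ (j : ℤ) - (2 * L * Y + L) - ((α * (2 * L) + 1 : ℕ) : ℤ) * i) →
        Hy M α K Y) ∧
    (Hy M α K Y → ∃ i j : ℕ, i ≤ K ∧ j ≤ 2 * L * K + L ∧ i * j ≤ r ∧
      r ≤ i * (2 * L * K + L) + (K - i) * j ∧
      ((2 * L * M : ℕ) : ℤ) ∣ (j : ℤ) - (2 * L * Y + L) - ((α * (2 * L) + 1 : ℕ) : ℤ) * i) := by
  have hLz : (L : ℤ) = 2 * h := by exact_mod_cast hL
  have hKLz : 2 * (K : ℤ) * K + 2 * K + 2 ≤ L := by exact_mod_cast hKL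
  have hKz : (1 : ℤ) ≤ K := by exact_mod_cast hK
  have hrz : (r : ℤ) = L * K + h := by exact_mod_cast hr
  have hKK : 0 ≤ (K : ℤ) * K := by positivity
  constructor
  · rintro ⟨i, j, hi, hj, hij, hd⟩
    have hiz : (i : ℤ) ≤ K := by exact_mod_cast hi
    rcases Nat.eq_zero_or_pos i with h0 | h0
    · exfalso
      subst h0
      have h1 := arm_step (M := M) (K := K) (L := L) (Y := Y) (y := L) (by omega) le_rfl
        (by linarith) harm j (by
          have h2 : (j : ℤ) - (2 * L * Y + L) - ((α * (2 * L) + 1 : ℕ) : ℤ) * ((0 : ℕ) : ℤ) =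
            (j : ℤ) - (2 * L * Y + L) := by
            push_cast
            ring
          rw [h2] at hd
          exact hd)
      omega
    · obtain ⟨k, hk⟩ := hd
      push_cast at hk
      have hi1 : (1 : ℤ) ≤ i := by exact_mod_cast h0
      have hj0 : (0 : ℤ) ≤ j := Int.natCast_nonneg j
      have hjJ : (j : ℤ) = 2 * L * (M * k + Y + α * i) + (L + i) := by linear_combination hk
      have hJ0 : 0 ≤ (M : ℤ) * k + Y + α * i := by
        by_contra hc
        have h3 : (M : ℤ) * k + Y + α * i ≤ -1 := by omega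
        have h4 := mul_le_mul_of_nonneg_left h3 (show (0 : ℤ) ≤ 2 * L by linarith)
        linarith
      obtain ⟨J, hJ⟩ := Int.eq_ofNat_of_zero_le hJ0
      rw [hJ] at hjJ
      refine ⟨i, J, h0, ?_, k, ?_⟩
      · have h5 : (i : ℤ) * (2 * J + 1) ≤ K := by
          by_contra hc
          have h6 : (K : ℤ) + 1 ≤ i * (2 * J + 1) := by omega
          have h7 := mul_le_mul_of_nonneg_left h6 (show (0 : ℤ) ≤ L by linarith)
          have h8 : (i : ℤ) * j = L * (i * (2 * J + 1)) + i * i := by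
            rw [hjJ]
            ring
          have h9 : 0 ≤ (i : ℤ) * i := by positivity
          linarith
        exact_mod_cast h5
      · rw [← hJ]
        ring
  · rintro ⟨i, J, hi, hprod, k, hk⟩
    have hprodz : (i : ℤ) * (2 * J + 1) ≤ K := by exact_mod_cast hprod
    have hiz : (1 : ℤ) ≤ i := by exact_mod_cast hi
    have hJ0 : (0 : ℤ) ≤ J := Int.natCast_nonneg J
    have hiK : (i : ℤ) ≤ K := by nlinarith
    have hJK : 2 * (J : ℤ) + 1 ≤ K := by nlinarith
    have hii : (i : ℤ) * i ≤ K * K := mul_le_mul hiK hiK (by linarith) (by linarith)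
    have hj : ((2 * L * J + L + i : ℕ) : ℤ) = 2 * L * J + L + i := by push_cast; ring
    have hLJ : (L : ℤ) * (2 * J + 1) ≤ L * K := mul_le_mul_of_nonneg_left hJK (by linarith)
    refine ⟨i, 2 * L * J + L + i, by exact_mod_cast hiK, ?_, ?_, ?_, k, ?_⟩
    · have h1 : ((2 * L * J + L + i : ℕ) : ℤ) ≤ 2 * L * K + L := by
        rw [hj]
        have : 0 ≤ (L : ℤ) * K := by positivity
        linarith
      exact_mod_cast h1
    · have h1 : (i : ℤ) * ((2 * L * J + L + i : ℕ) : ℤ) ≤ r := by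
        rw [hj, hrz]
        have h4 := mul_le_mul_of_nonneg_left hprodz (show (0 : ℤ) ≤ L by linarith)
        have h5 : (i : ℤ) * (2 * L * J + L + i) = L * (i * (2 * J + 1)) + i * i := by ring
        linarith
      exact_mod_cast h1
    · have h1 : r ≤ 1 * (2 * L * K + L) := by
        rw [hr]
        have : L * K ≤ 2 * L * K := by nlinarith
        omega
      have h2 : 1 * (2 * L * K + L) ≤ i * (2 * L * K + L) := Nat.mul_le_mul_right _ hi
      have h3 : 0 ≤ (K - i) * (2 * L * J + L + i) := Nat.zero_le _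
      omega
    · rw [hj]
      push_cast
      linear_combination (2 * (L : ℤ)) * hk

/-- Rank three, class two. -/
theorem rank_three (d : ℕ) :
    ∃ (G : Type) (_ : Group G) (_ : Group.IsNilpotent G), Group.nilpotencyClass G ≤ 2 ∧
      ∃ (a : Fin 3 → G) (N : Fin 3 → ℕ), (d : ℕ∞) ≤ vcDim (leftTranslates (genProg a N)) := by
  obtain ⟨M, α, K, -, hKM, hK, -, Yf, τf, hmain⟩ := scales d
  obtain ⟨h, hh⟩ : ∃ h : ℕ, h = K * K + K + 1 := ⟨_, rfl⟩
  obtain ⟨L, hL⟩ : ∃ L : ℕ, L = 2 * h := ⟨_, rfl⟩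
  obtain ⟨r, hr⟩ : ∃ r : ℕ, r = L * K + h := ⟨_, rfl⟩
  obtain ⟨α', hα'⟩ : ∃ α' : ℕ, α' = α * (2 * L) + 1 := ⟨_, rfl⟩
  obtain ⟨M', hM'⟩ : ∃ M' : ℕ, M' = 2 * L * M := ⟨_, rfl⟩
  have hKL : 2 * K * K + 2 * K + 2 ≤ L := by
    rw [hL, hh]
    ring_nf
    exact le_rfl
  refine ⟨G2 α' (ZMod M'), inferInstance, inferInstance, class_G2, gn, ![K, 2 * L * K + L, 1], ?_⟩
  refine CLSaux.le_vcDim_of _ d
    (fun i => (⟨0, 0, 0, 0, ((2 * L * Yf (fun s => s = i) : ℤ) : ZMod M')⟩ : G2 α' (ZMod M')))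
    (fun A => (⟨K, ((2 * L * K + L : ℕ) : ℤ), 1, r,
      ((α' * K + (2 * L * τf (fun s => ∃ hs : s < d, (⟨s, hs⟩ : Fin d) ∈ A) + L) : ℤ) :
        ZMod M')⟩ : G2 α' (ZMod M'))⁻¹) ?_
  intro i A
  set p : ℕ → Prop := fun s => s = i with hp
  set t : ℕ → Prop := fun s => ∃ hs : s < d, (⟨s, hs⟩ : Fin d) ∈ A with ht
  obtain ⟨hiff, harm⟩ := hmain p t
  obtain ⟨htr1, htr2⟩ := translate (α := α) hL hK hKL harm r hr
  rw [← hM', ← hα'] at htr1 htr2
  have he : ((⟨K, ((2 * L * K + L : ℕ) : ℤ), 1, r,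
      ((α' * K + (2 * L * τf t + L) : ℤ) : ZMod M')⟩ : G2 α' (ZMod M'))⁻¹)⁻¹ *
        ⟨0, 0, 0, 0, ((2 * L * Yf p : ℤ) : ZMod M')⟩ =
      ⟨K, ((2 * L * K + L : ℕ) : ℤ), 1, r,
        ((α' * K + (2 * L * (Yf p + τf t) + L) : ℤ) : ZMod M')⟩ := by
    rw [inv_inv]
    ext
    · simp
    · simp
    · simp
    · simp
    · simp
      ring
  rw [he]
  -- the equation in `ZMod M'`
  have hcast : ∀ i j : ℕ, ((α' * K + (2 * L * (Yf p + τf t) + L) : ℤ) : ZMod M') =
      (α' : ZMod M') * (((K : ℕ) : ZMod M') - (i : ZMod M')) + (j : ZMod M') ↔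
        (M' : ℤ) ∣ (j : ℤ) - (2 * L * (Yf p + τf t) + L) - (α' : ℤ) * i := by
    intro i j
    have h1 : (α' : ZMod M') * (((K : ℕ) : ZMod M') - (i : ZMod M')) + (j : ZMod M') =
        (((α' : ℤ) * (K - i) + j : ℤ) : ZMod M') := by
      push_cast
      ring
    rw [h1, ZMod.intCast_eq_intCast_iff_dvd_sub]
    have h2 : ((α' : ℤ) * (K - i) + j) - (α' * K + (2 * L * (Yf p + τf t) + L)) =
        (j : ℤ) - (2 * L * (Yf p + τf t) + L) - (α' : ℤ) * i := by ring
    rw [h2]
  constructor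
  · intro hmem
    obtain ⟨u, v, hu, hv, huv, hm⟩ := of_mem hmem
    have hd := (hcast u v).1 hm
    obtain ⟨s, hs, hts, hps⟩ := hiff.1 (htr1 ⟨u, v, hu, hv, huv, hd⟩)
    obtain ⟨hs', hA⟩ := hts
    have : (⟨s, hs'⟩ : Fin d) = i := Fin.ext hps
    rwa [this] at hA
  · intro hi
    obtain ⟨u, v, hu, hv, huv, hr2, hd⟩ := htr2 (hiff.2 ⟨i, i.isLt, ⟨i.isLt, hi⟩, rfl⟩)
    rw [(hcast u v).2 hd]
    exact mem_of hu hv huv hr2

/-- Rank at least three and class at least two. -/
theorem not_bounded (k s : ℕ) (hk : 3 ≤ k) (hs : 2 ≤ s) : ¬ Bounded k s := by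
  rintro ⟨C, hC⟩
  obtain ⟨j, rfl⟩ := Nat.exists_eq_add_of_le hk
  obtain ⟨G, _, _, hcl, a, N, h⟩ := rank_three (C + 1)
  have h1 := hC G (hcl.trans hs) (Fin.append a (fun _ : Fin j => 1))
    (Fin.append N (fun _ : Fin j => 0))
  rw [genProg_append'] at h1
  have h2 : ((C + 1 : ℕ) : ℕ∞) ≤ (C : ℕ∞) := le_trans h h1
  have h3 : C + 1 ≤ C := by exact_mod_cast h2
  omega

end TTHaux

end Pool.Agent.VCNil.AT
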