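import Pool.Agent.Lib.MP_19d06a_co.AT.TWT
import Pool.Agent.Lib.MP_19d06a_co.AT.HYS

/-!
# Rank three, class two

The group of the `(x, y, b, r, m)` with
`(x, y, b, r, m) (x', y', b', r', m') = (x + x', y + y', b + b', r + r' + y x', m + m' + (α x + y) b')`
and the generators `a = (1, 0, 0, 0, 0)`, `e = (0, 1, 0, 0, 0)`, `b = (0, 0, 1, 0, 0)`. A word with
`N1` letters `a`, `N3` letters `e` and one letter `b` is a lattice path with a marked point
`(p, q)`; `r` is the number of the pairs `e .. a`, and `m = α p + q`. There is a path with `r` pairs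
through `(p, q)` if and only if `q (N1 - p) ≤ r ≤ ..`: a hyperbola.
-/

set_option autoImplicit false

namespace Pool.Agent.VCNil.AT

namespace TTHaux

open TWTaux HYPaux

/-- The group. -/
@[ext] structure G2 (α : ℕ) (R : Type) where
  x : ℤ
  y : ℤ
  b : ℤ
  r : ℤ
  m : R

variable {α : ℕ} {R : Type} [CommRing R]

instance : Mul (G2 α R) := ⟨fun p q => ⟨p.x + q.x, p.y + q.y, p.b + q.b,
  p.r + q.r + p.y * q.x, p.m + q.m + (α * (p.x : R) + (p.y : R)) * (q.b : R)⟩⟩

instance : One (G2 α R) := ⟨⟨0, 0, 0, 0, 0⟩⟩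

instance : Inv (G2 α R) := ⟨fun p => ⟨-p.x, -p.y, -p.b, -p.r + p.y * p.x,
  -p.m + (α * (p.x : R) + (p.y : R)) * (p.b : R)⟩⟩

@[simp] lemma mul_x (p q : G2 α R) : (p * q).x = p.x + q.x := rfl
@[simp] lemma mul_y (p q : G2 α R) : (p * q).y = p.y + q.y := rfl
@[simp] lemma mul_b (p q : G2 α R) : (p * q).b = p.b + q.b := rfl
@[simp] lemma mul_r (p q : G2 α R) : (p * q).r = p.r + q.r + p.y * q.x := rfl
@[simp] lemma mul_m (p q : G2 α R) :
  (p * q).m = p.m + q.m + (α * (p.x : R) + (p.y : R)) * (q.b : R) := rfl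
@[simp] lemma one_x : (1 : G2 α R).x = 0 := rfl
@[simp] lemma one_y : (1 : G2 α R).y = 0 := rfl
@[simp] lemma one_b : (1 : G2 α R).b = 0 := rfl
@[simp] lemma one_r : (1 : G2 α R).r = 0 := rfl
@[simp] lemma one_m : (1 : G2 α R).m = 0 := rfl
@[simp] lemma inv_x (p : G2 α R) : (p⁻¹).x = -p.x := rfl
@[simp] lemma inv_y (p : G2 α R) : (p⁻¹).y = -p.y := rfl
@[simp] lemma inv_b (p : G2 α R) : (p⁻¹).b = -p.b := rfl
@[simp] lemma inv_r (p : G2 α R) : (p⁻¹).r = -p.r + p.y * p.x := rfl
@[simp] lemma inv_m (p : G2 α R) :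
  (p⁻¹).m = -p.m + (α * (p.x : R) + (p.y : R)) * (p.b : R) := rfl

instance : Group (G2 α R) := Group.ofLeftAxioms
  (by
    intro p q r
    ext
    · simp
      ring
    · simp
      ring
    · simp
      ring
    · simp
      ring
    · simp
      ring)
  (by
    intro p
    ext
    · simp
    · simp
    · simp
    · simp
    · simp)
  (by
    intro p
    ext
    · simp
    · simp
    · simp
    · simp
    · simp
      ring)

/-- The projection to the abelianization. -/
def pr : G2 α R →* Multiplicative (ℤ × (ℤ × ℤ)) where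
  toFun p := Multiplicative.ofAdd (p.x, (p.y, p.b))
  map_one' := rfl
  map_mul' _ _ := rfl

lemma ker_pr : (pr : G2 α R →* _).ker ≤ Subgroup.center (G2 α R) := by
  intro p hp
  rw [MonoidHom.mem_ker] at hp
  have h1 : ((p.x, (p.y, p.b)) : ℤ × (ℤ × ℤ)) = (0, (0, 0)) := Multiplicative.ofAdd.injective hp
  have hx : p.x = 0 := congrArg (fun z => z.1) h1
  have hy : p.y = 0 := congrArg (fun z => z.2.1) h1
  have hb : p.b = 0 := congrArg (fun z => z.2.2) h1
  rw [Subgroup.mem_center_iff]
  intro q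
  ext
  · simp [hx]
  · simp [hy]
  · simp [hb]
  · simp [hx, hy]
    ring
  · simp [hx, hy, hb]
    ring

instance : Group.IsNilpotent (G2 α R) := Subgroup.isNilpotent_of_ker_le_center pr ker_pr

lemma class_G2 : Group.nilpotencyClass (G2 α R) ≤ 2 :=
  (Group.nilpotencyClass_le_of_ker_le_center pr ker_pr).trans
    (Nat.succ_le_succ CommGroup.nilpotencyClass_le_one)

/-- The generators. -/
def gn : Fin 3 → G2 α R := ![⟨1, 0, 0, 0, 0⟩, ⟨0, 1, 0, 0, 0⟩, ⟨0, 0, 1, 0, 0⟩]

lemma gn_zero : (gn 0 : G2 α R) = ⟨1, 0, 0, 0, 0⟩ := rfl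
lemma gn_one : (gn 1 : G2 α R) = ⟨0, 1, 0, 0, 0⟩ := rfl
lemma gn_two : (gn 2 : G2 α R) = ⟨0, 0, 1, 0, 0⟩ := rfl

/-- Number of the letters `(i, ε)`. -/
def cn (i : Fin 3) (e : Bool) (w : List (Fin 3 × Bool)) : ℕ :=
  w.countP (fun l => decide (l = (i, e)))

lemma cn_add (i : Fin 3) (w : List (Fin 3 × Bool)) :
    w.countP (fun l => decide (l.1 = i)) = cn i true w + cn i false w := by
  induction w with
  | nil => simp [cn]
  | cons l w ih =>
    simp only [cn, List.countP_cons] at ih ⊢
    rw [ih]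
    rcases l with ⟨j, e⟩
    by_cases h : j = i
    · subst h
      cases e <;> simp <;> omega
    · have h1 : ∀ b : Bool, ((j, e) = (i, b)) = False := fun b => by simp [h]
      simp [h]

lemma coords (w : List (Fin 3 × Bool)) :
    (wordVal (gn : Fin 3 → G2 α R) w).x = (cn 0 true w : ℤ) - cn 0 false w ∧
    (wordVal (gn : Fin 3 → G2 α R) w).y = (cn 1 true w : ℤ) - cn 1 false w ∧
    (wordVal (gn : Fin 3 → G2 α R) w).b = (cn 2 true w : ℤ) - cn 2 false w := by
  induction w with
  | nil => simp [wordVal, cn]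
  | cons l w ih =>
    obtain ⟨h1, h2, h3⟩ := ih
    have hcons : wordVal (gn : Fin 3 → G2 α R) (l :: w) =
        (if l.2 then gn l.1 else (gn l.1)⁻¹) * wordVal gn w := by
      simp [wordVal]
    rw [hcons]
    simp only [mul_x, mul_y, mul_b, h1, h2, h3, cn, List.countP_cons]
    rcases l with ⟨i, e⟩
    have hi : i = 0 ∨ i = 1 ∨ i = 2 := by omega
    rcases hi with rfl | rfl | rfl
    · cases e
      · simp [gn_zero]
        omega
      · simp [gn_zero]
        omega
    · cases e
      · simp [gn_one]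
        omega
      · simp [gn_one]
        omega
    · cases e
      · simp [gn_two]
        omega
      · simp [gn_two]
        omega

/-- Positive words in the letters `a`, `e`. -/
lemma positive (w : List (Fin 3 × Bool)) (hw : ∀ l ∈ w, l = (0, true) ∨ l = (1, true)) :
    ∃ p q r : ℕ, wordVal (gn : Fin 3 → G2 α R) w = ⟨p, q, 0, r, 0⟩ ∧ r ≤ p * q ∧
      p = cn 0 true w ∧ q = cn 1 true w := by
  induction w with
  | nil => exact ⟨0, 0, 0, by ext <;> simp [wordVal], by simp, by simp [cn], by simp [cn]⟩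
  | cons l w ih =>
    obtain ⟨p, q, r, h1, h2, h3, h4⟩ := ih fun m hm => hw m (List.mem_cons_of_mem _ hm)
    have hcons : wordVal (gn : Fin 3 → G2 α R) (l :: w) =
        (if l.2 then gn l.1 else (gn l.1)⁻¹) * wordVal gn w := by
      simp [wordVal]
    rcases hw l List.mem_cons_self with rfl | rfl
    · refine ⟨p + 1, q, r, ?_, ?_, ?_, ?_⟩
      · rw [hcons, h1]
        ext <;> simp [gn_zero] <;> ring
      · nlinarith
      · simp [cn, h3]
      · simp [cn, h4]
    · refine ⟨p, q + 1, r + p, ?_, ?_, ?_, ?_⟩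
      · rw [hcons, h1]
        ext <;> simp [gn_one] <;> ring
      · nlinarith
      · simp [cn, h3]
      · simp [cn, h4]

/-- The hyperbola: the necessary condition. -/
theorem of_mem {N1 N3 : ℕ} {r : ℤ} {m : R}
    (h : (⟨N1, N3, 1, r, m⟩ : G2 α R) ∈ genProg (gn : Fin 3 → G2 α R) ![N1, N3, 1]) :
    ∃ i j : ℕ, i ≤ N1 ∧ j ≤ N3 ∧ (i : ℤ) * j ≤ r ∧
      m = α * ((N1 : R) - i) + j := by
  obtain ⟨w, hw, hv⟩ := h
  obtain ⟨hx, hy, hb⟩ := coords (α := α) (R := R) w
  rw [hv] at hx hy hb
  simp only at hx hy hb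
  have c0 := hw 0
  have c1 := hw 1
  have c2 := hw 2
  rw [cn_add] at c0 c1 c2
  simp at c0 c1 c2
  have f0 : cn 0 false w = 0 := by omega
  have f1 : cn 1 false w = 0 := by omega
  have f2 : cn 2 false w = 0 := by omega
  have t0 : cn 0 true w = N1 := by omega
  have t1 : cn 1 true w = N3 := by omega
  have t2 : cn 2 true w = 1 := by omega
  have hpos : ∀ l ∈ w, l = (0, true) ∨ l = (1, true) ∨ l = (2, true) := by
    rintro ⟨i, e⟩ hl
    have hi : i = 0 ∨ i = 1 ∨ i = 2 := by omega
    cases e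
    · exfalso
      have h1 : 0 < cn i false w := by
        unfold cn
        rw [List.countP_pos_iff]
        exact ⟨_, hl, by simp⟩
      rcases hi with rfl | rfl | rfl <;> omega
    · rcases hi with rfl | rfl | rfl <;> simp
  have hmem : ((2 : Fin 3), true) ∈ w := by
    have h1 : 0 < cn 2 true w := by omega
    unfold cn at h1
    rw [List.countP_pos_iff] at h1
    obtain ⟨l, hl, he⟩ := h1
    simp only [decide_eq_true_eq] at he
    rwa [← he]
  obtain ⟨w1, w2, rfl⟩ := List.append_of_mem hmem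
  have hcn : ∀ i : Fin 3, cn i true (w1 ++ (2, true) :: w2) =
      cn i true w1 + (if i = 2 then 1 else 0) + cn i true w2 := by
    intro i
    unfold cn
    rw [List.countP_append, List.countP_cons]
    by_cases h : i = 2
    · subst h
      simp
      omega
    · have h' : ¬ (2 : Fin 3) = i := fun h2 => h h2.symm
      simp [h, h']
  have z1 : cn 2 true w1 = 0 := by
    have := hcn 2
    simp at this
    omega
  have z2 : cn 2 true w2 = 0 := by
    have := hcn 2
    simp at this
    omega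
  have hp1 : ∀ l ∈ w1, l = (0, true) ∨ l = (1, true) := by
    intro l hl
    rcases hpos l (by simp [hl]) with h | h | h
    · exact Or.inl h
    · exact Or.inr h
    · exfalso
      have h1 : 0 < cn 2 true w1 := by
        unfold cn
        rw [List.countP_pos_iff]
        exact ⟨_, hl, by simp [h]⟩
      omega
  have hp2 : ∀ l ∈ w2, l = (0, true) ∨ l = (1, true) := by
    intro l hl
    rcases hpos l (by simp [hl]) with h | h | h
    · exact Or.inl h
    · exact Or.inr h
    · exfalso
      have h1 : 0 < cn 2 true w2 := by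
        unfold cn
        rw [List.countP_pos_iff]
        exact ⟨_, hl, by simp [h]⟩
      omega
  obtain ⟨p1, q1, r1, e1, l1, n1, k1⟩ := positive (α := α) (R := R) w1 hp1
  obtain ⟨p2, q2, r2, e2, l2, n2, k2⟩ := positive (α := α) (R := R) w2 hp2
  have hval : wordVal (gn : Fin 3 → G2 α R) (w1 ++ (2, true) :: w2) =
      ⟨p1, q1, 0, r1, 0⟩ * (gn 2 * ⟨p2, q2, 0, r2, 0⟩) := by
    rw [← e1, ← e2]
    simp [wordVal]
  rw [hval, gn_two] at hv
  have s0 := hcn 0
  have s1 := hcn 1
  simp at s0 s1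
  have hr := congrArg G2.r hv
  have hm := congrArg G2.m hv
  simp at hr hm
  refine ⟨p2, q1, by omega, by omega, ?_, ?_⟩
  · have hr1 : (0 : ℤ) ≤ r1 := Int.natCast_nonneg _
    have hr2 : (0 : ℤ) ≤ r2 := Int.natCast_nonneg _
    nlinarith
  · rw [← hm]
    have : (N1 : R) = p1 + p2 := by
      have h9 : N1 = p1 + p2 := by omega
      rw [h9]
      push_cast
      ring
    rw [this]
    ring

end TTHaux

end Pool.Agent.VCNil.AT
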