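import Pool.Agent.Lib.MP_19d06a_co.AT.CLS

/-!
# Rank two, class three

`G = ℤ ⋉ (ℤ × ℤ × R)` with `A^x (v0, v1, v2) = (v0, v1 + x v0, v2 + 2 x v1 + x² v0)`. A word with two
letters `b` has the last coordinate `p² + p'²`, where `p`, `p'` are the positions of the letters; if
the third coordinate `p + p'` is zero, this is `2 p²`. So membership in the progression tells
squares from nonsquares.
-/

set_option autoImplicit false

namespace Pool.Agent.VCNil.AT

namespace TWTaux

/-! ### adding trivial generators -/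

lemma countP_castAdd {k : ℕ} (j : ℕ) (w : List (Fin k × Bool)) (i : Fin k) :
    (w.map (fun l => (Fin.castAdd j l.1, l.2))).countP (fun l => decide (l.1 = Fin.castAdd j i)) =
      w.countP (fun l => decide (l.1 = i)) := by
  rw [List.countP_map]
  refine List.countP_congr fun l _ => ?_
  simp [Function.comp, Fin.ext_iff]

lemma wordVal_castAdd {G : Type} [Group G] {k : ℕ} (a : Fin k → G) (j : ℕ)
    (w : List (Fin k × Bool)) :
    wordVal (Fin.append a (fun _ : Fin j => (1 : G)))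
      (w.map (fun l => (Fin.castAdd j l.1, l.2))) = wordVal a w := by
  unfold wordVal
  rw [List.map_map]
  congr 1
  refine List.map_congr_left fun l _ => ?_
  simp [Function.comp]

theorem genProg_append' {G : Type} [Group G] {k : ℕ} (a : Fin k → G) (N : Fin k → ℕ) (j : ℕ) :
    genProg (Fin.append a (fun _ : Fin j => (1 : G))) (Fin.append N (fun _ : Fin j => 0)) =
      genProg a N := by
  ext g
  constructor
  · rintro ⟨w, hw, rfl⟩
    have hex : ∃ w' : List (Fin k × Bool), w = w'.map (fun l => (Fin.castAdd j l.1, l.2)) := by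
      have hall : ∀ l ∈ w, ∃ l' : Fin k × Bool, l = (Fin.castAdd j l'.1, l'.2) := by
        rintro ⟨i, b⟩ hl
        revert hl
        refine Fin.addCases (fun i hl => ⟨(i, b), rfl⟩) (fun i hl => ?_) i
        exfalso
        have h1 := hw (Fin.natAdd k i)
        rw [Fin.append_right] at h1
        have h2 : 0 < w.countP (fun l => decide (l.1 = Fin.natAdd k i)) := by
          rw [List.countP_pos_iff]
          exact ⟨_, hl, by simp⟩
        omega
      clear hw
      induction w with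
      | nil => exact ⟨[], rfl⟩
      | cons l w ih =>
        obtain ⟨l', hl'⟩ := hall l (List.mem_cons_self)
        obtain ⟨w', hw'⟩ := ih (fun m hm => hall m (List.mem_cons_of_mem _ hm))
        exact ⟨l' :: w', by rw [List.map_cons, ← hl', ← hw']⟩
    obtain ⟨w', rfl⟩ := hex
    refine ⟨w', fun i => ?_, (wordVal_castAdd a j w').symm⟩
    have h1 := hw (Fin.castAdd j i)
    rwa [countP_castAdd, Fin.append_left] at h1
  · rintro ⟨w, hw, rfl⟩
    refine ⟨w.map (fun l => (Fin.castAdd j l.1, l.2)), fun i => ?_, wordVal_castAdd a j w⟩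
    refine Fin.addCases (fun i => ?_) (fun i => ?_) i
    · rw [countP_castAdd, Fin.append_left]
      exact hw i
    · rw [Fin.append_right, Nat.le_zero, List.countP_eq_zero]
      intro l hl
      obtain ⟨l', _, rfl⟩ := List.mem_map.1 hl
      simp [Fin.ext_iff]
      omega

/-! ### the groups -/

/-- The Heisenberg group. -/
@[ext] structure E2 where
  x : ℤ
  v0 : ℤ
  v1 : ℤ

/-- The group of class three. -/
@[ext] structure E3 (R : Type) where
  x : ℤ
  v0 : ℤ
  v1 : ℤ
  v2 : R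

instance : Mul E2 := ⟨fun p q => ⟨p.x + q.x, p.v0 + q.v0, p.v1 + (q.v1 + p.x * q.v0)⟩⟩

instance : One E2 := ⟨⟨0, 0, 0⟩⟩

instance : Inv E2 := ⟨fun p => ⟨-p.x, -p.v0, -(p.v1 - p.x * p.v0)⟩⟩

@[simp] lemma E2.mul_x (p q : E2) : (p * q).x = p.x + q.x := rfl
@[simp] lemma E2.mul_v0 (p q : E2) : (p * q).v0 = p.v0 + q.v0 := rfl
@[simp] lemma E2.mul_v1 (p q : E2) : (p * q).v1 = p.v1 + (q.v1 + p.x * q.v0) := rfl
@[simp] lemma E2.one_x : (1 : E2).x = 0 := rfl
@[simp] lemma E2.one_v0 : (1 : E2).v0 = 0 := rfl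
@[simp] lemma E2.one_v1 : (1 : E2).v1 = 0 := rfl
@[simp] lemma E2.inv_x (p : E2) : (p⁻¹).x = -p.x := rfl
@[simp] lemma E2.inv_v0 (p : E2) : (p⁻¹).v0 = -p.v0 := rfl
@[simp] lemma E2.inv_v1 (p : E2) : (p⁻¹).v1 = -(p.v1 - p.x * p.v0) := rfl

instance : Group E2 := Group.ofLeftAxioms
  (by
    intro p q r
    ext
    · simp
      ring
    · simp
      ring
    · simp
      ring)
  (by
    intro p
    ext
    · simp
    · simp
    · simp)
  (by
    intro p
    ext
    · simp
    · simp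
    · simp
      ring)

section R

variable {R : Type} [CommRing R]

instance : Mul (E3 R) := ⟨fun p q => ⟨p.x + q.x, p.v0 + q.v0, p.v1 + (q.v1 + p.x * q.v0),
  p.v2 + (q.v2 + 2 * (p.x : R) * (q.v1 : R) + (p.x : R) ^ 2 * (q.v0 : R))⟩⟩

instance : One (E3 R) := ⟨⟨0, 0, 0, 0⟩⟩

instance : Inv (E3 R) := ⟨fun p => ⟨-p.x, -p.v0, -(p.v1 - p.x * p.v0),
  -(p.v2 - 2 * (p.x : R) * (p.v1 : R) + (p.x : R) ^ 2 * (p.v0 : R))⟩⟩

@[simp] lemma E3.mul_x (p q : E3 R) : (p * q).x = p.x + q.x := rfl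
@[simp] lemma E3.mul_v0 (p q : E3 R) : (p * q).v0 = p.v0 + q.v0 := rfl
@[simp] lemma E3.mul_v1 (p q : E3 R) : (p * q).v1 = p.v1 + (q.v1 + p.x * q.v0) := rfl
@[simp] lemma E3.mul_v2 (p q : E3 R) : (p * q).v2 =
  p.v2 + (q.v2 + 2 * (p.x : R) * (q.v1 : R) + (p.x : R) ^ 2 * (q.v0 : R)) := rfl
@[simp] lemma E3.one_x : (1 : E3 R).x = 0 := rfl
@[simp] lemma E3.one_v0 : (1 : E3 R).v0 = 0 := rfl
@[simp] lemma E3.one_v1 : (1 : E3 R).v1 = 0 := rfl
@[simp] lemma E3.one_v2 : (1 : E3 R).v2 = 0 := rfl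
@[simp] lemma E3.inv_x (p : E3 R) : (p⁻¹).x = -p.x := rfl
@[simp] lemma E3.inv_v0 (p : E3 R) : (p⁻¹).v0 = -p.v0 := rfl
@[simp] lemma E3.inv_v1 (p : E3 R) : (p⁻¹).v1 = -(p.v1 - p.x * p.v0) := rfl
@[simp] lemma E3.inv_v2 (p : E3 R) : (p⁻¹).v2 =
  -(p.v2 - 2 * (p.x : R) * (p.v1 : R) + (p.x : R) ^ 2 * (p.v0 : R)) := rfl

instance : Group (E3 R) := Group.ofLeftAxioms
  (by
    intro p q r
    ext
    · simp
      ring
    · simp
      ring
    · simp
      ring
    · simp
      ring)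
  (by
    intro p
    ext
    · simp
    · simp
    · simp
    · simp)
  (by
    intro p
    ext
    · simp
    · simp
    · simp
      ring
    · simp
      ring)

/-- The projection to the Heisenberg group. -/
def proj : E3 R →* E2 where
  toFun p := ⟨p.x, p.v0, p.v1⟩
  map_one' := rfl
  map_mul' _ _ := rfl

/-- The projection of the Heisenberg group. -/
def proj2 : E2 →* Multiplicative (ℤ × ℤ) where
  toFun p := Multiplicative.ofAdd (p.x, p.v0)
  map_one' := rfl
  map_mul' _ _ := rfl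

lemma ker_proj2 : proj2.ker ≤ Subgroup.center E2 := by
  intro p hp
  rw [MonoidHom.mem_ker] at hp
  have h1 : ((p.x, p.v0) : ℤ × ℤ) = (0, 0) := Multiplicative.ofAdd.injective hp
  have hx : p.x = 0 := congrArg Prod.fst h1
  have hv : p.v0 = 0 := congrArg Prod.snd h1
  rw [Subgroup.mem_center_iff]
  intro q
  ext
  · simp [hx]
  · simp [hv]
  · simp [hx, hv]
    ring

lemma ker_proj : (proj : E3 R →* E2).ker ≤ Subgroup.center (E3 R) := by
  intro p hp
  rw [MonoidHom.mem_ker] at hp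
  have hx : p.x = 0 := congrArg E2.x hp
  have hv : p.v0 = 0 := congrArg E2.v0 hp
  have hv1 : p.v1 = 0 := congrArg E2.v1 hp
  rw [Subgroup.mem_center_iff]
  intro q
  ext
  · simp [hx]
  · simp [hv]
  · simp [hx, hv, hv1]
  · simp [hx, hv, hv1]
    ring

instance : Group.IsNilpotent E2 := Subgroup.isNilpotent_of_ker_le_center proj2 ker_proj2

instance : Group.IsNilpotent (E3 R) := Subgroup.isNilpotent_of_ker_le_center proj ker_proj

lemma class_E2 : Group.nilpotencyClass E2 ≤ 2 :=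
  (Group.nilpotencyClass_le_of_ker_le_center proj2 ker_proj2).trans
    (Nat.succ_le_succ CommGroup.nilpotencyClass_le_one)

lemma class_E3 : Group.nilpotencyClass (E3 R) ≤ 3 :=
  (Group.nilpotencyClass_le_of_ker_le_center proj ker_proj).trans (Nat.succ_le_succ class_E2)

/-! ### words -/

/-- The two generators. -/
def gen : Fin 2 → E3 R := ![⟨1, 0, 0, 0⟩, ⟨0, 1, 0, 0⟩]

lemma gen_zero : (gen 0 : E3 R) = ⟨1, 0, 0, 0⟩ := rfl
lemma gen_one : (gen 1 : E3 R) = ⟨0, 1, 0, 0⟩ := rfl

/-- The sums over the letters `b`, given by their signs and positions. -/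
def SG (L : List (ℤ × ℤ)) : ℤ := (L.map (fun l => l.1)).sum
/-- The sum of the positions. -/
def SP (L : List (ℤ × ℤ)) : ℤ := (L.map (fun l => l.1 * l.2)).sum
/-- The sum of the squares of the positions. -/
def SQ (L : List (ℤ × ℤ)) : ℤ := (L.map (fun l => l.1 * l.2 ^ 2)).sum

/-- Translation of the positions. -/
def sh (t : ℤ) (L : List (ℤ × ℤ)) : List (ℤ × ℤ) := L.map (fun l => (l.1, l.2 + t))

lemma SG_sh (t : ℤ) (L : List (ℤ × ℤ)) : SG (sh t L) = SG L := by
  induction L with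
  | nil => rfl
  | cons l L ih =>
    simp only [SG, sh, List.map_cons, List.sum_cons] at ih ⊢
    rw [ih]

lemma SP_sh (t : ℤ) (L : List (ℤ × ℤ)) : SP (sh t L) = SP L + t * SG L := by
  induction L with
  | nil => simp [SP, sh, SG]
  | cons l L ih =>
    simp only [SP, SG, sh, List.map_cons, List.sum_cons] at ih ⊢
    rw [ih]
    ring

lemma SQ_sh (t : ℤ) (L : List (ℤ × ℤ)) :
    SQ (sh t L) = SQ L + 2 * t * SP L + t ^ 2 * SG L := by
  induction L with
  | nil => simp [SP, sh, SG, SQ]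
  | cons l L ih =>
    simp only [SQ, SP, SG, sh, List.map_cons, List.sum_cons] at ih ⊢
    rw [ih]
    ring

/-- The value of a word. -/
theorem word_value (w : List (Fin 2 × Bool)) :
    ∃ L : List (ℤ × ℤ), L.length = w.countP (fun l => decide (l.1 = 1)) ∧
      (∀ l ∈ L, l.1 = 1 ∨ l.1 = -1) ∧ (wordVal (gen : Fin 2 → E3 R) w).v0 = SG L ∧
      (wordVal (gen : Fin 2 → E3 R) w).v1 = SP L ∧
      (wordVal (gen : Fin 2 → E3 R) w).v2 = ((SQ L : ℤ) : R) := by
  induction w with
  | nil => exact ⟨[], by simp, by simp, by simp [wordVal, SG], by simp [wordVal, SP],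
      by simp [wordVal, SQ]⟩
  | cons l w ih =>
    obtain ⟨L, h1, h2, h3, h4, h5⟩ := ih
    have hcons : wordVal (gen : Fin 2 → E3 R) (l :: w) =
        (if l.2 then gen l.1 else (gen l.1)⁻¹) * wordVal gen w := by
      simp [wordVal]
    rcases l with ⟨i, e⟩
    have hi : i = 0 ∨ i = 1 := by omega
    rcases hi with rfl | rfl
    · -- a letter `a`
      obtain ⟨t, ht⟩ : ∃ t : ℤ, (if e then gen 0 else (gen 0)⁻¹ : E3 R) = ⟨t, 0, 0, 0⟩ := by
        cases e
        · exact ⟨-1, by ext <;> simp [gen_zero]⟩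
        · exact ⟨1, by simp [gen_zero]⟩
      refine ⟨sh t L, ?_, ?_, ?_, ?_, ?_⟩
      · rw [List.countP_cons]
        simp [sh, h1]
      · intro l hl
        obtain ⟨l', hl', rfl⟩ := List.mem_map.1 hl
        exact h2 l' hl'
      · rw [hcons, ht, SG_sh]
        simp [h3]
      · rw [hcons, ht, SP_sh]
        simp [h3, h4]
      · rw [hcons, ht, SQ_sh]
        simp [h3, h4, h5]
    · -- a letter `b`
      obtain ⟨t, ht1, ht⟩ : ∃ t : ℤ, (t = 1 ∨ t = -1) ∧
          (if e then gen 1 else (gen 1)⁻¹ : E3 R) = ⟨0, t, 0, 0⟩ := by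
        cases e
        · exact ⟨-1, Or.inr rfl, by ext <;> simp [gen_one]⟩
        · exact ⟨1, Or.inl rfl, by simp [gen_one]⟩
      refine ⟨(t, 0) :: L, ?_, ?_, ?_, ?_, ?_⟩
      · rw [List.countP_cons]
        simp [h1]
      · intro l hl
        rcases List.mem_cons.1 hl with rfl | hl
        · exact ht1
        · exact h2 l hl
      · rw [hcons, ht]
        simp [SG, h3]
      · rw [hcons, ht]
        simp [SP, h4]
      · rw [hcons, ht]
        simp [SQ, h5]

/-- Two letters `b` and sum of the positions zero: the last coordinate is twice a square. -/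
theorem square_of_mem {N : ℕ} {t : R}
    (h : (⟨0, 2, 0, t⟩ : E3 R) ∈ genProg (gen : Fin 2 → E3 R) ![N, 2]) :
    ∃ p : ℤ, t = 2 * (p : R) ^ 2 := by
  obtain ⟨w, hw, hv⟩ := h
  obtain ⟨L, h1, h2, h3, h4, h5⟩ := word_value (R := R) w
  rw [hv] at h3 h4 h5
  have hlen : L.length ≤ 2 := by
    rw [h1]
    exact hw 1
  simp only at h3 h4 h5
  match L, hlen, h2, h3, h4, h5 with
  | [], _, _, h3, _, _ => simp [SG] at h3
  | [l], _, h2, h3, _, _ =>
    exfalso
    have := h2 l (by simp)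
    simp [SG] at h3
    omega
  | [l, m], _, h2, h3, h4, h5 =>
    have e1 := h2 l (by simp)
    have e2 := h2 m (by simp)
    simp [SG] at h3
    have e3 : l.1 = 1 := by omega
    have e4 : m.1 = 1 := by omega
    simp [SP, e3, e4] at h4
    simp [SQ, e3, e4] at h5
    refine ⟨l.2, ?_⟩
    have e5 : m.2 = -l.2 := by omega
    rw [h5, e5]
    push_cast
    ring
  | _ :: _ :: _ :: _, hlen, _, _, _, _ => simp at hlen

lemma gen_pow (n : ℕ) : (gen 0 : E3 R) ^ n = ⟨n, 0, 0, 0⟩ := by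
  induction n with
  | zero => rw [pow_zero]; rfl
  | succ n ih =>
    rw [pow_succ, ih, gen_zero]
    ext <;> simp

lemma gen_inv_pow (n : ℕ) : ((gen 0 : E3 R)⁻¹) ^ n = ⟨-n, 0, 0, 0⟩ := by
  rw [inv_pow, gen_pow]
  ext <;> simp

theorem mem_of_square {N : ℕ} (p : ℕ) (hp : 4 * p ≤ N) :
    (⟨0, 2, 0, 2 * (p : R) ^ 2⟩ : E3 R) ∈ genProg (gen : Fin 2 → E3 R) ![N, 2] := by
  refine ⟨List.replicate p (0, true) ++ ((1, true) :: (List.replicate (2 * p) (0, false) ++
    ((1, true) :: List.replicate p (0, true)))), ?_, ?_⟩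
  · intro i
    have hi : i = 0 ∨ i = 1 := by omega
    rcases hi with rfl | rfl
    · simp [List.countP_append, List.countP_replicate]
      omega
    · simp [List.countP_append, List.countP_replicate]
  · have hval : wordVal (gen : Fin 2 → E3 R)
        (List.replicate p (0, true) ++ ((1, true) :: (List.replicate (2 * p) (0, false) ++
          ((1, true) :: List.replicate p (0, true))))) =
        (gen 0) ^ p * (gen 1 * (((gen 0)⁻¹) ^ (2 * p) * (gen 1 * (gen 0) ^ p))) := by
      simp [wordVal]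
    rw [hval, gen_pow, gen_inv_pow, gen_one]
    ext
    · simp
      ring
    · simp
    · simp
      ring
    · simp
      ring

end R

/-! ### the arithmetic -/

/-- Odd primes. -/
noncomputable def q (j : ℕ) : ℕ := Nat.nth Nat.Prime (j + 1)

lemma q_prime (j : ℕ) : Nat.Prime (q j) := Nat.prime_nth_prime _

lemma q_inj : Function.Injective q := by
  intro i j h
  have := Nat.nth_injective Nat.infinite_setOfPred_prime h
  omega

lemma q_ne_two (j : ℕ) : q j ≠ 2 := by
  intro h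
  rw [← Nat.nth_prime_zero_eq_two] at h
  have := Nat.nth_injective Nat.infinite_setOfPred_prime h
  omega

lemma exists_nonsquare (r : ℕ) [Fact (Nat.Prime r)] (hr : r ≠ 2) :
    ∃ m : ZMod r, ¬ IsSquare (m ^ 2 + 1) := by
  by_contra hcon
  push Not at hcon
  have hall : ∀ n : ℕ, IsSquare ((n : ℕ) : ZMod r) := by
    intro n
    induction n with
    | zero => exact ⟨0, by simp⟩
    | succ n ih =>
      obtain ⟨m, hm⟩ := ih
      have := hcon m
      rw [pow_two, ← hm] at this
      push_cast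
      exact this
  obtain ⟨a, ha⟩ := FiniteField.exists_nonsquare (F := ZMod r) (by
    rw [ZMod.ringChar_zmod_n]
    exact hr)
  apply ha
  have := hall a.val
  rwa [ZMod.natCast_zmod_val] at this

theorem arith (d : ℕ) :
    ∃ (R : Type) (_ : CommRing R) (N : ℕ) (y : Fin d → R) (τ : Finset (Fin d) → R),
      ∀ (i : Fin d) (A : Finset (Fin d)),
        ((∃ p : ℤ, τ A + y i = 2 * (p : R) ^ 2) → i ∈ A) ∧
        (i ∈ A → ∃ p : ℕ, 4 * p ≤ N ∧ τ A + y i = 2 * (p : R) ^ 2) := by
  classical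
  have : ∀ j : Fin d, Fact (Nat.Prime (q j)) := fun j => ⟨q_prime j⟩
  have hm : ∀ j : Fin d, ∃ m : ZMod (q j), ¬ IsSquare (m ^ 2 + 1) := fun j =>
    exists_nonsquare (q j) (q_ne_two j)
  choose m hm using hm
  let y : Fin d → (∀ j : Fin d, ZMod (q j)) := fun i j => if i = j then 2 else 0
  let τ : Finset (Fin d) → (∀ j : Fin d, ZMod (q j)) := fun A j =>
    if j ∈ A then 0 else 2 * m j ^ 2
  have hex : ∀ (i : Fin d) (A : Finset (Fin d)), ∃ p : ℕ, i ∈ A →
      τ A + y i = 2 * ((p : ∀ j : Fin d, ZMod (q j))) ^ 2 := by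
    intro i A
    let r : ∀ j : Fin d, ZMod (q j) := fun j => if i = j then 1 else if j ∈ A then 0 else m j
    obtain ⟨p, hp⟩ := Nat.chineseRemainderOfFinset (fun j => (r j).val) (fun j : Fin d => q j)
      Finset.univ (fun j _ => (q_prime j).ne_zero) (by
        intro j _ j' _ hne
        refine (Nat.coprime_primes (q_prime j) (q_prime j')).2 fun h => hne ?_
        exact Fin.ext (q_inj h))
    refine ⟨p, fun hi => ?_⟩
    funext j
    have hpj : ((p : ℕ) : ZMod (q j)) = r j := by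
      have h1 := (ZMod.natCast_eq_natCast_iff _ _ _).2 (hp j (Finset.mem_univ j))
      rw [h1, ZMod.natCast_zmod_val]
    show (if j ∈ A then (0 : ZMod (q j)) else 2 * m j ^ 2) + (if i = j then 2 else 0) =
      2 * ((p : ℕ) : ZMod (q j)) ^ 2
    rw [hpj]
    show (if j ∈ A then (0 : ZMod (q j)) else 2 * m j ^ 2) + (if i = j then 2 else 0) =
      2 * (if i = j then (1 : ZMod (q j)) else if j ∈ A then 0 else m j) ^ 2
    by_cases hij : i = j
    · subst hij
      simp [hi]
    · by_cases hj : j ∈ A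
      · simp [hij, hj]
      · simp [hij, hj]
  choose p hp using hex
  refine ⟨∀ j : Fin d, ZMod (q j), inferInstance,
    ∑ x : Fin d × Finset (Fin d), 4 * p x.1 x.2, y, τ, fun i A => ⟨?_, fun hi => ?_⟩⟩
  · rintro ⟨z, hz⟩
    by_contra hi
    have h1 := congrFun hz i
    have h2 : (if i ∈ A then (0 : ZMod (q i)) else 2 * m i ^ 2) + (if i = i then 2 else 0) =
      2 * ((z : ℤ) : ZMod (q i)) ^ 2 := h1
    rw [if_neg hi, if_pos rfl] at h2
    have h3 : (2 : ZMod (q i)) ≠ 0 := by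
      intro h0
      have h4 : ((2 : ℕ) : ZMod (q i)) = 0 := by exact_mod_cast h0
      rw [ZMod.natCast_eq_zero_iff] at h4
      exact q_ne_two i ((Nat.prime_dvd_prime_iff_eq (q_prime i) Nat.prime_two).1 h4)
    apply hm i
    refine ⟨((z : ℤ) : ZMod (q i)), ?_⟩
    have h5 : 2 * (m i ^ 2 + 1) = 2 * (((z : ℤ) : ZMod (q i)) * ((z : ℤ) : ZMod (q i))) := by
      linear_combination h2
    exact mul_left_cancel₀ h3 h5
  · refine ⟨p i A, ?_, hp i A hi⟩
    exact Finset.single_le_sum (f := fun x : Fin d × Finset (Fin d) => 4 * p x.1 x.2)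
      (fun _ _ => Nat.zero_le _) (Finset.mem_univ (i, A))

/-- Rank two, class three. -/
theorem rank_two (d : ℕ) :
    ∃ (G : Type) (_ : Group G) (_ : Group.IsNilpotent G), Group.nilpotencyClass G ≤ 3 ∧
      ∃ (a : Fin 2 → G) (N : Fin 2 → ℕ), (d : ℕ∞) ≤ vcDim (leftTranslates (genProg a N)) := by
  obtain ⟨R, _, N, y, τ, h⟩ := arith d
  refine ⟨E3 R, inferInstance, inferInstance, class_E3, gen, ![N, 2], ?_⟩
  refine CLSaux.le_vcDim_of _ d (fun i => (⟨0, 0, 0, y i⟩ : E3 R))
    (fun A => (⟨0, 2, 0, τ A⟩ : E3 R)⁻¹) ?_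
  intro i A
  have he : ((⟨0, 2, 0, τ A⟩ : E3 R)⁻¹)⁻¹ * ⟨0, 0, 0, y i⟩ = ⟨0, 2, 0, τ A + y i⟩ := by
    rw [inv_inv]
    ext <;> simp
  rw [he]
  constructor
  · intro hmem
    exact (h i A).1 (square_of_mem hmem)
  · intro hi
    obtain ⟨p, hp, he⟩ := (h i A).2 hi
    rw [he]
    exact mem_of_square p hp

/-- Rank at least two and class at least three. -/
theorem not_bounded (k s : ℕ) (hk : 2 ≤ k) (hs : 3 ≤ s) : ¬ Bounded k s := by
  rintro ⟨C, hC⟩
  obtain ⟨j, rfl⟩ := Nat.exists_eq_add_of_le hk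
  obtain ⟨G, _, _, hcl, a, N, h⟩ := rank_two (C + 1)
  have h1 := hC G (hcl.trans hs) (Fin.append a (fun _ : Fin j => 1))
    (Fin.append N (fun _ : Fin j => 0))
  rw [genProg_append'] at h1
  have h2 : ((C + 1 : ℕ) : ℕ∞) ≤ (C : ℕ∞) := le_trans h h1
  have h3 : C + 1 ≤ C := by exact_mod_cast h2
  omega

end TWTaux

end Pool.Agent.VCNil.AT
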