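import Pool.Agent.Lib.MP_19d06a_co.AT.Spec

/-!
# UNB: rank four is unbounded

Modelled on `Shatter.lean`, with the group `ℤ × ℤ × ℤ/M`.
-/

set_option autoImplicit false

namespace Pool.Agent.VCNil.AT

open Multiplicative

namespace UNBaux

/-- The four generators. -/
def gensFour (M α : ℕ) : Fin 4 → Multiplicative (ℤ × (ℤ × ZMod M)) :=
  ![ofAdd ((1 : ℤ), ((0 : ℤ), (α : ZMod M))), ofAdd ((1 : ℤ), ((0 : ℤ), (0 : ZMod M))),
    ofAdd ((0 : ℤ), ((1 : ℤ), (1 : ZMod M))), ofAdd ((0 : ℤ), ((-1 : ℤ), (0 : ZMod M)))]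

lemma prodFour (M α : ℕ) (n : Fin 4 → ℤ) :
    ∏ i, gensFour M α i ^ n i =
      ofAdd ((n 0 + n 1 : ℤ), ((n 2 - n 3 : ℤ), ((α * n 0 + n 2 : ℤ) : ZMod M))) := by
  rw [Fin.prod_univ_four]
  simp only [gensFour, ← ofAdd_zsmul, ← ofAdd_add, Matrix.cons_val]
  congr 1
  ext
  · simp
  · simp
    ring
  · simp
    ring

lemma memFour (M α N : ℕ) (v1 v2 : ℤ) (v3 : ZMod M) :
    (ofAdd (v1, (v2, v3)) : Multiplicative (ℤ × (ℤ × ZMod M))) ∈ genProg (gensFour M α) (fun _ => N) ↔
      ∃ z t : ℤ, z.natAbs ≤ N ∧ (v1 - z).natAbs ≤ N ∧ t.natAbs ≤ N ∧ (t - v2).natAbs ≤ N ∧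
        ((α * z + t : ℤ) : ZMod M) = v3 := by
  rw [mem_genProg_iff]
  constructor
  · rintro ⟨n, hn, hprod⟩
    rw [prodFour] at hprod
    have h := ofAdd.injective hprod
    simp only [Prod.mk.injEq] at h
    obtain ⟨h1, h2, h3⟩ := h
    refine ⟨n 0, n 2, hn 0, ?_, hn 2, ?_, h3⟩
    · have : v1 - n 0 = n 1 := by linarith
      rw [this]
      exact hn 1
    · have : n 2 - v2 = n 3 := by linarith
      rw [this]
      exact hn 3
  · rintro ⟨z, t, h1, h2, h3, h4, h5⟩
    refine ⟨![z, v1 - z, t, t - v2], ?_, ?_⟩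
    · intro i
      fin_cases i
      · exact h1
      · exact h2
      · exact h3
      · exact h4
    · rw [prodFour]
      rw [← h5]
      simp

/-- The windowFour lemma. -/
lemma windowFour {M α N w h : ℕ} {Y : ℤ} (hN : w + h ≤ N) :
    (ofAdd ((w - 1 - 2 * N : ℤ), ((2 * N - h : ℤ), ((Y + N - α * N : ℤ) : ZMod M))) :
      Multiplicative (ℤ × (ℤ × ZMod M))) ∈ genProg (gensFour M α) (fun _ => N) ↔ Hit M α w h Y := by
  rw [memFour]
  constructor
  · rintro ⟨z, t, h1, h2, h3, h4, h5⟩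
    have h6 := (ZMod.intCast_eq_intCast_iff_dvd_sub _ _ _).mp h5
    obtain ⟨m, hm⟩ := h6
    have hz : (((z + N).toNat : ℕ) : ℤ) = z + N := Int.toNat_of_nonneg (by omega)
    have key : (α : ℤ) * (((z + N).toNat : ℕ) : ℤ) + M * m - Y = N - t := by
      rw [hz, ← hm]
      ring
    refine ⟨(z + N).toNat, by omega, m, ?_, ?_⟩
    · rw [key]
      omega
    · rw [key]
      omega
  · rintro ⟨z, hz, m, h1, h2⟩
    set t' : ℤ := (α : ℤ) * z + M * m - Y with ht'
    refine ⟨z - N, N - t', by omega, by omega, by omega, by omega, ?_⟩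
    rw [ZMod.intCast_eq_intCast_iff_dvd_sub]
    refine ⟨m, ?_⟩
    rw [ht']
    ring

end UNBaux

open UNBaux in
theorem specUNB : SpecUNB := by
  intro d
  classical
  set K : ℕ := Fintype.card (Finset (Fin d)) with hK
  let e : Finset (Fin d) ≃ Fin K := Fintype.equivFin (Finset (Fin d))
  obtain ⟨M, α, hM, -, w, h, hY⟩ := exists_scales K
  choose Yf hYf using hY
  let b : Fin d → ℕ → Prop := fun i n => ∃ A : Finset (Fin d), (e A).val = n ∧ i ∈ A
  let Y : Fin d → ℤ := fun i => Yf (b i)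
  have hhit : ∀ (i : Fin d) (A : Finset (Fin d)),
      Hit M α (w (e A).val) (h (e A).val) (Y i) ↔ i ∈ A := by
    intro i A
    rw [hYf (b i) (e A).val (e A).isLt]
    constructor
    · rintro ⟨A', hA', hi⟩
      have : A' = A := e.injective (Fin.ext hA')
      rwa [← this]
    · intro hi
      exact ⟨A, rfl, hi⟩
  set N : ℕ := ∑ n ∈ Finset.range K, (w n + h n) with hNdef
  have hN : ∀ A : Finset (Fin d), w (e A).val + h (e A).val ≤ N := by
    intro A
    exact Finset.single_le_sum (f := fun n => w n + h n) (fun _ _ => Nat.zero_le _)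
        (Finset.mem_range.2 (e A).isLt)
  let pt : Fin d → Multiplicative (ℤ × (ℤ × ZMod M)) :=
    fun i => ofAdd ((0 : ℤ), ((0 : ℤ), ((Y i : ℤ) : ZMod M)))
  have hinj : Function.Injective pt := by
    intro i j hij
    have hYij : ((Y i : ℤ) : ZMod M) = ((Y j : ℤ) : ZMod M) := by
      have := ofAdd.injective hij
      simp only [Prod.mk.injEq] at this
      exact this.2.2
    have h1 := (windowFour (M := M) (α := α) (Y := Y i) (hN {i})).2
      ((hhit i {i}).2 (Finset.mem_singleton_self i))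
    have hcast : ((Y i + N - α * N : ℤ) : ZMod M) = ((Y j + N - α * N : ℤ) : ZMod M) := by
      push_cast
      rw [hYij]
    rw [hcast] at h1
    have h2 := (windowFour (M := M) (α := α) (Y := Y j) (hN {i})).1 h1
    have h3 := (hhit j {i}).1 h2
    exact (Finset.mem_singleton.1 h3).symm
  refine ⟨M, gensFour M α, fun _ => N, ?_⟩
  have hsh : Shatters (leftTranslates (genProg (gensFour M α) (fun _ => N)))
      (Finset.univ.image pt) := by
    intro B hB
    set A : Finset (Fin d) := Finset.univ.filter (fun i => pt i ∈ B) with hA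
    set wA : ℕ := w (e A).val
    set hA' : ℕ := h (e A).val
    let g : Multiplicative (ℤ × (ℤ × ZMod M)) :=
      ofAdd ((-(wA - 1 - 2 * N) : ℤ), ((-(2 * N - hA') : ℤ), ((-(N - α * N) : ℤ) : ZMod M)))
    refine ⟨_, ⟨g, rfl⟩, ?_⟩
    have key : ∀ i, pt i ∈ (fun y : Multiplicative (ℤ × (ℤ × ZMod M)) => g * y) ''
        genProg (gensFour M α) (fun _ => N) ↔ pt i ∈ B := by
      intro i
      rw [mem_leftTranslate]
      have heq : g⁻¹ * pt i = (ofAdd ((wA - 1 - 2 * N : ℤ), ((2 * N - hA' : ℤ),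
          ((Y i + N - α * N : ℤ) : ZMod M))) : Multiplicative (ℤ × (ℤ × ZMod M))) := by
        simp only [g, pt, ← ofAdd_neg, ← ofAdd_add]
        congr 1
        ext
        · simp
        · simp
        · simp
          ring
      rw [heq, windowFour (hN A), hhit i A, hA]
      simp
    ext x
    constructor
    · rintro ⟨hx1, hx2⟩
      have hx2' : x ∈ Finset.univ.image pt := hx2
      obtain ⟨i, -, rfl⟩ := Finset.mem_image.1 hx2'
      exact (key i).1 hx1
    · intro hx
      have hx2 : x ∈ ((Finset.univ.image pt :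
        Finset (Multiplicative (ℤ × (ℤ × ZMod M)))) : Set _) := hB hx
      have hx2' : x ∈ Finset.univ.image pt := hx2
      obtain ⟨i, -, rfl⟩ := Finset.mem_image.1 hx2'
      exact ⟨(key i).2 hx, hx2⟩
  have hcard : (Finset.univ.image pt).card = d := by
    rw [Finset.card_image_of_injective _ hinj]
    simp
  rw [← hcard]
  exact le_vcDim hsh

end Pool.Agent.VCNil.AT
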