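import Pool.Agent.Lib.MP_19d06a_co.AT.ONE

/-!
# Rank four in the integers

For every `d` some progression of rank `4` in `ℤ` has VC-dimension at least `d`, and the same
configuration works in every group which has an element of infinite or large order.
-/

set_option autoImplicit false

namespace Pool.Agent.VCNil.AT

namespace UNZaux

/-- `V` is in the progression with the generators `B + q' , B, q + 1, -q` where `q' = α K`,
`q = M K`. -/
def P4 (B p q N V : ℤ) : Prop :=
  ∃ n0 n1 n2 n3 : ℤ, |n0| ≤ N ∧ |n1| ≤ N ∧ |n2| ≤ N ∧ |n3| ≤ N ∧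
    n0 * (B + p) + n1 * B + n2 * (q + 1) + n3 * (-q) = V

/-- The target of the window `(w, h)` at the point `Y`. -/
def tgt (B α M R N w h Y : ℤ) : ℤ :=
  B * (w - 1 - 2 * N) - α * (2 * R) * N + N + 2 * R * Y + M * (2 * R) * (2 * N - (2 * R * h + R))

lemma mul_abs_le {p x N : ℤ} (hp : 0 ≤ p) (hx : |x| ≤ N) : |p * x| ≤ p * N := by
  rw [abs_mul, abs_of_nonneg hp]
  exact mul_le_mul_of_nonneg_left hx hp

theorem window4 {M α w h : ℕ} {Y R N B : ℤ} (hM : 1 ≤ M)
    (hR : (α : ℤ) * w + |Y| + h < R) (hN : (w : ℤ) ≤ N) (hN2 : 2 * R * (h + 1) ≤ N)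
    (hB : 2 * (α * (2 * R) * N + N + 2 * (M * (2 * R) * N)) + 2 * R * |Y| < B) :
    P4 B (α * (2 * R)) (M * (2 * R)) N (tgt B α M R N w h Y) ↔ Hit M α w h Y := by
  have hα0 : (0 : ℤ) ≤ α := Int.natCast_nonneg α
  have hM0 : (1 : ℤ) ≤ M := by exact_mod_cast hM
  have hw0 : (0 : ℤ) ≤ w := Int.natCast_nonneg w
  have hh0 : (0 : ℤ) ≤ h := Int.natCast_nonneg h
  have hαw : (0 : ℤ) ≤ (α : ℤ) * w := mul_nonneg hα0 hw0
  have hY0 := abs_nonneg Y
  have hR0 : 0 < R := by linarith
  have hRh : 0 ≤ 2 * R * (h : ℤ) := by positivity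
  have hN2' : 2 * R * h + 2 * R ≤ N := by
    have : 2 * R * ((h : ℤ) + 1) = 2 * R * h + 2 * R := by ring
    linarith
  have hYa := neg_abs_le Y
  have hYb := le_abs_self Y
  constructor
  · rintro ⟨n0, n1, n2, n3, h0, h1, h2, h3, hsum⟩
    unfold tgt at hsum
    set p : ℤ := α * (2 * R) with hp
    set q : ℤ := M * (2 * R) with hq
    have hp0 : 0 ≤ p := by positivity
    have hq0 : 0 ≤ q := by positivity
    have e1 := abs_le.1 (mul_abs_le hp0 h0)
    have e2 := abs_le.1 (mul_abs_le hq0 h2)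
    have e3 := abs_le.1 (mul_abs_le hq0 h3)
    have h4 : |2 * N - (2 * R * h + R)| ≤ 2 * N := by
      rw [abs_le]
      constructor <;> linarith
    have e4 := abs_le.1 (mul_abs_le hq0 h4)
    have e5 : |2 * R * Y| ≤ 2 * R * |Y| := mul_abs_le (by linarith) le_rfl
    have e5' := abs_le.1 e5
    have h2' := abs_le.1 h2
    have h1' := abs_le.1 h1
    have h0' := abs_le.1 h0
    have h3' := abs_le.1 h3
    have hB0 : 0 < B := by
      have : 0 ≤ 2 * R * |Y| := by positivity
      have : 0 ≤ p * N := by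
        have : 0 ≤ N := by linarith
        positivity
      have : 0 ≤ q * N := by
        have : 0 ≤ N := by linarith
        positivity
      linarith
    have hX : B * (n0 + n1 - (w - 1 - 2 * N)) =
        (-(p * N) + N + 2 * R * Y + q * (2 * N - (2 * R * h + R))) -
          (p * n0 + n2 + (q * n2 - q * n3)) := by
      linear_combination hsum
    have hq2 : q * (2 * N) = 2 * (q * N) := by ring
    rw [hq2] at e4
    have hXb : B * (n0 + n1 - (w - 1 - 2 * N)) < B ∧ -B < B * (n0 + n1 - (w - 1 - 2 * N)) := by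
      rw [hX]
      constructor <;> linarith
    have he : n0 + n1 - (w - 1 - 2 * N) = 0 := by
      have a1 : n0 + n1 - (w - 1 - 2 * N) < 1 := by
        by_contra hc
        have h6 : 1 ≤ n0 + n1 - (w - 1 - 2 * N) := not_lt.1 hc
        have h7 := mul_le_mul_of_nonneg_left h6 hB0.le
        linarith [hXb.1]
      have a2 : -1 < n0 + n1 - (w - 1 - 2 * N) := by
        by_contra hc
        have h6 : n0 + n1 - (w - 1 - 2 * N) ≤ -1 := not_lt.1 hc
        have h7 := mul_le_mul_of_nonneg_left h6 hB0.le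
        linarith [hXb.2]
      omega
    rw [he, mul_zero] at hX
    obtain ⟨z, hz⟩ : ∃ z : ℕ, (z : ℤ) = n0 + N := ⟨(n0 + N).toNat, Int.toNat_of_nonneg (by linarith)⟩
    refine ⟨z, by omega, n2 - n3 - (2 * N - (2 * R * h + R)), ?_⟩
    set m : ℤ := n2 - n3 - (2 * N - (2 * R * h + R)) with hm
    set D : ℤ := (α : ℤ) * z + M * m - Y with hD
    have hKD : 2 * R * D = N - n2 := by
      rw [hD, hm, hz]
      have : 2 * R * ((α : ℤ) * (n0 + N) + M * (n2 - n3 - (2 * N - (2 * R * h + R))) - Y) =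
        p * (n0 + N) + q * (n2 - n3 - (2 * N - (2 * R * h + R))) - 2 * R * Y := by
        rw [hp, hq]
        ring
      rw [this]
      linear_combination hX
    have hD0 : 0 ≤ D := by
      by_contra hc
      have h6 : D ≤ -1 := by omega
      have h7 := mul_le_mul_of_nonneg_left h6 (show (0 : ℤ) ≤ 2 * R by linarith)
      linarith
    refine ⟨hD0, ?_⟩
    have hzw : (α : ℤ) * z ≤ α * w := mul_le_mul_of_nonneg_left (by omega) hα0
    have hmlow : -((α : ℤ) * w + |Y|) ≤ m := by
      by_contra hc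
      have hc' := not_le.1 hc
      have hMm := mul_le_mul_of_nonpos_right hM0 (show m ≤ 0 by linarith)
      linarith
    have hlast : N - n2 ≤ 2 * R * h + R - m := by
      rw [hm]
      linarith
    by_contra hc
    have h6 : (h : ℤ) + 1 ≤ D := by omega
    have h7 := mul_le_mul_of_nonneg_left h6 (show (0 : ℤ) ≤ 2 * R by linarith)
    linarith
  · rintro ⟨z, hz, m, hD0, hD1⟩
    set D : ℤ := (α : ℤ) * z + M * m - Y with hD
    have hz0 : (0 : ℤ) ≤ z := Int.natCast_nonneg z
    have hzw' : (z : ℤ) + 1 ≤ w := by exact_mod_cast hz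
    have hzw : (α : ℤ) * z ≤ α * w := mul_le_mul_of_nonneg_left (by linarith) hα0
    have hαz : 0 ≤ (α : ℤ) * z := mul_nonneg hα0 hz0
    have hKD0 : 0 ≤ 2 * R * D := by positivity
    have hKD1 : 2 * R * D ≤ 2 * R * h := mul_le_mul_of_nonneg_left hD1 (by linarith)
    have hmlow : -((α : ℤ) * w + |Y|) ≤ m := by
      by_contra hc
      have hc' := not_le.1 hc
      have hMm := mul_le_mul_of_nonpos_right hM0 (show m ≤ 0 by linarith)
      linarith
    have hmup : m ≤ h + |Y| := by
      by_contra hc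
      have hc' := not_le.1 hc
      have hMm := mul_le_mul_of_nonneg_right hM0 (show (0 : ℤ) ≤ m by linarith)
      linarith
    refine ⟨z - N, w - 1 - z - N, N - 2 * R * D, -N + ((2 * R * h + R) - m - 2 * R * D),
      ?_, ?_, ?_, ?_, ?_⟩
    · rw [abs_le]
      constructor <;> linarith
    · rw [abs_le]
      constructor <;> linarith
    · rw [abs_le]
      constructor <;> linarith
    · rw [abs_le]
      constructor <;> linarith
    · unfold tgt
      rw [hD]
      ring

/-- The generators. -/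
def gen4 (B p q : ℤ) : Fin 4 → ℤ := ![B + p, B, q + 1, -q]

open Multiplicative in
lemma mem_gen4 (B p q : ℤ) (N : ℕ) (V : ℤ) :
    (ofAdd V : Multiplicative ℤ) ∈
        genProg (fun i => (ofAdd (gen4 B p q i) : Multiplicative ℤ)) (fun _ => N) ↔
      P4 B p q N V := by
  rw [mem_genProg_iff]
  have hprod : ∀ n : Fin 4 → ℤ,
      ∏ i, (ofAdd (gen4 B p q i) : Multiplicative ℤ) ^ n i =
        ofAdd (n 0 * (B + p) + n 1 * B + n 2 * (q + 1) + n 3 * (-q)) := by
    intro n
    simp only [Fin.prod_univ_four, gen4, ← ofAdd_zsmul, ← ofAdd_add, smul_eq_mul,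
      Matrix.cons_val]
  constructor
  · rintro ⟨n, hn, he⟩
    rw [hprod] at he
    have he' := ofAdd.injective he
    have hb : ∀ i, |n i| ≤ (N : ℤ) := by
      intro i
      have := hn i
      rw [Int.abs_eq_natAbs]
      exact_mod_cast this
    exact ⟨n 0, n 1, n 2, n 3, hb 0, hb 1, hb 2, hb 3, he'⟩
  · rintro ⟨n0, n1, n2, n3, h0, h1, h2, h3, he⟩
    refine ⟨![n0, n1, n2, n3], ?_, ?_⟩
    · intro i
      have hnat : ∀ x : ℤ, |x| ≤ (N : ℤ) → x.natAbs ≤ N := by
        intro x hx
        rw [Int.abs_eq_natAbs] at hx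
        exact_mod_cast hx
      fin_cases i
      · exact hnat _ h0
      · exact hnat _ h1
      · exact hnat _ h2
      · exact hnat _ h3
    · rw [hprod, ← he]
      rfl

open Multiplicative in
/-- The configuration in the integers: points `pt i` and shifts `g A`. -/
theorem config (d : ℕ) :
    ∃ (c : Fin 4 → ℤ) (N : ℕ) (pt : Fin d → ℤ) (g : Finset (Fin d) → ℤ),
      ∀ (i : Fin d) (A : Finset (Fin d)),
        ((ofAdd (pt i - g A) : Multiplicative ℤ) ∈
          genProg (fun j => (ofAdd (c j) : Multiplicative ℤ)) (fun _ => N) ↔ i ∈ A) := by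
  classical
  set K : ℕ := Fintype.card (Finset (Fin d)) with hK
  let e : Finset (Fin d) ≃ Fin K := Fintype.equivFin (Finset (Fin d))
  obtain ⟨M, α, hM, -, w, h, hY⟩ := exists_scales K
  choose Yf hYf using hY
  let b : Fin d → ℕ → Prop := fun i n => ∃ A : Finset (Fin d), (e A).val = n ∧ i ∈ A
  let Y : Fin d → ℤ := fun i => Yf (b i)
  have hhit : ∀ (i : Fin d) (A : Finset (Fin d)),
      Hit M α (w (e A).val) (h (e A).val) (Y i) ↔ i ∈ A := by
    intro i A
    rw [hYf (b i) (e A).val (e A).isLt]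
    constructor
    · rintro ⟨A', hA', hi⟩
      have : A' = A := e.injective (Fin.ext hA')
      rwa [← this]
    · intro hi
      exact ⟨A, rfl, hi⟩
  -- bounds for the windows and the points
  obtain ⟨W, hW⟩ : ∃ W : ℕ, ∀ A : Finset (Fin d), w (e A).val + h (e A).val ≤ W :=
    ⟨∑ n ∈ Finset.range K, (w n + h n), fun A =>
      Finset.single_le_sum (f := fun n => w n + h n) (fun _ _ => Nat.zero_le _)
        (Finset.mem_range.2 (e A).isLt)⟩
  obtain ⟨Z, hZ⟩ : ∃ Z : ℕ, ∀ i, (Y i).natAbs ≤ Z :=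
    ⟨∑ i, (Y i).natAbs, fun i =>
      Finset.single_le_sum (f := fun i => (Y i).natAbs) (fun _ _ => Nat.zero_le _)
        (Finset.mem_univ i)⟩
  set R : ℕ := α * W + Z + W + 1 with hR
  set N : ℕ := W + 2 * R * (W + 1) with hN
  set B : ℤ := 2 * ((α : ℤ) * (2 * R) * N + N + 2 * (M * (2 * R) * N)) + 2 * R * Z + 1 with hB
  refine ⟨gen4 B ((α : ℤ) * (2 * (R : ℤ))) ((M : ℤ) * (2 * (R : ℤ))), N,
    fun i => 2 * (R : ℤ) * Y i,
    fun A => -(B * ((w (e A).val : ℤ) - 1 - 2 * N) - α * (2 * R) * N + N +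
      M * (2 * R) * (2 * N - (2 * R * (h (e A).val : ℤ) + R))), ?_⟩
  intro i A
  have hsub : (2 * (R : ℤ) * Y i - -(B * ((w (e A).val : ℤ) - 1 - 2 * N) - α * (2 * R) * N + N +
      M * (2 * R) * (2 * N - (2 * R * (h (e A).val : ℤ) + R)))) =
      tgt B α M R N (w (e A).val) (h (e A).val) (Y i) := by
    unfold tgt
    ring
  show (ofAdd (2 * (R : ℤ) * Y i - -(B * ((w (e A).val : ℤ) - 1 - 2 * N) - α * (2 * R) * N + N +
      M * (2 * R) * (2 * N - (2 * R * (h (e A).val : ℤ) + R)))) : Multiplicative ℤ) ∈ _ ↔ _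
  rw [hsub, mem_gen4, window4 (by omega) ?_ ?_ ?_ ?_, hhit i A]
  · have h1 := hW A
    have h2 := hZ i
    have h3 : |Y i| ≤ (Z : ℤ) := by
      rw [Int.abs_eq_natAbs]
      exact_mod_cast h2
    have h4 : α * w (e A).val ≤ α * W := Nat.mul_le_mul_left _ (by omega)
    have h5 : (α : ℤ) * (w (e A).val : ℤ) ≤ α * W := by exact_mod_cast h4
    have h6 : (h (e A).val : ℤ) ≤ W := by
      have : h (e A).val ≤ W := by omega
      exact_mod_cast this
    rw [hR]
    push_cast
    linarith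
  · have h1 := hW A
    have h2 : w (e A).val ≤ N := by
      rw [hN]
      have : 0 ≤ 2 * R * (W + 1) := Nat.zero_le _
      omega
    exact_mod_cast h2
  · have h1 := hW A
    have h2 : 2 * R * (h (e A).val + 1) ≤ N := by
      rw [hN]
      have : 2 * R * (h (e A).val + 1) ≤ 2 * R * (W + 1) := Nat.mul_le_mul_left _ (by omega)
      omega
    exact_mod_cast h2
  · have h2 := hZ i
    have h3 : |Y i| ≤ (Z : ℤ) := by
      rw [Int.abs_eq_natAbs]
      exact_mod_cast h2
    have h4 : 2 * (R : ℤ) * |Y i| ≤ 2 * R * Z := mul_le_mul_of_nonneg_left h3 (by positivity)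
    rw [hB]
    linarith

end UNZaux

end Pool.Agent.VCNil.AT
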