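import Pool.Agent.Lib.MP_19d06a_co.AT.SpecB

/-!
# UPB (MP_19d06a_co): the last coordinate of a word
-/

set_option autoImplicit false

namespace Pool.Agent.VCNil.AT

open TWTaux

namespace UPBaux

/-- first coordinate of a letter -/
def lx (l : Fin 2 × Bool) : ℤ := if l.1 = 0 then sg l.2 else 0

/-- second coordinate of a letter -/
def lv (l : Fin 2 × Bool) : ℤ := if l.1 = 0 then 0 else sg l.2

lemma letter (l : Fin 2 × Bool) : (if l.2 then gE l.1 else (gE l.1)⁻¹) = ⟨lx l, lv l, 0⟩ := by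
  rcases l with ⟨i, e⟩
  have hi : i = 0 ∨ i = 1 := by omega
  rcases hi with rfl | rfl <;> cases e <;> ext <;> simp [gE, lx, lv, sg]

lemma val_cons (l : Fin 2 × Bool) (w : List (Fin 2 × Bool)) :
    wordVal gE (l :: w) = ⟨lx l, lv l, 0⟩ * wordVal gE w := by
  rw [← letter]
  simp [wordVal]

lemma cons_x (l : Fin 2 × Bool) (w : List (Fin 2 × Bool)) :
    (wordVal gE (l :: w)).x = lx l + (wordVal gE w).x := by
  rw [val_cons]; rfl

lemma cons_v0 (l : Fin 2 × Bool) (w : List (Fin 2 × Bool)) :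
    (wordVal gE (l :: w)).v0 = lv l + (wordVal gE w).v0 := by
  rw [val_cons]; rfl

lemma cons_v1 (l : Fin 2 × Bool) (w : List (Fin 2 × Bool)) :
    (wordVal gE (l :: w)).v1 = (wordVal gE w).v1 + lx l * (wordVal gE w).v0 := by
  rw [val_cons]
  simp

lemma ct_cons (i : Fin 2) (e : Bool) (l : Fin 2 × Bool) (w : List (Fin 2 × Bool)) :
    ct i e (l :: w) = ct i e w + if l = (i, e) then 1 else 0 := by
  simp [ct, List.countP_cons]

/-- the arithmetic step -/
lemma step {n m n' r : ℤ} (hm : 0 ≤ m) (hr : m ≤ r) (h2 : n' ≤ n + 1) :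
    n' * m ≤ n * m + r := by nlinarith

end UPBaux

open UPBaux in
theorem specUPB : SpecUPB := by
  intro w
  induction w with
  | nil => refine ⟨?_, ?_, ?_, ?_⟩ <;> simp [ct, wordVal]
  | cons l w ih =>
    obtain ⟨h1, h2, h3, h4⟩ := ih
    rw [cons_x, cons_v0, cons_v1]
    simp only [ct_cons]
    generalize hp : (ct 0 true w : ℕ) = p at *
    generalize hp' : (ct 0 false w : ℕ) = p' at *
    generalize hq : (ct 1 true w : ℕ) = q at *
    generalize hq' : (ct 1 false w : ℕ) = q' at *
    have e1 : (0 : ℤ) ≤ p := Int.natCast_nonneg p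
    have e2 : (0 : ℤ) ≤ p' := Int.natCast_nonneg p'
    have e3 : (0 : ℤ) ≤ q := Int.natCast_nonneg q
    have e4 : (0 : ℤ) ≤ q' := Int.natCast_nonneg q'
    have f1 : (0 : ℤ) ≤ min (p : ℤ) p' := le_min e1 e2
    have f2 : (0 : ℤ) ≤ min (q : ℤ) q' := le_min e3 e4
    have g1 : min (p : ℤ) p' ≤ p := min_le_left _ _
    have g2 : min (p : ℤ) p' ≤ p' := min_le_right _ _
    have g3 : min (q : ℤ) q' ≤ q := min_le_left _ _
    have g4 : min (q : ℤ) q' ≤ q' := min_le_right _ _
    rcases l with ⟨i, e⟩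
    have hi : i = 0 ∨ i = 1 := by omega
    rcases hi with rfl | rfl <;> cases e
    · have k := step (n := min (p : ℤ) p') (m := min (q : ℤ) q') (n' := min (p : ℤ) (p' + 1))
        (r := q) f2 g3 (by omega)
      have k' := step (n := min (p : ℤ) p') (m := min (q : ℤ) q') (n' := min (p : ℤ) (p' + 1))
        (r := q') f2 g4 (by omega)
      simp [lx, lv, sg]
      refine ⟨by omega, by omega, ?_, ?_⟩ <;> nlinarith
    · have k := step (n := min (p : ℤ) p') (m := min (q : ℤ) q') (n' := min ((p : ℤ) + 1) p')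
        (r := q) f2 g3 (by omega)
      have k' := step (n := min (p : ℤ) p') (m := min (q : ℤ) q') (n' := min ((p : ℤ) + 1) p')
        (r := q') f2 g4 (by omega)
      simp [lx, lv, sg]
      refine ⟨by omega, by omega, ?_, ?_⟩ <;> nlinarith
    · have k := step (n := min (q : ℤ) q') (m := min (p : ℤ) p') (n' := min (q : ℤ) (q' + 1))
        (r := p) f1 g1 (by omega)
      have k' := step (n := min (q : ℤ) q') (m := min (p : ℤ) p') (n' := min (q : ℤ) (q' + 1))
        (r := p') f1 g2 (by omega)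
      simp [lx, lv, sg]
      refine ⟨by omega, by omega, ?_, ?_⟩ <;> nlinarith
    · have k := step (n := min (q : ℤ) q') (m := min (p : ℤ) p') (n' := min ((q : ℤ) + 1) q')
        (r := p) f1 g1 (by omega)
      have k' := step (n := min (q : ℤ) q') (m := min (p : ℤ) p') (n' := min ((q : ℤ) + 1) q')
        (r := p') f1 g2 (by omega)
      simp [lx, lv, sg]
      refine ⟨by omega, by omega, ?_, ?_⟩ <;> nlinarith

end Pool.Agent.VCNil.AT
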