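import Pool.Agent.Lib.MP_19d06a_co.AT.SpecB

/-!
# Translates of images of boxes (module VCB)
-/

set_option autoImplicit false

namespace Pool.Agent.VCNil.AT

namespace VCBaux

variable {E : Type} [Group E]

lemma map_one {π : E → V3} (hπ : ∀ p q, π (p * q) = π p + π q) : π 1 = 0 := by
  have h := hπ 1 1
  rw [mul_one] at h
  exact left_eq_add.1 h

lemma map_inv {π : E → V3} (hπ : ∀ p q, π (p * q) = π p + π q) (p : E) : π p⁻¹ = -π p := by
  have h := hπ p⁻¹ p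
  rw [inv_mul_cancel, map_one hπ] at h
  exact eq_neg_of_add_eq_zero_left h.symm

/-- The subgroup of the `π k`, `k ∈ φ.ker`, `π k ∈ S`. -/
def K {G : Type} [Group G] (φ : E →* G) (π : E → V3) (hπ : ∀ p q, π (p * q) = π p + π q)
    (S : AddSubgroup V3) : AddSubgroup V3 where
  carrier := {v | ∃ k : E, φ k = 1 ∧ π k ∈ S ∧ v = π k}
  zero_mem' := ⟨1, _root_.map_one φ, by rw [map_one hπ]; exact S.zero_mem, (map_one hπ).symm⟩
  add_mem' := by
    rintro _ _ ⟨k, hk, hS, rfl⟩ ⟨k', hk', hS', rfl⟩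
    refine ⟨k * k', by rw [map_mul, hk, hk', one_mul], ?_, (hπ k k').symm⟩
    rw [hπ]
    exact S.add_mem hS hS'
  neg_mem' := by
    rintro _ ⟨k, hk, hS, rfl⟩
    refine ⟨k⁻¹, by rw [_root_.map_inv, hk, inv_one], ?_, (map_inv hπ k).symm⟩
    rw [map_inv hπ]
    exact S.neg_mem hS

end VCBaux

open VCBaux in
theorem specVCB (hLAT : SpecLAT) : SpecVCB := by
  intro E G _ _ φ π hπ S e lo s Y hY
  by_contra hlt
  have hc : 51 ≤ Y.card := by omega
  let emb : Fin 51 ↪ Y := (Fin.castLEEmb hc).trans Y.equivFin.symm.toEmbedding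
  have hinj : ∀ i j : Fin 51, ((emb i : Y) : G) = ((emb j : Y) : G) → i = j :=
    fun i j h => emb.injective (Subtype.ext h)
  set y : Fin 50 → G := fun i => ((emb (Fin.castSucc i) : Y) : G) with hydef
  set y' : G := ((emb (Fin.last 50) : Y) : G) with hy'def
  have hyY : ∀ i, y i ∈ Y := fun i => (emb (Fin.castSucc i)).2
  have hy'Y : y' ∈ Y := (emb (Fin.last 50)).2
  have hyinj : ∀ i j, y i = y j → i = j := by
    intro i j h
    exact Fin.castSucc_injective 50 (hinj _ _ h)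
  have hyne : ∀ i, y i ≠ y' := by
    intro i h
    exact absurd (hinj _ _ h) (Fin.castSucc_lt_last i).ne
  obtain ⟨_, ⟨g0, rfl⟩, hT⟩ := hY Y subset_rfl
  have hmem0 : ∀ x ∈ Y, ∃ n ∈ boxSet π S e lo s, φ n = g0⁻¹ * x := by
    intro x hx
    have h1 : x ∈ tl (φ '' boxSet π S e lo s) g0 ∩ (Y : Set G) := by
      rw [hT]; exact hx
    exact h1.1
  choose n hn hφn using fun i => hmem0 (y i) (hyY i)
  obtain ⟨n', hn', hφn'⟩ := hmem0 y' hy'Y
  refine hLAT (K φ π hπ S) s (fun i => π (n i)) ?_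
  intro I
  have hsub : ({x | ∃ i ∈ I, x = y i} ∪ {y'} : Set G) ⊆ (Y : Set G) := by
    rintro x (⟨i, -, rfl⟩ | rfl)
    · exact hyY i
    · exact hy'Y
  obtain ⟨_, ⟨g, rfl⟩, hg⟩ := hY _ hsub
  have hy'g : y' ∈ tl (φ '' boxSet π S e lo s) g ∩ (Y : Set G) := by
    rw [hg]; exact Or.inr rfl
  obtain ⟨m, hm, hφm⟩ : ∃ m ∈ boxSet π S e lo s, φ m = g⁻¹ * y' := hy'g.1
  refine ⟨fun b => lo b - π m b + π n' b, fun i => ?_⟩
  have key : i ∈ I ↔ g⁻¹ * y i ∈ φ '' boxSet π S e lo s := by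
    constructor
    · intro hi
      have : y i ∈ tl (φ '' boxSet π S e lo s) g ∩ (Y : Set G) := by
        rw [hg]; exact Or.inl ⟨i, hi, rfl⟩
      exact this.1
    · intro hi
      have : y i ∈ tl (φ '' boxSet π S e lo s) g ∩ (Y : Set G) := ⟨hi, hyY i⟩
      rw [hg] at this
      rcases this with ⟨j, hj, hij⟩ | h
      · rw [hyinj i j hij]; exact hj
      · exact absurd h (hyne i)
  have hq : g⁻¹ * y i = φ (m * n'⁻¹ * n i) := by
    rw [map_mul, map_mul, _root_.map_inv, hφm, hφn', hφn i]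
    group
  have hπq : π (m * n'⁻¹ * n i) = π m - π n' + π (n i) := by
    rw [hπ, hπ, VCBaux.map_inv hπ, sub_eq_add_neg]
  have hqS : π (m * n'⁻¹ * n i) - e ∈ S := by
    have h1 : π (m * n'⁻¹ * n i) - e = (π m - e) - (π n' - e) + (π (n i) - e) := by
      rw [hπq]; abel
    rw [h1]
    exact S.add_mem (S.sub_mem hm.1 hn'.1) (hn i).1
  rw [key, hq]
  constructor
  · rintro ⟨t, ht, hφt⟩
    have hk : π ((m * n'⁻¹ * n i)⁻¹ * t) = π t - π (m * n'⁻¹ * n i) := by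
      rw [hπ, VCBaux.map_inv hπ]; abel
    refine ⟨π ((m * n'⁻¹ * n i)⁻¹ * t), ⟨(m * n'⁻¹ * n i)⁻¹ * t, ?_, ?_, rfl⟩, ?_⟩
    · rw [map_mul, _root_.map_inv, hφt, inv_mul_cancel]
    · have h1 : π t - π (m * n'⁻¹ * n i) = (π t - e) - (π (m * n'⁻¹ * n i) - e) := by abel
      rw [hk, h1]
      exact S.sub_mem ht.1 hqS
    · intro b
      have h1 := ht.2 b
      rw [hk, hπq]
      simp only [Pi.sub_apply, Pi.add_apply]
      constructor <;> linarith [h1.1, h1.2]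
  · rintro ⟨_, ⟨k, hk, hkS, rfl⟩, hb⟩
    refine ⟨m * n'⁻¹ * n i * k, ⟨?_, ?_⟩, by rw [map_mul, hk, mul_one]⟩
    · have h1 : π (m * n'⁻¹ * n i * k) - e = (π (m * n'⁻¹ * n i) - e) + π k := by
        rw [hπ (m * n'⁻¹ * n i) k]; abel
      rw [h1]
      exact S.add_mem hqS hkS
    · intro b
      have h1 := hb b
      rw [hπ (m * n'⁻¹ * n i) k, hπq]
      simp only [Pi.sub_apply, Pi.add_apply]
      constructor <;> linarith [h1.1, h1.2]

end Pool.Agent.VCNil.AT
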