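import Pool.Agent.Lib.MP_19d06a_co.AT.Spec

/-!
# Module VEX (MP_19d06a_co): every pattern has a vertex for some set of directions (helper10)
-/

set_option autoImplicit false

namespace Pool.Agent.VCNil.AT

namespace VEXaux

lemma mem_erase {Λ : AddSubgroup V3} {s : V3} {S : Finset (Fin 3)} {x z : V3} {a : Fin 3}
    (h : Mem Λ s S x z) : Mem Λ s (S.erase a) x z := by
  obtain ⟨v, hv, hb⟩ := h
  exact ⟨v, hv, fun b hb' => hb b (Finset.mem_of_mem_erase hb')⟩

lemma main (hWALK : SpecWALK) (hLOOP : SpecLOOP) {d : ℕ} (Q : Sys d) (I : Set (Fin d))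
    (S : Finset (Fin 3)) : (∃ z, patt Q S z = I) →
      ∃ (S' : Finset (Fin 3)) (z : V3), Vtx (fun z => patt Q S' z = I) S' z := by
  induction S using Finset.strongInduction with
  | H S ih =>
    rintro ⟨z0, hz0⟩
    by_cases h : ∀ a ∈ S, ∀ z, patt Q S z = I → ∃ n : ℕ,
        ¬ (patt Q S (Function.update z a (z a - n)) = I)
    · obtain ⟨z, hz⟩ := hWALK (fun z => patt Q S z = I) S z0 hz0 h
      exact ⟨S, z, hz⟩
    · push Not at h
      obtain ⟨a, ha, z, hz, hn⟩ := h
      refine ih (S.erase a) (Finset.erase_ssubset ha) ⟨z, ?_⟩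
      ext i
      constructor
      · intro hi
        have hi' : Mem Q.Λ Q.s (S.erase a) (Q.x i) z := hi
        obtain ⟨n, hm⟩ := hLOOP Q.Λ Q.s S (Q.x i) z a Q.T (Q.hs a) Q.hT (Q.per a) ha hi'
        rw [← hn n]
        exact hm
      · intro hi
        rw [← hz] at hi
        have hi' : Mem Q.Λ Q.s S (Q.x i) z := hi
        exact mem_erase hi'

end VEXaux

theorem specVEX (hWALK : SpecWALK) (hLOOP : SpecLOOP) : SpecVEX := by
  intro d Q I hI
  exact VEXaux.main hWALK hLOOP Q I Finset.univ hI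

end Pool.Agent.VCNil.AT
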