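import Pool.Agent.Lib.MP_19d06a_co.AT.Spec

/-!
# WALK: existence of vertices
-/

set_option autoImplicit false

namespace Pool.Agent.VCNil.AT

namespace WALKaux

theorem pos_down (z : V3) (a : Fin 3) (n : ℕ) (E : Finset (Fin 3)) (ha : a ∉ E) :
    pos (Function.update z a (z a - n)) E =
      Function.update (pos z E) a ((pos z E) a - n) := by
  funext b
  by_cases hb : b = a
  · subst hb
    simp [pos, ha]
  · simp [pos, hb]

theorem pos_insert (z : V3) (a : Fin 3) (n : ℕ) (E : Finset (Fin 3)) (ha : a ∉ E) :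
    pos (Function.update z a (z a - n)) (insert a E) =
      pos (Function.update z a (z a - ((n + 1 : ℕ) : ℤ))) E := by
  funext b
  by_cases hb : b = a
  · subst hb
    simp only [pos, Finset.mem_insert_self, if_true, Function.update_self, if_neg ha]
    push_cast
    ring
  · simp [pos, hb]

theorem step (f : V3 → Prop) (S : Finset (Fin 3))
    (h : ∀ a ∈ S, ∀ z, f z → ∃ n : ℕ, ¬ f (Function.update z a (z a - n)))
    (a : Fin 3) (T : Finset (Fin 3)) (haT : a ∉ T) (haS : a ∈ S) (z : V3) (hz : Vtx f T z) :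
    ∃ z', Vtx f (insert a T) z' := by
  classical
  obtain ⟨⟨E0, hE0, hf0⟩, hvar⟩ := hz
  let B : ℕ → Prop := fun n => ∀ E, E ⊆ T →
    (f (pos (Function.update z a (z a - n)) E) ↔ f (pos z E))
  have hex : ∃ n, ¬ B n := by
    obtain ⟨n, hn⟩ := h a haS (pos z E0) hf0
    refine ⟨n, fun hB => hn ?_⟩
    have h1 := (hB E0 hE0).2 hf0
    rwa [pos_down z a n E0 (fun h' => haT (hE0 h'))] at h1
  have hB0 : B 0 := by
    intro E _
    have : Function.update z a (z a - ((0 : ℕ) : ℤ)) = z := by
      simp
    rw [this]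
  obtain ⟨m, hm, hm'⟩ : ∃ m, B m ∧ ¬ B (m + 1) := by
    by_contra hcon
    push Not at hcon
    obtain ⟨n, hn⟩ := hex
    apply hn
    clear hn
    induction n with
    | zero => exact hB0
    | succ n ih => exact hcon n ih
  refine ⟨Function.update z a (z a - m), ⟨E0, hE0.trans (Finset.subset_insert _ _),
    (hm E0 hE0).2 hf0⟩, ?_⟩
  intro c hc
  rw [Finset.mem_insert] at hc
  by_cases hca : c = a
  · subst hca
    have h2 : ∃ E, E ⊆ T ∧ ¬ (f (pos (Function.update z c (z c - ((m + 1 : ℕ) : ℤ))) E) ↔
        f (pos z E)) := by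
      by_contra h3
      push Not at h3
      exact hm' (fun E hE => h3 E hE)
    obtain ⟨E, hE, h3⟩ := h2
    have hcE : c ∉ E := fun h' => haT (hE h')
    refine ⟨E, hE.trans (Finset.subset_insert _ _), hcE, ?_⟩
    rw [pos_insert z c m E hcE, hm E hE]
    exact fun h4 => h3 h4.symm
  · have hcT : c ∈ T := hc.resolve_left hca
    obtain ⟨E, hE, hcE, h3⟩ := hvar c hcT
    refine ⟨E, hE.trans (Finset.subset_insert _ _), hcE, ?_⟩
    rw [hm E hE, hm (insert c E) (Finset.insert_subset hcT hE)]
    exact h3

end WALKaux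

theorem specWALK : SpecWALK := by
  intro f S z0 hz0 h
  have key : ∀ T : Finset (Fin 3), T ⊆ S → ∃ z, Vtx f T z := by
    intro T
    induction T using Finset.induction_on with
    | empty =>
      intro _
      refine ⟨z0, ⟨∅, Finset.empty_subset _, ?_⟩, ?_⟩
      · have : pos z0 ∅ = z0 := by
          funext b
          simp [pos]
        rw [this]
        exact hz0
      · intro a ha
        simp at ha
    | insert a T haT ih =>
      intro hT
      obtain ⟨z, hz⟩ := ih ((Finset.subset_insert _ _).trans hT)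
      exact WALKaux.step f S h a T haT (hT (Finset.mem_insert_self _ _)) z hz
  exact key S (Finset.Subset.refl _)

end Pool.Agent.VCNil.AT
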